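import Pool.Agent.Helper53.PT.GoalsB

set_option autoImplicit false

open Pool.Agent.Helper53.PT

namespace Pool.Agent.Helper56.PT

theorem gTAU : GTAU := by
  intro n S J s N j cap m0 m1 Q τ hJS hJ hj hN hs hcap hm0 hm0S hm1 hQ hτ hT
  set A := ∑ i ∈ J, s i with hA
  have hsJ : ∀ i ∈ J, 0 ≤ s i := fun i hi => hs i (hJS hi)
  have hA0 : 0 ≤ A := Finset.sum_nonneg hsJ
  have hj0 : (1 : ℝ) ≤ j := by exact_mod_cast hj
  have hAS : A ≤ ∑ i ∈ S, s i :=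
    Finset.sum_le_sum_of_subset_of_nonneg hJS fun i hi _ => hs i hi
  have hQJ : ∑ i ∈ J, s i ^ 2 ≤ ∑ i ∈ S, s i ^ 2 :=
    Finset.sum_le_sum_of_subset_of_nonneg hJS fun i _ _ => sq_nonneg _
  have hCS : A ^ 2 ≤ j * ∑ i ∈ J, s i ^ 2 := by
    have := sq_sum_le_card_mul_sum_sq (s := J) (f := s)
    rwa [hJ] at this
  have hCSQ : A ^ 2 ≤ j * Q := hCS.trans (mul_le_mul_of_nonneg_left (hQJ.trans hQ) (by linarith))
  rcases hT with h | h | h | ⟨h1, h2, h3, h4⟩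
  · have h5 : A ≤ ∑ _i ∈ J, cap := Finset.sum_le_sum fun i hi => hcap i (hJS hi)
    rw [Finset.sum_const, hJ, nsmul_eq_mul] at h5
    exact h5.trans (mul_le_mul_of_nonneg_left h (by linarith))
  · linarith
  · have h5 : A ^ 2 ≤ (j * τ) ^ 2 := by
      calc A ^ 2 ≤ j * Q := hCSQ
        _ ≤ j * (j * τ ^ 2) := mul_le_mul_of_nonneg_left h (by linarith)
        _ = (j * τ) ^ 2 := by ring
    exact le_of_sq_le_sq h5 (by positivity)
  · have hNS : S.card = N := by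
      rcases hN with h | h
      · omega
      · exact h
    have hjN : (j : ℝ) < N := by exact_mod_cast h1
    by_contra hcon
    push Not at hcon
    have hAm0 : A ≤ m0 := le_of_sq_le_sq (hCSQ.trans h2) hm0
    have hsd : ∑ i ∈ S \ J, s i + A = ∑ i ∈ S, s i := Finset.sum_sdiff hJS
    have hsd2 : ∑ i ∈ S \ J, s i ^ 2 + ∑ i ∈ J, s i ^ 2 = ∑ i ∈ S, s i ^ 2 :=
      Finset.sum_sdiff hJS
    have hcard : ((S \ J).card : ℝ) = (N : ℝ) - j := by
      rw [Finset.card_sdiff_of_subset hJS, hNS, hJ, Nat.cast_sub h1.le]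
    have hCS2 : (∑ i ∈ S \ J, s i) ^ 2 ≤ ((N : ℝ) - j) * ∑ i ∈ S \ J, s i ^ 2 := by
      have := sq_sum_le_card_mul_sum_sq (s := S \ J) (f := s)
      rwa [hcard] at this
    have h5 : (m0 - A) ^ 2 ≤ (∑ i ∈ S \ J, s i) ^ 2 :=
      pow_le_pow_left₀ (by linarith) (by linarith) 2
    -- the main inequality
    have h6 : ((N : ℝ) - j) * A ^ 2 + j * (m0 - A) ^ 2 ≤ j * ((N : ℝ) - j) * Q := by
      have e1 : ((N : ℝ) - j) * A ^ 2 ≤ ((N : ℝ) - j) * (j * ∑ i ∈ J, s i ^ 2) :=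
        mul_le_mul_of_nonneg_left hCS (by linarith)
      have e2 : (j : ℝ) * (m0 - A) ^ 2 ≤ j * (((N : ℝ) - j) * ∑ i ∈ S \ J, s i ^ 2) :=
        mul_le_mul_of_nonneg_left (h5.trans hCS2) (by linarith)
      have e3 : (j * ((N : ℝ) - j)) * ∑ i ∈ S, s i ^ 2 ≤ (j * ((N : ℝ) - j)) * Q :=
        mul_le_mul_of_nonneg_left hQ (mul_nonneg (by linarith) (by linarith))
      rw [← hsd2] at e3
      nlinarith
    have h7 : ((N : ℝ) * A - j * m0) ^ 2 ≤ j * (((N : ℝ) - j) * (N * Q - m0 ^ 2)) := by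
      have := mul_le_mul_of_nonneg_left h6 (by linarith : (0 : ℝ) ≤ N)
      nlinarith
    have h8 : ((N : ℝ) * A - j * m0) ^ 2 ≤ (j * (N * τ - m0)) ^ 2 := by
      calc ((N : ℝ) * A - j * m0) ^ 2 ≤ j * (((N : ℝ) - j) * (N * Q - m0 ^ 2)) := h7
        _ ≤ j * (j * (N * τ - m0) ^ 2) := mul_le_mul_of_nonneg_left h4 (by linarith)
        _ = _ := by ring
    have h9 : (N : ℝ) * A - j * m0 ≤ j * (N * τ - m0) :=
      le_of_sq_le_sq h8 (mul_nonneg (by linarith) (by linarith))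
    have h10 : (N : ℝ) * (j * τ) < N * A := mul_lt_mul_of_pos_left hcon (by linarith)
    nlinarith

end Pool.Agent.Helper56.PT
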