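import Pool.Agent.Helper53.PT.GoalsC

/-!
# MP_705522_gt, `q ∈ (2,4)`: interpolation between the grid points
-/

namespace Pool.Agent.Helper56.PT

open Pool.Agent.Helper53.PT

lemma mx_eq (a b : ℕ) : N.mx a b = max a b := by
  unfold N.mx
  cases h : Nat.ble a b with
  | true =>
    have h' := Nat.le_of_ble_eq_true h
    rw [max_eq_right h']; rfl
  | false =>
    have h' : ¬ a ≤ b := fun hh => by
      rw [Nat.ble_eq_true_of_le hh] at h; exact Bool.noConfusion h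
    rw [max_eq_left (by omega)]; rfl

lemma mk_PU (B : N.Base) (I : N.Ix) : (N.mkTab B I).PU = N.tPU B := by simp only [N.mkTab]
lemma mk_PL (B : N.Base) (I : N.Ix) : (N.mkTab B I).PL = N.tPL B := by simp only [N.mkTab]
lemma mk_SU (B : N.Base) (I : N.Ix) : (N.mkTab B I).SU = N.tSU B := by simp only [N.mkTab]
lemma mk_ST (B : N.Base) (I : N.Ix) : (N.mkTab B I).ST = N.tST B := by simp only [N.mkTab]
lemma mk_P1 (B : N.Base) (I : N.Ix) : (N.mkTab B I).P1 = N.tP1 B I.kD := by simp only [N.mkTab]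
lemma mk_B (B : N.Base) (I : N.Ix) : (N.mkTab B I).B = B := by simp only [N.mkTab]
lemma mk_I (B : N.Base) (I : N.Ix) : (N.mkTab B I).I = I := by simp only [N.mkTab]

/-- the rounded chord -/
def chN (a b d s : ℕ) : ℕ :=
  Nat.shiftRight (Nat.add (Nat.mul a (Nat.sub (Nat.shiftLeft 1 s) d)) (Nat.mul b d)) s

lemma chN_eq (a b d s : ℕ) : chN a b d s = (a * (2 ^ s - d) + b * d) / 2 ^ s := by
  unfold chN
  show (a * (1 <<< s - d) + b * d) >>> s = _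
  rw [Nat.shiftRight_eq_div_pow, Nat.shiftLeft_eq, one_mul]

lemma chN_bd (a b d s : ℕ) (hd : d < 2 ^ s) :
    (chN a b d s : ℝ) ≤ (1 - (d : ℝ) / 2 ^ s) * a + (d : ℝ) / 2 ^ s * b ∧
      (1 - (d : ℝ) / 2 ^ s) * a + (d : ℝ) / 2 ^ s * b ≤ (chN a b d s : ℝ) + 1 := by
  rw [chN_eq]
  have hM : (0 : ℝ) < 2 ^ s := by positivity
  have hMn : 0 < 2 ^ s := by positivity
  have h1 : (a * (2 ^ s - d) + b * d) / 2 ^ s * 2 ^ s ≤ a * (2 ^ s - d) + b * d :=
    Nat.div_mul_le_self _ _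
  have h2 : a * (2 ^ s - d) + b * d < ((a * (2 ^ s - d) + b * d) / 2 ^ s + 1) * 2 ^ s := by
    have h := Nat.lt_mul_div_succ (a * (2 ^ s - d) + b * d) hMn
    rw [mul_comm (2 ^ s) (_ + 1)] at h
    exact h
  have e : ((a * (2 ^ s - d) + b * d : ℕ) : ℝ) = a * (2 ^ s - d) + b * d := by
    push_cast [Nat.cast_sub hd.le]
    ring
  have h1' : (((a * (2 ^ s - d) + b * d) / 2 ^ s : ℕ) : ℝ) * 2 ^ s ≤ a * (2 ^ s - d) + b * d := by
    rw [← e]; exact_mod_cast h1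
  have h2' : (a : ℝ) * (2 ^ s - d) + b * d <
      ((((a * (2 ^ s - d) + b * d) / 2 ^ s : ℕ) : ℝ) + 1) * 2 ^ s := by
    rw [← e]; exact_mod_cast h2
  have e2 : (1 - (d : ℝ) / 2 ^ s) * a + (d : ℝ) / 2 ^ s * b =
      (a * (2 ^ s - d) + b * d) / 2 ^ s := by
    field_simp
  rw [e2]
  constructor
  · rw [le_div_iff₀ hM]; exact h1'
  · rw [div_le_iff₀ hM]; exact h2'.le

lemma up0_on (D : N.Tab) (x k d s : ℕ)
    (hc : ∀ (α : Type) (f : ℕ → ℕ → ℕ → α), N.onCell x f = f k d s) :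
    N.up0 D x = chN (N.fld D.PU k) (N.fld D.PU (k + 1)) d s + 1 + N.cpF (N.fld D.ST k) s := by
  unfold N.up0
  rw [hc]
  rfl

lemma lo0_on (D : N.Tab) (x k d s : ℕ)
    (hc : ∀ (α : Type) (f : ℕ → ℕ → ℕ → α), N.onCell x f = f k d s) :
    N.lo0 D x = chN (N.fld D.PL k) (N.fld D.PL (k + 1)) d s - N.cpF (N.fld D.ST k) s := by
  unfold N.lo0
  rw [hc]
  rfl

lemma pp_eq (v : ℕ) : N.pp v = v - 2 ^ 40 := by
  unfold N.pp
  show v - 1099511627776 = _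
  norm_num

lemma p1_on (D : N.Tab) (x k d s : ℕ)
    (hc : ∀ (α : Type) (f : ℕ → ℕ → ℕ → α), N.onCell x f = f k d s)
    (hb : Nat.ble D.I.kD k = false) :
    N.p1 D x = max (N.fld D.P1 (k + 1)) (N.csF D.B.m3R (N.fld D.ST k) s + max (N.fld D.SU (k + 1))
        (chN (N.fld D.SU k) (N.fld D.SU (k + 1)) d s + 1) - 2 ^ 40) := by
  unfold N.p1
  rw [hc, hb, cond_false, mx_eq, mx_eq, pp_eq]
  rfl

lemma xR_succ (hG : GGRID) {k : ℕ} (hk : k < 1152) : xR (k + 1) = xR k + 2 ^ N.shf k / 2 ^ 26 := by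
  unfold xR aR
  rw [(hG.2.2.1 k hk).1]
  push_cast
  ring

lemma xR_lt (hG : GGRID) {k : ℕ} (hk : k < 1152) : xR k < xR (k + 1) := by
  rw [xR_succ hG hk]
  have : (0 : ℝ) < 2 ^ N.shf k / 2 ^ 26 := by positivity
  linarith

lemma aR_cell (hG : GGRID) {k d : ℕ} (hk : k < 1152) :
    aR (N.xgN k + d) = (1 - (d : ℝ) / 2 ^ N.shf k) * xR k + (d : ℝ) / 2 ^ N.shf k * xR (k + 1) := by
  rw [xR_succ hG hk]
  have hM : (0 : ℝ) < 2 ^ N.shf k := by positivity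
  have e : (d : ℝ) / 2 ^ N.shf k * (2 ^ N.shf k / 2 ^ 26) = (d : ℝ) / 2 ^ 26 := by
    field_simp
  have e2 : (1 - (d : ℝ) / 2 ^ N.shf k) * xR k + (d : ℝ) / 2 ^ N.shf k * (xR k + 2 ^ N.shf k / 2 ^ 26) =
      xR k + (d : ℝ) / 2 ^ N.shf k * (2 ^ N.shf k / 2 ^ 26) := by ring
  rw [e2, e]
  unfold xR aR
  push_cast
  ring

lemma vR_nonneg (v : ℕ) : 0 ≤ vR v := by unfold vR; positivity

lemma vR_add (a b : ℕ) : vR (a + b) = vR a + vR b := by
  unfold vR; push_cast; ring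

lemma vR_mono {a b : ℕ} (h : a ≤ b) : vR a ≤ vR b := by
  unfold vR
  have : (a : ℝ) ≤ b := by exact_mod_cast h
  gcongr

lemma vR_chN (a b d s : ℕ) (hd : d < 2 ^ s) :
    vR (chN a b d s) ≤ (1 - (d : ℝ) / 2 ^ s) * vR a + (d : ℝ) / 2 ^ s * vR b ∧
      (1 - (d : ℝ) / 2 ^ s) * vR a + (d : ℝ) / 2 ^ s * vR b ≤ vR (chN a b d s + 1) := by
  obtain ⟨h1, h2⟩ := chN_bd a b d s hd
  have e : (1 - (d : ℝ) / 2 ^ s) * vR a + (d : ℝ) / 2 ^ s * vR b =
      ((1 - (d : ℝ) / 2 ^ s) * a + (d : ℝ) / 2 ^ s * b) / 2 ^ 40 := by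
    unfold vR; ring
  rw [e]
  unfold vR
  constructor
  · gcongr
  · push_cast
    gcongr

lemma vR_sub (a b : ℕ) : vR a - vR b ≤ vR (a - b) := by
  have h : a ≤ (a - b) + b := by omega
  have := vR_mono h
  rw [vR_add] at this
  linarith

lemma frac_mem (d s : ℕ) (hd : d < 2 ^ s) : 0 ≤ (d : ℝ) / 2 ^ s ∧ (d : ℝ) / 2 ^ s ≤ 1 := by
  refine ⟨by positivity, ?_⟩
  rw [div_le_one (by positivity)]
  exact_mod_cast hd.le

theorem up0_bd (hG : GGRID) {A : ℕ} {B : N.Base} {I : N.Ix} {θ z : ℝ} (h : TH A B I θ z) (x : ℕ)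
    (hx : x < 2 ^ 32) : f0 θ (aR x) ≤ vR (N.up0 (N.mkTab B I) x) - 1 := by
  obtain ⟨k, d, hk, hd, hxe, -, hc⟩ := hG.2.2.2.2.1 x hx
  have e : N.up0 (N.mkTab B I) x = chN (N.fld (N.tPU B) k) (N.fld (N.tPU B) (k + 1)) d (N.shf k) + 1 +
      N.cpF (N.fld (N.tST B) k) (N.shf k) := by
    rw [up0_on _ _ _ _ _ hc, mk_PU, mk_ST]
  rw [e, vR_add]
  obtain ⟨hl0, hl1⟩ := frac_mem d _ hd
  have h1 := (abs_le.1 (h.ch.c0 k hk _ hl0 hl1)).2
  rw [← aR_cell hG hk, ← hxe] at h1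
  have h2 := h.tb.pu k (by omega)
  have h3 := h.tb.pu (k + 1) (by omega)
  have h4 := (vR_chN (N.fld (N.tPU B) k) (N.fld (N.tPU B) (k + 1)) d _ hd).2
  have h5 := mul_le_mul_of_nonneg_left h2 (sub_nonneg.2 hl1)
  have h6 := mul_le_mul_of_nonneg_left h3 hl0
  linarith

theorem lo0_bd (hG : GGRID) {A : ℕ} {B : N.Base} {I : N.Ix} {θ z : ℝ} (h : TH A B I θ z) (x : ℕ)
    (hx : x < 2 ^ 32) : vR (N.lo0 (N.mkTab B I) x) - 1 ≤ f0 θ (aR x) := by
  obtain ⟨k, d, hk, hd, hxe, -, hc⟩ := hG.2.2.2.2.1 x hx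
  have e : N.lo0 (N.mkTab B I) x = chN (N.fld (N.tPL B) k) (N.fld (N.tPL B) (k + 1)) d (N.shf k) -
      N.cpF (N.fld (N.tST B) k) (N.shf k) := by
    rw [lo0_on _ _ _ _ _ hc, mk_PL, mk_ST]
  rw [e]
  have hn : -1 ≤ f0 θ (aR x) :=
    (abs_le.1 (aBD (by linarith [h.bf.th0]) h.bf.th1 (show 0 ≤ aR x by unfold aR; positivity)).1).1
  rcases Nat.le_total (chN (N.fld (N.tPL B) k) (N.fld (N.tPL B) (k + 1)) d (N.shf k))
    (N.cpF (N.fld (N.tST B) k) (N.shf k)) with hle | hle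
  · rw [Nat.sub_eq_zero_of_le hle]
    have : vR 0 = 0 := by unfold vR; simp
    linarith
  · obtain ⟨hl0, hl1⟩ := frac_mem d _ hd
    have h1 := (abs_le.1 (h.ch.c0 k hk _ hl0 hl1)).1
    rw [← aR_cell hG hk, ← hxe] at h1
    have h2 := h.tb.pl k (by omega)
    have h3 := h.tb.pl (k + 1) (by omega)
    have h4 := (vR_chN (N.fld (N.tPL B) k) (N.fld (N.tPL B) (k + 1)) d _ hd).1
    have h5 := mul_le_mul_of_nonneg_left h2 (sub_nonneg.2 hl1)
    have h6 := mul_le_mul_of_nonneg_left h3 hl0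
    have h7 : vR (chN (N.fld (N.tPL B) k) (N.fld (N.tPL B) (k + 1)) d (N.shf k) -
        N.cpF (N.fld (N.tST B) k) (N.shf k)) + vR (N.cpF (N.fld (N.tST B) k) (N.shf k)) =
        vR (chN (N.fld (N.tPL B) k) (N.fld (N.tPL B) (k + 1)) d (N.shf k)) := by
      rw [← vR_add, Nat.sub_add_cancel hle]
    linarith

lemma xg_mono (hG : GGRID) {j k : ℕ} (h : j ≤ k) (hk : k ≤ 1152) : N.xgN j ≤ N.xgN k := by
  rcases Nat.lt_or_ge j k with h' | h'
  · exact (hG.2.2.2.1 j k h' hk).le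
  · rw [le_antisymm h h']

lemma xR_mono (hG : GGRID) {j k : ℕ} (h : j ≤ k) (hk : k ≤ 1152) : xR j ≤ xR k := by
  unfold xR aR
  have : (N.xgN j : ℝ) ≤ N.xgN k := by exact_mod_cast xg_mono hG h hk
  gcongr

theorem p1_bd (hG : GGRID) {A : ℕ} {B : N.Base} {I : N.Ix} {θ z : ℝ} (h : TH A B I θ z) (x : ℕ)
    (y : ℝ) (hx : x < N.xgN I.kD) (hxy : aR x ≤ y) (hy : y ≤ xR I.kD) :
    f1 θ y ≤ vR (N.p1 (N.mkTab B I) x) := by
  have hD : I.kD ≤ 1152 := h.ix.DN.trans h.ix.N1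
  have hx32 : x < 2 ^ 32 := lt_of_lt_of_le hx (by rw [← hG.2.1]; exact xg_mono hG hD le_rfl)
  obtain ⟨k, d, hk, hd, hxe, -, hc⟩ := hG.2.2.2.2.1 x hx32
  have hkD : k < I.kD := by
    by_contra hh
    have := xg_mono hG (not_lt.1 hh) hk.le
    omega
  have hb : Nat.ble I.kD k = false := by
    cases hb : Nat.ble I.kD k with
    | true => exact absurd (Nat.le_of_ble_eq_true hb) (by omega)
    | false => rfl
  have e : N.p1 (N.mkTab B I) x = max (N.fld (N.tP1 B I.kD) (k + 1))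
      (N.csF B.m3R (N.fld (N.tST B) k) (N.shf k) + max (N.fld (N.tSU B) (k + 1))
        (chN (N.fld (N.tSU B) k) (N.fld (N.tSU B) (k + 1)) d (N.shf k) + 1) - 2 ^ 40) := by
    rw [p1_on _ _ _ _ _ hc (by rw [mk_I]; exact hb), mk_P1, mk_B, mk_ST, mk_SU]
  rw [e]
  rcases le_or_gt y (xR (k + 1)) with hyk | hyk
  · -- in the cell
    refine le_trans ?_ (vR_mono (le_max_right _ _))
    have hlt := xR_lt hG hk
    obtain ⟨hl0, hl1⟩ := frac_mem d _ hd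
    set l := (d : ℝ) / 2 ^ N.shf k with hl
    have hxa : aR x = (1 - l) * xR k + l * xR (k + 1) := by rw [hxe]; exact aR_cell hG hk
    -- the parameter of y
    set m := (y - xR k) / (xR (k + 1) - xR k) with hm
    have hpos : 0 < xR (k + 1) - xR k := by linarith
    have hmy : (1 - m) * xR k + m * xR (k + 1) = y := by
      have : m * (xR (k + 1) - xR k) = y - xR k := by rw [hm]; field_simp
      linarith
    have hlm : l ≤ m := by
      have h1 : l * (xR (k + 1) - xR k) ≤ m * (xR (k + 1) - xR k) := by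
        have e1 : m * (xR (k + 1) - xR k) = y - xR k := by rw [hm]; field_simp
        rw [e1]; linarith
      exact le_of_mul_le_mul_right h1 hpos
    have hm1 : m ≤ 1 := by rw [hm, div_le_one hpos]; linarith
    have hm0 : 0 ≤ m := hl0.trans hlm
    have h1 := (abs_le.1 (h.ch.c1 k hk m hm0 hm1)).2
    rw [hmy] at h1
    have h2 := h.tb.su k (by omega)
    have h3 := h.tb.su (k + 1) (by omega)
    have h4 := (vR_chN (N.fld (N.tSU B) k) (N.fld (N.tSU B) (k + 1)) d _ hd).2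
    rw [← hl] at h4
    have h5 := mul_le_mul_of_nonneg_left h2 (sub_nonneg.2 hm1)
    have h6 := mul_le_mul_of_nonneg_left h3 hm0
    set M := max (N.fld (N.tSU B) (k + 1))
      (chN (N.fld (N.tSU B) k) (N.fld (N.tSU B) (k + 1)) d (N.shf k) + 1) with hM
    have h7 : vR (N.fld (N.tSU B) (k + 1)) ≤ vR M := vR_mono (le_max_left _ _)
    have h8 : (1 - l) * vR (N.fld (N.tSU B) k) + l * vR (N.fld (N.tSU B) (k + 1)) ≤ vR M :=
      h4.trans (vR_mono (le_max_right _ _))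
    have h9 : (1 - m) * vR (N.fld (N.tSU B) k) + m * vR (N.fld (N.tSU B) (k + 1)) ≤ vR M := by
      rcases le_or_gt (vR (N.fld (N.tSU B) k)) (vR (N.fld (N.tSU B) (k + 1))) with hle | hlt'
      · nlinarith
      · nlinarith
    have h10 := vR_sub (N.csF B.m3R (N.fld (N.tST B) k) (N.shf k) + M) (2 ^ 40)
    rw [vR_add] at h10
    have h11 : vR (2 ^ 40) = 1 := by unfold vR; norm_num
    linarith
  · refine le_trans ?_ (vR_mono (le_max_left _ _))
    have hk1 : k + 1 < I.kD := by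
      by_contra hh
      have := xR_mono hG (not_lt.1 hh) (by omega)
      linarith
    exact h.uf.p1 (k + 1) hk1 y hyk.le hy

theorem gINT : GINT := fun _ _ hG _ _ _ _ _ h =>
  ⟨fun x hx => up0_bd hG h x hx, fun x hx => lo0_bd hG h x hx,
    fun x y hx hxy hy => p1_bd hG h x y hx hxy hy⟩

end Pool.Agent.Helper56.PT
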