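import Pool.Agent.Helper56.PT.Clo

set_option autoImplicit false

namespace Pool.Agent.Helper56.PT

open Dat

/-! ### probabilities -/

theorem Pr_mono {m : ℕ} {P Q : List Bool → Prop}
    (h : ∀ r : List Bool, r.length = m → P r → Q r) : Pr m P ≤ Pr m Q := by
  rw [Pr, Pr]
  refine div_le_div_of_nonneg_right ?_ (by positivity)
  have : Nat.card {r : Fin m → Bool // P (List.ofFn r)} ≤
      Nat.card {r : Fin m → Bool // Q (List.ofFn r)} :=
    Nat.card_le_card_of_injective (fun r => ⟨r.1, h _ (by simp) r.2⟩) (fun a b hab => by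
      simp only [Subtype.mk.injEq] at hab
      exact Subtype.ext hab)
  exact_mod_cast this

theorem Pr_exists {m : ℕ} {P : List Bool → Prop} (h : 0 < Pr m P) :
    ∃ r : List Bool, r.length = m ∧ P r := by
  by_contra hn
  push Not at hn
  have := Pr_false m hn
  linarith

theorem Pr_mem_le (m : ℕ) (C : Finset (List Bool)) (f : List Bool → List Bool)
    (hf : Function.Injective f) : Pr m (fun r => f r ∈ C) ≤ (C.card : ℝ) / 2 ^ m := by
  rw [Pr]
  refine div_le_div_of_nonneg_right ?_ (by positivity)
  have : Nat.card {r : Fin m → Bool // f (List.ofFn r) ∈ C} ≤ Nat.card C :=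
    Nat.card_le_card_of_injective (fun r => (⟨f (List.ofFn r.1), r.2⟩ : C)) (fun a b hab => by
      simp only [Subtype.mk.injEq] at hab
      exact Subtype.ext (List.ofFn_injective (hf hab)))
  rw [Nat.card_eq_fintype_card, Nat.card_eq_fintype_card, Fintype.card_coe] at this
  rw [Nat.card_eq_fintype_card]
  exact_mod_cast this

theorem st_injective (κ y : List Bool) : Function.Injective (st κ y) := fun a b h =>
  (st_inj h).2.2

/-- a small set covers less than a quarter of a block -/
theorem Pr_small {n m : ℕ} {C : Finset (List Bool)} (hC : 4 * C.card < 2 ^ (n / 2))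
    (hm : n / 2 ≤ m) (κ y : List Bool) : Pr m (fun r => st κ y r ∈ C) < 1 / 4 := by
  refine lt_of_le_of_lt (Pr_mem_le m C _ (st_injective κ y)) ?_
  rw [div_lt_div_iff₀ (by positivity) (by norm_num), one_mul]
  have h1 : 4 * C.card < 2 ^ m := lt_of_lt_of_le hC (Nat.pow_le_pow_right (by norm_num) hm)
  have h2 : ((4 * C.card : ℕ) : ℝ) < ((2 ^ m : ℕ) : ℝ) := by exact_mod_cast h1
  push_cast at h2
  linarith

/-! ### admissible families -/

/-- block `b` dense, the other block empty -/
def DE (δ : List Bool → Option Bool) (m : ℕ) (x : List Bool) (b : Bool) : Prop :=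
  1 / 2 < Pr ((x.length + 2) ^ 3) (fun r => δ (st (kT m b) x r) = some true) ∧
    ∀ r : List Bool, r.length = (x.length + 2) ^ 3 → δ (st (kT m (!b)) x r) ≠ some true

/-- both blocks empty -/
def BE (δ : List Bool → Option Bool) (m : ℕ) (x : List Bool) : Prop :=
  ∀ (b : Bool) (r : List Bool), r.length = (x.length + 2) ^ 3 → δ (st (kT m b) x r) ≠ some true

/-- admissible families -/
structure Adm (δ : List Bool → Option Bool) : Prop where
  hN : ∀ y : List Bool, Pr ((y.length + 2) ^ 3) (fun r => δ (st kN y r) = some false) < 1 / 2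
  hP : ∀ y : List Bool, Pr ((y.length + 2) ^ 3) (fun r => δ (st kP y r) ≠ none) < 1 / 4
  hT : ∀ (m : ℕ) (x : List Bool), DE δ m x false ∨ DE δ m x true ∨ BE δ m x

open Classical in
/-- the default -/
noncomputable def dflt (w : List Bool) : Option Bool :=
  if ∃ (m : ℕ) (x r : List Bool), w = st (kT m false) x r then some true else none

theorem dflt_N (y r : List Bool) : dflt (st kN y r) = none := by
  rw [dflt, if_neg]
  rintro ⟨m, x, r', h⟩
  exact kN_ne_kT m false (st_inj h).1

theorem dflt_P (y r : List Bool) : dflt (st kP y r) = none := by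
  rw [dflt, if_neg]
  rintro ⟨m, x, r', h⟩
  exact kP_ne_kT m false (st_inj h).1

theorem dflt_T0 (m : ℕ) (x r : List Bool) : dflt (st (kT m false) x r) = some true := by
  rw [dflt, if_pos ⟨m, x, r, rfl⟩]

theorem dflt_T1 (m : ℕ) (x r : List Bool) : dflt (st (kT m true) x r) = none := by
  rw [dflt, if_neg]
  rintro ⟨m', x', r', h⟩
  have := (kT_inj (st_inj h).1).2
  simp at this

/-- the length of the strings of a block -/
def bl (κ y : List Bool) : ℕ := 2 * κ.length + 2 * y.length + (y.length + 2) ^ 3 + 2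

theorem length_st' {κ y r : List Bool} (h : r.length = (y.length + 2) ^ 3) :
    (st κ y r).length = bl κ y := by
  rw [length_st, h, bl]

theorem DE_congr {δ δ' : List Bool → Option Bool} {m : ℕ} {x : List Bool} {b : Bool}
    (h : ∀ (b : Bool) (r : List Bool), r.length = (x.length + 2) ^ 3 →
      δ (st (kT m b) x r) = δ' (st (kT m b) x r)) (hD : DE δ m x b) : DE δ' m x b := by
  refine ⟨?_, fun r hr => ?_⟩
  · rw [← Pr_congr (P := fun r => δ (st (kT m b) x r) = some true)]
    · exact hD.1
    · intro r hr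
      rw [h b r hr]
  · rw [← h _ r hr]
    exact hD.2 r hr

theorem BE_congr {δ δ' : List Bool → Option Bool} {m : ℕ} {x : List Bool}
    (h : ∀ (b : Bool) (r : List Bool), r.length = (x.length + 2) ^ 3 →
      δ (st (kT m b) x r) = δ' (st (kT m b) x r)) (hD : BE δ m x) : BE δ' m x := by
  intro b r hr
  rw [← h _ r hr]
  exact hD b r hr

theorem length_kT (m : ℕ) (b : Bool) : (kT m b).length = m + 2 := by
  simp [kT]

theorem DE_default {δ : List Bool → Option Bool} {m : ℕ} {x : List Bool}
    (h : ∀ (b : Bool) (r : List Bool), r.length = (x.length + 2) ^ 3 →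
      δ (st (kT m b) x r) = dflt (st (kT m b) x r)) : DE δ m x false := by
  refine ⟨?_, fun r hr => ?_⟩
  · rw [Pr_true _ (fun r hr => by rw [h _ r hr, dflt_T0])]
    norm_num
  · rw [h _ r hr, Bool.not_false, dflt_T1]
    simp

theorem DE.not_BE {δ : List Bool → Option Bool} {m : ℕ} {x : List Bool} {b : Bool}
    (h : DE δ m x b) : ¬ BE δ m x := by
  intro hB
  obtain ⟨r, hr, h1⟩ := Pr_exists (lt_trans (by norm_num) h.1)
  exact hB b r hr h1

theorem adm_dflt : Adm dflt where
  hN y := by
    rw [Pr_false _ (fun r _ h => by rw [dflt_N] at h; simp at h)]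
    norm_num
  hP y := by
    rw [Pr_false _ (fun r _ h => h (dflt_P y r))]
    norm_num
  hT m x := Or.inl (DE_default (fun b r _ => rfl))

/-- the family is the default from length `L` on, and admissible -/
structure State (δ : List Bool → Option Bool) (L : ℕ) : Prop where
  dfl : ∀ w : List Bool, L ≤ w.length → δ w = dflt w
  adm : Adm δ

theorem State.mono {δ : List Bool → Option Bool} {L L' : ℕ} (h : State δ L) (hL : L ≤ L') :
    State δ L' := ⟨fun w hw => h.dfl w (hL.trans hw), h.adm⟩

theorem mem_isT {m : ℕ} {x r : List Bool} {b : Bool} (hr : r.length = (x.length + 2) ^ 3) :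
    isT m x (st (kT m b) x r) := ⟨b, r, rfl, hr⟩

theorem not_isT {m m' : ℕ} {x x' r : List Bool} {b : Bool} (h : ¬ (m' = m ∧ x' = x)) :
    ¬ isT m x (st (kT m' b) x' r) := by
  rintro ⟨b', r', hw, _⟩
  obtain ⟨h1, h2, _⟩ := st_inj hw
  exact h ⟨(kT_inj h1).1, h2⟩

theorem not_kind {m : ℕ} {x r : List Bool} {b : Bool} : ¬ ∃ y' r' : List Bool,
    st (kT m b) x r = st kN y' r' ∨ st (kT m b) x r = st kP y' r' := by
  rintro ⟨y', r', h | h⟩
  · exact kN_ne_kT m b (st_inj h).1.symm
  · exact kP_ne_kT m b (st_inj h).1.symm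

theorem half_le_cube {n : ℕ} {y : List Bool} (h : n ≤ bl kN y) : n / 2 ≤ (y.length + 2) ^ 3 := by
  have h1 : bl kN y = 6 + 2 * y.length + (y.length + 2) ^ 3 := by
    simp only [bl, kN, List.length_cons, List.length_nil]; ring
  have h2 : 6 + 2 * y.length ≤ (y.length + 2) ^ 3 := by
    generalize y.length = a
    nlinarith [Nat.zero_le a, Nat.zero_le (a ^ 2), Nat.zero_le (a ^ 3)]
  omega

/-- emptying a pair of blocks preserves the state -/
theorem State.emp {δ : List Bool → Option Bool} {m : ℕ} {x : List Bool} (hS : State δ x.length)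
    {N : ℕ} (hN : 2 * m + 4 + 2 * x.length + (x.length + 2) ^ 3 + 2 < N) :
    State (emp δ m x) N ∧ BE (PT.emp δ m x) m x ∧ ∀ (m' : ℕ) (x' : List Bool),
      ¬ (m' = m ∧ x' = x) → BE (PT.emp δ m x) m' x' → BE δ m' x' := by
  have hBE : BE (PT.emp δ m x) m x := fun b r hr => by
    rw [PT.emp, if_pos (mem_isT hr)]
    simp
  have hoth : ∀ (m' : ℕ) (x' : List Bool), ¬ (m' = m ∧ x' = x) → ∀ (b : Bool) (r : List Bool),
      PT.emp δ m x (st (kT m' b) x' r) = δ (st (kT m' b) x' r) := fun m' x' hne b r => by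
    rw [PT.emp, if_neg (not_isT hne)]
  refine ⟨⟨fun w hw => ?_, ⟨fun y => ?_, fun y => ?_, fun m' x' => ?_⟩⟩, hBE,
    fun m' x' hne => BE_congr (fun b r _ => hoth m' x' hne b r)⟩
  · have h1 : ¬ isT m x w := fun h => by
      have := h.length
      omega
    rw [PT.emp, if_neg h1]
    refine hS.dfl w ?_
    omega
  · have := hS.adm.hN y
    rw [Pr_congr (Q := fun r => δ (st kN y r) = some false)]
    · exact this
    · intro r _
      rw [PT.emp, if_neg not_isT_N]
  · have := hS.adm.hP y
    rw [Pr_congr (Q := fun r => δ (st kP y r) ≠ none)]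
    · exact this
    · intro r _
      rw [PT.emp, if_neg not_isT_P]
  · by_cases hne : m' = m ∧ x' = x
    · obtain ⟨rfl, rfl⟩ := hne
      exact Or.inr (Or.inr hBE)
    · rcases hS.adm.hT m' x' with h | h | h
      · exact Or.inl (DE_congr (fun b r _ => (hoth m' x' hne b r).symm) h)
      · exact Or.inr (Or.inl (DE_congr (fun b r _ => (hoth m' x' hne b r).symm) h))
      · exact Or.inr (Or.inr (BE_congr (fun b r _ => (hoth m' x' hne b r).symm) h))

/-- forcing preserves the state -/
theorem State.frc {δ : List Bool → Option Bool} {m : ℕ} {x : List Bool} {b : Bool}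
    {C : Finset (List Bool)} (hS : State δ x.length) (hC : 4 * C.card < 2 ^ (x.length / 2))
    {N : ℕ} (hN : 2 * m + 4 + 2 * x.length + (x.length + 2) ^ 3 + 2 < N)
    (hCN : ∀ w ∈ C, w.length < N) :
    State (frc δ m x b C) N ∧ DE (PT.frc δ m x b C) m x b ∧ ∀ (m' : ℕ) (x' : List Bool),
      ¬ (m' = m ∧ x' = x) → BE (PT.frc δ m x b C) m' x' → BE δ m' x' := by
  have hDE : DE (PT.frc δ m x b C) m x b := by
    constructor
    · have h1 : Pr ((x.length + 2) ^ 3) (fun r => PT.frc δ m x b C (st (kT m b) x r) = some true) =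
          Pr ((x.length + 2) ^ 3) (fun r => ¬ st (kT m b) x r ∈ C) := by
        refine Pr_congr (fun r hr => ?_)
        rw [PT.frc, if_pos (mem_isT hr)]
        by_cases h : st (kT m b) x r ∈ C
        · rw [if_neg (fun h2 => h2.2 h)]
          simp [h]
        · rw [if_pos ⟨⟨r, rfl⟩, h⟩]
          simp [h]
      rw [h1]
      have h2 := Pr_add_not ((x.length + 2) ^ 3) (fun r => st (kT m b) x r ∈ C)
      have h3 := Pr_small hC (m := (x.length + 2) ^ 3) (by
        have : x.length + 2 ≤ (x.length + 2) ^ 3 := Nat.le_self_pow (by norm_num) _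
        omega) (kT m b) x
      linarith
    · intro r hr
      rw [PT.frc, if_pos (mem_isT hr), if_neg]
      · simp
      · rintro ⟨⟨r', h⟩, _⟩
        have := (kT_inj (st_inj h).1).2
        cases b <;> simp at this
  have hoth : ∀ (m' : ℕ) (x' : List Bool), ¬ (m' = m ∧ x' = x) → ∀ (b' : Bool) (r : List Bool),
      PT.frc δ m x b C (st (kT m' b') x' r) = δ (st (kT m' b') x' r) := fun m' x' hne b' r => by
    rw [PT.frc, if_neg (not_isT hne), if_neg (fun h => not_kind h.2.2)]
  refine ⟨⟨fun w hw => ?_, ⟨fun y => ?_, fun y => ?_, fun m' x' => ?_⟩⟩, hDE,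
    fun m' x' hne => BE_congr (fun b r _ => hoth m' x' hne b r)⟩
  · have h1 : ¬ isT m x w := fun h => by
      have := h.length
      omega
    rw [PT.frc, if_neg h1, if_neg]
    · exact hS.dfl w (by omega)
    · rintro ⟨h2, _⟩
      have := hCN w h2
      omega
  · by_cases hlow : bl kN y < x.length
    · have h1 : Pr ((y.length + 2) ^ 3) (fun r => PT.frc δ m x b C (st kN y r) = some false) =
          Pr ((y.length + 2) ^ 3) (fun r => δ (st kN y r) = some false) :=
        Pr_congr (fun r hr => by rw [frc_low (by rw [length_st' hr]; exact hlow)])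
      rw [h1]
      exact hS.adm.hN y
    · refine lt_of_le_of_lt (Pr_mono (Q := fun r => st kN y r ∈ C) ?_) (lt_trans (Pr_small hC
        (half_le_cube (not_lt.1 hlow)) kN y) (by norm_num))
      intro r hr h1
      by_contra hn
      rw [PT.frc, if_neg not_isT_N, if_neg (fun h => hn h.1),
        hS.dfl _ (by rw [length_st' hr]; exact not_lt.1 hlow), dflt_N] at h1
      simp at h1
  · by_cases hlow : bl kP y < x.length
    · have h1 : Pr ((y.length + 2) ^ 3) (fun r => PT.frc δ m x b C (st kP y r) ≠ none) =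
          Pr ((y.length + 2) ^ 3) (fun r => δ (st kP y r) ≠ none) :=
        Pr_congr (fun r hr => by rw [frc_low (by rw [length_st' hr]; exact hlow)])
      rw [h1]
      exact hS.adm.hP y
    · refine lt_of_le_of_lt (Pr_mono (Q := fun r => st kP y r ∈ C) ?_) (Pr_small hC
        (half_le_cube (not_lt.1 hlow)) kP y)
      intro r hr h1
      by_contra hn
      rw [PT.frc, if_neg not_isT_P, if_neg (fun h => hn h.1),
        hS.dfl _ (by rw [length_st' hr]; exact not_lt.1 hlow), dflt_P] at h1
      exact h1 rfl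
  · by_cases hne : m' = m ∧ x' = x
    · obtain ⟨rfl, rfl⟩ := hne
      cases b with
      | false => exact Or.inl hDE
      | true => exact Or.inr (Or.inl hDE)
    · rcases hS.adm.hT m' x' with h | h | h
      · exact Or.inl (DE_congr (fun b r _ => (hoth m' x' hne b r).symm) h)
      · exact Or.inr (Or.inl (DE_congr (fun b r _ => (hoth m' x' hne b r).symm) h))
      · exact Or.inr (Or.inr (BE_congr (fun b r _ => (hoth m' x' hne b r).symm) h))

end Pool.Agent.Helper56.PT
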