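import Mathlib

namespace Pool.Agent.Helper56.PT

/-- Binary trees: the data of the programming language. -/
inductive Dat
  | leaf : Dat
  | node : Dat → Dat → Dat
  deriving DecidableEq

namespace Dat

/-- first component (the head of a list); `leaf` for the leaf -/
def hd : Dat → Dat
  | leaf => leaf
  | node a _ => a

/-- second component (the tail of a list); `leaf` for the leaf -/
def tl : Dat → Dat
  | leaf => leaf
  | node _ b => b

/-- the length of the right spine, that is, the length of the list coded by the tree -/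
def spine : Dat → ℕ
  | leaf => 0
  | node _ b => b.spine + 1

/-- the depth -/
def depth : Dat → ℕ
  | leaf => 0
  | node a b => max a.depth b.depth + 1

end Dat

open Dat

/-- the tree of a bit: `0` is the leaf, `1` is `node leaf leaf` -/
def bit : Bool → Dat
  | false => leaf
  | true => node leaf leaf

/-- the tree of a binary string (a list of bits) -/
def enc : List Bool → Dat
  | [] => leaf
  | b :: l => node (bit b) (enc l)

/-- `true` if the tree is not the leaf -/
def isNode : Dat → Bool
  | leaf => false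
  | node _ _ => true

/-- the string read off a tree: the `i`-th bit is `1` if the `i`-th element is not the leaf -/
def bitsOf : Dat → List Bool
  | leaf => []
  | node a b => isNode a :: bitsOf b

/-- Programs. Every program maps a tree to a tree; `comp p q` runs `p` first and then `q`;
`ite p q r` runs `q` if the value of `p` is not the leaf and `r` if it is;
`loop p` repeats `p` as long as the first component of the current value is not the leaf;
`query` asks the oracle about the string read off the current value. -/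
inductive Prog
  | id : Prog
  | nil : Prog
  | hd : Prog
  | tl : Prog
  | pair : Prog → Prog → Prog
  | comp : Prog → Prog → Prog
  | ite : Prog → Prog → Prog → Prog
  | loop : Prog → Prog
  | query : Prog

/-- `Run O p x y n`: with the oracle `O`, on input `x`, the program `p` halts with output `y`
after `n` steps. -/
inductive Run (O : List Bool → Bool) : Prog → Dat → Dat → ℕ → Prop
  | id (x : Dat) : Run O Prog.id x x 1
  | nil (x : Dat) : Run O Prog.nil x Dat.leaf 1
  | hd (x : Dat) : Run O Prog.hd x x.hd 1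
  | tl (x : Dat) : Run O Prog.tl x x.tl 1
  | query (x : Dat) : Run O Prog.query x (bit (O (bitsOf x))) 1
  | pair {p q : Prog} {x y z : Dat} {m n : ℕ} :
      Run O p x y m → Run O q x z n → Run O (Prog.pair p q) x (Dat.node y z) (m + n + 1)
  | comp {p q : Prog} {x y z : Dat} {m n : ℕ} :
      Run O p x y m → Run O q y z n → Run O (Prog.comp p q) x z (m + n + 1)
  | iteTrue {p q r : Prog} {x a b z : Dat} {m n : ℕ} :
      Run O p x (Dat.node a b) m → Run O q x z n → Run O (Prog.ite p q r) x z (m + n + 1)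
  | iteFalse {p q r : Prog} {x z : Dat} {m n : ℕ} :
      Run O p x Dat.leaf m → Run O r x z n → Run O (Prog.ite p q r) x z (m + n + 1)
  | loopStop {p : Prog} {x : Dat} : x.hd = Dat.leaf → Run O (Prog.loop p) x x 1
  | loopStep {p : Prog} {x y z : Dat} {m n : ℕ} : x.hd ≠ Dat.leaf →
      Run O p x y m → Run O (Prog.loop p) y z n → Run O (Prog.loop p) x z (m + n + 1)

variable {O : List Bool → Bool}

/-- Runs are deterministic. -/
theorem Run.det {p : Prog} {x y : Dat} {m : ℕ} (h : Run O p x y m) :
    ∀ {y' : Dat} {m' : ℕ}, Run O p x y' m' → y' = y ∧ m' = m := by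
  induction h with
  | id x => intro y' m' h; cases h; exact ⟨rfl, rfl⟩
  | nil x => intro y' m' h; cases h; exact ⟨rfl, rfl⟩
  | hd x => intro y' m' h; cases h; exact ⟨rfl, rfl⟩
  | tl x => intro y' m' h; cases h; exact ⟨rfl, rfl⟩
  | query x => intro y' m' h; cases h; exact ⟨rfl, rfl⟩
  | pair _ _ ih1 ih2 =>
    intro y' m' h
    cases h with
    | pair h1 h2 =>
      obtain ⟨rfl, rfl⟩ := ih1 h1
      obtain ⟨rfl, rfl⟩ := ih2 h2
      exact ⟨rfl, rfl⟩
  | comp _ _ ih1 ih2 =>
    intro y' m' h
    cases h with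
    | comp h1 h2 =>
      obtain ⟨rfl, rfl⟩ := ih1 h1
      obtain ⟨rfl, rfl⟩ := ih2 h2
      exact ⟨rfl, rfl⟩
  | iteTrue _ _ ih1 ih2 =>
    intro y' m' h
    cases h with
    | iteTrue h1 h2 =>
      obtain ⟨_, rfl⟩ := ih1 h1
      obtain ⟨rfl, rfl⟩ := ih2 h2
      exact ⟨rfl, rfl⟩
    | iteFalse h1 h2 =>
      obtain ⟨h3, _⟩ := ih1 h1
      cases h3
  | iteFalse _ _ ih1 ih2 =>
    intro y' m' h
    cases h with
    | iteTrue h1 h2 =>
      obtain ⟨h3, _⟩ := ih1 h1
      cases h3
    | iteFalse h1 h2 =>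
      obtain ⟨_, rfl⟩ := ih1 h1
      obtain ⟨rfl, rfl⟩ := ih2 h2
      exact ⟨rfl, rfl⟩
  | loopStop hx =>
    intro y' m' h
    cases h with
    | loopStop _ => exact ⟨rfl, rfl⟩
    | loopStep hx' _ _ => exact absurd hx hx'
  | loopStep hx _ _ ih1 ih2 =>
    intro y' m' h
    cases h with
    | loopStop hx' => exact absurd hx' hx
    | loopStep _ h1 h2 =>
      obtain ⟨rfl, rfl⟩ := ih1 h1
      obtain ⟨rfl, rfl⟩ := ih2 h2
      exact ⟨rfl, rfl⟩

/-- `p` halts on `x` with output `y` within `n` steps. -/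
def RunLe (O : List Bool → Bool) (p : Prog) (x y : Dat) (n : ℕ) : Prop := ∃ c, c ≤ n ∧ Run O p x y c

theorem RunLe.mono {p : Prog} {x y : Dat} {m n : ℕ} (h : RunLe O p x y m) (hmn : m ≤ n) :
    RunLe O p x y n := by
  obtain ⟨c, hc, h⟩ := h
  exact ⟨c, hc.trans hmn, h⟩

theorem RunLe.pair {p q : Prog} {x y z : Dat} {m n : ℕ} (h1 : RunLe O p x y m)
    (h2 : RunLe O q x z n) : RunLe O (Prog.pair p q) x (Dat.node y z) (m + n + 1) := by
  obtain ⟨c, hc, h1⟩ := h1
  obtain ⟨d, hd, h2⟩ := h2
  exact ⟨c + d + 1, by omega, Run.pair h1 h2⟩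

theorem RunLe.comp {p q : Prog} {x y z : Dat} {m n : ℕ} (h1 : RunLe O p x y m)
    (h2 : RunLe O q y z n) : RunLe O (Prog.comp p q) x z (m + n + 1) := by
  obtain ⟨c, hc, h1⟩ := h1
  obtain ⟨d, hd, h2⟩ := h2
  exact ⟨c + d + 1, by omega, Run.comp h1 h2⟩

theorem RunLe.iteTrue {p q r : Prog} {x y z : Dat} {m n : ℕ} (h1 : RunLe O p x y m)
    (hy : y ≠ leaf) (h2 : RunLe O q x z n) : RunLe O (Prog.ite p q r) x z (m + n + 1) := by
  obtain ⟨c, hc, h1⟩ := h1
  obtain ⟨d, hd, h2⟩ := h2
  cases y with
  | leaf => exact absurd rfl hy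
  | node a b => exact ⟨c + d + 1, by omega, Run.iteTrue h1 h2⟩

theorem RunLe.iteFalse {p q r : Prog} {x z : Dat} {m n : ℕ} (h1 : RunLe O p x leaf m)
    (h2 : RunLe O r x z n) : RunLe O (Prog.ite p q r) x z (m + n + 1) := by
  obtain ⟨c, hc, h1⟩ := h1
  obtain ⟨d, hd, h2⟩ := h2
  exact ⟨c + d + 1, by omega, Run.iteFalse h1 h2⟩

/-- The body of a clocked loop: remove one element from the clock and run `p` on the state. -/
def iterP (p : Prog) : Prog :=
  Prog.loop (Prog.pair (Prog.comp Prog.hd Prog.tl) (Prog.comp Prog.tl p))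

theorem iterP_run {p : Prog} {B : ℕ} : ∀ (T : Dat) (st : ℕ → Dat),
    (∀ i < T.spine, RunLe O p (st i) (st (i + 1)) B) →
    RunLe O (iterP p) (node T (st 0)) (node leaf (st T.spine)) (T.spine * (B + 7) + 1) := by
  intro T
  induction T with
  | leaf =>
    intro st _
    refine ⟨1, by simp [spine], ?_⟩
    exact Run.loopStop rfl
  | node a T _ ih =>
    intro st h
    have h0 := h 0 (by simp [spine])
    have h1 := ih (fun i => st (i + 1)) (fun i hi => h (i + 1) (by simp [spine]; omega))
    obtain ⟨c, hc, h1⟩ := h1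
    obtain ⟨d, hd, h0⟩ := h0
    refine ⟨((1 + 1 + 1) + (1 + d + 1) + 1) + c + 1, ?_, ?_⟩
    · simp only [spine]
      have : (T.spine + 1) * (B + 7) = T.spine * (B + 7) + (B + 7) := by ring
      omega
    · refine Run.loopStep (y := node T (st 1)) (by simp [Dat.hd]) ?_ ?_
      · exact Run.pair (Run.comp (Run.hd _) (Run.tl _)) (Run.comp (Run.tl _) h0)
      · exact h1

end Pool.Agent.Helper56.PT
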