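import Pool.Agent.Helper56.PT.Expo

namespace Pool.Agent.Helper56.PT

open Dat

variable {O : List Bool → Bool}

/-- the set of nonempty strings -/
theorem nonempty_runs (x r : List Bool) :
    Run O Prog.hd (node (enc x) (enc r)) (enc x) 1 := Run.hd _

theorem nonempty_acc (x r : List Bool) : Accepts O Prog.hd x r ↔ x ≠ [] := by
  constructor
  · rintro ⟨a, b, n, h⟩ rfl
    have := ((nonempty_runs (O := O) [] r).det h).1
    simp [enc] at this
  · intro hx
    cases x with
    | nil => exact absurd rfl hx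
    | cons b l => exact ⟨bit b, enc l, 1, nonempty_runs (O := O) (b :: l) r⟩

theorem nonempty_time : TimeBd O Prog.hd 0 1 := fun x r _ =>
  ⟨enc x, 1, by simp, nonempty_runs x r⟩

/-- the complement program -/
def negP (p : Prog) : Prog := Prog.ite p Prog.nil (Prog.pair Prog.nil Prog.nil)

theorem negP_acc {p : Prog} {x r : List Bool} {y : Dat} {n : ℕ}
    (h : Run O p (node (enc x) (enc r)) y n) :
    Accepts O (negP p) x r ↔ ¬ Accepts O p x r := by
  constructor
  · rintro ⟨a, b, m, hm⟩ ⟨a', b', m', hm'⟩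
    have h2 := Run.iteTrue (r := Prog.pair Prog.nil Prog.nil) hm' (Run.nil _)
    have := (hm.det h2).1
    simp at this
  · intro hn
    cases y with
    | leaf =>
      exact ⟨leaf, leaf, _, Run.iteFalse (q := Prog.nil) h (Run.pair (Run.nil _) (Run.nil _))⟩
    | node a b => exact absurd ⟨a, b, n, h⟩ hn

theorem nonempty_inR : InR O {x | x ≠ []} := by
  refine ⟨Prog.hd, 0, 1, nonempty_time, fun x => ⟨fun hx => ?_, fun hx => ?_⟩⟩
  · rw [Pr_true _ (fun r _ => (nonempty_acc x r).2 hx)]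
    norm_num
  · exact Pr_false _ (fun r _ h => hx ((nonempty_acc x r).1 h))

theorem nonempty_co_inR : InR O {x | x ≠ []}ᶜ := by
  have hrun : ∀ x r : List Bool, ∃ y, RunLe O (negP Prog.hd) (node (enc x) (enc r)) y 5 := by
    intro x r
    cases x with
    | nil =>
      exact ⟨_, 5, by norm_num, Run.iteFalse (q := Prog.nil) (nonempty_runs (O := O) [] r)
        (Run.pair (Run.nil _) (Run.nil _))⟩
    | cons b l =>
      exact ⟨_, 3, by norm_num, Run.iteTrue (r := Prog.pair Prog.nil Prog.nil)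
        (nonempty_runs (O := O) (b :: l) r) (Run.nil _)⟩
  refine ⟨negP Prog.hd, 0, 3, fun x r _ => ?_, fun x => ⟨fun hx => ?_, fun hx => ?_⟩⟩
  · obtain ⟨y, hy⟩ := hrun x r
    refine ⟨y, hy.mono ?_⟩
    calc 5 ≤ 2 ^ 3 := by norm_num
      _ ≤ (x.length + 2) ^ 3 := Nat.pow_le_pow_left (by omega) 3
  · rw [Pr_true _ (fun r _ => ?_)]
    · norm_num
    · rw [negP_acc (nonempty_runs x r), nonempty_acc]
      exact hx
  · refine Pr_false _ (fun r _ h => ?_)
    rw [negP_acc (nonempty_runs x r), nonempty_acc] at h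
    exact hx h

theorem nonempty_inBPP : InBPP O {x | x ≠ []} := by
  refine ⟨Prog.hd, 0, 1, 1 / 4, by norm_num, nonempty_time, fun x => ?_⟩
  have h1 : Pr ((x.length + 2) ^ 0) (fun r => Accepts O Prog.hd x r ↔
      x ∈ {x : List Bool | x ≠ []}) = 1 := Pr_true _ (fun r _ => nonempty_acc x r)
  rw [h1]
  norm_num

theorem card_split (m : ℕ) (P : List Bool → Prop) :
    Nat.card {r : Fin m → Bool // P (List.ofFn r)} +
      Nat.card {r : Fin m → Bool // ¬ P (List.ofFn r)} = 2 ^ m := by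
  classical
  rw [Nat.card_eq_fintype_card, Nat.card_eq_fintype_card, Fintype.card_subtype_compl]
  have h : Fintype.card (Fin m → Bool) = 2 ^ m := by simp
  have h2 := Fintype.card_subtype_le (fun r : Fin m → Bool => P (List.ofFn r))
  omega

theorem Pr_add_not (m : ℕ) (P : List Bool → Prop) : Pr m P + Pr m (fun r => ¬ P r) = 1 := by
  have := card_split m P
  rw [Pr, Pr, ← add_div, div_eq_one_iff_eq (by positivity)]
  exact_mod_cast this

theorem cnt_eq_Pr (m : ℕ) (P : List Bool → Prop) : (cnt P m [] : ℝ) = Pr m P * 2 ^ m := by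
  rw [cnt_eq, Pr]
  simp only [List.append_nil]
  field_simp

theorem cnt_lt_iff (m : ℕ) (P : List Bool → Prop) :
    cnt (fun t => ¬ P t) m [] < cnt P m [] ↔ 1 / 2 < Pr m P := by
  have h1 := cnt_eq_Pr m P
  have h2 := cnt_eq_Pr m (fun t => ¬ P t)
  have h3 := Pr_add_not m P
  have h4 : (0 : ℝ) < 2 ^ m := by positivity
  rw [← Nat.cast_lt (α := ℝ), h1, h2]
  constructor
  · intro h
    have := lt_of_mul_lt_mul_right h h4.le
    linarith
  · intro h
    exact mul_lt_mul_of_pos_right (by linarith) h4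

theorem InR.decidable {A : Set (List Bool)} (hA : InR O A) :
    ∃ D : Prog, ∀ x : List Bool, ∃ y, Term O D (enc x) y ∧ (y ≠ leaf ↔ x ∈ A) := by
  obtain ⟨p, k, l, hp, h⟩ := hA
  obtain ⟨D, hD⟩ := exists_decider hp
  refine ⟨D, fun x => ?_⟩
  obtain ⟨y, hy, hyx⟩ := hD x
  refine ⟨y, hy, ?_⟩
  rw [hyx, cnt_lt_iff]
  by_cases hx : x ∈ A
  · simp only [hx, iff_true]
    exact (h x).1 hx
  · have := (h x).2 hx
    simp only [hx, iff_false, not_lt]
    linarith

theorem InBPP.decidable {A : Set (List Bool)} (hA : InBPP O A) :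
    ∃ D : Prog, ∀ x : List Bool, ∃ y, Term O D (enc x) y ∧ (y ≠ leaf ↔ x ∈ A) := by
  obtain ⟨p, k, l, e, he, hp, h⟩ := hA
  obtain ⟨D, hD⟩ := exists_decider hp
  refine ⟨D, fun x => ?_⟩
  obtain ⟨y, hy, hyx⟩ := hD x
  refine ⟨y, hy, ?_⟩
  rw [hyx, cnt_lt_iff]
  have h1 := h x
  by_cases hx : x ∈ A
  · have h2 : Pr ((x.length + 2) ^ k) (fun r => Accepts O p x r ↔ x ∈ A) =
        Pr ((x.length + 2) ^ k) (Accepts O p x) := Pr_congr (fun r _ => by simp [hx])
    rw [h2] at h1
    simp only [hx, iff_true]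
    linarith
  · have h2 : Pr ((x.length + 2) ^ k) (fun r => Accepts O p x r ↔ x ∈ A) =
        Pr ((x.length + 2) ^ k) (fun r => ¬ Accepts O p x r) := Pr_congr (fun r _ => by simp [hx])
    rw [h2] at h1
    have h3 := Pr_add_not ((x.length + 2) ^ k) (Accepts O p x)
    simp only [hx, iff_false, not_lt]
    have h4 : Pr ((x.length + 2) ^ k) (fun r => ¬ Accepts O p x r) =
      Pr ((x.length + 2) ^ k) (fun r => ¬ (Accepts O p x) r) := rfl
    linarith

/-- No class of decidable sets that contains the set of nonempty strings and is closed under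
polynomial time many-one reductions has a set complete under `O(n ^ k)` time reductions. -/
theorem no_complete (k : ℕ) (C : Set (List Bool) → Prop)
    (hdec : ∀ A, C A → ∃ D : Prog, ∀ x : List Bool, ∃ y, Term O D (enc x) y ∧ (y ≠ leaf ↔ x ∈ A))
    (hcl : ∀ (A : Set (List Bool)) (f : List Bool → List Bool), PolyFn O f → C A → C (f ⁻¹' A))
    (hne : C {x | x ≠ []}) :
    ¬ ∃ A, C A ∧ ∀ B, C B → ∃ f, TimeFn O k f ∧ ∀ x, x ∈ B ↔ f x ∈ A := by
  rintro ⟨A, hA, hcomp⟩
  obtain ⟨D, hD⟩ := hdec A hA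
  obtain ⟨g, _, hg⟩ := hcomp _ hne
  have h0 : g [] ∉ A := fun h => (hg []).2 h rfl
  have h1 : g [true] ∈ A := (hg [true]).1 (by simp)
  obtain ⟨F, hF, hFn⟩ := exists_not_reducible k hD h0 h1
  obtain ⟨f, hf, hred⟩ := hcomp _ (hcl A F hF hA)
  exact hFn f hf (fun x => hred x)

end Pool.Agent.Helper56.PT
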