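import Pool.Agent.Helper56.PT.Base

namespace Pool.Agent.Helper56.PT

open Dat

/-- case distinction -/
def sel (t a b : Dat) : Dat :=
  match t with
  | leaf => b
  | node _ _ => a

theorem sel_leaf (a b : Dat) : sel leaf a b = b := rfl

theorem sel_of_ne {t : Dat} (h : t ≠ leaf) (a b : Dat) : sel t a b = a := by
  cases t with
  | leaf => exact absurd rfl h
  | node _ _ => rfl

variable {O : List Bool → Bool}

/-- value of a loop-free program -/
def ev (O : List Bool → Bool) : Prog → Dat → Dat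
  | Prog.id, x => x
  | Prog.nil, _ => leaf
  | Prog.hd, x => x.hd
  | Prog.tl, x => x.tl
  | Prog.pair p q, x => node (ev O p x) (ev O q x)
  | Prog.comp p q, x => ev O q (ev O p x)
  | Prog.ite p q r, x => sel (ev O p x) (ev O q x) (ev O r x)
  | Prog.loop _, x => x
  | Prog.query, x => bit (O (bitsOf x))

/-- loop-free programs -/
def LF : Prog → Prop
  | Prog.id => True
  | Prog.nil => True
  | Prog.hd => True
  | Prog.tl => True
  | Prog.pair p q => LF p ∧ LF q
  | Prog.comp p q => LF p ∧ LF q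
  | Prog.ite p q r => LF p ∧ LF q ∧ LF r
  | Prog.loop _ => False
  | Prog.query => True

/-- size of a program -/
def psz : Prog → ℕ
  | Prog.id => 1
  | Prog.nil => 1
  | Prog.hd => 1
  | Prog.tl => 1
  | Prog.pair p q => psz p + psz q + 1
  | Prog.comp p q => psz p + psz q + 1
  | Prog.ite p q r => psz p + psz q + psz r + 1
  | Prog.loop p => psz p
  | Prog.query => 1

theorem run_ev : ∀ (p : Prog), LF p → ∀ x, RunLe O p x (ev O p x) (psz p)
  | Prog.id, _, x => ⟨1, le_rfl, Run.id x⟩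
  | Prog.nil, _, x => ⟨1, le_rfl, Run.nil x⟩
  | Prog.hd, _, x => ⟨1, le_rfl, Run.hd x⟩
  | Prog.tl, _, x => ⟨1, le_rfl, Run.tl x⟩
  | Prog.pair p q, h, x => (run_ev p h.1 x).pair (run_ev q h.2 x)
  | Prog.comp p q, h, x => (run_ev p h.1 x).comp (run_ev q h.2 _)
  | Prog.ite p q r, h, x => by
    have h1 := run_ev p h.1 x
    have h2 := run_ev q h.2.1 x
    have h3 := run_ev r h.2.2 x
    by_cases hx : ev O p x = leaf
    · rw [hx] at h1
      have := h1.iteFalse (q := q) h3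
      simp only [ev, hx, sel_leaf, psz]
      exact this.mono (by omega)
    · have := h1.iteTrue (r := r) hx h2
      simp only [ev, sel_of_ne hx, psz]
      exact this.mono (by omega)
  | Prog.loop _, h, _ => h.elim
  | Prog.query, _, x => ⟨1, le_rfl, Run.query x⟩

theorem one_le_psz : ∀ p, 1 ≤ psz p
  | Prog.id => le_rfl
  | Prog.nil => le_rfl
  | Prog.hd => le_rfl
  | Prog.tl => le_rfl
  | Prog.pair p q => by simp [psz]
  | Prog.comp p q => by simp [psz]
  | Prog.ite p q r => by simp [psz]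
  | Prog.loop p => one_le_psz p
  | Prog.query => le_rfl

/-- functions given by loop-free programs -/
def LFc (O : List Bool → Bool) (F : Dat → Dat) : Prop := ∃ p, LF p ∧ ∀ x, ev O p x = F x

theorem LFc.id : LFc O (fun x => x) := ⟨Prog.id, trivial, fun _ => rfl⟩

theorem LFc.hd' : LFc O (fun x => x.hd) := ⟨Prog.hd, trivial, fun _ => rfl⟩

theorem LFc.tl' : LFc O (fun x => x.tl) := ⟨Prog.tl, trivial, fun _ => rfl⟩

theorem LFc.comp {F G : Dat → Dat} (hF : LFc O F) (hG : LFc O G) : LFc O (fun x => G (F x)) := by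
  obtain ⟨p, hp, hp'⟩ := hF
  obtain ⟨q, hq, hq'⟩ := hG
  exact ⟨Prog.comp p q, ⟨hp, hq⟩, fun x => by simp [ev, hp', hq']⟩

theorem LFc.hd {F : Dat → Dat} (hF : LFc O F) : LFc O (fun x => (F x).hd) := hF.comp LFc.hd'

theorem LFc.tl {F : Dat → Dat} (hF : LFc O F) : LFc O (fun x => (F x).tl) := hF.comp LFc.tl'

theorem LFc.node {F G : Dat → Dat} (hF : LFc O F) (hG : LFc O G) :
    LFc O (fun x => Dat.node (F x) (G x)) := by
  obtain ⟨p, hp, hp'⟩ := hF
  obtain ⟨q, hq, hq'⟩ := hG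
  exact ⟨Prog.pair p q, ⟨hp, hq⟩, fun x => by simp [ev, hp', hq']⟩

theorem LFc.sel {F G H : Dat → Dat} (hF : LFc O F) (hG : LFc O G) (hH : LFc O H) :
    LFc O (fun x => sel (F x) (G x) (H x)) := by
  obtain ⟨p, hp, hp'⟩ := hF
  obtain ⟨q, hq, hq'⟩ := hG
  obtain ⟨r, hr, hr'⟩ := hH
  exact ⟨Prog.ite p q r, ⟨hp, hq, hr⟩, fun x => by simp only [ev, hp', hq', hr']⟩

theorem LFc.query {F : Dat → Dat} (hF : LFc O F) : LFc O (fun x => bit (O (bitsOf (F x)))) := by
  obtain ⟨p, hp, hp'⟩ := hF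
  exact ⟨Prog.comp p Prog.query, ⟨hp, trivial⟩, fun x => by simp [ev, hp']⟩

theorem LFc.const : ∀ t : Dat, LFc O (fun _ => t)
  | leaf => ⟨Prog.nil, trivial, fun _ => rfl⟩
  | Dat.node a b => (LFc.const a).node (LFc.const b)

theorem LFc.run {F : Dat → Dat} (hF : LFc O F) : ∃ p B, ∀ x, RunLe O p x (F x) B := by
  obtain ⟨p, hp, hp'⟩ := hF
  exact ⟨p, psz p, fun x => by rw [← hp']; exact run_ev p hp x⟩

/-! ### polynomial bounds -/

/-- polynomially bounded -/
def Pol (g : ℕ → ℕ) : Prop := ∃ k, ∀ n, g n ≤ (n + 2) ^ k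

theorem Pol.mono {f g : ℕ → ℕ} (hg : Pol g) (h : ∀ n, f n ≤ g n) : Pol f := by
  obtain ⟨k, hk⟩ := hg
  exact ⟨k, fun n => (h n).trans (hk n)⟩

theorem Pol.const (c : ℕ) : Pol (fun _ => c) := by
  refine ⟨c, fun n => ?_⟩
  calc c ≤ 2 ^ c := Nat.lt_two_pow_self.le
    _ ≤ (n + 2) ^ c := Nat.pow_le_pow_left (by omega) c

theorem Pol.id : Pol (fun n => n) := ⟨1, fun n => by simp⟩

theorem Pol.mul {f g : ℕ → ℕ} (hf : Pol f) (hg : Pol g) : Pol (fun n => f n * g n) := by
  obtain ⟨k, hk⟩ := hf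
  obtain ⟨l, hl⟩ := hg
  exact ⟨k + l, fun n => by rw [pow_add]; exact Nat.mul_le_mul (hk n) (hl n)⟩

theorem Pol.add {f g : ℕ → ℕ} (hf : Pol f) (hg : Pol g) : Pol (fun n => f n + g n) := by
  obtain ⟨k, hk⟩ := hf
  obtain ⟨l, hl⟩ := hg
  refine ⟨k + l + 1, fun n => ?_⟩
  have h1 : f n ≤ (n + 2) ^ (k + l) :=
    (hk n).trans (Nat.pow_le_pow_right (by omega) (by omega))
  have h2 : g n ≤ (n + 2) ^ (k + l) :=
    (hl n).trans (Nat.pow_le_pow_right (by omega) (by omega))
  calc f n + g n ≤ (n + 2) ^ (k + l) * 2 := by omega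
    _ ≤ (n + 2) ^ (k + l) * (n + 2) := Nat.mul_le_mul_left _ (by omega)
    _ = (n + 2) ^ (k + l + 1) := by ring

theorem Pol.pow {f : ℕ → ℕ} (hf : Pol f) (j : ℕ) : Pol (fun n => f n ^ j) := by
  obtain ⟨k, hk⟩ := hf
  exact ⟨k * j, fun n => by rw [pow_mul]; exact Nat.pow_le_pow_left (hk n) j⟩

theorem Pol.comp {f g : ℕ → ℕ} (hf : Pol f) (hg : Pol g) : Pol (fun n => g (f n)) := by
  obtain ⟨l, hl⟩ := hg
  exact ((hf.add (Pol.const 2)).pow l).mono (fun n => hl _)

/-! ### depth -/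

theorem depth_hd (x : Dat) : x.hd.depth ≤ x.depth := by
  cases x with
  | leaf => simp [Dat.hd]
  | node a b => simp only [Dat.hd, depth]; omega

theorem depth_tl (x : Dat) : x.tl.depth ≤ x.depth := by
  cases x with
  | leaf => simp [Dat.tl]
  | node a b => simp only [Dat.tl, depth]; omega

theorem spine_le_depth (x : Dat) : x.spine ≤ x.depth := by
  induction x with
  | leaf => simp [spine]
  | node a b _ ih => simp only [spine, depth]; omega

theorem Run.depth_le {p : Prog} {x y : Dat} {n : ℕ} (h : Run O p x y n) :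
    y.depth ≤ x.depth + n := by
  induction h with
  | id x => omega
  | nil x => simp [depth]
  | hd x => have := depth_hd x; omega
  | tl x => have := depth_tl x; omega
  | query x =>
    cases O (bitsOf x) <;> simp [bit, depth]
  | pair _ _ ih1 ih2 => simp only [depth]; omega
  | comp _ _ ih1 ih2 => omega
  | iteTrue _ _ ih1 ih2 => omega
  | iteFalse _ _ ih1 ih2 => omega
  | loopStop _ => omega
  | loopStep _ _ _ ih1 ih2 => omega

theorem RunLe.depth_le {p : Prog} {x y : Dat} {n : ℕ} (h : RunLe O p x y n) :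
    y.depth ≤ x.depth + n := by
  obtain ⟨c, hc, h⟩ := h
  have := h.depth_le
  omega

/-! ### polynomial time functions on trees -/

/-- polynomial time functions on trees, the size of a tree being its depth -/
def Poly (O : List Bool → Bool) (F : Dat → Dat) : Prop := ∃ p k, ∀ x, RunLe O p x (F x) ((x.depth + 2) ^ k)

theorem Poly.of_pol {F : Dat → Dat} (p : Prog) {g : ℕ → ℕ} (hg : Pol g)
    (h : ∀ x, RunLe O p x (F x) (g x.depth)) : Poly O F := by
  obtain ⟨k, hk⟩ := hg
  exact ⟨p, k, fun x => (h x).mono (hk _)⟩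

theorem Poly.of_LFc {F : Dat → Dat} (h : LFc O F) : Poly O F := by
  obtain ⟨p, B, h⟩ := h.run
  exact Poly.of_pol p (Pol.const B) h

theorem Poly.depth {F : Dat → Dat} (h : Poly O F) : ∃ g : ℕ → ℕ, Pol g ∧ ∀ x, (F x).depth ≤ g x.depth := by
  obtain ⟨p, k, h⟩ := h
  exact ⟨fun n => n + (n + 2) ^ k, Pol.id.add ⟨k, fun n => le_rfl⟩, fun x => (h x).depth_le⟩

theorem Poly.comp {F G : Dat → Dat} (hF : Poly O F) (hG : Poly O G) : Poly O (fun x => G (F x)) := by
  obtain ⟨g, hg, hgd⟩ := hF.depth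
  obtain ⟨p, k, hp⟩ := hF
  obtain ⟨q, l, hq⟩ := hG
  have hb : Pol (fun n => (n + 2) ^ k + (g n + 2) ^ l + 1) :=
    (Pol.add (Pol.add ⟨k, fun n => le_rfl⟩ ((hg.add (Pol.const 2)).pow l)) (Pol.const 1))
  refine Poly.of_pol (Prog.comp p q) hb (fun x => ?_)
  refine ((hp x).comp (hq (F x))).mono ?_
  have : ((F x).depth + 2) ^ l ≤ (g x.depth + 2) ^ l :=
    Nat.pow_le_pow_left (by have := hgd x; omega) l
  omega

theorem Poly.node {F G : Dat → Dat} (hF : Poly O F) (hG : Poly O G) :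
    Poly O (fun x => Dat.node (F x) (G x)) := by
  obtain ⟨p, k, hp⟩ := hF
  obtain ⟨q, l, hq⟩ := hG
  have hb : Pol (fun n => (n + 2) ^ k + (n + 2) ^ l + 1) :=
    (Pol.add (Pol.add ⟨k, fun n => le_rfl⟩ ⟨l, fun n => le_rfl⟩) (Pol.const 1))
  exact Poly.of_pol (Prog.pair p q) hb (fun x => ((hp x).pair (hq x)).mono (by omega))

theorem Poly.sel {F G H : Dat → Dat} (hF : Poly O F) (hG : Poly O G) (hH : Poly O H) :
    Poly O (fun x => sel (F x) (G x) (H x)) := by
  obtain ⟨p, k, hp⟩ := hF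
  obtain ⟨q, l, hq⟩ := hG
  obtain ⟨r, m, hr⟩ := hH
  have hb : Pol (fun n => (n + 2) ^ k + (n + 2) ^ l + (n + 2) ^ m + 1) :=
    (Pol.add (Pol.add (Pol.add ⟨k, fun n => le_rfl⟩ ⟨l, fun n => le_rfl⟩)
      ⟨m, fun n => le_rfl⟩) (Pol.const 1))
  refine Poly.of_pol (Prog.ite p q r) hb (fun x => ?_)
  by_cases hx : F x = leaf
  · have h1 := hp x
    rw [hx] at h1
    have := h1.iteFalse (q := q) (hr x)
    simp only [hx, sel_leaf]
    exact this.mono (by omega)
  · have := (hp x).iteTrue (r := r) hx (hq x)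
    simp only [sel_of_ne hx]
    exact this.mono (by omega)

theorem Poly.id : Poly O (fun x => x) := Poly.of_LFc LFc.id

theorem Poly.const (t : Dat) : Poly O (fun _ => t) := Poly.of_LFc (LFc.const t)

theorem Poly.hd {F : Dat → Dat} (hF : Poly O F) : Poly O (fun x => (F x).hd) :=
  hF.comp (Poly.of_LFc LFc.hd')

theorem Poly.tl {F : Dat → Dat} (hF : Poly O F) : Poly O (fun x => (F x).tl) :=
  hF.comp (Poly.of_LFc LFc.tl')

/-- iteration of a polynomial time function whose intermediate values stay polynomially deep -/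
theorem Poly.iter {F C S : Dat → Dat} (hF : Poly O F) (hC : Poly O C) (hS : Poly O S) {D : ℕ → ℕ} (hD : Pol D)
    (hb : ∀ x, ∀ i < (C x).spine, (F^[i] (S x)).depth ≤ D x.depth) :
    Poly O (fun x => F^[(C x).spine] (S x)) := by
  obtain ⟨p, k, hp⟩ := hF
  have hCS := hC.node hS
  obtain ⟨gC, hgC, hgCd⟩ := hC.depth
  obtain ⟨q, l, hq⟩ := hCS
  have hb' : Pol (fun n => (n + 2) ^ l + (gC n * ((D n + 2) ^ k + 7) + 1) + 1 + 1 + 1) := by
    refine Pol.add (Pol.add (Pol.add (Pol.add ⟨l, fun n => le_rfl⟩ (Pol.add (hgC.mul ?_)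
      (Pol.const 1))) (Pol.const 1)) (Pol.const 1)) (Pol.const 1)
    exact ((hD.add (Pol.const 2)).pow k).add (Pol.const 7)
  refine Poly.of_pol (Prog.comp (Prog.comp q (iterP p)) Prog.tl) hb' (fun x => ?_)
  have h1 : RunLe O (iterP p) (Dat.node (C x) (S x)) (Dat.node leaf (F^[(C x).spine] (S x)))
      ((C x).spine * ((D x.depth + 2) ^ k + 7) + 1) := by
    have := iterP_run (O := O) (p := p) (B := (D x.depth + 2) ^ k) (C x) (fun i => F^[i] (S x)) ?_
    · simpa using this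
    · intro i hi
      have h2 := hp (F^[i] (S x))
      rw [← Function.iterate_succ_apply' F i (S x)] at h2
      exact h2.mono (Nat.pow_le_pow_left (by have := hb x i hi; omega) k)
  have h3 := ((hq x).comp h1).comp ⟨1, le_rfl, Run.tl _⟩
  refine h3.mono ?_
  have h4 : (C x).spine ≤ gC x.depth := (spine_le_depth _).trans (hgCd x)
  have h5 : (C x).spine * ((D x.depth + 2) ^ k + 7) ≤ gC x.depth * ((D x.depth + 2) ^ k + 7) :=
    Nat.mul_le_mul_right _ h4
  omega

/-- iteration of a loop-free function -/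
theorem Poly.iterLF {F C S : Dat → Dat} (hF : LFc O F) (hC : Poly O C) (hS : Poly O S) :
    Poly O (fun x => F^[(C x).spine] (S x)) := by
  obtain ⟨p, B, hp⟩ := hF.run
  obtain ⟨gC, hgC, hgCd⟩ := hC.depth
  obtain ⟨gS, hgS, hgSd⟩ := hS.depth
  refine Poly.iter (Poly.of_LFc hF) hC hS (D := fun n => gS n + gC n * B)
    (hgS.add (hgC.mul (Pol.const B))) ?_
  intro x i hi
  have h1 : ∀ i, (F^[i] (S x)).depth ≤ (S x).depth + i * B := by
    intro i
    induction i with
    | zero => simp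
    | succ i ih =>
      rw [Function.iterate_succ_apply']
      have := (hp (F^[i] (S x))).depth_le
      have h2 : (i + 1) * B = i * B + B := by ring
      omega
  have h2 : (C x).spine ≤ gC x.depth := (spine_le_depth _).trans (hgCd x)
  have h3 : i * B ≤ gC x.depth * B := Nat.mul_le_mul_right _ (by omega)
  have := h1 i
  have := hgSd x
  omega

end Pool.Agent.Helper56.PT
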