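import Pool.Agent.Helper56.PT.Orc

set_option autoImplicit false

namespace Pool.Agent.Helper56.PT

open Dat

/-! ### closed sets of oracle strings -/

/-- every positive coding string of kind `kN` in `C` has a witness whose queries are in `C` -/
def Closed (O : List Bool → Bool) (C : Finset (List Bool)) : Prop :=
  ∀ y r : List Bool, st kN y r ∈ C → O (st kN y r) = true →
    ∃ (p : Prog) (x : List Bool) (M T : ℕ) (s : List Bool) (Q : Finset (List Bool)),
      y = inst (pn p) x M T ∧ s.length = M ∧ Q ⊆ C ∧ (∀ q ∈ Q, q.length ≤ y.length) ∧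
      ∀ O' : List Bool → Bool, (∀ q ∈ Q, O' q = O q) → AccT O' p x s T

theorem Closed.biUnion {O : List Bool → Bool} {Q : Finset (List Bool)}
    {F : List Bool → Finset (List Bool)} [DecidableEq (List Bool)] (h : ∀ q ∈ Q, Closed O (F q)) :
    Closed O (Q.biUnion F) := by
  intro y r hy hO
  obtain ⟨q, hq, hyq⟩ := Finset.mem_biUnion.1 hy
  obtain ⟨p, x, M, T, s, Q', h1, h2, h3, h4, h5⟩ := h q hq y r hyq hO
  exact ⟨p, x, M, T, s, Q', h1, h2, fun v hv => Finset.mem_biUnion.2 ⟨q, hq, h3 hv⟩, h4, h5⟩

theorem exists_closed_one (δ : List Bool → Option Bool) : ∀ (n : ℕ) (w : List Bool), w.length = n →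
    ∃ C : Finset (List Bool), w ∈ C ∧ Closed (Om δ) C ∧ C.card ≤ w.length + 1 ∧
      ∀ v ∈ C, v.length ≤ w.length := by
  classical
  intro n
  induction n using Nat.strong_induction_on with
  | _ n ih =>
    intro w hw
    by_cases h : ∃ y r : List Bool, w = st kN y r ∧ Om δ w = true
    · obtain ⟨y, r, rfl, hO⟩ := h
      obtain ⟨hr, hK, -⟩ := (Om_N δ y r).1 hO
      obtain ⟨p, x, M, T, hy, s, hs, hacc⟩ := hK
      obtain ⟨Q, hQ1, hQ2, hQ3⟩ := hacc.support
      have hly : y.length = 2 * pn p + 2 * x.length + 2 * M + T + 3 := by rw [hy, length_inst]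
      have hlw := length_st kN y r
      have hQl : ∀ q ∈ Q, q.length ≤ y.length := fun q hq => by
        have := hQ2 q hq
        omega
      have hcube : y.length * (y.length + 1) + 1 ≤ (y.length + 2) ^ 3 := by
        generalize y.length = a
        nlinarith [Nat.zero_le a, Nat.zero_le (a ^ 2), Nat.zero_le (a ^ 3)]
      have hex : ∀ q ∈ Q, ∃ C : Finset (List Bool), q ∈ C ∧ Closed (Om δ) C ∧
          C.card ≤ q.length + 1 ∧ ∀ v ∈ C, v.length ≤ q.length := fun q hq =>
        ih q.length (by have := hQl q hq; omega) q rfl
      choose! F hF1 hF2 hF3 hF4 using hex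
      refine ⟨insert (st kN y r) (Q.biUnion F), Finset.mem_insert_self _ _, ?_, ?_, ?_⟩
      · intro y' r' hmem hO'
        rcases Finset.mem_insert.1 hmem with h1 | h1
        · obtain ⟨-, rfl, rfl⟩ := st_inj h1
          refine ⟨p, x, M, T, s, Q, hy, hs, fun q hq => Finset.mem_insert_of_mem
            (Finset.mem_biUnion.2 ⟨q, hq, hF1 q hq⟩), hQl, hQ3⟩
        · obtain ⟨p', x', M', T', s', Q', g1, g2, g3, g4, g5⟩ :=
            (Closed.biUnion hF2) y' r' h1 hO'
          exact ⟨p', x', M', T', s', Q', g1, g2, fun v hv => Finset.mem_insert_of_mem (g3 hv),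
            g4, g5⟩
      · have h1 := Finset.card_insert_le (st kN y r) (Q.biUnion F)
        have h2 : (Q.biUnion F).card ≤ Q.card * (y.length + 1) :=
          Finset.card_biUnion_le_card_mul Q F _ (fun q hq => by
            have := hF3 q hq
            have := hQl q hq
            omega)
        have h3 : Q.card * (y.length + 1) ≤ y.length * (y.length + 1) :=
          Nat.mul_le_mul_right _ (by omega)
        omega
      · intro v hv
        rcases Finset.mem_insert.1 hv with rfl | h1
        · exact le_rfl
        · obtain ⟨q, hq, hvq⟩ := Finset.mem_biUnion.1 h1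
          have := hF4 q hq v hvq
          have := hQl q hq
          omega
    · refine ⟨{w}, Finset.mem_singleton_self _, ?_, by simp, ?_⟩
      · intro y r hmem hO
        rw [Finset.mem_singleton] at hmem
        exact absurd ⟨y, r, hmem.symm, by rw [← hmem]; exact hO⟩ h
      · intro v hv
        rw [Finset.mem_singleton] at hv
        rw [hv]

theorem exists_closed (δ : List Bool → Option Bool) (Q : Finset (List Bool)) (l : ℕ)
    (hQ : ∀ q ∈ Q, q.length ≤ l) :
    ∃ C : Finset (List Bool), Q ⊆ C ∧ Closed (Om δ) C ∧ C.card ≤ Q.card * (l + 1) ∧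
      ∀ v ∈ C, v.length ≤ l := by
  classical
  have hex : ∀ q ∈ Q, ∃ C : Finset (List Bool), q ∈ C ∧ Closed (Om δ) C ∧
      C.card ≤ q.length + 1 ∧ ∀ v ∈ C, v.length ≤ q.length := fun q _ =>
    exists_closed_one δ _ q rfl
  choose! F hF1 hF2 hF3 hF4 using hex
  refine ⟨Q.biUnion F, fun q hq => Finset.mem_biUnion.2 ⟨q, hq, hF1 q hq⟩,
    Closed.biUnion hF2, ?_, ?_⟩
  · exact Finset.card_biUnion_le_card_mul Q F _ (fun q hq => by
      have := hF3 q hq
      have := hQ q hq
      omega)
  · intro v hv
    obtain ⟨q, hq, hvq⟩ := Finset.mem_biUnion.1 hv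
    have := hF4 q hq v hvq
    have := hQ q hq
    omega

/-! ### forcing -/

/-- the free strings with number `m` and index `x` -/
def isT (m : ℕ) (x w : List Bool) : Prop :=
  ∃ (b : Bool) (r : List Bool), w = st (kT m b) x r ∧ r.length = (x.length + 2) ^ 3

open Classical in
/-- make the free strings with number `m` and index `x` empty -/
noncomputable def emp (δ : List Bool → Option Bool) (m : ℕ) (x : List Bool)
    (w : List Bool) : Option Bool :=
  if isT m x w then none else δ w

open Classical in
/-- make the block `b` full outside of `C`, and force the coding strings of length at least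
`|x|` in `C` -/
noncomputable def frc (δ : List Bool → Option Bool) (m : ℕ) (x : List Bool) (b : Bool)
    (C : Finset (List Bool)) (w : List Bool) : Option Bool :=
  if isT m x w then (if (∃ r : List Bool, w = st (kT m b) x r) ∧ w ∉ C then some true else none)
  else if w ∈ C ∧ x.length ≤ w.length ∧ (∃ y r : List Bool, w = st kN y r ∨ w = st kP y r)
    then some (Om (emp δ m x) w)
  else δ w

theorem isT.length {m : ℕ} {x w : List Bool} (h : isT m x w) :
    w.length = 2 * m + 4 + 2 * x.length + (x.length + 2) ^ 3 + 2 := by
  obtain ⟨b, r, rfl, hr⟩ := h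
  rw [length_st, hr]
  simp only [kT, List.length_cons, List.length_replicate]
  ring

theorem isT.lt {m : ℕ} {x w : List Bool} (h : isT m x w) : x.length < w.length := by
  have := h.length
  omega

theorem frc_low {δ : List Bool → Option Bool} {m : ℕ} {x : List Bool} {b : Bool}
    {C : Finset (List Bool)} {w : List Bool} (h : w.length < x.length) :
    frc δ m x b C w = δ w := by
  rw [frc, if_neg (fun h1 => absurd h1.lt (by omega)), if_neg (fun h1 => absurd h1.2.1 (by omega))]

theorem emp_low {δ : List Bool → Option Bool} {m : ℕ} {x : List Bool} {w : List Bool}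
    (h : w.length < x.length) : emp δ m x w = δ w := by
  rw [emp, if_neg (fun h1 => absurd h1.lt (by omega))]

theorem not_isT_N {m : ℕ} {x y r : List Bool} : ¬ isT m x (st kN y r) := by
  rintro ⟨b, r', h, _⟩
  exact kN_ne_kT m b (st_inj h).1

theorem not_isT_P {m : ℕ} {x y r : List Bool} : ¬ isT m x (st kP y r) := by
  rintro ⟨b, r', h, _⟩
  exact kP_ne_kT m b (st_inj h).1

theorem frc_persist {δ δ'' : List Bool → Option Bool} {m : ℕ} {x : List Bool} {b : Bool}
    {C : Finset (List Bool)} (hC : Closed (Om (emp δ m x)) C) {N : ℕ} (hN : x.length ≤ N)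
    (hCN : ∀ w ∈ C, w.length < N) (hδ : ∀ w : List Bool, w.length < N → δ'' w = frc δ m x b C w) :
    ∀ (n : ℕ) (w : List Bool), w.length = n → w ∈ C → Om δ'' w = Om (emp δ m x) w := by
  intro n
  induction n using Nat.strong_induction_on with
  | _ n ih =>
    intro w hw hwC
    have hwN := hCN w hwC
    by_cases hlow : w.length < x.length
    · refine Om_congr (L := x.length) (fun v hv => ?_) _ w rfl hlow
      rw [hδ v (by omega), frc_low hv, emp_low hv]
    · have hlow' : x.length ≤ w.length := not_lt.1 hlow
      by_cases h1 : ∃ y r : List Bool, w = st kN y r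
      · obtain ⟨y, r, rfl⟩ := h1
        have hv : δ'' (st kN y r) = some (Om (emp δ m x) (st kN y r)) := by
          rw [hδ _ hwN, frc, if_neg not_isT_N, if_pos ⟨hwC, hlow', y, r, Or.inl rfl⟩]
        cases hO : Om (emp δ m x) (st kN y r) with
        | false =>
          rw [hO] at hv
          rw [Bool.eq_false_iff]
          intro h2
          exact ((Om_N _ _ _).1 h2).2.2 hv
        | true =>
          rw [hO] at hv
          obtain ⟨hr, -, -⟩ := (Om_N _ _ _).1 hO
          obtain ⟨p, z, M, T, s, Q, g1, g2, g3, g4, g5⟩ := hC y r hwC hO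
          rw [Om_N]
          refine ⟨hr, ?_, by rw [hv]; simp⟩
          rw [g1, KN_inst]
          refine ⟨s, g2, g5 _ (fun q hq => ih q.length ?_ q rfl (g3 hq))⟩
          have := g4 q hq
          rw [← hw, length_st]
          omega
      · by_cases h2 : ∃ y r : List Bool, w = st kP y r
        · obtain ⟨y, r, rfl⟩ := h2
          have hv : δ'' (st kP y r) = some (Om (emp δ m x) (st kP y r)) := by
            rw [hδ _ hwN, frc, if_neg not_isT_P, if_pos ⟨hwC, hlow', y, r, Or.inr rfl⟩]
          cases hO : Om (emp δ m x) (st kP y r) with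
          | false =>
            rw [hO] at hv
            rw [Bool.eq_false_iff]
            intro h3
            rcases ((Om_P _ _ _).1 h3).2 with h4 | ⟨h4, _⟩
            · rw [hv] at h4; simp at h4
            · rw [hv] at h4; simp at h4
          | true =>
            rw [hO] at hv
            obtain ⟨hr, -⟩ := (Om_P _ _ _).1 hO
            rw [Om_P]
            exact ⟨hr, Or.inl hv⟩
        · by_cases h3 : ∃ (n' : ℕ) (b' : Bool) (y r : List Bool), w = st (kT n' b') y r
          · obtain ⟨n', b', y, r, rfl⟩ := h3
            rw [Bool.eq_iff_iff, Om_T, Om_T]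
            have hk : ¬ ∃ y' r' : List Bool, st (kT n' b') y r = st kN y' r' ∨
                st (kT n' b') y r = st kP y' r' := by
              rintro ⟨y', r', h | h⟩
              · exact kN_ne_kT n' b' (st_inj h).1.symm
              · exact kP_ne_kT n' b' (st_inj h).1.symm
            by_cases hT : isT m x (st (kT n' b') y r)
            · have e1 : δ'' (st (kT n' b') y r) = none := by
                rw [hδ _ hwN, frc, if_pos hT, if_neg (fun h => h.2 hwC)]
              have e2 : emp δ m x (st (kT n' b') y r) = none := by rw [emp, if_pos hT]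
              rw [e1, e2]
            · have e1 : δ'' (st (kT n' b') y r) = δ (st (kT n' b') y r) := by
                rw [hδ _ hwN, frc, if_neg hT, if_neg (fun h => hk h.2.2)]
              have e2 : emp δ m x (st (kT n' b') y r) = δ (st (kT n' b') y r) := by
                rw [emp, if_neg hT]
              rw [e1, e2]
          · have hno : ∀ δ₁ : List Bool → Option Bool, Om δ₁ w = false := by
              intro δ₁
              rw [Bool.eq_false_iff]
              intro h4
              rcases (Om_iff _ _).1 h4 with ⟨y, r, h5, _⟩ | ⟨y, r, h5, _⟩ | ⟨n', b', y, r, h5, _⟩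
              · exact h1 ⟨y, r, h5⟩
              · exact h2 ⟨y, r, h5⟩
              · exact h3 ⟨n', b', y, r, h5⟩
            rw [hno, hno]

end Pool.Agent.Helper56.PT
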