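import Pool.Agent.Helper56.PT.Interp

namespace Pool.Agent.Helper56.PT

open Dat

/-! ### strings read off trees -/

variable {O : List Bool → Bool}

theorem bitsOf_enc (l : List Bool) : bitsOf (enc l) = l := by
  induction l with
  | nil => rfl
  | cons b l ih => cases b <;> simp [enc, bitsOf, bit, ih, isNode]

theorem enc_injective : Function.Injective enc := fun a b h => by
  rw [← bitsOf_enc a, h, bitsOf_enc]

theorem spine_enc (l : List Bool) : (enc l).spine = l.length := by
  induction l with
  | nil => rfl
  | cons b l ih => simp [enc, spine, ih]

theorem spine_eq_length (t : Dat) : t.spine = (bitsOf t).length := by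
  induction t with
  | leaf => rfl
  | node a b _ ih => simp [spine, bitsOf, ih]

theorem depth_enc_le (l : List Bool) : (enc l).depth ≤ l.length + 1 := by
  induction l with
  | nil => simp [enc, depth]
  | cons b l ih =>
    have : (bit b).depth ≤ 1 := by cases b <;> simp [bit, depth]
    simp only [enc, depth, List.length_cons]
    omega

theorem length_le_depth_enc (l : List Bool) : l.length ≤ (enc l).depth := by
  rw [← spine_enc]; exact spine_le_depth _

/-! ### reversing -/

/-- body of the loop that reverses a list -/
def revB (x : Dat) : Dat := node x.hd.tl (node (sel x.hd.hd (node leaf leaf) leaf) x.tl)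

theorem LFc.revB : LFc O revB := by
  unfold PT.revB
  repeat' first
    | exact LFc.id
    | exact LFc.const _
    | apply LFc.sel
    | apply LFc.node
    | apply LFc.hd
    | apply LFc.tl

theorem revB_node (a b acc : Dat) :
    revB (node (node a b) acc) = node b (node (sel a (node leaf leaf) leaf) acc) := rfl

theorem revB_iter : ∀ (m : ℕ) (t : Dat) (acc : List Bool), m ≤ t.spine →
    (revB^[m] (node t (enc acc))).tl = enc (((bitsOf t).take m).reverse ++ acc) := by
  intro m
  induction m with
  | zero => intro t acc _; simp [Dat.tl]
  | succ m ih =>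
    intro t acc hm
    cases t with
    | leaf => simp [spine] at hm
    | node a b =>
      rw [Function.iterate_succ_apply, revB_node]
      simp only [spine] at hm
      have h1 : (node (sel a (node leaf leaf) leaf) (enc acc)) = enc (isNode a :: acc) := by
        cases a <;> simp [sel, enc, bit, isNode]
      rw [h1, ih b _ (by omega)]
      simp [bitsOf]

/-- the first `M.spine` elements of `t`, reversed -/
def revTake (M t : Dat) : Dat := (revB^[M.spine] (node t leaf)).tl

theorem revTake_eq (M t : Dat) (h : M.spine ≤ t.spine) :
    revTake M t = enc (((bitsOf t).take M.spine).reverse) := by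
  have := revB_iter M.spine t [] h
  simpa [revTake, enc] using this

/-- the first `M.spine` elements of `t` -/
def takeT (M t : Dat) : Dat := revTake M (revTake M t)

theorem takeT_eq (M t : Dat) (h : M.spine ≤ t.spine) :
    takeT M t = enc ((bitsOf t).take M.spine) := by
  have hl : (((bitsOf t).take M.spine).reverse).length = M.spine := by
    rw [List.length_reverse, List.length_take, ← spine_eq_length]
    omega
  rw [takeT, revTake_eq M t h, revTake_eq, bitsOf_enc, List.take_of_length_le (by omega),
    List.reverse_reverse]
  rw [spine_enc, hl]

/-- canonical form of a tree as a string -/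
def canonT (t : Dat) : Dat := takeT t t

theorem canonT_eq (t : Dat) : canonT t = enc (bitsOf t) := by
  rw [canonT, takeT_eq t t le_rfl, spine_eq_length, List.take_length]

theorem Poly.revTake {M T : Dat → Dat} (hM : Poly O M) (hT : Poly O T) :
    Poly O (fun x => revTake (M x) (T x)) :=
  (Poly.iterLF LFc.revB hM (hT.node (Poly.const leaf))).tl

theorem Poly.takeT {M T : Dat → Dat} (hM : Poly O M) (hT : Poly O T) :
    Poly O (fun x => takeT (M x) (T x)) :=
  Poly.revTake hM (Poly.revTake hM hT)

theorem Poly.canonT {T : Dat → Dat} (hT : Poly O T) : Poly O (fun x => canonT (T x)) :=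
  Poly.takeT hT hT

/-! ### self-delimiting codes of strings -/

/-- every bit of the reversed string, preceded by a `1` -/
def dblr : List Bool → List Bool
  | [] => []
  | b :: l => dblr l ++ [true, b]

theorem length_dblr (l : List Bool) : (dblr l).length = 2 * l.length := by
  induction l with
  | nil => rfl
  | cons b l ih => simp [dblr, ih]; omega

/-- body of the parser; state `node flag (node rem acc)` -/
def parB (x : Dat) : Dat :=
  sel x.hd x
    (sel x.tl.hd.hd
      (node leaf (node x.tl.hd.tl.tl (node x.tl.hd.tl.hd x.tl.tl)))
      (node (node leaf leaf) (node x.tl.hd.tl x.tl.tl)))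

theorem LFc.parB : LFc O parB := by
  unfold PT.parB
  repeat' first
    | exact LFc.id
    | exact LFc.const _
    | apply LFc.sel
    | apply LFc.node
    | apply LFc.hd
    | apply LFc.tl

theorem parB_done (z : Dat) (m : ℕ) : parB^[m] (node (node leaf leaf) z) =
    node (node leaf leaf) z := by
  induction m with
  | zero => rfl
  | succ m ih => rw [Function.iterate_succ_apply]; exact ih


theorem parB_iter (l : List Bool) : ∀ (R acc : List Bool),
    parB^[l.length] (node leaf (node (enc (dblr l ++ R)) (enc acc))) =
      node leaf (node (enc R) (enc (l ++ acc))) := by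
  induction l with
  | nil => intro R acc; simp [dblr]
  | cons b l ih =>
    intro R acc
    have h1 : dblr (b :: l) ++ R = dblr l ++ (true :: b :: R) := by simp [dblr]
    rw [List.length_cons, Function.iterate_succ_apply', h1, ih]
    rfl

/-- the parser -/
def parseT (x : Dat) : Dat := parB^[x.spine] (node leaf (node x leaf))

theorem parse_eq (l R : List Bool) :
    parseT (enc (dblr l ++ false :: R)) = node (node leaf leaf) (node (enc R) (enc l)) := by
  have hs : (enc (dblr l ++ false :: R)).spine = (l.length + R.length) + (1 + l.length) := by
    rw [spine_enc, List.length_append, length_dblr, List.length_cons]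
    omega
  have h1 := parB_iter l (false :: R) []
  rw [parseT, hs, Function.iterate_add_apply parB (l.length + R.length) (1 + l.length),
    Function.iterate_add_apply parB 1 l.length]
  have h2 : (node leaf (node (enc (dblr l ++ false :: R)) leaf) : Dat) =
      node leaf (node (enc (dblr l ++ false :: R)) (enc [])) := rfl
  rw [h2, h1, Function.iterate_one]
  have h3 : parB (node leaf (node (enc (false :: R)) (enc (l ++ [])))) =
      node (node leaf leaf) (node (enc R) (enc (l ++ []))) := rfl
  rw [h3, parB_done, List.append_nil]

theorem Poly.parseT {T : Dat → Dat} (hT : Poly O T) : Poly O (fun x => parseT (T x)) :=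
  Poly.iterLF LFc.parB hT ((Poly.const leaf).node (hT.node (Poly.const leaf)))

/-- body of the loop that puts the code of a string in front of a string -/
def rebB (x : Dat) : Dat := node x.hd.tl (node (node leaf leaf) (node x.hd.hd x.tl))

theorem LFc.rebB : LFc O rebB := by
  unfold PT.rebB
  repeat' first
    | exact LFc.id
    | exact LFc.const _
    | apply LFc.sel
    | apply LFc.node
    | apply LFc.hd
    | apply LFc.tl

theorem rebB_iter (l : List Bool) : ∀ (R : List Bool),
    rebB^[l.length] (node (enc l) (enc R)) = node leaf (enc (dblr l ++ R)) := by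
  induction l with
  | nil => intro R; rfl
  | cons b l ih =>
    intro R
    rw [List.length_cons, Function.iterate_succ_apply]
    have h : rebB (node (enc (b :: l)) (enc R)) = node (enc l) (enc (true :: b :: R)) := rfl
    rw [h, ih]
    simp [dblr]

/-- put the code of a string in front of a string -/
def rebT (K R : Dat) : Dat := (rebB^[K.spine] (node K R)).tl

theorem rebT_eq (l R : List Bool) : rebT (enc l) (enc R) = enc (dblr l ++ R) := by
  rw [rebT, spine_enc, rebB_iter]
  rfl

theorem Poly.rebT {K R : Dat → Dat} (hK : Poly O K) (hR : Poly O R) :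
    Poly O (fun x => rebT (K x) (R x)) :=
  (Poly.iterLF LFc.rebB hK (hK.node hR)).tl

/-! ### decoding trees from strings -/

/-- the string of a tree -/
def post : Dat → List Bool
  | leaf => [false]
  | node a b => post a ++ (post b ++ [true])

/-- body of the decoder; state `node rem stack` -/
def decB (x : Dat) : Dat :=
  node x.hd.tl (sel x.hd.hd (node (node x.tl.tl.hd x.tl.hd) x.tl.tl.tl) (node leaf x.tl))

theorem LFc.decB : LFc O decB := by
  unfold PT.decB
  repeat' first
    | exact LFc.id
    | exact LFc.const _
    | apply LFc.sel
    | apply LFc.node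
    | apply LFc.hd
    | apply LFc.tl

theorem decB_post (t : Dat) : ∀ (R : List Bool) (S : Dat),
    decB^[(post t).length] (node (enc (post t ++ R)) S) = node (enc R) (node t S) := by
  induction t with
  | leaf => intro R S; rfl
  | node a b iha ihb =>
    intro R S
    have h : (post (node a b)).length = (1 + (post b).length) + (post a).length := by
      simp [post]; omega
    have h2 : post (node a b) ++ R = post a ++ (post b ++ (true :: R)) := by simp [post]
    rw [h, h2, Function.iterate_add_apply, Function.iterate_add_apply, iha, ihb]
    rfl

/-- the decoder -/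
def decT (K : Dat) : Dat := (decB^[K.spine] (node K leaf)).tl.hd

theorem decB_junk (c : ℕ) : ∀ (R : List Bool) (S : Dat),
    ∃ S', decB^[c] (node (enc (List.replicate c false ++ R)) S) = node (enc R) S' := by
  induction c with
  | zero => intro R S; exact ⟨S, rfl⟩
  | succ c ih =>
    intro R S
    rw [Function.iterate_succ_apply]
    exact ih R (node leaf S)

theorem decT_post (c : ℕ) (t : Dat) : decT (enc (List.replicate c false ++ post t)) = t := by
  have hs : (enc (List.replicate c false ++ post t)).spine = (post t).length + c := by
    rw [spine_enc, List.length_append, List.length_replicate]; omega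
  obtain ⟨S', h⟩ := decB_junk c (post t) leaf
  rw [decT, hs, Function.iterate_add_apply, h]
  have := decB_post t [] S'
  rw [List.append_nil] at this
  rw [this]
  rfl

theorem Poly.decT {K : Dat → Dat} (hK : Poly O K) : Poly O (fun x => decT (K x)) :=
  ((Poly.iterLF LFc.decB hK (hK.node (Poly.const leaf))).tl).hd

/-! ### products and powers of lengths -/

/-- body of the multiplication; state `node v acc` -/
def mulB (x : Dat) : Dat := node x.hd ((fun a => node leaf a)^[x.hd.spine] x.tl)

theorem Poly.mulB : Poly O mulB := by
  unfold PT.mulB
  refine Poly.node (Poly.id.hd) ?_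
  have : LFc O (fun a => Dat.node leaf a) := LFc.node (LFc.const leaf) LFc.id
  exact Poly.iterLF this Poly.id.hd Poly.id.tl

theorem iter_leaf (m : ℕ) (a : Dat) : ((fun a => node leaf a)^[m] a).spine = a.spine + m ∧
    ((fun a => node leaf a)^[m] a).depth = a.depth + m := by
  induction m with
  | zero => simp
  | succ m ih =>
    rw [Function.iterate_succ_apply']
    simp only [spine, depth, ih]
    omega

theorem mulB_iter (v : Dat) (m : ℕ) : ∀ (a : Dat), ∃ a', mulB^[m] (node v a) = node v a' ∧
    a'.spine = a.spine + m * v.spine ∧ a'.depth = a.depth + m * v.spine := by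
  induction m with
  | zero => intro a; exact ⟨a, rfl, by simp, by simp⟩
  | succ m ih =>
    intro a
    obtain ⟨a', h1, h2, h3⟩ := ih a
    refine ⟨(fun a => node leaf a)^[v.spine] a', ?_, ?_, ?_⟩
    · rw [Function.iterate_succ_apply', h1]; rfl
    · rw [(iter_leaf _ _).1, h2]; ring
    · rw [(iter_leaf _ _).2, h3]; ring

/-- a list whose length is the product of the lengths -/
def mulT (u v : Dat) : Dat := (mulB^[u.spine] (node v leaf)).tl

theorem spine_mulT (u v : Dat) : (mulT u v).spine = u.spine * v.spine := by
  obtain ⟨a', h1, h2, _⟩ := mulB_iter v u.spine leaf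
  rw [mulT, h1]
  simpa [Dat.tl, spine] using h2

theorem Poly.mulT {U V : Dat → Dat} (hU : Poly O U) (hV : Poly O V) :
    Poly O (fun x => mulT (U x) (V x)) := by
  obtain ⟨gU, hgU, hgUd⟩ := hU.depth
  obtain ⟨gV, hgV, hgVd⟩ := hV.depth
  refine (Poly.iter Poly.mulB hU (hV.node (Poly.const leaf))
    (D := fun n => gV n + gU n * gV n + 1) ((hgV.add (hgU.mul hgV)).add (Pol.const 1)) ?_).tl
  intro x i hi
  obtain ⟨a', h1, _, h3⟩ := mulB_iter (V x) i leaf
  rw [h1]
  simp only [Dat.depth] at h3 ⊢
  have h4 := hgUd x
  have h5 := hgVd x
  have h6 : i * (V x).spine ≤ gU x.depth * gV x.depth :=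
    Nat.mul_le_mul (by have := spine_le_depth (U x); omega)
      ((spine_le_depth _).trans h5)
  omega

/-- a list of length `(spine x + 2) ^ k` -/
def powT : ℕ → Dat → Dat
  | 0, _ => node leaf leaf
  | k + 1, x => mulT (node leaf (node leaf x)) (powT k x)

theorem spine_powT (k : ℕ) (x : Dat) : (powT k x).spine = (x.spine + 2) ^ k := by
  induction k with
  | zero => rfl
  | succ k ih =>
    rw [powT, spine_mulT, ih]
    simp only [spine]
    ring

theorem Poly.powT (k : ℕ) {X : Dat → Dat} (hX : Poly O X) : Poly O (fun x => powT k (X x)) := by
  induction k with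
  | zero => exact Poly.const _
  | succ k ih =>
    exact Poly.mulT ((Poly.const leaf).node ((Poly.const leaf).node hX)) ih

end Pool.Agent.Helper56.PT
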