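import Pool.Agent.Helper56.PT.Defs
import Pool.Agent.Helper56.PT.Str

namespace Pool.Agent.Helper56.PT

open Dat

variable {O : List Bool → Bool}

theorem card_take (m d : ℕ) (P : List Bool → Prop) :
    Nat.card {r : Fin (m + d) → Bool // P ((List.ofFn r).take m)} =
      Nat.card {r : Fin m → Bool // P (List.ofFn r)} * 2 ^ d := by
  have e : {r : Fin (m + d) → Bool // P ((List.ofFn r).take m)} ≃
      {r : Fin m → Bool // P (List.ofFn r)} × (Fin d → Bool) := by
    refine (Equiv.subtypeEquiv (Fin.appendEquiv m d).symm (q := fun x => P (List.ofFn x.1))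
      ?_).trans (Equiv.prodSubtypeFstEquivSubtypeProd (p := fun r => P (List.ofFn r))) 
    intro r
    obtain ⟨⟨a, b⟩, rfl⟩ := (Fin.appendEquiv m d).surjective r
    rw [Equiv.symm_apply_apply]
    show P ((List.ofFn (Fin.append a b)).take m) ↔ P (List.ofFn a)
    rw [List.ofFn_fin_append, List.take_left' (by simp)]
  rw [Nat.card_congr e, Nat.card_prod]
  simp

theorem Pr_take {m R : ℕ} (h : m ≤ R) (P : List Bool → Prop) :
    Pr R (fun r => P (r.take m)) = Pr m P := by
  obtain ⟨d, rfl⟩ : ∃ d, R = m + d := ⟨R - m, by omega⟩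
  rw [Pr, Pr, card_take, pow_add]
  push_cast
  field_simp

theorem Pr_congr {m : ℕ} {P Q : List Bool → Prop} (h : ∀ r : List Bool, r.length = m → (P r ↔ Q r)) :
    Pr m P = Pr m Q := by
  rw [Pr, Pr, Nat.card_congr (Equiv.subtypeEquivRight (fun r => h (List.ofFn r) (by simp)))]

theorem Pr_true (m : ℕ) {P : List Bool → Prop} (h : ∀ r : List Bool, r.length = m → P r) :
    Pr m P = 1 := by
  have h1 : Pr m P = Pr m (fun _ => True) := Pr_congr (fun r hr => by simp [h r hr])
  rw [h1, Pr]
  have : Nat.card {r : Fin m → Bool // (fun _ => True) (List.ofFn r)} = 2 ^ m := by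
    rw [Nat.card_congr (Equiv.subtypeUnivEquiv (fun _ => trivial))]
    simp
  rw [this]
  push_cast
  field_simp

theorem Pr_false (m : ℕ) {P : List Bool → Prop} (h : ∀ r : List Bool, r.length = m → ¬ P r) :
    Pr m P = 0 := by
  have h1 : Pr m P = Pr m (fun _ => False) := Pr_congr (fun r hr => by simp [h r hr])
  rw [h1, Pr]
  have : Nat.card {r : Fin m → Bool // (fun _ => False) (List.ofFn r)} = 0 := by
    rw [Nat.card_eq_zero]
    left
    exact ⟨fun x => x.2⟩
  rw [this]
  simp

theorem Pr_eq_zero {m : ℕ} {P : List Bool → Prop} (h : Pr m P = 0) (r : List Bool)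
    (hr : r.length = m) : ¬ P r := by
  intro hP
  rw [Pr, div_eq_zero_iff] at h
  rcases h with h | h
  · have h1 : Nat.card {r : Fin m → Bool // P (List.ofFn r)} = 0 := by exact_mod_cast h
    rw [Nat.card_eq_zero] at h1
    rcases h1 with h1 | h1
    · subst hr
      exact h1.elim ⟨fun i => r.get i, by rw [List.ofFn_get]; exact hP⟩
    · exact h1.not_finite inferInstance
  · exact absurd h (by positivity)

/-! ### polynomial time functions of strings -/

theorem PolyFn.poly {f : List Bool → List Bool} (hf : PolyFn O f) :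
    Poly O (fun t => enc (f (bitsOf t))) := by
  obtain ⟨p, k, hp⟩ := hf
  obtain ⟨q, l, hq⟩ := Poly.canonT (O := O) Poly.id
  have hb : Pol (fun n => (n + 2) ^ l + (n + 2) ^ k + 1) :=
    (Pol.add (Pol.add ⟨l, fun n => le_rfl⟩ ⟨k, fun n => le_rfl⟩) (Pol.const 1))
  refine Poly.of_pol (Prog.comp q p) hb (fun t => ?_)
  have h1 : RunLe O q t (canonT t) ((t.depth + 2) ^ l) := hq t
  rw [canonT_eq] at h1
  refine (h1.comp (hp (bitsOf t))).mono ?_
  have : ((bitsOf t).length + 2) ^ k ≤ (t.depth + 2) ^ k :=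
    Nat.pow_le_pow_left (by have := spine_le_depth t; rw [spine_eq_length] at this; omega) k
  omega

theorem PolyFn.of_poly {f : List Bool → List Bool} (hf : Poly O (fun t => enc (f (bitsOf t)))) :
    PolyFn O f := by
  obtain ⟨p, k, hp⟩ := hf
  refine ⟨p, 2 * k, fun x => ?_⟩
  have h : RunLe O p (enc x) (enc (f (bitsOf (enc x)))) (((enc x).depth + 2) ^ k) := hp (enc x)
  rw [bitsOf_enc] at h
  refine h.mono ?_
  rw [pow_mul]
  refine Nat.pow_le_pow_left ?_ k
  have := depth_enc_le x
  nlinarith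

/-- the combination of a reduction and a probabilistic machine -/
theorem exists_pre {f : List Bool → List Bool} (hf : PolyFn O f) {p : Prog} {k l : ℕ}
    (hp : TimeBd O p k l) : ∃ (p' : Prog) (k' l' : ℕ), TimeBd O p' k' l' ∧
      (∀ x, ((f x).length + 2) ^ k ≤ (x.length + 2) ^ k') ∧
      ∀ x r : List Bool, r.length = (x.length + 2) ^ k' →
        (Accepts O p' x r ↔ Accepts O p (f x) (r.take (((f x).length + 2) ^ k))) := by
  have hF := hf.poly
  obtain ⟨gF, hgF, hgFd⟩ := hF.depth
  have hlen : ∀ x : List Bool, (f x).length ≤ gF (enc x).depth := fun x => by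
    have h1 := hgFd (enc x)
    rw [bitsOf_enc] at h1
    exact (length_le_depth_enc _).trans h1
  obtain ⟨j, hj⟩ := hgF
  -- length of `f x`
  have hlen2 : ∀ x : List Bool, (f x).length ≤ (x.length + 3) ^ j := fun x => by
    refine (hlen x).trans ((hj _).trans (Nat.pow_le_pow_left ?_ j))
    have := depth_enc_le x
    omega
  obtain ⟨k', hk'⟩ : Pol (fun n => ((n + 3) ^ j + 2) ^ k) :=
    ((((Pol.id.add (Pol.const 3)).pow j).add (Pol.const 2)).pow k)
  have hG : Poly O (fun x => node (enc (f (bitsOf x.hd)))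
      (takeT (powT k (enc (f (bitsOf x.hd)))) x.tl)) := by
    have h1 : Poly O (fun x => enc (f (bitsOf x.hd))) := Poly.comp (Poly.id.hd) hF
    exact h1.node (Poly.takeT (Poly.powT k h1) Poly.id.tl)
  obtain ⟨q, lq, hq⟩ := hG
  -- time bound
  obtain ⟨l', hl'⟩ : Pol (fun n => (n + 1 + (n + 2) ^ k' + 1 + 1 + 2) ^ lq +
      ((n + 3) ^ j + 2) ^ l + 1) := by
    refine Pol.add (Pol.add ?_ ?_) (Pol.const 1)
    · refine Pol.pow (Pol.add (Pol.add (Pol.add (Pol.add (Pol.id.add (Pol.const 1))
        ⟨k', fun n => le_rfl⟩) (Pol.const 1)) (Pol.const 1)) (Pol.const 2)) lq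
    · exact ((((Pol.id.add (Pol.const 3)).pow j).add (Pol.const 2)).pow l)
  have hk2 : ∀ x : List Bool, ((f x).length + 2) ^ k ≤ (x.length + 2) ^ k' := fun x =>
    (Nat.pow_le_pow_left (by have := hlen2 x; omega) k).trans (hk' _)
  have hrun : ∀ x r : List Bool, r.length = (x.length + 2) ^ k' →
      RunLe O q (node (enc x) (enc r)) (node (enc (f x))
        (enc (r.take (((f x).length + 2) ^ k))))
        ((x.length + 1 + (x.length + 2) ^ k' + 1 + 1 + 2) ^ lq) := by
    intro x r hr
    have h1 := hq (node (enc x) (enc r))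
    simp only [Dat.hd, Dat.tl, bitsOf_enc] at h1
    rw [takeT_eq, spine_powT, spine_enc, bitsOf_enc] at h1
    · refine h1.mono (Nat.pow_le_pow_left ?_ lq)
      simp only [depth]
      have h2 := depth_enc_le x
      have h3 := depth_enc_le r
      omega
    · rw [spine_powT, spine_enc, spine_enc, hr]
      exact hk2 x
  refine ⟨Prog.comp q p, k', l', ?_, hk2, ?_⟩
  · intro x r hr
    have hlen3 : (r.take (((f x).length + 2) ^ k)).length = ((f x).length + 2) ^ k := by
      rw [List.length_take, hr]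
      exact min_eq_left (hk2 x)
    obtain ⟨y, hy⟩ := hp (f x) _ hlen3
    refine ⟨y, ((hrun x r hr).comp hy).mono (le_trans ?_ (hl' x.length))⟩
    beta_reduce
    have : ((f x).length + 2) ^ l ≤ ((x.length + 3) ^ j + 2) ^ l :=
      Nat.pow_le_pow_left (by have := hlen2 x; omega) l
    omega
  · intro x r hr
    obtain ⟨c, _, hc⟩ := hrun x r hr
    constructor
    · rintro ⟨a, b, n, h⟩
      cases h with
      | comp h1 h2 =>
        obtain ⟨h3, _⟩ := hc.det h1
        rw [h3] at h2
        exact ⟨a, b, _, h2⟩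
    · rintro ⟨a, b, n, h⟩
      exact ⟨a, b, _, Run.comp hc h⟩

theorem InR.preimage {f : List Bool → List Bool} (hf : PolyFn O f) {A : Set (List Bool)}
    (hA : InR O A) : InR O (f ⁻¹' A) := by
  obtain ⟨p, k, l, hp, h⟩ := hA
  obtain ⟨p', k', l', hp', hk, hacc⟩ := exists_pre hf hp
  refine ⟨p', k', l', hp', fun x => ?_⟩
  have h1 : Pr ((x.length + 2) ^ k') (Accepts O p' x) =
      Pr (((f x).length + 2) ^ k) (Accepts O p (f x)) := by
    rw [← Pr_take (hk x)]
    exact Pr_congr (fun r hr => hacc x r hr)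
  rw [h1]
  exact h (f x)

theorem InBPP.preimage {f : List Bool → List Bool} (hf : PolyFn O f) {A : Set (List Bool)}
    (hA : InBPP O A) : InBPP O (f ⁻¹' A) := by
  obtain ⟨p, k, l, e, he, hp, h⟩ := hA
  obtain ⟨p', k', l', hp', hk, hacc⟩ := exists_pre hf hp
  refine ⟨p', k', l', e, he, hp', fun x => ?_⟩
  have h1 : Pr ((x.length + 2) ^ k') (fun r => Accepts O p' x r ↔ x ∈ f ⁻¹' A) =
      Pr (((f x).length + 2) ^ k) (fun r => Accepts O p (f x) r ↔ f x ∈ A) := by
    rw [← Pr_take (hk x)]
    exact Pr_congr (fun r hr => by rw [hacc x r hr]; rfl)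
  rw [h1]
  exact h (f x)

theorem InZPP.preimage {f : List Bool → List Bool} (hf : PolyFn O f) {A : Set (List Bool)}
    (hA : InZPP O A) : InZPP O (f ⁻¹' A) :=
  ⟨hA.1.preimage hf, by
    have := hA.2.preimage hf
    rwa [Set.preimage_compl] at this⟩

end Pool.Agent.Helper56.PT
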