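import Pool.Agent.Helper56.PT.Cls

namespace Pool.Agent.Helper56.PT

open Dat

variable {O : List Bool → Bool}

open Classical in
/-- number of strings `u` of length `m` with `Q (u ++ s)` -/
noncomputable def cnt (Q : List Bool → Prop) : ℕ → List Bool → ℕ
  | 0, s => if Q s then 1 else 0
  | m + 1, s => cnt Q m (false :: s) + cnt Q m (true :: s)

theorem cnt_eq (Q : List Bool → Prop) (m : ℕ) : ∀ s : List Bool,
    cnt Q m s = Nat.card {r : Fin m → Bool // Q (List.ofFn r ++ s)} := by
  induction m with
  | zero =>
    intro s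
    by_cases hQ : Q s
    · simp only [cnt, hQ, if_true]
      symm
      rw [Nat.card_eq_one_iff_unique]
      refine ⟨⟨fun a b => ?_⟩, ⟨⟨fun i => i.elim0, by simpa using hQ⟩⟩⟩
      apply Subtype.ext
      funext i
      exact i.elim0
    · simp only [cnt, hQ, if_false]
      symm
      rw [Nat.card_eq_zero]
      left
      exact ⟨fun x => hQ (by simpa using x.2)⟩
  | succ m ih =>
    intro s
    have e : {r : Fin (m + 1) → Bool // Q (List.ofFn r ++ s)} ≃
        Σ b : Bool, {r : Fin m → Bool // Q (List.ofFn r ++ b :: s)} := by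
      refine (Equiv.subtypeEquiv (Fin.snocEquiv (fun _ => Bool)).symm
        (q := fun x => Q (List.ofFn x.2 ++ x.1 :: s)) ?_).trans
        (Equiv.subtypeProdEquivSigmaSubtype
          (fun (b : Bool) (r : Fin m → Bool) => Q (List.ofFn r ++ b :: s)))
      intro r
      rw [List.ofFn_succ']
      simp only [Fin.snocEquiv, List.concat_eq_append, List.append_assoc, List.singleton_append]
      exact Iff.rfl
    rw [Nat.card_congr e, Nat.card_sigma, Fintype.sum_bool, cnt, ih, ih, add_comm]

/-- `n` more elements -/
def addL (n : ℕ) (A : Dat) : Dat := (fun a => node leaf a)^[n] A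

theorem addL_add (m n : ℕ) (A : Dat) : addL m (addL n A) = addL (m + n) A := by
  rw [addL, addL, addL, Function.iterate_add_apply]

theorem spine_addL (n : ℕ) (A : Dat) : (addL n A).spine = A.spine + n := (iter_leaf n A).1

/-- the test of the exhaustive search -/
def tstT (x : Dat) : Dat := x.hd.hd.hd

/-- branching of the exhaustive search -/
def brT (x : Dat) : Dat :=
  node (node (node x.hd.hd.hd.tl (node leaf x.hd.hd.tl))
    (node (node x.hd.hd.hd.tl (node (node leaf leaf) x.hd.hd.tl)) x.hd.tl)) x.tl

/-- preparation of a call -/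
def prT (x : Dat) : Dat := node x.tl.hd x.hd.hd.tl

/-- evaluation of a call; `x` is the pair of the state and the output -/
def fiT (x : Dat) : Dat :=
  node x.hd.hd.tl (node x.hd.tl.hd
    (sel x.tl (node (node leaf x.hd.tl.tl.hd) x.hd.tl.tl.tl)
      (node x.hd.tl.tl.hd (node leaf x.hd.tl.tl.tl))))

theorem LFc.tstT : LFc O tstT := by
  unfold PT.tstT
  repeat' first
    | exact LFc.id
    | apply LFc.hd

theorem LFc.brT : LFc O brT := by
  unfold PT.brT
  repeat' first
    | exact LFc.id
    | exact LFc.const _
    | apply LFc.sel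
    | apply LFc.node
    | apply LFc.hd
    | apply LFc.tl

theorem LFc.prT : LFc O prT := by
  unfold PT.prT
  repeat' first
    | exact LFc.id
    | exact LFc.const _
    | apply LFc.sel
    | apply LFc.node
    | apply LFc.hd
    | apply LFc.tl

theorem LFc.fiT : LFc O fiT := by
  unfold PT.fiT
  repeat' first
    | exact LFc.id
    | exact LFc.const _
    | apply LFc.sel
    | apply LFc.node
    | apply LFc.hd
    | apply LFc.tl

/-- `p` halts on `x` with output `y` -/
def Term (O : List Bool → Bool) (p : Prog) (x y : Dat) : Prop := ∃ n, Run O p x y n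

theorem RunLe.term {p : Prog} {x y : Dat} {n : ℕ} (h : RunLe O p x y n) : Term O p x y := by
  obtain ⟨c, _, h⟩ := h
  exact ⟨c, h⟩

theorem Term.runLe {p : Prog} {x y : Dat} (h : Term O p x y) : ∃ n, RunLe O p x y n := by
  obtain ⟨c, h⟩ := h
  exact ⟨c, c, le_rfl, h⟩

theorem Term.comp {p q : Prog} {x y z : Dat} (h1 : Term O p x y) (h2 : Term O q y z) :
    Term O (Prog.comp p q) x z := by
  obtain ⟨c, h1⟩ := h1
  obtain ⟨d, h2⟩ := h2
  exact ⟨_, Run.comp h1 h2⟩

theorem Term.pair {p q : Prog} {x y z : Dat} (h1 : Term O p x y) (h2 : Term O q x z) :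
    Term O (Prog.pair p q) x (node y z) := by
  obtain ⟨c, h1⟩ := h1
  obtain ⟨d, h2⟩ := h2
  exact ⟨_, Run.pair h1 h2⟩

theorem Term.loopStep {p : Prog} {x y z : Dat} (hx : x.hd ≠ leaf) (h1 : Term O p x y)
    (h2 : Term O (Prog.loop p) y z) : Term O (Prog.loop p) x z := by
  obtain ⟨c, h1⟩ := h1
  obtain ⟨d, h2⟩ := h2
  exact ⟨_, Run.loopStep hx h1 h2⟩

/-- Exhaustive search over all strings of length `N`. -/
theorem exists_search (p : Prog) : ∃ q : Prog, ∀ (X : Dat) (N : ℕ) (Q : List Bool → Prop),
    (∀ t : List Bool, t.length = N → ∃ y, Term O p (node X (enc t)) y ∧ (y ≠ leaf ↔ Q t)) →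
    ∀ (M : Dat) (s : List Bool) (rest A R : Dat), M.spine + s.length = N →
      ∀ z, Term O (Prog.loop q) (node rest (node X (node (addL (cnt Q M.spine s) A)
          (addL (cnt (fun t => ¬ Q t) M.spine s) R)))) z →
        Term O (Prog.loop q) (node (node (node M (enc s)) rest) (node X (node A R))) z := by
  obtain ⟨pt, _, ht⟩ := (LFc.tstT (O := O)).run
  obtain ⟨pb, _, hb⟩ := (LFc.brT (O := O)).run
  obtain ⟨pp, _, hpp⟩ := (LFc.prT (O := O)).run
  obtain ⟨pf, _, hf⟩ := (LFc.fiT (O := O)).run
  refine ⟨Prog.ite pt pb (Prog.comp (Prog.pair Prog.id (Prog.comp pp p)) pf), ?_⟩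
  intro X N Q hQ M
  induction M with
  | leaf =>
    intro s rest A R hN z hz
    simp only [spine, zero_add] at hN
    obtain ⟨y, hy, hyQ⟩ := hQ s hN
    refine Term.loopStep (y := fiT (node (node (node (node leaf (enc s)) rest)
      (node X (node A R))) y)) (by simp [Dat.hd]) ?_ ?_
    · have h1 := ht (node (node (node leaf (enc s)) rest) (node X (node A R)))
      have h2 : RunLe O pt (node (node (node leaf (enc s)) rest) (node X (node A R))) leaf _ := h1
      obtain ⟨ny, hy'⟩ := hy.runLe
      have h3 := hpp (node (node (node leaf (enc s)) rest) (node X (node A R)))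
      have h4 : RunLe O pp (node (node (node leaf (enc s)) rest) (node X (node A R)))
        (node X (enc s)) _ := h3
      have h5 := (RunLe.pair ⟨1, le_rfl, Run.id _⟩ (h4.comp hy')).comp (hf _)
      exact (h2.iteFalse h5).term
    · convert hz using 1
      by_cases hq : Q s
      · have hy0 : y ≠ leaf := hyQ.2 hq
        simp only [fiT, Dat.hd, Dat.tl, sel_of_ne hy0, spine, cnt, hq, if_true, not_true,
          if_false, addL, Function.iterate_one, Function.iterate_zero, id]
      · have hy0 : y = leaf := by
          by_contra h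
          exact hq (hyQ.1 h)
        subst hy0
        simp only [fiT, Dat.hd, Dat.tl, sel_leaf, spine, cnt, hq, if_false, not_false_eq_true,
          if_true, addL, Function.iterate_one, Function.iterate_zero, id]
  | node a M _ ih =>
    intro s rest A R hN z hz
    simp only [spine] at hN
    refine Term.loopStep (y := brT (node (node (node (node a M) (enc s)) rest)
      (node X (node A R)))) (by simp [Dat.hd]) ?_ ?_
    · have h1 := ht (node (node (node (node a M) (enc s)) rest) (node X (node A R)))
      have h2 : RunLe O pt (node (node (node (node a M) (enc s)) rest) (node X (node A R)))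
        (node a M) _ := h1
      exact (h2.iteTrue (by simp) (hb _)).term
    · have h1 : brT (node (node (node (node a M) (enc s)) rest) (node X (node A R))) =
        node (node (node M (enc (false :: s))) (node (node M (enc (true :: s))) rest))
          (node X (node A R)) := rfl
      rw [h1]
      refine ih (false :: s) _ A R (by simp; omega) z ?_
      refine ih (true :: s) rest _ _ (by simp; omega) z ?_
      rw [addL_add, addL_add]
      convert hz using 6
      · simp only [spine, cnt]; ring
      · simp only [spine, cnt]; ring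

/-- remove `m` elements -/
def dropT (m : ℕ) (t : Dat) : Dat := (fun a : Dat => a.tl)^[m] t

theorem dropT_ne (m : ℕ) : ∀ (t : Dat), dropT m t ≠ leaf ↔ m < t.spine := by
  unfold dropT
  induction m with
  | zero =>
    intro t
    cases t <;> simp [spine]
  | succ m ih =>
    intro t
    rw [Function.iterate_succ_apply, ih]
    cases t <;> simp [spine, Dat.tl]

/-- Every language decided by a probabilistic program by majority is decidable. -/
theorem exists_decider {p : Prog} {k l : ℕ} (hp : TimeBd O p k l) :
    ∃ q : Prog, ∀ x : List Bool, ∃ y, Term O q (enc x) y ∧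
      (y ≠ leaf ↔ cnt (fun t => ¬ Accepts O p x t) ((x.length + 2) ^ k) [] <
        cnt (Accepts O p x) ((x.length + 2) ^ k) []) := by
  obtain ⟨q, hq⟩ := exists_search (O := O) p
  have hI : Poly O (fun x => node (node (node (powT k x) leaf) leaf)
      (node x (node leaf leaf))) :=
    (((Poly.powT k Poly.id).node (Poly.const leaf)).node (Poly.const leaf)).node
      (Poly.id.node (Poly.const _))
  obtain ⟨pi, ki, hI⟩ := hI
  have hC : Poly O (fun x => dropT x.tl.tl.tl.spine x.tl.tl.hd) :=
    Poly.iterLF LFc.tl' Poly.id.tl.tl.tl Poly.id.tl.tl.hd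
  obtain ⟨pc, kc, hC⟩ := hC
  refine ⟨Prog.comp pi (Prog.comp (Prog.loop q) pc), fun x => ?_⟩
  have h1 := hq (enc x) ((x.length + 2) ^ k) (Accepts O p x) ?_ (powT k (enc x)) [] leaf leaf
    leaf (by rw [spine_powT, spine_enc]; simp) _ ⟨1, Run.loopStop rfl⟩
  · refine ⟨_, (hI (enc x)).term.comp (h1.comp (hC _).term), ?_⟩
    simp only [Dat.hd, Dat.tl, spine_powT, spine_enc, spine_addL, spine, zero_add]
    rw [dropT_ne, spine_addL]
    simp [spine]
  · intro t ht
    obtain ⟨y, hy⟩ := hp x t ht
    refine ⟨y, hy.term, ?_⟩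
    obtain ⟨c, _, hc⟩ := hy
    constructor
    · intro hy0
      cases y with
      | leaf => exact absurd rfl hy0
      | node a b => exact ⟨a, b, c, hc⟩
    · rintro ⟨a, b, n, h⟩
      obtain ⟨h3, _⟩ := hc.det h
      rw [← h3]
      simp

end Pool.Agent.Helper56.PT
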