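import Pool.Agent.Helper56.PT.Base

namespace Pool.Agent.Helper56.PT

open Dat

/-- the probability that a uniformly random string of length `m` satisfies `P` -/
noncomputable def Pr (m : ℕ) (P : List Bool → Prop) : ℝ :=
  (Nat.card {r : Fin m → Bool // P (List.ofFn r)} : ℝ) / 2 ^ m

/-- the program `p` accepts the input `x` with the random string `r`: it halts on the pair
of `x` and `r` and its output is not the leaf -/
def Accepts (O : List Bool → Bool) (p : Prog) (x r : List Bool) : Prop :=
  ∃ (a b : Dat) (n : ℕ), Run O p (node (enc x) (enc r)) (node a b) n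

/-- on inputs `x` with random strings of length `(|x| + 2) ^ k` the program `p` halts within
`(|x| + 2) ^ l` steps -/
def TimeBd (O : List Bool → Bool) (p : Prog) (k l : ℕ) : Prop :=
  ∀ x r : List Bool, r.length = (x.length + 2) ^ k →
    ∃ y, RunLe O p (node (enc x) (enc r)) y ((x.length + 2) ^ l)

/-- the class R relative to the oracle `O` -/
def InR (O : List Bool → Bool) (A : Set (List Bool)) : Prop :=
  ∃ (p : Prog) (k l : ℕ), TimeBd O p k l ∧ ∀ x : List Bool,
    (x ∈ A → 1 / 2 < Pr ((x.length + 2) ^ k) (Accepts O p x)) ∧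
    (x ∉ A → Pr ((x.length + 2) ^ k) (Accepts O p x) = 0)

/-- the class BPP relative to the oracle `O` -/
def InBPP (O : List Bool → Bool) (A : Set (List Bool)) : Prop :=
  ∃ (p : Prog) (k l : ℕ) (e : ℝ), 0 < e ∧ TimeBd O p k l ∧ ∀ x : List Bool,
    1 / 2 + e < Pr ((x.length + 2) ^ k) (fun r => Accepts O p x r ↔ x ∈ A)

/-- the class ZPP relative to the oracle `O` -/
def InZPP (O : List Bool → Bool) (A : Set (List Bool)) : Prop := InR O A ∧ InR O Aᶜ

/-- functions computable in polynomial time relative to the oracle `O` -/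
def PolyFn (O : List Bool → Bool) (f : List Bool → List Bool) : Prop :=
  ∃ (p : Prog) (k : ℕ), ∀ x, RunLe O p (enc x) (enc (f x)) ((x.length + 2) ^ k)

/-- functions computable in time `O(n ^ k)` relative to the oracle `O` -/
def TimeFn (O : List Bool → Bool) (k : ℕ) (f : List Bool → List Bool) : Prop :=
  ∃ (p : Prog) (c : ℕ), ∀ x, RunLe O p (enc x) (enc (f x)) (c * (x.length + 2) ^ k)

end Pool.Agent.Helper56.PT
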