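import Pool.Agent.Helper56.PT.Dec

namespace Pool.Agent.Helper56.PT

open Dat

variable {O : List Bool → Bool}

theorem decT_eq_of (κ : List Bool) (p : Prog) (c : ℕ)
    (h : κ = List.replicate c false ++ post (code p)) : decT (enc κ) = code p := by
  rw [h, decT_post]

/-- The value of the (clocked) reduction number `κ` on `y`. -/
noncomputable def redV (O : List Bool → Bool) (k : ℕ) (κ y : List Bool) : List Bool :=
  bitsOf (simN O (κ.length * (y.length + 2) ^ k) (decT (enc κ)) (enc y)).tl.hd

/-- the delayed diagonal function, on trees -/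
noncomputable def diaT (O : List Bool → Bool) (k : ℕ) (Z : Prog) (a₀ a₁ : List Bool) (x : Dat) : Dat :=
  sel (simN O (parseT x).tl.hd.spine (code Z) (parseT x).tl.tl).hd
    (canonT (simN O (mulT (parseT x).tl.tl
        (powT k (rebT (parseT x).tl.tl (node leaf (node leaf (parseT x).tl.hd))))).spine
      (decT (parseT x).tl.tl)
      (rebT (parseT x).tl.tl (node leaf (node leaf (parseT x).tl.hd)))).tl.hd)
    (sel (simN O (parseT x).tl.hd.spine (code Z) (parseT x).tl.tl).tl.hd (enc a₀) (enc a₁))

theorem poly_diaT (k : ℕ) (Z : Prog) (a₀ a₁ : List Bool) {X : Dat → Dat} (hX : Poly O X) :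
    Poly O (fun x => diaT O k Z a₀ a₁ (X x)) := by
  have hP : Poly O (fun x => parseT (X x)) := Poly.parseT hX
  have hS : Poly O (fun x => simN O (parseT (X x)).tl.hd.spine (code Z) (parseT (X x)).tl.tl) :=
    Poly.simN hP.tl.hd (Poly.const _) hP.tl.tl
  have hR : Poly O (fun x => rebT (parseT (X x)).tl.tl
      (node leaf (node leaf (parseT (X x)).tl.hd))) :=
    Poly.rebT hP.tl.tl ((Poly.const leaf).node ((Poly.const leaf).node hP.tl.hd))
  exact Poly.sel hS.hd
    (Poly.canonT (Poly.simN (Poly.mulT hP.tl.tl (Poly.powT k hR)) (Poly.decT hP.tl.tl) hR).tl.hd)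
    (Poly.sel hS.tl.hd (Poly.const _) (Poly.const _))

/-- the inputs of the chain of number `κ` -/
def chn (κ : List Bool) (j : ℕ) : List Bool := dblr κ ++ false :: List.replicate j false

theorem diaT_chn (k : ℕ) (Z : Prog) (a₀ a₁ κ : List Bool) (j : ℕ) :
    diaT O k Z a₀ a₁ (enc (chn κ j)) =
      sel (simN O j (code Z) (enc κ)).hd (enc (redV O k κ (chn κ (j + 1))))
        (sel (simN O j (code Z) (enc κ)).tl.hd (enc a₀) (enc a₁)) := by
  have hp := parse_eq κ (List.replicate j false)
  have hr : rebT (enc κ) (node leaf (node leaf (enc (List.replicate j false)))) =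
      enc (chn κ (j + 1)) := rebT_eq κ (false :: false :: List.replicate j false)
  rw [diaT, chn, hp]
  simp only [Dat.hd, Dat.tl]
  rw [hr, canonT_eq, spine_mulT, spine_powT, spine_enc, spine_enc, spine_enc,
    List.length_replicate]
  rfl

theorem diaT_range (k : ℕ) (Z : Prog) (a₀ a₁ : List Bool) (x : Dat) :
    ∃ z, diaT O k Z a₀ a₁ x = enc z := by
  rw [diaT, canonT_eq]
  generalize (simN O (parseT x).tl.hd.spine (code Z) (parseT x).tl.tl) = u
  cases h1 : u.hd with
  | leaf =>
    rw [sel_leaf]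
    cases h2 : u.tl.hd with
    | leaf => exact ⟨_, rfl⟩
    | node a b => exact ⟨_, rfl⟩
  | node a b => exact ⟨_, rfl⟩

/-- Below every nontrivial decidable set there is, for polynomial time many-one reductions, a set
that is not reducible to it in time `O(n ^ k)`. -/
theorem exists_not_reducible (k : ℕ) {A : Set (List Bool)} {D : Prog}
    (hD : ∀ x : List Bool, ∃ y, Term O D (enc x) y ∧ (y ≠ leaf ↔ x ∈ A))
    {a₀ a₁ : List Bool} (h₀ : a₀ ∉ A) (h₁ : a₁ ∈ A) :
    ∃ F : List Bool → List Bool, PolyFn O F ∧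
      ∀ f : List Bool → List Bool, TimeFn O k f → ¬ ∀ x, F x ∈ A ↔ f x ∈ A := by
  -- the program that evaluates the decision at the beginning of the chain
  have hZ0 : Poly O (fun x => canonT (simN O (mulT x (powT k (rebT x (node leaf leaf)))).spine
      (decT x) (rebT x (node leaf leaf))).tl.hd) := by
    have hR : Poly O (fun x => rebT x (node leaf leaf)) := Poly.rebT Poly.id (Poly.const _)
    exact Poly.canonT (Poly.simN (Poly.mulT Poly.id (Poly.powT k hR)) (Poly.decT Poly.id) hR).tl.hd
  obtain ⟨z0, kz, hZ0⟩ := hZ0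
  have hZ1 : ∀ κ : List Bool, RunLe O z0 (enc κ) (enc (redV O k κ (chn κ 0)))
      (((enc κ).depth + 2) ^ kz) := by
    intro κ
    have h := hZ0 (enc κ)
    have hr : rebT (enc κ) (node leaf leaf) = enc (chn κ 0) := rebT_eq κ [false]
    simp only [canonT_eq, hr, spine_mulT, spine_powT, spine_enc] at h
    exact h
  -- the decision program
  have hZ : ∀ κ : List Bool, ∃ y, Term O (Prog.comp z0 D) (enc κ) y ∧
      (y ≠ leaf ↔ redV O k κ (chn κ 0) ∈ A) := fun κ => by
    obtain ⟨y, hy, hyA⟩ := hD (redV O k κ (chn κ 0))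
    exact ⟨y, (hZ1 κ).term.comp hy, hyA⟩
  set Z := Prog.comp z0 D with hZdef
  have hFenc : ∀ t, enc (bitsOf (diaT O k Z a₀ a₁ t)) = diaT O k Z a₀ a₁ t := fun t => by
    obtain ⟨z, hz⟩ := diaT_range (O := O) k Z a₀ a₁ t
    rw [hz, bitsOf_enc]
  refine ⟨fun x => bitsOf (diaT O k Z a₀ a₁ (enc x)), ?_, ?_⟩
  · apply PolyFn.of_poly
    have h1 : Poly O (fun t => diaT O k Z a₀ a₁ (canonT t)) :=
      poly_diaT k Z a₀ a₁ (Poly.canonT Poly.id)
    have h2 : (fun t => enc (bitsOf (diaT O k Z a₀ a₁ (enc (bitsOf t))))) =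
        fun t => diaT O k Z a₀ a₁ (canonT t) := by
      funext t
      rw [hFenc, canonT_eq]
    rw [h2]
    exact h1
  · rintro f ⟨p, c, hf⟩ hred0
    have hred : ∀ x, bitsOf (diaT O k Z a₀ a₁ (enc x)) ∈ A ↔ f x ∈ A := hred0
    -- the number of the reduction
    set κ : List Bool := List.replicate (3 * c) false ++ post (code p) with hκ
    have hdec : decT (enc κ) = code p := decT_post _ _
    have hlen : 3 * c ≤ κ.length := by simp [hκ]
    have hV : ∀ y, redV O k κ y = f y := by
      intro y
      rw [redV, hdec, simN_of_run (hf y)]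
      · simp only [Dat.tl, Dat.hd, bitsOf_enc]
      · rw [← mul_assoc]
        exact Nat.mul_le_mul_right _ hlen
    -- halting time of the decision program
    obtain ⟨y, hy, hyA⟩ := hZ κ
    obtain ⟨n, hn⟩ := hy.runLe
    have hhalt := simN_of_run (m := 3 * n) hn le_rfl
    have hex : ∃ j, (simN O j (code Z) (enc κ)).hd = leaf := ⟨3 * n, by rw [hhalt]; rfl⟩
    classical
    set b := Nat.find hex with hb
    have hb1 : (simN O b (code Z) (enc κ)).hd = leaf := Nat.find_spec hex
    have hb2 : ∀ j < b, (simN O j (code Z) (enc κ)).hd ≠ leaf := fun j hj => Nat.find_min hex hj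
    have hb3 : (simN O b (code Z) (enc κ)).tl.hd = y := by
      have h1 := simN_halted hb1 (m' := max b (3 * n)) (le_max_left _ _)
      have h2 := simN_halted (by rw [hhalt]; rfl : (simN O (3 * n) (code Z) (enc κ)).hd = leaf)
        (m' := max b (3 * n)) (le_max_right _ _)
      rw [← h1, h2, hhalt]
      rfl
    -- the chain
    have hstep : ∀ j < b, (f (chn κ j) ∈ A ↔ f (chn κ (j + 1)) ∈ A) := by
      intro j hj
      rw [← hred (chn κ j), diaT_chn, sel_of_ne (hb2 j hj), bitsOf_enc, hV]
    have hall : ∀ j ≤ b, (f (chn κ 0) ∈ A ↔ f (chn κ j) ∈ A) := by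
      intro j
      induction j with
      | zero => intro _; exact Iff.rfl
      | succ j ih => intro hj; exact (ih (by omega)).trans (hstep j (by omega))
    have htop := hred (chn κ b)
    rw [diaT_chn, hb1, sel_leaf, hb3, ← hall b le_rfl, ← hV (chn κ 0), ← hyA] at htop
    by_cases hy0 : y = leaf
    · rw [hy0, sel_leaf, bitsOf_enc] at htop
      exact absurd (htop.1 h₁) (by simp)
    · rw [sel_of_ne hy0, bitsOf_enc] at htop
      exact h₀ (htop.2 hy0)

end Pool.Agent.Helper56.PT
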