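import Pool.Agent.Helper56.PT.Ga

/-!
The fourth construction: blocks that code the languages of a list of indices.
-/

set_option autoImplicit false

namespace Pool.Agent.Helper56.PT.Fw

open Dat

/-! ### coding blocks -/

/-- `w` belongs to a coding block of the index `E` with input `y` -/
def IsB (w : List Bool) (E : Ix) (y : List Bool) : Prop :=
  ∃ (s : ℕ) (r : List Bool), r.length = ((cs E s y).length + 2) ^ 5 ∧ w = st kP (cs E s y) r

theorem cs_inj {E E' : Ix} {s s' : ℕ} {y y' : List Bool} (h : cs E s y = cs E' s' y') :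
    E = E' ∧ y = y' := IsC.inj (w := cs E s y) ⟨s, rfl⟩ ⟨s', h⟩

theorem IsB.inj {w y y' : List Bool} {E E' : Ix} (h : IsB w E y) (h' : IsB w E' y') :
    E = E' ∧ y = y' := by
  obtain ⟨s, r, _, rfl⟩ := h
  obtain ⟨s', r', _, h'⟩ := h'
  exact cs_inj (st_inj h').2.1

theorem IsB.lt {w y : List Bool} {E : Ix} (h : IsB w E y) : bz E y ^ 7 + 2 ≤ w.length := by
  obtain ⟨s, r, _, rfl⟩ := h
  have h1 := IsC.lt (w := cs E s y) ⟨s, rfl⟩
  rw [length_st]
  omega

theorem IsB.bz_lt {w y : List Bool} {E : Ix} (h : IsB w E y) : bz E y < w.length := by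
  have h1 := h.lt
  have h2 := bz_le_pow E y
  omega

theorem not_IsB_T {m : ℕ} {b : Bool} {x r y : List Bool} {E : Ix} :
    ¬ IsB (st (kT m b) x r) E y := by
  rintro ⟨s, r', _, h⟩
  exact kP_ne_kT _ _ (st_inj h).1.symm

theorem not_IsB_TB {m : ℕ} {x w y : List Bool} {E : Ix} (h : w ∈ TB m x) : ¬ IsB w E y := by
  obtain ⟨r, hr, rfl⟩ := mem_TB.1 h
  exact not_IsB_T

/-- `w` is a coding string of an index in `Q` -/
def Cod (Q : Finset Ix) (w : List Bool) : Prop := ∃ E ∈ Q, ∃ y : List Bool, IsB w E y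

theorem not_Cod_TB {Q : Finset Ix} {m : ℕ} {x w : List Bool} (h : w ∈ TB m x) : ¬ Cod Q w := by
  rintro ⟨E, _, y, h1⟩
  exact not_IsB_TB h h1

theorem not_Cod_T {Q : Finset Ix} {m : ℕ} {b : Bool} {x r : List Bool} :
    ¬ Cod Q (st (kT m b) x r) := by
  rintro ⟨E, _, y, h1⟩
  exact not_IsB_T h1

/-! ### densities -/

/-- density of a block -/
noncomputable def dn (O : List Bool → Bool) (κ u : List Bool) : ℝ :=
  Pr ((u.length + 2) ^ 5) (fun r => O (st κ u r) = true)

theorem dn_congr' {O O' : List Bool → Bool} {κ u : List Bool}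
    (h : ∀ r : List Bool, r.length = (u.length + 2) ^ 5 → O (st κ u r) = O' (st κ u r)) :
    dn O κ u = dn O' κ u := Pr_congr (fun r hr => by rw [h r hr])

theorem dn_congr {O O' : List Bool → Bool} {κ u : List Bool} (h : Ag (b5 κ u + 1) O O') :
    dn O κ u = dn O' κ u :=
  dn_congr' (fun r hr => h _ (by rw [length_st5 hr]; omega))

theorem dn_zero {O : List Bool → Bool} {κ u : List Bool}
    (h : ∀ r : List Bool, r.length = (u.length + 2) ^ 5 → O (st κ u r) = false) :
    dn O κ u = 0 := Pr_false _ (fun r hr h1 => by rw [h r hr] at h1; simp at h1)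

theorem dn_one {O : List Bool → Bool} {κ u : List Bool}
    (h : ∀ r : List Bool, r.length = (u.length + 2) ^ 5 → O (st κ u r) = true) :
    dn O κ u = 1 := Pr_true _ (fun r hr => h r hr)

/-- nearly all strings -/
theorem dn_large {O : List Bool → Bool} {κ u : List Bool} {C : Finset (List Bool)} {n : ℕ}
    (hC : 4 * C.card < 2 ^ (n / 2)) (hn : n / 2 ≤ (u.length + 2) ^ 5)
    (h : ∀ r : List Bool, r.length = (u.length + 2) ^ 5 → O (st κ u r) = false →
      st κ u r ∈ C) : 3 / 4 < dn O κ u := by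
  have h1 := Pr_add_not ((u.length + 2) ^ 5) (fun r => O (st κ u r) = true)
  have h2 : Pr ((u.length + 2) ^ 5) (fun r => ¬ O (st κ u r) = true) < 1 / 4 := by
    refine lt_of_le_of_lt (Pr_mono (Q := fun r => st κ u r ∈ C) (fun r hr h1 =>
      h r hr (by simpa using h1))) (Pr_small hC hn κ u)
  rw [dn]
  linarith

/-- few strings -/
theorem dn_small {O : List Bool → Bool} {κ u : List Bool} {C : Finset (List Bool)} {n : ℕ}
    (hC : 4 * C.card < 2 ^ (n / 2)) (hn : n / 2 ≤ (u.length + 2) ^ 5)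
    (h : ∀ r : List Bool, r.length = (u.length + 2) ^ 5 → O (st κ u r) = true →
      st κ u r ∈ C) : dn O κ u < 1 / 4 :=
  lt_of_le_of_lt (Pr_mono (fun r hr h1 => h r hr h1)) (Pr_small hC hn κ u)

/-! ### tests -/

/-- indices of test sets: pairs of machines for ZPP, machines for R, machines for BPP -/
abbrev JJ : Type := PD ⊕ Jx

/-- numbers of test sets -/
noncomputable def nK : JJ → ℕ := (Countable.exists_injective_nat JJ).choose

theorem nK_injective : Function.Injective nK := (Countable.exists_injective_nat JJ).choose_spec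

/-- the test blocks of an index are as they should be -/
def OkT : JJ → (List Bool → Bool) → List Bool → Prop
  | Sum.inl P, O, x =>
      (1 / 2 < dn O (kT (nK (Sum.inl P)) false) x ∧ dn O (kT (nK (Sum.inl P)) true) x = 0) ∨
      (1 / 2 < dn O (kT (nK (Sum.inl P)) true) x ∧ dn O (kT (nK (Sum.inl P)) false) x = 0)
  | Sum.inr (Sum.inl ρ), O, x => dn O (kT (nK (Sum.inr (Sum.inl ρ))) true) x = 0 ∨
      1 / 2 < dn O (kT (nK (Sum.inr (Sum.inl ρ))) true) x
  | Sum.inr (Sum.inr β), O, x => dn O (kT (nK (Sum.inr (Sum.inr β))) true) x < 1 / 4 ∨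
      3 / 4 < dn O (kT (nK (Sum.inr (Sum.inr β))) true) x

/-- the index shows that `A` is in ZPP, in R or in BPP -/
def ViaK : JJ → (List Bool → Bool) → Set (List Bool) → Prop
  | Sum.inl P, O, A => ViaZ O P A
  | Sum.inr j, O, A => ViaJ j O A

/-- the index shows nothing -/
def DeadK (j : JJ) (O : List Bool → Bool) : Prop := ∀ A : Set (List Bool), ¬ ViaK j O A

theorem b5_kT (m : ℕ) (b b' : Bool) (x : List Bool) : b5 (kT m b) x = b5 (kT m b') x := by
  rw [b5, b5, length_kT, length_kT]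

theorem OkT_congr' {j : JJ} {O O' : List Bool → Bool} {x : List Bool}
    (h : ∀ (b : Bool) (r : List Bool), r.length = (x.length + 2) ^ 5 →
      O (st (kT (nK j) b) x r) = O' (st (kT (nK j) b) x r)) (hO : OkT j O x) : OkT j O' x := by
  have h1 : ∀ b, dn O (kT (nK j) b) x = dn O' (kT (nK j) b) x := fun b => dn_congr' (h b)
  rcases j with P | ρ | β
  · rw [OkT, ← h1, ← h1]
    exact hO
  · rw [OkT, ← h1]
    exact hO
  · rw [OkT, ← h1]
    exact hO

theorem OkT_congr {j : JJ} {O O' : List Bool → Bool} {x : List Bool}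
    (h : Ag (b5 (kT (nK j) true) x + 1) O O') (hO : OkT j O x) : OkT j O' x :=
  OkT_congr' (fun b r hr => h _ (by rw [length_st5 hr, b5_kT _ b true]; omega)) hO

/-- the fourth construction -/
noncomputable def SF : Sys where
  I := Ix
  U := List Bool
  T := JJ × List Bool
  C := ℕ × List Bool
  Y := List Bool
  lnU u := b5 kP u
  okU u O := dn O kP u = 0 ∨ 1 / 2 < dn O kP u
  lnT t := b5 (kT (nK t.1) true) t.2
  okT t O := OkT t.1 O t.2
  dT t O := DeadK t.1 O
  lnC E c := b5 kP (cs E c.1 c.2)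
  okC E c O := Leg O E c.2 → (Val O E c.2 → 1 / 2 < dn O kP (cs E c.1 c.2)) ∧
    (¬ Val O E c.2 → dn O kP (cs E c.1 c.2) = 0)
  lnY E y := bz E y + 1
  leg E y O := Leg O E y
  hU u O O' h := by
    rw [dn_congr h]
    exact id
  hT t O O' h := OkT_congr h
  hC E c O O' h := by
    have hb : ∀ v : List Bool, v.length ≤ bz E c.2 → O v = O' v := fun v hv => h v (by
      have h1 := IsC.bz_lt (w := cs E c.1 c.2) ⟨c.1, rfl⟩
      have h2 : (cs E c.1 c.2).length ≤ b5 kP (cs E c.1 c.2) := by rw [b5]; omega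
      omega)
    rw [dn_congr h, Leg_congr hb, Val_congr hb]
    exact id
  hY E y O O' h hl := (Leg_congr (fun v hv => h v (by omega))).1 hl

/-! ### completions -/

open Classical in
/-- the completion of an initial segment with contents `c` and forced zeros `Z` -/
noncomputable def Rc (O : List Bool → Bool) (L : ℕ) (Q : Finset Ix) (c : List Bool → Bool)
    (Z : Finset (List Bool)) (w : List Bool) : Bool :=
  if w.length < L then O w
  else if Cod Q w then decide (w ∉ Z ∧ ∃ (E : Ix) (y : List Bool), IsB w E y ∧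
    Val (fun v => if _ : v.length < w.length then Rc O L Q c Z v else false) E y)
  else c w
termination_by w.length

section rc

variable {O : List Bool → Bool} {L : ℕ} {Q : Finset Ix} {c : List Bool → Bool}
  {Z : Finset (List Bool)}

theorem Rc_low {w : List Bool} (h : w.length < L) : Rc O L Q c Z w = O w := by
  rw [Rc, if_pos h]

theorem Rc_other {w : List Bool} (h : L ≤ w.length) (h2 : ¬ Cod Q w) :
    Rc O L Q c Z w = c w := by
  rw [Rc, if_neg (not_lt.2 h), if_neg h2]

open Classical in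
theorem Rc_Cod {w y : List Bool} {E : Ix} (h : L ≤ w.length) (hE : E ∈ Q) (hw : IsB w E y) :
    Rc O L Q c Z w = true ↔ w ∉ Z ∧ Val (Rc O L Q c Z) E y := by
  have hcod : Cod Q w := ⟨E, hE, y, hw⟩
  rw [Rc, if_neg (not_lt.2 h), if_pos hcod, decide_eq_true_eq]
  have hv : Val (fun v => if _ : v.length < w.length then Rc O L Q c Z v else false) E y ↔
      Val (Rc O L Q c Z) E y := Val_congr (fun v hv => by
    have := hw.bz_lt
    rw [dif_pos (by omega)])
  constructor
  · rintro ⟨h1, E', y', h2, h3⟩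
    obtain ⟨rfl, rfl⟩ := hw.inj h2
    exact ⟨h1, hv.1 h3⟩
  · rintro ⟨h1, h2⟩
    exact ⟨h1, E, y, hw, hv.2 h2⟩

/-- two completions agree below a length if the contents do -/
theorem Rc_congr {c' : List Bool → Bool} {Z' : Finset (List Bool)} {n : ℕ}
    (hc : ∀ w : List Bool, w.length < n → c w = c' w)
    (hZ : ∀ w : List Bool, w.length < n → (w ∈ Z ↔ w ∈ Z')) :
    ∀ (l : ℕ) (w : List Bool), w.length = l → w.length < n →
      Rc O L Q c Z w = Rc O L Q c' Z' w := by
  intro l
  induction l using Nat.strong_induction_on with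
  | _ l ih =>
    intro w hw hn
    by_cases h1 : w.length < L
    · rw [Rc_low h1, Rc_low h1]
    · rw [not_lt] at h1
      by_cases h2 : Cod Q w
      · obtain ⟨E, hE, y, hy⟩ := h2
        rw [Bool.eq_iff_iff, Rc_Cod h1 hE hy, Rc_Cod h1 hE hy, hZ w hn]
        refine and_congr_right (fun _ => Val_congr (fun v hv => ?_))
        have := hy.bz_lt
        exact ih v.length (by omega) v rfl (by omega)
      · rw [Rc_other h1 h2, Rc_other h1 h2, hc w hn]

theorem Rc_rule {E : Ix} {s : ℕ} {y : List Bool} (hE : E ∈ Q) (hL : L ≤ b5 kP (cs E s y))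
    {n : ℕ} (hZ : ∀ w ∈ Z, n ≤ w.length) (hZc : 4 * Z.card < 2 ^ (n / 2)) :
    (Val (Rc O L Q c Z) E y → 3 / 4 < dn (Rc O L Q c Z) kP (cs E s y)) ∧
      (¬ Val (Rc O L Q c Z) E y → dn (Rc O L Q c Z) kP (cs E s y) = 0) := by
  have hR : ∀ r : List Bool, r.length = ((cs E s y).length + 2) ^ 5 →
      (Rc O L Q c Z (st kP (cs E s y) r) = true ↔
        st kP (cs E s y) r ∉ Z ∧ Val (Rc O L Q c Z) E y) := fun r hr =>
    Rc_Cod (by rw [length_st5 hr]; exact hL) hE ⟨s, r, hr, rfl⟩
  constructor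
  · intro hv
    by_cases hn : n ≤ b5 kP (cs E s y)
    · refine dn_large hZc (half_le5 hn) (fun r hr h => ?_)
      by_contra h2
      rw [(hR r hr).2 ⟨h2, hv⟩] at h
      simp at h
    · rw [dn_one (fun r hr => (hR r hr).2 ⟨fun h => hn ?_, hv⟩)]
      · norm_num
      · have := hZ _ h
        rw [length_st5 hr] at this
        exact this
  · intro hv
    refine dn_zero (fun r hr => ?_)
    rw [Bool.eq_false_iff]
    intro h
    exact hv ((hR r hr).1 h).2

theorem Rc_U {n : ℕ} (hc : ∀ u r : List Bool, r.length = (u.length + 2) ^ 5 →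
    c (st kP u r) = false) (hZ : ∀ w ∈ Z, n ≤ w.length) (hZc : 4 * Z.card < 2 ^ (n / 2))
    {u : List Bool} (hu : L ≤ b5 kP u) :
    dn (Rc O L Q c Z) kP u = 0 ∨ 1 / 2 < dn (Rc O L Q c Z) kP u := by
  by_cases h : ∃ E ∈ Q, ∃ (s : ℕ) (y : List Bool), u = cs E s y
  · obtain ⟨E, hE, s, y, rfl⟩ := h
    obtain ⟨h1, h2⟩ := Rc_rule (O := O) (c := c) hE hu hZ hZc
    by_cases hv : Val (Rc O L Q c Z) E y
    · exact Or.inr (by have := h1 hv; linarith)
    · exact Or.inl (h2 hv)
  · left
    refine dn_zero (fun r hr => ?_)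
    rw [Rc_other (by rw [length_st5 hr]; exact hu), hc u r hr]
    rintro ⟨E, hE, y, s, r', _, h1⟩
    exact h ⟨E, hE, s, y, (st_inj h1).2.1⟩

theorem Rc_T {j : JJ} {x : List Bool} (hL : L ≤ b5 (kT (nK j) true) x) :
    OkT j (Rc O L Q c Z) x ↔ OkT j c x := by
  have h : ∀ (b : Bool) (r : List Bool), r.length = (x.length + 2) ^ 5 →
      Rc O L Q c Z (st (kT (nK j) b) x r) = c (st (kT (nK j) b) x r) := fun b r hr =>
    Rc_other (by rw [length_st5 hr, b5_kT _ b true]; exact hL) not_Cod_T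
  exact ⟨OkT_congr' h, OkT_congr' (fun b r hr => (h b r hr).symm)⟩

theorem Rc_Ag {l : ℕ} (hl : l ≤ L) : Ag l (Rc O L Q c Z) O := fun w hw => Rc_low (by omega)

/-- completions are well-formed -/
theorem Rc_ext {n : ℕ} (hc : ∀ u r : List Bool, r.length = (u.length + 2) ^ 5 →
    c (st kP u r) = false) (hZ : ∀ w ∈ Z, n ≤ w.length) (hZc : 4 * Z.card < 2 ^ (n / 2))
    (hT : ∀ (j : JJ) (x : List Bool), L ≤ b5 (kT (nK j) true) x → OkT j c x) :
    SF.Ext O L Q (Rc O L Q c Z) where
  agr := Rc_Ag le_rfl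
  u u hu := Rc_U hc hZ hZc hu
  t t ht := (Rc_T ht).2 (hT t.1 t.2 ht)
  c E hE c' hc' _ := by
    obtain ⟨h1, h2⟩ := Rc_rule (O := O) (c := c) (s := c'.1) (y := c'.2) hE hc' hZ hZc
    exact ⟨fun hv => by have := h1 hv; linarith, h2⟩

/-- completions as good states, with a dead test -/
theorem Rc_good {n : ℕ} (hG : SF.Good O L) (hc : ∀ u r : List Bool,
    r.length = (u.length + 2) ^ 5 → c (st kP u r) = false) (hZ : ∀ w ∈ Z, n ≤ w.length)
    (hZc : 4 * Z.card < 2 ^ (n / 2)) {N : ℕ} (hLN : L ≤ N)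
    (hT : ∀ (j : JJ) (x : List Bool), L ≤ b5 (kT (nK j) true) x → OkT j c x ∨
      ∀ O' : List Bool → Bool, Ag N O' (Rc O L Q c Z) → DeadK j O') :
    SF.Good (Rc O L Q c Z) N where
  u u hu := by
    by_cases h1 : b5 kP u < L
    · exact SF.hU u O _ ((Rc_Ag (l := b5 kP u + 1) (by omega)).symm) (hG.u u h1)
    · exact Rc_U hc hZ hZc (not_lt.1 h1)
  t t ht := by
    by_cases h1 : b5 (kT (nK t.1) true) t.2 < L
    · rcases hG.t t h1 with h2 | h2
      · exact Or.inl (SF.hT t O _ ((Rc_Ag (l := b5 (kT (nK t.1) true) t.2 + 1)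
          (by omega)).symm) h2)
      · exact Or.inr (fun O' hagr => h2 O' ((hagr.mono hLN).trans (Rc_Ag le_rfl)))
    · rcases hT t.1 t.2 (not_lt.1 h1) with h2 | h2
      · exact Or.inl ((Rc_T (not_lt.1 h1)).2 h2)
      · exact Or.inr h2

theorem Rc_stp {n : ℕ} (hZ : ∀ w ∈ Z, n ≤ w.length) (hZc : 4 * Z.card < 2 ^ (n / 2)) {N : ℕ}
    (hLN : L ≤ N) : SF.Stp O L Q (Rc O L Q c Z) N Q where
  le := hLN
  agr := Rc_Ag le_rfl
  sub := Finset.Subset.refl _
  c E hE c' hc' _ _ := by
    obtain ⟨h1, h2⟩ := Rc_rule (O := O) (c := c) (s := c'.1) (y := c'.2) hE hc' hZ hZc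
    exact ⟨fun hv => by have := h1 hv; linarith, h2⟩
  ill E hE hE' := absurd hE hE'

end rc

/-! ### the default contents -/

open Classical in
/-- false-blocks are full, everything else is empty -/
noncomputable def c0 (w : List Bool) : Bool :=
  decide (∃ (m : ℕ) (x r : List Bool), w = st (kT m false) x r)

open Classical in
theorem c0_P (u r : List Bool) : c0 (st kP u r) = false := by
  rw [c0, decide_eq_false_iff_not]
  rintro ⟨m, x, r', h⟩
  exact kP_ne_kT _ _ (st_inj h).1

open Classical in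
theorem c0_T0 (m : ℕ) (x r : List Bool) : c0 (st (kT m false) x r) = true := by
  rw [c0, decide_eq_true_eq]
  exact ⟨m, x, r, rfl⟩

open Classical in
theorem c0_T1 (m : ℕ) (x r : List Bool) : c0 (st (kT m true) x r) = false := by
  rw [c0, decide_eq_false_iff_not]
  rintro ⟨m', x', r', h⟩
  have := (kT_inj (st_inj h).1).2
  simp at this

theorem OkT_c0 (j : JJ) (x : List Bool) : OkT j c0 x := by
  have h0 : ∀ m, dn c0 (kT m false) x = 1 := fun m => dn_one (fun r _ => c0_T0 m x r)
  have h1 : ∀ m, dn c0 (kT m true) x = 0 := fun m => dn_zero (fun r _ => c0_T1 m x r)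
  rcases j with P | ρ | β
  · left
    rw [h0, h1]
    norm_num
  · left
    exact h1 _
  · left
    rw [h1]
    norm_num

end Pool.Agent.Helper56.PT.Fw
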