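import Pool.Agent.Helper56.PT.Fa

/-!
Functions of the content of a test block which predict the coded answers.
-/

set_option autoImplicit false

namespace Pool.Agent.Helper56.PT.Fw

open Dat

/-- numbers of test sets -/
noncomputable def nJ' (j : Jx) : ℕ := nK (Sum.inr j)

open Classical in
/-- an oracle with the content `u` and predicted answers `G` -/
noncomputable def Oh (δ : List Bool → Bool) (Q : Finset Ix) (m : ℕ) (x : List Bool)
    (G : List Bool → Finset (List Bool) → Bool) (u : Finset (List Bool)) (w : List Bool) : Bool :=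
  if w ∈ TB m x then decide (w ∈ u)
  else if x.length ≤ w.length ∧ Cod Q w then G w u
  else δ w

/-- certificates for acceptance -/
def BC (Ψ : Finset (List Bool) → List Bool → Bool) (E : Ix) (y : List Bool) : Set Crt :=
  {b | b.1.card ≤ bz E y ^ 2 ∧ ∃ r : List Bool, r.length = mM (fs E) y ∧
    ∀ u, Agr b.1 b.2 u → AccS (Ψ u) (fs E).1 y r (tT (fs E) y)}

/-- certificates against acceptance -/
def AC (Ψ : Finset (List Bool) → List Bool → Bool) (E : Ix) (y : List Bool) : Set Crt :=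
  {c | c.1.card ≤ bz E y ^ 4 ∧ ∀ b ∈ BC Ψ E y, Conf c b}

theorem BC_congr {Ψ Ψ' : Finset (List Bool) → List Bool → Bool} {E : Ix} {y : List Bool}
    (h : ∀ u (v : List Bool), v.length ≤ bz E y → Ψ u v = Ψ' u v) : BC Ψ E y = BC Ψ' E y := by
  ext b
  simp only [BC, Set.mem_ofPred_eq]
  refine and_congr_right (fun _ => exists_congr (fun r => and_congr_right (fun hr =>
    forall_congr' (fun u => imp_congr_right (fun _ => ?_)))))
  refine AccS_congr (fun v hv => h u v (hv.trans ?_))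
  rw [hr]
  exact qbr_fs_le E y

theorem AC_congr {Ψ Ψ' : Finset (List Bool) → List Bool → Bool} {E : Ix} {y : List Bool}
    (h : ∀ u (v : List Bool), v.length ≤ bz E y → Ψ u v = Ψ' u v) : AC Ψ E y = AC Ψ' E y := by
  rw [AC, AC, BC_congr h]

/-- `g` predicts the coded answer -/
def TreeF (Ψ : Finset (List Bool) → List Bool → Bool) (w : List Bool)
    (g : Finset (List Bool) → Bool) : Prop :=
  ∀ (E : Ix) (y : List Bool), IsB w E y →
    (∀ u, ∃ S : Finset (List Bool), S.card ≤ w.length ∧ ∀ u', Agr S u' u → g u' = g u) ∧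
    ∀ u, (∀ c ∈ AC Ψ E y, Agr c.1 c.2 u → g u = false) ∧
      (∀ b ∈ BC Ψ E y, Agr b.1 b.2 u → g u = true)

theorem exists_treeF (Ψ : Finset (List Bool) → List Bool → Bool) (w : List Bool) :
    ∃ g, TreeF Ψ w g := by
  by_cases h : ∃ (E : Ix) (y : List Bool), IsB w E y
  · obtain ⟨E, y, hw⟩ := h
    obtain ⟨g, h1, h2⟩ := exists_tree (A := AC Ψ E y) (B := BC Ψ E y) (c0 := bz E y ^ 4)
      (c1 := bz E y ^ 2) (fun c hc => hc.1) (fun b hb => hb.1) (fun c hc b hb => hc.2 b hb)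
    refine ⟨g, fun E' y' hw' => ?_⟩
    obtain ⟨rfl, rfl⟩ := hw.inj hw'
    refine ⟨fun u => ?_, h2⟩
    obtain ⟨S, hS1, hS2⟩ := h1 u
    refine ⟨S, hS1.trans ?_, hS2⟩
    have h3 := hw.lt
    have h4 : bz E y ^ 4 * bz E y ^ 2 ≤ bz E y ^ 7 := by
      rw [← pow_add]
      exact Nat.pow_le_pow_right (by have := bz_ge E y; omega) (by norm_num)
    omega
  · exact ⟨fun _ => false, fun E y hw => absurd ⟨E, y, hw⟩ h⟩

theorem TreeF_congr {Ψ Ψ' : Finset (List Bool) → List Bool → Bool} {w : List Bool}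
    {g : Finset (List Bool) → Bool}
    (h : ∀ u (v : List Bool), v.length < w.length → Ψ u v = Ψ' u v) (hT : TreeF Ψ w g) :
    TreeF Ψ' w g := by
  intro E y hw
  have h1 : ∀ u (v : List Bool), v.length ≤ bz E y → Ψ u v = Ψ' u v := fun u v hv =>
    h u v (lt_of_le_of_lt hv hw.bz_lt)
  rw [← AC_congr h1, ← BC_congr h1]
  exact hT E y hw

/-- the predictions -/
noncomputable def Gd (δ : List Bool → Bool) (Q : Finset Ix) (m : ℕ) (x : List Bool)
    (w : List Bool) : Finset (List Bool) → Bool :=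
  (exists_treeF (Oh δ Q m x (fun v => if _ : v.length < w.length then Gd δ Q m x v
    else fun _ => false)) w).choose
termination_by w.length

/-- the predicted oracle -/
noncomputable def Hh (δ : List Bool → Bool) (Q : Finset Ix) (m : ℕ) (x : List Bool) :
    Finset (List Bool) → List Bool → Bool := Oh δ Q m x (Gd δ Q m x)

section ctx

variable {δ : List Bool → Bool} {Q : Finset Ix} {m : ℕ} {x : List Bool}

theorem Gd_spec (w : List Bool) : TreeF (Hh δ Q m x) w (Gd δ Q m x w) := by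
  have h := (exists_treeF (Oh δ Q m x (fun v => if _ : v.length < w.length then Gd δ Q m x v
    else fun _ => false)) w).choose_spec
  rw [Gd]
  refine TreeF_congr (fun u v hv => ?_) h
  rw [Hh, Oh, Oh]
  simp only [hv, dite_true]

theorem Hh_TB {u : Finset (List Bool)} {w : List Bool} (h : w ∈ TB m x) :
    Hh δ Q m x u w = decide (w ∈ u) := by
  rw [Hh, Oh, if_pos h]

theorem Hh_Cod {u : Finset (List Bool)} {w : List Bool} (h1 : x.length ≤ w.length)
    (h2 : Cod Q w) : Hh δ Q m x u w = Gd δ Q m x w u := by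
  rw [Hh, Oh, if_neg (fun h => not_Cod_TB h h2), if_pos ⟨h1, h2⟩]

theorem Hh_other {u : Finset (List Bool)} {w : List Bool} (h1 : w ∉ TB m x)
    (h2 : ¬ (x.length ≤ w.length ∧ Cod Q w)) : Hh δ Q m x u w = δ w := by
  rw [Hh, Oh, if_neg h1, if_neg h2]

/-- the values of the predicted oracle have small certificates -/
theorem Hh_cer (u : Finset (List Bool)) (q : List Bool) :
    ∃ S : Finset (List Bool), S.card ≤ max 1 q.length ∧
      ∀ u', Agr S u' u → Hh δ Q m x u' q = Hh δ Q m x u q := by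
  by_cases h1 : q ∈ TB m x
  · refine ⟨{q}, by simp, fun u' hu' => ?_⟩
    rw [Hh_TB h1, Hh_TB h1]
    have := hu' q (Finset.mem_singleton_self q)
    simp [this]
  · by_cases h2 : x.length ≤ q.length ∧ Cod Q q
    · obtain ⟨E, hE, y, hy⟩ := h2.2
      obtain ⟨S, hS1, hS2⟩ := (Gd_spec (δ := δ) (Q := Q) (m := m) (x := x) q E y hy).1 u
      refine ⟨S, hS1.trans (le_max_right _ _), fun u' hu' => ?_⟩
      rw [Hh_Cod h2.1 h2.2, Hh_Cod h2.1 h2.2]
      exact hS2 u' hu'
    · refine ⟨∅, by simp, fun u' _ => ?_⟩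
      rw [Hh_other h1 h2, Hh_other h1 h2]

theorem Hh_Cer {L : ℕ} (hL : 1 ≤ L) : Cer (Hh δ Q m x) L L := by
  intro u q hq
  obtain ⟨S, h1, h2⟩ := Hh_cer (δ := δ) (Q := Q) (m := m) (x := x) u q
  exact ⟨S, h1.trans (max_le hL hq), h2⟩

/-- certificates of acceptance for the machine `ρ` -/
theorem acc_crt {E : Ix} {ρ : RD} {y r : List Bool} (hρ : qbr ρ y ≤ bz E y)
    (hr : r.length = mM ρ y) (u : Finset (List Bool)) :
    ∃ S : Finset (List Bool), S.card ≤ bz E y ^ 2 ∧ ∀ u', Agr S u' u →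
      (AccS (Hh δ Q m x u') ρ.1 y r (tT ρ y) ↔ AccS (Hh δ Q m x u) ρ.1 y r (tT ρ y)) := by
  have h3 := bz_ge E y
  obtain ⟨S, h1, h2⟩ := (Hh_Cer (δ := δ) (Q := Q) (m := m) (x := x)
    (show 1 ≤ bz E y by omega)).acc (p := ρ.1) (x := y) (M := mM ρ y) (T := tT ρ y) hr hρ u
  refine ⟨S, h1.trans ?_, h2⟩
  rw [pow_two]
  refine Nat.mul_le_mul_right _ ?_
  have := tT_le ρ y
  omega

/-- acceptance gives the prediction 1 -/
theorem Gd_true {w y r : List Bool} {E : Ix} (hw : IsB w E y) (hr : r.length = mM (fs E) y)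
    {u : Finset (List Bool)} (h : AccS (Hh δ Q m x u) (fs E).1 y r (tT (fs E) y)) :
    Gd δ Q m x w u = true := by
  obtain ⟨S, h1, h2⟩ := acc_crt (δ := δ) (Q := Q) (m := m) (x := x) (qbr_fs_le E y) hr u
  refine ((Gd_spec w E y hw).2 u).2 (S, u) ⟨h1, r, hr, fun u' hu' => ?_⟩ (agr_refl S u)
  exact (h2 u' hu'.symm).2 h

theorem Gd_false {w y : List Bool} {E : Ix} (hw : IsB w E y) {S u : Finset (List Bool)}
    (hS : S.card ≤ bz E y ^ 4) (h : ∀ b ∈ BC (Hh δ Q m x) E y, Conf (S, u) b) :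
    Gd δ Q m x w u = false :=
  ((Gd_spec w E y hw).2 u).1 (S, u) ⟨hS, h⟩ (agr_refl S u)

/-- deep contents for an index -/
def DW : Jx → List Bool → ℕ → Finset (List Bool) → Prop
  | Sum.inl ρ, x, t, u => (∀ w ∈ TB (nJ' (Sum.inl ρ)) x, w ∉ u) ∨
      ((TB (nJ' (Sum.inl ρ)) x) \ u).card ≤ t
  | Sum.inr β, x, t, u => ((TB (nJ' (Sum.inr β)) x) ∩ u).card ≤ t ∨
      ((TB (nJ' (Sum.inr β)) x) \ u).card ≤ t

theorem DW_dense {j : Jx} {x : List Bool} {t : ℕ} {u : Finset (List Bool)}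
    (h : ((TB (nJ' j) x) \ u).card ≤ t) : DW j x t u := by
  cases j with
  | inl ρ => exact Or.inr h
  | inr β => exact Or.inr h

theorem DW.mono {j : Jx} {x : List Bool} {t t' : ℕ} {u : Finset (List Bool)}
    (h : DW j x t u) (ht : t ≤ t') : DW j x t' u := by
  cases j with
  | inl ρ =>
    rcases h with h | h
    · exact Or.inl h
    · exact Or.inr (h.trans ht)
  | inr β =>
    rcases h with h | h
    · exact Or.inl (h.trans ht)
    · exact Or.inr (h.trans ht)

theorem DW_empty {j : Jx} {x : List Bool} {t : ℕ} : DW j x t ∅ := by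
  cases j with
  | inl ρ => exact Or.inl (fun w _ => Finset.notMem_empty w)
  | inr β => exact Or.inl (by simp)

theorem DW.symmDiff {β : BD} {x : List Bool} {t c : ℕ} {u D : Finset (List Bool)}
    (h : DW (Sum.inr β) x t u) (hD : D.card ≤ c) :
    DW (Sum.inr β) x (t + c) (_root_.symmDiff u D) := by
  rcases h with h | h
  · left
    have h1 : TB (nJ' (Sum.inr β)) x ∩ _root_.symmDiff u D ⊆
        (TB (nJ' (Sum.inr β)) x ∩ u) ∪ D := by
      intro w hw
      rw [Finset.mem_inter, Finset.mem_symmDiff] at hw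
      rw [Finset.mem_union, Finset.mem_inter]
      tauto
    have h2 := Finset.card_le_card h1
    have h3 := Finset.card_union_le (TB (nJ' (Sum.inr β)) x ∩ u) D
    omega
  · right
    have h1 : TB (nJ' (Sum.inr β)) x \ _root_.symmDiff u D ⊆
        (TB (nJ' (Sum.inr β)) x \ u) ∪ D := by
      intro w hw
      rw [Finset.mem_sdiff, Finset.mem_symmDiff] at hw
      rw [Finset.mem_union, Finset.mem_sdiff]
      tauto
    have h2 := Finset.card_le_card h1
    have h3 := Finset.card_union_le (TB (nJ' (Sum.inr β)) x \ u) D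
    omega

/-- for pairs of machines: acceptance by the second machine gives the prediction 0 -/
theorem Gd_pair {j : Jx} {x w y r : List Bool} {P : PD} {t : ℕ} (ht : 2 * bz (Sum.inr P) y ^ 2 ≤ t)
    (hleg : ∀ u', DW j x t u' → Leg (Hh δ Q (nJ' j) x u') (Sum.inr P) y)
    (hw : IsB w (Sum.inr P) y) (hr : r.length = mM (sn (Sum.inr P)) y)
    {u : Finset (List Bool)}
    (h : AccS (Hh δ Q (nJ' j) x u) (sn (Sum.inr P)).1 y r (tT (sn (Sum.inr P)) y)) :
    Gd δ Q (nJ' j) x w u = false := by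
  obtain ⟨S, h1, h2⟩ := acc_crt (δ := δ) (Q := Q) (m := nJ' j) (x := x)
    (qbr_sn_le (Sum.inr P) y) hr u
  have hbz := bz_ge (Sum.inr P) y
  refine Gd_false hw (h1.trans (Nat.pow_le_pow_right (by omega) (by norm_num))) (fun b hb => ?_)
  by_contra hn
  obtain ⟨u', hu1, hu2, hu3⟩ := exists_dense (m := nJ' j) (x := x) (S := S) (S1 := b.1) (u := u)
    (v := b.2) hn
  obtain ⟨hb1, r', hr', hb2⟩ := hb
  have h3 : 0 < pr (Hh δ Q (nJ' j) x u') (fs (Sum.inr P)) y := pr_pos hr' (hb2 u' hu2)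
  have h4 : 0 < pr (Hh δ Q (nJ' j) x u') (sn (Sum.inr P)) y :=
    pr_pos hr ((h2 u' hu1.symm).2 h)
  rcases hleg u' (DW_dense (by omega)) with ⟨_, h5⟩ | ⟨h5, _⟩
  · linarith
  · linarith

/-- for machines: probability 0 gives the prediction 0, at deep contents -/
theorem Gd_mach {β : BD} {x w y : List Bool} {ρ : RD} {t t' : ℕ}
    (ht : t + bz (Sum.inl ρ) y ^ 2 ≤ t')
    (hleg : ∀ u', DW (Sum.inr β) x t' u' → Leg (Hh δ Q (nJ' (Sum.inr β)) x u') (Sum.inl ρ) y)
    (hw : IsB w (Sum.inl ρ) y) {u : Finset (List Bool)} (hu : DW (Sum.inr β) x t u)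
    (h : pr (Hh δ Q (nJ' (Sum.inr β)) x u) ρ y = 0) : Gd δ Q (nJ' (Sum.inr β)) x w u = false := by
  classical
  obtain ⟨K, hK⟩ : ∃ K : ℕ, K = bz (Sum.inl ρ) y ^ 2 := ⟨_, rfl⟩
  have hB3 : 3 ≤ bz (Sum.inl ρ) y := bz_ge _ y
  have hqb : qbr ρ y ≤ bz (Sum.inl ρ) y := qbr_fs_le (Sum.inl ρ) y
  have hT : 20 * tT ρ y + 4 ≤ bz (Sum.inl ρ) y := (tT_le ρ y).trans hqb
  set S : Set (Finset (List Bool)) := {D | D.Nonempty ∧ D.card ≤ K ∧
    ∃ r : List Bool, r.length = mM ρ y ∧
      AccS (Hh δ Q (nJ' (Sum.inr β)) x (_root_.symmDiff u D)) ρ.1 y r (tT ρ y)} with hS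
  rcases disjoint_or_cover S K (fun D hD => ⟨hD.1, hD.2.1⟩) K with
    ⟨F, hF1, hF2⟩ | ⟨Y, hY1, _, hY3⟩
  · exfalso
    have hsum := (Hh_Cer (δ := δ) (Q := Q) (m := nJ' (Sum.inr β)) (x := x)
      (show 1 ≤ bz (Sum.inl ρ) y by omega)).sum (p := ρ.1) (x := y) (M := mM ρ y) (T := tT ρ y)
      hF2 u hqb
    have h1 : (Finset.univ : Finset (Fin K)).card • (1 / 2 : ℝ) ≤
        ∑ i, Pr (mM ρ y) (fun r => ¬ (AccS (Hh δ Q (nJ' (Sum.inr β)) x (_root_.symmDiff u (F i)))
          ρ.1 y r (tT ρ y) ↔ AccS (Hh δ Q (nJ' (Sum.inr β)) x u) ρ.1 y r (tT ρ y))) := by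
      refine Finset.card_nsmul_le_sum _ _ _ (fun i _ => ?_)
      rw [pr_dif h]
      obtain ⟨r, hr, hacc⟩ := (hF1 i).2.2
      have h4 := pr_pos (ρ := ρ) hr hacc
      rcases hleg _ ((hu.symmDiff (hF1 i).2.1).mono (by rw [hK]; exact ht)) with h5 | h5
      · linarith
      · exact h5.le
    rw [Finset.card_univ, Fintype.card_fin, nsmul_eq_mul] at h1
    have h2 := h1.trans hsum
    have h3 : (20 * (tT ρ y : ℝ) + 4) ≤ (bz (Sum.inl ρ) y : ℝ) := by exact_mod_cast hT
    have h4 : (0 : ℝ) < (bz (Sum.inl ρ) y : ℝ) := by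
      exact_mod_cast (show 0 < bz (Sum.inl ρ) y by omega)
    have h5 : (K : ℝ) = (bz (Sum.inl ρ) y : ℝ) ^ 2 := by rw [hK]; push_cast; rfl
    rw [h5] at h2
    have h6 : (0 : ℝ) ≤ (tT ρ y : ℝ) := Nat.cast_nonneg _
    generalize (bz (Sum.inl ρ) y : ℝ) = b at *
    generalize (tT ρ y : ℝ) = t at *
    nlinarith
  · refine Gd_false hw ?_ (fun b hb => ?_) (S := Y)
    · refine hY1.trans ?_
      rw [hK, ← pow_add]
    · by_contra hn
      obtain ⟨hb1, r, hr, hb2⟩ := hb
      set D := (b.1).filter (fun w => ¬ (w ∈ u ↔ w ∈ b.2)) with hD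
      have hDu : Agr b.1 b.2 (_root_.symmDiff u D) := by
        intro w hw
        rw [Finset.mem_symmDiff, hD, Finset.mem_filter]
        tauto
      have hacc := hb2 _ hDu
      have hDS : D ∈ S := by
        refine ⟨?_, (Finset.card_filter_le _ _).trans (by rw [hK]; exact hb1), r, hr, hacc⟩
        rw [Finset.nonempty_iff_ne_empty]
        intro h1
        rw [h1, ← Finset.bot_eq_empty, symmDiff_bot] at hacc
        have := pr_pos (ρ := ρ) hr hacc
        linarith
      refine hY3 D hDS (Finset.disjoint_left.2 (fun w hw hwY => hn ?_))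
      rw [hD, Finset.mem_filter] at hw
      exact ⟨w, hwY, hw.1, hw.2⟩

end ctx

end Pool.Agent.Helper56.PT.Fw
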