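import Pool.Agent.Helper56.PT.Fb

/-!
The predictions are right at deep contents, and uniform on blocks.
-/

set_option autoImplicit false

namespace Pool.Agent.Helper56.PT.Fw

open Dat

theorem choose_congr {α : Type} {p q : α → Prop} (h : p = q) (hp : ∃ a, p a) (hq : ∃ a, q a) :
    hp.choose = hq.choose := by
  subst h
  rfl

theorem TreeF_uni {Ψ : Finset (List Bool) → List Bool → Bool} {w w' : List Bool}
    (hl : w.length = w'.length) (h : ∀ (E : Ix) (y : List Bool), IsB w E y ↔ IsB w' E y) :
    TreeF Ψ w = TreeF Ψ w' := by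
  funext g
  simp only [TreeF]
  rw [hl]
  simp only [h]

theorem Gd_uni {δ : List Bool → Bool} {Q : Finset Ix} {m : ℕ} {x w w' : List Bool}
    (hl : w.length = w'.length) (h : ∀ (E : Ix) (y : List Bool), IsB w E y ↔ IsB w' E y) :
    Gd δ Q m x w = Gd δ Q m x w' := by
  rw [Gd, Gd]
  refine choose_congr ?_ _ _
  rw [TreeF_uni hl h]
  simp only [hl]

theorem IsB_block {κ r r' : List Bool} (hr : r.length = (κ.length + 2) ^ 5)
    (hr' : r'.length = (κ.length + 2) ^ 5) (E : Ix) (y : List Bool) :
    IsB (st kP κ r) E y ↔ IsB (st kP κ r') E y := by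
  constructor
  · rintro ⟨s, r1, h1, h2⟩
    obtain ⟨_, h3, _⟩ := st_inj h2
    exact ⟨s, r', by rw [← h3]; exact hr', by rw [← h3]⟩
  · rintro ⟨s, r1, h1, h2⟩
    obtain ⟨_, h3, _⟩ := st_inj h2
    exact ⟨s, r, by rw [← h3]; exact hr, by rw [← h3]⟩

open Classical in
/-- contents with `u` in the block -/
noncomputable def cu (m : ℕ) (x : List Bool) (u : Finset (List Bool)) (w : List Bool) : Bool :=
  if w ∈ TB m x then decide (w ∈ u) else c0 w

section ctx

variable {O : List Bool → Bool} {L : ℕ} {Q : Finset Ix} {j : Jx} {x : List Bool}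
  {u : Finset (List Bool)}

theorem not_TB_P {m : ℕ} {v r : List Bool} : st kP v r ∉ TB m x := by
  intro h
  obtain ⟨r', _, h1⟩ := mem_TB.1 h
  exact kP_ne_kT _ _ (st_inj h1).1

theorem cu_P {m : ℕ} (v r : List Bool) : cu m x u (st kP v r) = false := by
  rw [cu, if_neg not_TB_P, c0_P]

theorem cu_low {m : ℕ} {w : List Bool} (h : w.length ≤ x.length) : cu m x u w = c0 w := by
  rw [cu, if_neg (fun h1 => ?_)]
  have := length_TB h1
  have := lt_b5 m true x
  omega

/-- the content is as it should be -/
def Okc (j : Jx) (x : List Bool) (u : Finset (List Bool)) : Prop :=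
  OkT (Sum.inr j) (fun w => decide (w ∈ u)) x

theorem dn_cu {m : ℕ} : dn (cu m x u) (kT m true) x = dn (fun w => decide (w ∈ u)) (kT m true) x :=
  dn_congr' (fun r hr => by rw [cu, if_pos (mem_TB.2 ⟨r, hr, rfl⟩)])

theorem OkT_cu : OkT (Sum.inr j) (cu (nJ' j) x u) x ↔ Okc j x u := by
  rcases j with ρ | β
  · rw [Okc, OkT, OkT]
    have := dn_cu (m := nJ' (Sum.inl ρ)) (x := x) (u := u)
    rw [nJ'] at this
    rw [nJ', this]
  · rw [Okc, OkT, OkT]
    have := dn_cu (m := nJ' (Sum.inr β)) (x := x) (u := u)
    rw [nJ'] at this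
    rw [nJ', this]

theorem OkT_cu_other {j' : JJ} {x' : List Bool} (h : ¬ (j' = Sum.inr j ∧ x' = x)) :
    OkT j' (cu (nJ' j) x u) x' := by
  refine OkT_congr' (O := c0) (fun b r hr => ?_) (OkT_c0 j' x')
  rw [cu, if_neg (fun h1 => h ?_)]
  obtain ⟨r', _, h2⟩ := mem_TB.1 h1
  obtain ⟨h3, h4, _⟩ := st_inj h2
  exact ⟨nK_injective (kT_inj h3).1, h4⟩

theorem OkT_cu' (hu : Okc j x u) (j' : JJ) (x' : List Bool) : OkT j' (cu (nJ' j) x u) x' := by
  by_cases h : j' = Sum.inr j ∧ x' = x
  · obtain ⟨rfl, rfl⟩ := h
    exact OkT_cu.2 hu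
  · exact OkT_cu_other h

theorem Okc_DW {t : ℕ} (ht : 4 * t < 2 ^ (x.length / 2)) (h : DW j x t u) : Okc j x u := by
  have hx : x.length / 2 ≤ (x.length + 2) ^ 5 := by
    have : x.length + 2 ≤ (x.length + 2) ^ 5 := Nat.le_self_pow (by norm_num) _
    omega
  have hTB : ∀ (m : ℕ) (r : List Bool), r.length = (x.length + 2) ^ 5 →
      st (kT m true) x r ∈ TB m x := fun m r hr => mem_TB.2 ⟨r, hr, rfl⟩
  rcases j with ρ | β
  · rcases h with h | h
    · exact Or.inl (dn_zero (fun r hr => decide_eq_false (h _ (hTB _ r hr))))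
    · refine Or.inr (lt_trans (by norm_num) (dn_large (C := TB (nJ' (Sum.inl ρ)) x \ u)
        (n := x.length) (by omega) hx (fun r hr h1 => ?_)))
      simp only [decide_eq_false_iff_not] at h1
      exact Finset.mem_sdiff.2 ⟨hTB _ r hr, h1⟩
  · rcases h with h | h
    · refine Or.inl (dn_small (C := TB (nJ' (Sum.inr β)) x ∩ u) (n := x.length) (by omega) hx
        (fun r hr h1 => ?_))
      simp only [decide_eq_true_eq] at h1
      exact Finset.mem_inter.2 ⟨hTB _ r hr, h1⟩
    · refine Or.inr (dn_large (C := TB (nJ' (Sum.inr β)) x \ u) (n := x.length) (by omega) hx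
        (fun r hr h1 => ?_))
      simp only [decide_eq_false_iff_not] at h1
      exact Finset.mem_sdiff.2 ⟨hTB _ r hr, h1⟩

/-- the oracle with the content `u` -/
noncomputable abbrev Ru (O : List Bool → Bool) (L : ℕ) (Q : Finset Ix) (j : Jx) (x : List Bool)
    (u : Finset (List Bool)) : List Bool → Bool := Rc O L Q (cu (nJ' j) x u) ∅

/-- the base oracle -/
noncomputable abbrev Bs (O : List Bool → Bool) (L : ℕ) (Q : Finset Ix) : List Bool → Bool :=
  Rc O L Q c0 ∅

theorem Ru_ext (hu : Okc j x u) : SF.Ext O L Q (Ru O L Q j x u) :=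
  Rc_ext (n := 0) (fun v r _ => cu_P v r) (fun _ h => absurd h (Finset.notMem_empty _))
    (by simp) (fun j' x' _ => OkT_cu' hu j' x')

/-- the predicted oracle is the oracle, below the length `l` -/
def Vld (O : List Bool → Bool) (L : ℕ) (Q : Finset Ix) (j : Jx) (x : List Bool)
    (u : Finset (List Bool)) (l : ℕ) : Prop :=
  ∀ v : List Bool, v.length < l → Ru O L Q j x u v = Hh (Bs O L Q) Q (nJ' j) x u v

theorem Vld.leg (hst : SF.Stable O L Q) (hu : Okc j x u) {l : ℕ} (hv : Vld O L Q j x u l)
    {E : Ix} (hE : E ∈ Q) {y : List Bool} (hl : bz E y < l) :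
    Leg (Hh (Bs O L Q) Q (nJ' j) x u) E y := by
  have h1 : Leg (Ru O L Q j x u) E y := hst E hE _ (Ru_ext hu) y
  exact (Leg_congr (fun v hv' => hv v (by omega))).1 h1

/-- the indices allowed with the test index -/
def QOk (j : Jx) (Q : Finset Ix) : Prop :=
  (∃ β : BD, j = Sum.inr β) ∨ ∀ E ∈ Q, ∃ P : PD, E = Sum.inr P

/-- the oracles agree on other strings -/
theorem Ru_other (hL : L ≤ x.length) {v : List Bool} (h1 : v ∉ TB (nJ' j) x)
    (h2 : ¬ (x.length ≤ v.length ∧ Cod Q v)) : Ru O L Q j x u v = Bs O L Q v := by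
  by_cases hlow : v.length < x.length
  · exact Rc_congr (fun w hw => cu_low hw.le) (fun _ _ => Iff.rfl) _ v rfl hlow
  · have h3 : ¬ Cod Q v := fun h => h2 ⟨not_lt.1 hlow, h⟩
    have h4 : L ≤ v.length := by omega
    rw [Ru, Bs, Rc_other h4 h3, Rc_other h4 h3, cu, if_neg h1]

/-- the predictions are right at deep contents -/
theorem valid (hst : SF.Stable O L Q) (hL : L ≤ x.length) (hQ : QOk j Q)
    {Λ N : ℕ} (hΛ : 2 * N ≤ Λ) (hx : 4 * (Λ + N * N) < 2 ^ (x.length / 2)) :
    ∀ l : ℕ, l ≤ N → ∀ u, DW j x (Λ + (N - l) * N) u → Vld O L Q j x u l := by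
  intro l
  induction l with
  | zero => intro _ u _ v hv; omega
  | succ l ih =>
    intro hl u hu v hv
    have hstep : Λ + (N - (l + 1)) * N + N ≤ Λ + (N - l) * N := by
      have h1 : N - l = (N - (l + 1)) + 1 := by omega
      rw [h1, Nat.succ_mul]
      omega
    have hbd : ∀ l', Λ + (N - l') * N ≤ Λ + N * N := fun l' =>
      Nat.add_le_add_left (Nat.mul_le_mul_right _ (Nat.sub_le N l')) _
    have hok : ∀ l' u', DW j x (Λ + (N - l') * N) u' → Okc j x u' := fun l' u' h =>
      Okc_DW (by have := hbd l'; omega) h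
    have hvu := ih (by omega) u (hu.mono (by omega))
    by_cases hvl : v.length < l
    · exact hvu v hvl
    · have hvl' : v.length = l := by omega
      by_cases h1 : v ∈ TB (nJ' j) x
      · have h2 : L ≤ v.length := by
          have := length_TB h1
          have := lt_b5 (nJ' j) true x
          omega
        rw [Hh_TB h1, Ru, Rc_other h2 (not_Cod_TB h1), cu, if_pos h1]
      · by_cases h2 : x.length ≤ v.length ∧ Cod Q v
        · obtain ⟨E, hE, y, hy⟩ := h2.2
          have hbz := hy.bz_lt
          have hb2 : bz E y ^ 2 ≤ N := by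
            have h3 := hy.lt
            have h4 : bz E y ^ 2 ≤ bz E y ^ 7 :=
              Nat.pow_le_pow_right (by have := bz_ge E y; omega) (by norm_num)
            omega
          -- legitimacy at deep contents
          have hleg : ∀ u', DW j x (Λ + (N - l) * N) u' →
              Leg (Hh (Bs O L Q) Q (nJ' j) x u') E y := fun u' h =>
            Vld.leg hst (hok l u' h) (ih (by omega) u' h) hE (by omega)
          have hval : Val (Ru O L Q j x u) E y ↔ Val (Hh (Bs O L Q) Q (nJ' j) x u) E y :=
            Val_congr (fun v' hv' => hvu v' (by omega))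
          have hOC : Ru O L Q j x u v = true ↔ Val (Hh (Bs O L Q) Q (nJ' j) x u) E y := by
            rw [← hval, Ru, Rc_Cod (by omega) hE hy]
            simp
          rw [Bool.eq_iff_iff, hOC, Hh_Cod h2.1 h2.2]
          constructor
          · intro h3
            have h4 : 0 < pr (Hh (Bs O L Q) Q (nJ' j) x u) (fs E) y := lt_trans (by norm_num) h3
            obtain ⟨r, hr, hacc⟩ := acc_of_Val h4
            exact Gd_true hy hr hacc
          · intro h3
            by_contra hn
            have hlegu := hleg u (hu.mono (by omega))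
            rcases E with ρ | P
            · -- a machine
              have hj : ∃ β : BD, j = Sum.inr β := by
                rcases hQ with h | h
                · exact h
                · obtain ⟨P, hP⟩ := h _ hE
                  exact absurd hP (by simp)
              obtain ⟨β, rfl⟩ := hj
              have h5 : pr (Hh (Bs O L Q) Q (nJ' (Sum.inr β)) x u) ρ y = 0 := by
                rcases hlegu with h5 | h5
                · exact h5
                · exact absurd h5 hn
              have h6 := Gd_mach (t := Λ + (N - (l + 1)) * N) (t' := Λ + (N - l) * N)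
                (by omega) hleg hy hu h5
              rw [h6] at h3
              simp at h3
            · rcases hlegu with ⟨h5, _⟩ | ⟨_, h5⟩
              · exact hn h5
              · obtain ⟨r, hr, hacc⟩ := acc_of_Val (lt_trans (by norm_num) h5)
                have h6 := Gd_pair (t := Λ + (N - l) * N) (by omega) hleg hy hr hacc
                rw [h6] at h3
                simp at h3
        · rw [Hh_other h1 h2]
          exact Ru_other hL h1 h2

end ctx

end Pool.Agent.Helper56.PT.Fw
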