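import Pool.Agent.Helper56.PT.Fd

/-!
The diagonalisation against machines for R and BPP in the fourth construction.
-/

set_option autoImplicit false

namespace Pool.Agent.Helper56.PT.Fw

open Dat

/-! ### requirements -/

/-- the test set of an index -/
def TSK : JJ → (List Bool → Bool) → Set (List Bool)
  | Sum.inl P, O => {x | 0 < dn O (kT (nK (Sum.inl P)) true) x}
  | Sum.inr (Sum.inl ρ), O => {x | 0 < dn O (kT (nK (Sum.inr (Sum.inl ρ))) true) x}
  | Sum.inr (Sum.inr β), O => {x | 1 / 2 < dn O (kT (nK (Sum.inr (Sum.inr β))) true) x}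

/-- the requirement -/
def ReqK (j : JJ) (g : Prog) (e : ℕ) (O : List Bool → Bool) : Prop :=
  ∀ (A : Set (List Bool)) (f : List Bool → List Bool), ViaK j O A →
    (∀ x : List Bool, RunLe O g (enc x) (enc (f x)) ((x.length + 2) ^ e)) →
    ¬ ∀ x : List Bool, x ∈ TSK j O ↔ f x ∈ A

theorem DeadK.req {j : JJ} {g : Prog} {e : ℕ} {O : List Bool → Bool} (h : DeadK j O) :
    ReqK j g e O := fun A _ hV _ _ => h A hV

theorem reqK_of {j : Jx} {g : Prog} {e : ℕ} {O : List Bool → Bool} {x z : List Bool}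
    (hf : ∀ f : List Bool → List Bool,
      (∀ x : List Bool, RunLe O g (enc x) (enc (f x)) ((x.length + 2) ^ e)) → f x = z)
    (h : (x ∉ TSK (Sum.inr j) O ∧ thr j < pr O (mach j) z) ∨
      (x ∈ TSK (Sum.inr j) O ∧ pr O (mach j) z < thr j)) : ReqK (Sum.inr j) g e O := by
  intro A f hV hf' hred
  have hV' : ViaJ j O A := hV
  have h1 := hf f hf'
  have h2 := hred x
  rw [h1] at h2
  rcases h with ⟨h3, h4⟩ | ⟨h3, h4⟩
  · exact h3 (h2.2 (hV'.pos h4))
  · exact hV'.neg h4 (h2.1 h3)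

theorem not_mem_TSK {j : Jx} {O : List Bool → Bool} {x : List Bool}
    (h : dn O (kT (nJ' j) true) x = 0) : x ∉ TSK (Sum.inr j) O := by
  rcases j with ρ | β
  · intro h1
    have h2 : 0 < dn O (kT (nJ' (Sum.inl ρ)) true) x := h1
    linarith
  · intro h1
    have h2 : 1 / 2 < dn O (kT (nJ' (Sum.inr β)) true) x := h1
    linarith

theorem mem_TSK {j : Jx} {O : List Bool → Bool} {x : List Bool}
    (h : 3 / 4 < dn O (kT (nJ' j) true) x) : x ∈ TSK (Sum.inr j) O := by
  rcases j with ρ | β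
  · show 0 < dn O (kT (nJ' (Sum.inl ρ)) true) x
    linarith
  · show 1 / 2 < dn O (kT (nJ' (Sum.inr β)) true) x
    linarith

theorem dn_uni {O : List Bool → Bool} {κ u : List Bool}
    (h : ∀ r r' : List Bool, r.length = (u.length + 2) ^ 5 → r'.length = (u.length + 2) ^ 5 →
      O (st κ u r) = O (st κ u r')) :
    (dn O κ u = 0 ∧ ∀ r : List Bool, r.length = (u.length + 2) ^ 5 → O (st κ u r) = false) ∨
    (dn O κ u = 1 ∧ ∀ r : List Bool, r.length = (u.length + 2) ^ 5 → O (st κ u r) = true) := by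
  have h0 : (List.replicate ((u.length + 2) ^ 5) false).length = (u.length + 2) ^ 5 :=
    List.length_replicate
  cases hO : O (st κ u (List.replicate ((u.length + 2) ^ 5) false)) with
  | false =>
    left
    have h1 : ∀ r : List Bool, r.length = (u.length + 2) ^ 5 → O (st κ u r) = false :=
      fun r hr => (h r _ hr h0).trans hO
    exact ⟨dn_zero h1, h1⟩
  | true =>
    right
    have h1 : ∀ r : List Bool, r.length = (u.length + 2) ^ 5 → O (st κ u r) = true :=
      fun r hr => (h r _ hr h0).trans hO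
    exact ⟨dn_one h1, h1⟩

section kill

variable {O : List Bool → Bool} {L : ℕ} {Q : Finset Ix} {j : Jx} {x : List Bool}

theorem Bs_ext : SF.Ext O L Q (Bs O L Q) :=
  Rc_ext (n := 0) (fun v r _ => c0_P v r) (fun _ h => absurd h (Finset.notMem_empty _))
    (by simp) (fun j' x' _ => OkT_c0 j' x')

/-- states with a content as it should be -/
theorem meets_Ru (hG : SF.Good O L) {N : ℕ} (hLN : L < N) {u : Finset (List Bool)}
    (hu : Okc j x u) {R : (List Bool → Bool) → Prop}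
    (hR : ∀ O' : List Bool → Bool, Ag N O' (Ru O L Q j x u) → R O') : SF.Meets O L Q R :=
  ⟨Ru O L Q j x u, N, Q, Rc_stp (n := 0) (fun _ h => absurd h (Finset.notMem_empty _))
    (by simp) hLN.le, hLN, (Ru_ext hu).good hG hLN.le, hR⟩

/-- states with a dead test -/
theorem meets_Hh (hG : SF.Good O L) (hL : L ≤ x.length) {N : ℕ}
    (hN : b5 (kT (nJ' j) true) x < N) {u : Finset (List Bool)} {D : Finset Ix}
    (hno : NoMis (Bs O L Q) Q (nJ' j) x N u D) {g : Prog} {e : ℕ}
    (hdead : ∀ O' : List Bool → Bool, Ag N O' (Hh (Bs O L Q) Q (nJ' j) x u) →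
      DeadK (Sum.inr j) O')
    (hill : ∀ E ∈ D, ∀ O' : List Bool → Bool, Ag N O' (Hh (Bs O L Q) Q (nJ' j) x u) →
      ∃ y : List Bool, ¬ Leg O' E y) : SF.Meets O L Q (ReqK (Sum.inr j) g e) := by
  classical
  obtain ⟨H, hH⟩ : ∃ H, H = Hh (Bs O L Q) Q (nJ' j) x u := ⟨_, rfl⟩
  rw [← hH] at hdead hill
  have hxN := lt_b5 (nJ' j) true x
  have hTBlen : ∀ w ∈ TB (nJ' j) x, x.length < w.length := fun w hw => by
    rw [length_TB hw]
    exact hxN
  have hAx : Ag x.length H (Bs O L Q) := fun w hw => by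
    rw [hH, Hh_other (fun h => by have := hTBlen w h; omega) (fun h => by omega)]
  have hAO : Ag L H O := (hAx.mono hL).trans (Rc_Ag le_rfl)
  have hnc : ∀ w : List Bool, L ≤ w.length → w ∉ TB (nJ' j) x → ¬ Cod Q w → H w = c0 w :=
    fun w h1 h2 h3 => by
      rw [hH, Hh_other h2 (fun h => h3 h.2)]
      exact Rc_other h1 h3
  have hblk : ∀ κ : List Bool, x.length ≤ b5 kP κ → ∀ r r' : List Bool,
      r.length = (κ.length + 2) ^ 5 → r'.length = (κ.length + 2) ^ 5 →
      H (st kP κ r) = H (st kP κ r') := by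
    intro κ hκ r r' hr hr'
    have hl : (st kP κ r).length = b5 kP κ := length_st5 hr
    have hl' : (st kP κ r').length = b5 kP κ := length_st5 hr'
    by_cases hc : Cod Q (st kP κ r)
    · have hc' : Cod Q (st kP κ r') := by
        obtain ⟨E, hE, y, hy⟩ := hc
        exact ⟨E, hE, y, (IsB_block hr hr' E y).1 hy⟩
      rw [hH, Hh_Cod (by omega) hc, Hh_Cod (by omega) hc',
        Gd_uni (hl.trans hl'.symm) (IsB_block hr hr')]
    · have hc' : ¬ Cod Q (st kP κ r') := by
        rintro ⟨E, hE, y, hy⟩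
        exact hc ⟨E, hE, y, (IsB_block hr hr' E y).2 hy⟩
      rw [hnc _ (by omega) not_TB_P hc, hnc _ (by omega) not_TB_P hc', c0_P, c0_P]
  have hGB : SF.Good (Bs O L Q) N := Bs_ext.good hG (by omega)
  refine ⟨H, N, Q \ D, ⟨by omega, hAO, Finset.sdiff_subset, ?_, ?_⟩, by omega, ⟨?_, ?_⟩,
    fun O' hagr => (hdead O' hagr).req⟩
  · rintro E hE ⟨s, y⟩ h1 h2
    have hEQ := (Finset.mem_sdiff.1 hE).1
    have hED := (Finset.mem_sdiff.1 hE).2
    have h1' : L ≤ b5 kP (cs E s y) := h1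
    have h2' : b5 kP (cs E s y) < N := h2
    by_cases h3 : b5 kP (cs E s y) < x.length
    · exact SF.hC E (s, y) (Bs O L Q) H ((hAx.symm).mono h3) (Bs_ext.c E hEQ (s, y) h1)
    · intro hleg
      have hleg' : Leg H E y := hleg
      have h0 : (List.replicate (((cs E s y).length + 2) ^ 5) false).length =
          ((cs E s y).length + 2) ^ 5 := List.length_replicate
      have hw : IsB (st kP (cs E s y) (List.replicate (((cs E s y).length + 2) ^ 5) false)) E y :=
        ⟨s, _, h0, rfl⟩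
      have hl := length_st5 (κ := kP) h0
      have hmis := hno E hEQ hED _ y hw (by omega) (by omega) (by rw [← hH]; exact hleg')
      rw [← Hh_Cod (δ := Bs O L Q) (m := nJ' j) (x := x) (by omega) ⟨E, hEQ, y, hw⟩, ← hH] at hmis
      rcases dn_uni (hblk (cs E s y) (not_lt.1 h3)) with ⟨h4, h5⟩ | ⟨h4, h5⟩
      · refine ⟨fun hv => ?_, fun _ => h4⟩
        have hv' : Val H E y := hv
        rw [← hmis, h5 _ h0] at hv'
        simp at hv'
      · refine ⟨fun _ => ?_, fun hv => ?_⟩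
        · show 1 / 2 < dn H kP (cs E s y)
          rw [h4]
          norm_num
        · have hv' : ¬ Val H E y := hv
          exact absurd (hmis.1 (h5 _ h0)) hv'
  · intro E hE hE' O' hagr
    refine hill E ?_ O' hagr
    by_contra hn
    exact hE' (Finset.mem_sdiff.2 ⟨hE, hn⟩)
  · intro v hv
    by_cases h3 : b5 kP v < x.length
    · exact SF.hU v (Bs O L Q) H ((hAx.symm).mono h3) (hGB.u v hv)
    · rcases dn_uni (hblk v (not_lt.1 h3)) with ⟨h4, _⟩ | ⟨h4, _⟩
      · exact Or.inl h4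
      · right
        show 1 / 2 < dn H kP v
        rw [h4]
        norm_num
  · rintro ⟨j', x'⟩ ht
    by_cases h3 : b5 (kT (nK j') true) x' < L
    · rcases hG.t (j', x') h3 with h4 | h4
      · exact Or.inl (SF.hT (j', x') O H ((hAO.symm).mono h3) h4)
      · exact Or.inr (fun O' hagr => h4 O' ((hagr.mono (by omega)).trans hAO))
    · by_cases h4 : j' = Sum.inr j ∧ x' = x
      · obtain ⟨rfl, rfl⟩ := h4
        exact Or.inr hdead
      · left
        refine OkT_congr' (O := c0) (fun b r hr => (hnc _ ?_ (fun h => h4 ?_) not_Cod_T).symm)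
          (OkT_c0 j' x')
        · rw [length_st5 hr, b5_kT _ b true]
          exact not_lt.1 h3
        · obtain ⟨r', _, h5⟩ := mem_TB.1 h
          obtain ⟨h6, h7, _⟩ := st_inj h5
          exact ⟨nK_injective (kT_inj h6).1, h7⟩

/-- legitimacy at deep contents -/
theorem leg_deep (hst : SF.Stable O L Q) (hL : L ≤ x.length) (hQ : QOk j Q)
    {Λ N : ℕ} (hΛ : 2 * N ≤ Λ) (hx : 4 * (Λ + N * N) < 2 ^ (x.length / 2)) :
    ∀ E ∈ Q, ∀ w y : List Bool, IsB w E y → w.length < N → ∀ u',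
      DW j x Λ u' → Leg (Hh (Bs O L Q) Q (nJ' j) x u') E y := by
  intro E hE w y hw hwN u' hu'
  have h1 := valid hst hL hQ hΛ hx w.length hwN.le u' (hu'.mono (Nat.le_add_right _ _))
  exact Vld.leg hst (Okc_DW (by omega) hu') h1 hE hw.bz_lt

/-- the case of a gap at all contents -/
theorem kill_core (hG : SF.Good O L) (hst : SF.Stable O L Q) (hL : L ≤ x.length) (hQ : QOk j Q)
    {Λ N K : ℕ} (hΛ : 2 * N ≤ Λ) (hx : 4 * (Λ + N * N) < 2 ^ (x.length / 2)) {g : Prog} {e : ℕ}
    (hNb : b5 (kT (nJ' j) true) x < N) {QG : Finset (List Bool)} {z : List Bool} (hN1 : 1 ≤ N)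
    (hQG : ∀ v ∈ QG, v.length < N) (hqb : qbr (mach j) z < N)
    (hout : ∀ O' : List Bool → Bool, (∀ v ∈ QG, O' v = Hh (Bs O L Q) Q (nJ' j) x ∅ v) →
      ∀ f : List Bool → List Bool,
        (∀ x : List Bool, RunLe O' g (enc x) (enc (f x)) ((x.length + 2) ^ e)) → f x = z)
    {η : ℝ} (hη : 0 < η) (hK : (N : ℝ) * N < K * (2 * η))
    (hΛK : QG.card * N + K * K ≤ Λ)
    (hgap : ∀ u : Finset (List Bool),
      η ≤ |pr (Hh (Bs O L Q) Q (nJ' j) x u) (mach j) z - thr j|) :
    SF.Meets O L Q (ReqK (Sum.inr j) g e) := by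
  classical
  have hxN := lt_b5 (nJ' j) true x
  have hval : ∀ u, DW j x Λ u → ∀ O' : List Bool → Bool, Ag N O' (Ru O L Q j x u) →
      ∀ v : List Bool, v.length < N → O' v = Hh (Bs O L Q) Q (nJ' j) x u v := by
    intro u hu O' hagr v hv
    rw [hagr v hv]
    exact valid hst hL hQ hΛ hx N le_rfl u (hu.mono (Nat.le_add_right _ _)) v hv
  have hpr : ∀ u, DW j x Λ u → ∀ O' : List Bool → Bool, Ag N O' (Ru O L Q j x u) →
      pr O' (mach j) z = pr (Hh (Bs O L Q) Q (nJ' j) x u) (mach j) z := fun u hu O' hagr =>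
    pr_congr (fun v hv => hval u hu O' hagr v (by omega))
  have hdn : ∀ u (O' : List Bool → Bool), Ag N O' (Ru O L Q j x u) →
      dn O' (kT (nJ' j) true) x = dn (fun w => decide (w ∈ u)) (kT (nJ' j) true) x := by
    intro u O' hagr
    rw [← dn_cu]
    refine (dn_congr (hagr.mono hNb)).trans (dn_congr' (fun r hr => ?_))
    exact Rc_other (by rw [length_st5 hr]; omega) not_Cod_T
  by_cases h0 : pr (Hh (Bs O L Q) Q (nJ' j) x ∅) (mach j) z < thr j
  · -- a dense content
    have hCer : Cer (Hh (Bs O L Q) Q (nJ' j) x) N N := Hh_Cer hN1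
    obtain ⟨SG, hSG1, hSG2⟩ := hCer.finset ∅ QG (fun v hv => (hQG v hv).le)
    have hTN : (tT (mach j) z : ℝ) ≤ N := by
      have := tT_le (mach j) z
      exact_mod_cast (show tT (mach j) z ≤ N by omega)
    obtain ⟨Y, hY1, hY2⟩ := hCer.total (p := (mach j).1) (x := z) (M := mM (mach j) z)
      (T := tT (mach j) z) hqb.le (θ := thr j) (η := η) (K := K)
      (lt_of_le_of_lt (mul_le_mul_of_nonneg_right hTN (Nat.cast_nonneg _)) hK) hgap h0
    set u : Finset (List Bool) := TB (nJ' j) x \ (SG ∪ Y) with hu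
    have huc : (TB (nJ' j) x \ u).card ≤ Λ := by
      refine (Finset.card_le_card (t := SG ∪ Y) (fun w hw => ?_)).trans
        ((Finset.card_union_le SG Y).trans (by omega))
      rw [hu, Finset.mem_sdiff, Finset.mem_sdiff] at hw
      tauto
    have hDW : DW j x Λ u := DW_dense huc
    have hdisY : Disjoint u Y := Finset.disjoint_left.2 (fun w hw hwY =>
      (Finset.mem_sdiff.1 hw).2 (Finset.mem_union_right _ hwY))
    have hagS : Agr SG u ∅ := fun w hw => by
      rw [hu, Finset.mem_sdiff, Finset.mem_union]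
      simp [hw]
    refine meets_Ru (N := N) (j := j) (x := x) (u := u) hG (by omega) (Okc_DW (by omega) hDW)
      (fun O' hagr => ?_)
    refine reqK_of (x := x) (z := z) (hout _ (fun v hv => ?_)) (Or.inr ⟨mem_TSK ?_, ?_⟩)
    · rw [hval u hDW O' hagr v (hQG v hv)]
      exact hSG2 u hagS v hv
    · rw [hdn u O' hagr]
      refine dn_large (C := TB (nJ' j) x \ u) (n := x.length) (by omega) ?_ (fun r hr h1 => ?_)
      · have : x.length + 2 ≤ (x.length + 2) ^ 5 := Nat.le_self_pow (by norm_num) _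
        omega
      · simp only [decide_eq_false_iff_not] at h1
        exact Finset.mem_sdiff.2 ⟨mem_TB.2 ⟨r, hr, rfl⟩, h1⟩
    · rw [hpr u hDW O' hagr]
      exact hY2 u hdisY
  · -- the empty content
    refine meets_Ru (N := N) (j := j) (x := x) (u := ∅) hG (by omega)
      (Okc_DW (t := Λ) (by omega) DW_empty) (fun O' hagr => ?_)
    refine reqK_of (x := x) (z := z) (hout _ (fun v hv => hval ∅ DW_empty O' hagr v
      (hQG v hv))) (Or.inl ⟨not_mem_TSK ?_, ?_⟩)
    · rw [hdn ∅ O' hagr]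
      exact dn_zero (fun r _ => by simp)
    · rw [hpr ∅ DW_empty O' hagr]
      have h1 := hgap ∅
      rw [abs_of_nonneg (by linarith)] at h1
      linarith

end kill

/-- the case of a content without gap -/
theorem kill_viol {O : List Bool → Bool} {L : ℕ} {Q : Finset Ix} (hG : SF.Good O L)
    (hst : SF.Stable O L Q) {j : Jx} (hQ : QOk j Q) {x : List Bool} (hL : L ≤ x.length)
    {Λ N K : ℕ} (hΛ : K * N + 2 * N ≤ Λ) (hx : 4 * (Λ + N * N) < 2 ^ (x.length / 2)) {g : Prog}
    {e : ℕ} (hNb : b5 (kT (nJ' j) true) x < N) {z : List Bool} (hN1 : 1 ≤ N)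
    (hqb : qbr (mach j) z < N) {κ : ℝ} (hκ : 0 < κ) (hκ4 : κ * (Q.card + 1) ≤ 1 / 4)
    (hκη : κ * (Q.card + 1) ≤ gp j)
    (hK : ((Q.card : ℝ) + 2) * (N * N) < ((K : ℝ) - Q.card * (N * N)) * κ)
    {u : Finset (List Bool)}
    (hu : |pr (Hh (Bs O L Q) Q (nJ' j) x u) (mach j) z - thr j| < gp j) :
    SF.Meets O L Q (ReqK (Sum.inr j) g e) := by
  classical
  have hQ0 : (0 : ℝ) ≤ Q.card := Nat.cast_nonneg _
  have hleg := leg_deep hst hL hQ (Λ := Λ) (N := N) (by omega) hx
  have hb2 : ∀ (E : Ix) (w y : List Bool), IsB w E y → w.length < N → bz E y ^ 2 ≤ N := by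
    intro E w y hw hwN
    have h3 := hw.lt
    have h4 : bz E y ^ 2 ≤ bz E y ^ 7 :=
      Nat.pow_le_pow_right (by have := bz_ge E y; omega) (by norm_num)
    omega
  rcases j with ρ | β
  · have hpairs : ∀ E ∈ Q, ∃ P : PD, E = Sum.inr P := by
      rcases hQ with ⟨β, h⟩ | h
      · exact absurd h (by simp)
      · exact h
    have hno : NoMis (Bs O L Q) Q (nJ' (Sum.inl ρ)) x N u ∅ := by
      intro E hE _ w y hw _ hwN hlg
      obtain ⟨P, rfl⟩ := hpairs E hE
      have := hb2 _ w y hw hwN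
      exact pair_ok (t := Λ) hw (by omega) (hleg _ hE w y hw hwN) hlg
    refine meets_Hh hG hL hNb hno (fun O' hagr A hV => ?_)
      (fun E hE => absurd hE (Finset.notMem_empty _))
    have h1 : pr O' ρ z = pr (Hh (Bs O L Q) Q (nJ' (Sum.inl ρ)) x u) ρ z :=
      pr_congr (fun v hv => hagr v (lt_of_le_of_lt hv hqb))
    have h2 : |pr (Hh (Bs O L Q) Q (nJ' (Sum.inl ρ)) x u) ρ z - 1 / 4| < 1 / 4 := hu
    rw [abs_lt, ← h1] at h2
    have hV' : Via O' ρ.1 ρ.2.1 ρ.2.2 A := hV
    rw [hV'.pr] at h2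
    by_cases hz : z ∈ A
    · have := (hV'.2 z).1 hz
      linarith [h2.2]
    · have := (hV'.2 z).2 hz
      linarith [h2.1]
  · have hrep : Rep (Bs O L Q) Q (nJ' (Sum.inr β)) x N (mach (Sum.inr β)).1 z
        (mM (mach (Sum.inr β)) z) (tT (mach (Sum.inr β)) z) (gp (Sum.inr β)) κ u ∅ := by
      refine ⟨Finset.empty_subset _, ?_, fun E hE => absurd hE (Finset.notMem_empty _)⟩
      have h1 : |pa (Hh (Bs O L Q) Q (nJ' (Sum.inr β)) x u) (mach (Sum.inr β)).1 z
        (mM (mach (Sum.inr β)) z) (tT (mach (Sum.inr β)) z) - 1 / 2| < gp (Sum.inr β) := hu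
      rw [Finset.card_empty]
      push_cast
      linarith
    have hTN := tT_le (mach (Sum.inr β)) z
    obtain ⟨u', D', hR, hno⟩ := rep_fix hleg hN1 hqb.le (by omega) hκ (by nlinarith) hΛ hK _ u ∅
      rfl hrep
    have hD' : (D'.card : ℝ) ≤ Q.card := by exact_mod_cast Finset.card_le_card hR.sub
    refine meets_Hh hG hL hNb hno (fun O' hagr A hV => ?_) (fun E hE O' hagr => ?_)
    · have h1 : pr O' (mach (Sum.inr β)) z =
          pr (Hh (Bs O L Q) Q (nJ' (Sum.inr β)) x u') (mach (Sum.inr β)) z :=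
        pr_congr (fun v hv => hagr v (lt_of_le_of_lt hv hqb))
      have hV' : ViaJ (Sum.inr β) O' A := hV
      have h2 := ViaJ.gap hV' z
      rw [h1] at h2
      have h3 : |pr (Hh (Bs O L Q) Q (nJ' (Sum.inr β)) x u') (mach (Sum.inr β)) z - 1 / 2| ≤
        gp (Sum.inr β) + D'.card * κ := hR.near
      have h4 : gp (Sum.inr β) = 1 / ((β.2.2.2 : ℝ) + 1) / 2 := rfl
      have h5 : D'.card * κ ≤ κ * (Q.card + 1) := by nlinarith
      linarith
    · obtain ⟨ρ', y, rfl, _, hbN, h3, h4⟩ := hR.ill E hE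
      refine ⟨y, fun hl => ?_⟩
      have h1 : pr O' ρ' y = pr (Hh (Bs O L Q) Q (nJ' (Sum.inr β)) x u') ρ' y :=
        pr_congr (fun v hv => hagr v
          (lt_of_le_of_lt (hv.trans (qbr_fs_le (Sum.inl ρ') y)) hbN))
      have h5 : D'.card * κ ≤ κ * (Q.card + 1) := by nlinarith
      rcases hl with h6 | h6
      · rw [h1] at h6
        linarith
      · rw [h1] at h6
        linarith

theorem stageJ {O : List Bool → Bool} {L : ℕ} {Q : Finset Ix} (hG : SF.Good O L)
    (hst : SF.Stable O L Q) (j : Jx) (hQ : QOk j Q) (g : Prog) (e : ℕ) :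
    SF.Meets O L Q (ReqK (Sum.inr j) g e) := by
  classical
  have hη := gp_pos j
  have hQ1 : (0 : ℝ) < (Q.card : ℝ) + 1 := by positivity
  obtain ⟨C, hC0, hC⟩ := exists_nat_inv (a := min (1 / 4) (gp j) / ((Q.card : ℝ) + 1))
    (div_pos (lt_min (by norm_num) hη) hQ1)
  obtain ⟨C2, hC20, hC2⟩ := exists_nat_inv (a := 2 * gp j) (by linarith)
  have hC0' : (0 : ℝ) < C := by exact_mod_cast hC0
  have hC20' : (0 : ℝ) < C2 := by exact_mod_cast hC20
  have hκ1 : 1 / (C : ℝ) * (Q.card + 1) ≤ min (1 / 4) (gp j) := by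
    rw [le_div_iff₀ hQ1] at hC
    exact hC
  set W : ℕ → ℕ := fun n => n + 1 + (n + 2) ^ e with hW
  set qB : ℕ → ℕ := fun n => (code (mach j).1).depth + W n + (W n + 2) ^ (mach j).2.1 + 4 +
    20 * (3 * (W n + 2) ^ (mach j).2.2) with hqB
  set Nn : ℕ → ℕ := fun n => 2 * nJ' j + 6 + 2 * n + (n + 2) ^ 5 +
    ((code g).depth + n + 3 + 60 * (n + 2) ^ e) + qB n + 1 with hNn
  set K1 : ℕ → ℕ := fun n => Q.card * (Nn n * Nn n) + C * ((Q.card + 2) * (Nn n * Nn n)) + 1
    with hK1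
  set K2 : ℕ → ℕ := fun n => C2 * (Nn n * Nn n) + 1 with hK2
  set Ln : ℕ → ℕ := fun n => K1 n * Nn n + 2 * Nn n + (3 * (n + 2) ^ e * Nn n + K2 n * K2 n)
    with hLn
  have hpe : Pol (fun n => (n + 2) ^ e) := ⟨e, fun n => le_rfl⟩
  have hp5 : Pol (fun n => (n + 2) ^ 5) := ⟨5, fun n => le_rfl⟩
  have hpW : Pol W := (Pol.id.add (Pol.const 1)).add hpe
  have hpW2 : Pol (fun n => W n + 2) := hpW.add (Pol.const 2)
  have hpq : Pol qB := ((((Pol.const _).add hpW).add (hpW2.pow _)).add (Pol.const 4)).add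
    ((Pol.const 20).mul ((Pol.const 3).mul (hpW2.pow _)))
  have hpN : Pol Nn := ((((((Pol.const (2 * nJ' j)).add (Pol.const 6)).add
    ((Pol.const 2).mul Pol.id)).add hp5).add
    ((((Pol.const _).add Pol.id).add (Pol.const 3)).add ((Pol.const 60).mul hpe))).add hpq).add
    (Pol.const 1)
  have hpNN : Pol (fun n => Nn n * Nn n) := hpN.mul hpN
  have hpK1 : Pol K1 := (((Pol.const _).mul hpNN).add ((Pol.const C).mul
    ((Pol.const _).mul hpNN))).add (Pol.const 1)
  have hpK2 : Pol K2 := ((Pol.const C2).mul hpNN).add (Pol.const 1)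
  have hpL : Pol Ln := (((hpK1.mul hpN).add ((Pol.const 2).mul hpN)).add
    ((((Pol.const 3).mul hpe).mul hpN).add (hpK2.mul hpK2)))
  obtain ⟨n, hLn', hn⟩ := exists_big (hpL.add hpNN) L
  obtain ⟨x, hx⟩ : ∃ x : List Bool, x.length = n := ⟨List.replicate n true, by simp⟩
  obtain ⟨QG, z, hQG1, hQG2, hz, hout⟩ := exists_out (Hh (Bs O L Q) Q (nJ' j) x ∅) g e x
  rw [hx] at hQG1 hQG2 hz
  set N := Nn n with hNdef
  have hNval : N = 2 * nJ' j + 6 + 2 * n + (n + 2) ^ 5 +
    ((code g).depth + n + 3 + 60 * (n + 2) ^ e) + qB n + 1 := rfl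
  have hzW : z.length + 2 ≤ W n + 2 := by
    simp only [hW]
    omega
  have hqb : qbr (mach j) z < N := by
    have h1 : mM (mach j) z ≤ (W n + 2) ^ (mach j).2.1 := Nat.pow_le_pow_left hzW _
    have h2 : tT (mach j) z ≤ 3 * (W n + 2) ^ (mach j).2.2 :=
      Nat.mul_le_mul_left _ (Nat.pow_le_pow_left hzW _)
    have h3 : qB n = (code (mach j).1).depth + W n + (W n + 2) ^ (mach j).2.1 + 4 +
      20 * (3 * (W n + 2) ^ (mach j).2.2) := rfl
    rw [qbr, qb]
    omega
  have hNb : b5 (kT (nJ' j) true) x < N := by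
    rw [b5_le, hx]
    omega
  have hx' : 4 * (Ln n + N * N) < 2 ^ (x.length / 2) := by
    rw [hx]
    exact hn
  have hLv : Ln n = K1 n * N + 2 * N + (3 * (n + 2) ^ e * N + K2 n * K2 n) := rfl
  by_cases hgap : ∀ u : Finset (List Bool),
      gp j ≤ |pr (Hh (Bs O L Q) Q (nJ' j) x u) (mach j) z - thr j|
  · refine kill_core hG hst (by omega) hQ (Λ := Ln n) (N := N) (K := K2 n) (by omega) hx' hNb
      (by omega) (fun v hv => ?_) hqb hout hη ?_ ?_ hgap
    · have := hQG2 v hv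
      omega
    · have h1 : (K2 n : ℝ) = C2 * (N * N) + 1 := by
        simp only [hK2]
        push_cast
        rfl
      rw [h1]
      rw [div_le_iff₀ hC20'] at hC2
      have h2 : (0 : ℝ) ≤ (N : ℝ) * N := by positivity
      nlinarith
    · have h1 : QG.card * N ≤ 3 * (n + 2) ^ e * N := Nat.mul_le_mul_right _ hQG1
      omega
  · push Not at hgap
    obtain ⟨u, hu⟩ := hgap
    refine kill_viol hG hst hQ (by omega) (Λ := Ln n) (N := N) (K := K1 n) (κ := 1 / C) (by omega)
      hx' hNb (by omega) hqb (by positivity) (hκ1.trans (min_le_left _ _))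
      (hκ1.trans (min_le_right _ _)) ?_ hu
    have h1 : (K1 n : ℝ) = Q.card * (N * N) + C * ((Q.card + 2) * (N * N)) + 1 := by
      simp only [hK1]
      push_cast
      rfl
    rw [h1]
    have h2 : ((Q.card : ℝ) * (N * N) + C * ((Q.card + 2) * (N * N)) + 1 - Q.card * (N * N)) *
        (1 / C) = (Q.card + 2) * (N * N) + 1 / C := by
      field_simp
      ring
    rw [h2]
    have h3 : (0 : ℝ) < 1 / C := by positivity
    linarith

end Pool.Agent.Helper56.PT.Fw
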