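import Pool.Agent.Helper56.PT.Fe

/-!
The diagonalisation against pairs of machines for ZPP in the fourth construction.
-/

set_option autoImplicit false

namespace Pool.Agent.Helper56.PT

open Dat

/-- small closed sets -/
theorem exists_clo (R : List Bool → Finset (List Bool))
    (hR : ∀ w : List Bool, R w = ∅ ∨ ∃ b : ℕ, (∀ v ∈ R w, v.length ≤ b) ∧ 1 ≤ b ∧
      1 + (R w).card * b ≤ w.length ∧ b < w.length) :
    ∀ (n : ℕ) (w : List Bool), w.length = n → ∃ C : Finset (List Bool), w ∈ C ∧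
      C.card ≤ max 1 w.length ∧ (∀ v ∈ C, v.length ≤ w.length) ∧ ∀ v ∈ C, R v ⊆ C := by
  classical
  intro n
  induction n using Nat.strong_induction_on with
  | _ n ih =>
    intro w hw
    rcases hR w with h | ⟨b, hb1, hb2, hb3, hb4⟩
    · refine ⟨{w}, Finset.mem_singleton_self w, by simp, fun v hv => ?_, fun v hv => ?_⟩
      · rw [Finset.mem_singleton.1 hv]
      · rw [Finset.mem_singleton.1 hv, h]
        exact Finset.empty_subset _
    · have hex : ∀ v ∈ R w, ∃ C : Finset (List Bool), v ∈ C ∧ C.card ≤ max 1 v.length ∧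
          (∀ v' ∈ C, v'.length ≤ v.length) ∧ ∀ v' ∈ C, R v' ⊆ C := fun v hv =>
        ih v.length (by have := hb1 v hv; omega) v rfl
      choose! F h1 h2 h3 h4 using hex
      refine ⟨insert w ((R w).biUnion F), Finset.mem_insert_self _ _, ?_, fun v hv => ?_,
        fun v hv => ?_⟩
      · have h5 := Finset.card_insert_le w ((R w).biUnion F)
        have h6 := Finset.card_biUnion_le_card_mul (R w) F b (fun v hv =>
          (h2 v hv).trans (max_le hb2 (hb1 v hv)))
        have h7 : w.length ≤ max 1 w.length := le_max_right _ _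
        omega
      · rcases Finset.mem_insert.1 hv with rfl | hv
        · exact le_rfl
        · obtain ⟨v', hv', hv''⟩ := Finset.mem_biUnion.1 hv
          have h5 := h3 v' hv' v hv''
          have h6 := hb1 v' hv'
          omega
      · rcases Finset.mem_insert.1 hv with rfl | hv
        · intro v' hv'
          exact Finset.mem_insert_of_mem (Finset.mem_biUnion.2 ⟨v', hv', h1 v' hv'⟩)
        · obtain ⟨v', hv', hv''⟩ := Finset.mem_biUnion.1 hv
          intro u hu
          exact Finset.mem_insert_of_mem (Finset.mem_biUnion.2 ⟨v', hv', h4 v' hv' v hv'' hu⟩)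

theorem exists_clo_set (R : List Bool → Finset (List Bool))
    (hR : ∀ w : List Bool, R w = ∅ ∨ ∃ b : ℕ, (∀ v ∈ R w, v.length ≤ b) ∧ 1 ≤ b ∧
      1 + (R w).card * b ≤ w.length ∧ b < w.length) (F : Finset (List Bool)) {B : ℕ}
    (hB : 1 ≤ B) (hF : ∀ w ∈ F, w.length ≤ B) :
    ∃ C : Finset (List Bool), F ⊆ C ∧ C.card ≤ F.card * B ∧ (∀ v ∈ C, v.length ≤ B) ∧
      ∀ v ∈ C, R v ⊆ C := by
  classical
  have hex : ∀ w : List Bool, ∃ C : Finset (List Bool), w ∈ C ∧ C.card ≤ max 1 w.length ∧
      (∀ v ∈ C, v.length ≤ w.length) ∧ ∀ v ∈ C, R v ⊆ C := fun w =>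
    exists_clo R hR w.length w rfl
  choose G h1 h2 h3 h4 using hex
  refine ⟨F.biUnion G, fun w hw => Finset.mem_biUnion.2 ⟨w, hw, h1 w⟩,
    Finset.card_biUnion_le_card_mul F G B (fun w hw => (h2 w).trans (max_le hB (hF w hw))),
    fun v hv => ?_, fun v hv => ?_⟩
  · obtain ⟨w, hw, hv'⟩ := Finset.mem_biUnion.1 hv
    exact (h3 w v hv').trans (hF w hw)
  · obtain ⟨w, hw, hv'⟩ := Finset.mem_biUnion.1 hv
    exact (h4 w v hv').trans (Finset.subset_biUnion_of_mem G hw)

/-- the size of the support of a machine of an index -/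
theorem sup_bd {δ : List Bool → Bool} {E : Ix} {ρ : RD} {y r : List Bool}
    (hρ : qbr ρ y ≤ bz E y) (hr : r.length = mM ρ y) {n : ℕ} (hn : bz E y ^ 7 + 2 ≤ n) :
    (∀ v ∈ sup δ ρ.1 y r (tT ρ y), v.length ≤ bz E y) ∧ 1 ≤ bz E y ∧
      1 + (sup δ ρ.1 y r (tT ρ y)).card * bz E y ≤ n ∧ bz E y < n := by
  have h3 := bz_ge E y
  have h1 := bz_le_pow E y
  refine ⟨fun v hv => ?_, by omega, ?_, by omega⟩
  · have h2 := sup_length _ _ _ _ _ v hv
    rw [hr] at h2
    exact h2.trans hρ
  · have h4 := sup_card δ ρ.1 y r (tT ρ y)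
    have h5 := tT_le ρ y
    have h6 : (sup δ ρ.1 y r (tT ρ y)).card * bz E y ≤ bz E y * bz E y :=
      Nat.mul_le_mul_right _ (by omega)
    have h7 : bz E y * bz E y ≤ bz E y ^ 7 := by
      rw [← pow_two]
      exact Nat.pow_le_pow_right (by omega) (by norm_num)
    omega

namespace Fw

open Classical in
/-- contents of the two blocks of a test -/
noncomputable def cz (m : ℕ) (x : List Bool) (X : Set (List Bool)) (w : List Bool) : Bool :=
  if isT5 m x w then decide (w ∈ X) else c0 w

theorem cz_P {m : ℕ} {x : List Bool} {X : Set (List Bool)} (u r : List Bool) :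
    cz m x X (st kP u r) = false := by
  rw [cz, if_neg not_isT5_P, c0_P]

theorem cz_low {m : ℕ} {x : List Bool} {X : Set (List Bool)} {w : List Bool}
    (h : w.length ≤ x.length) : cz m x X w = c0 w := by
  rw [cz, if_neg (fun h1 => ?_)]
  have := h1.lt
  omega

theorem OkT_cz_other {m : ℕ} {x : List Bool} {X : Set (List Bool)} {j : JJ} {x' : List Bool}
    (h : ¬ (nK j = m ∧ x' = x)) : OkT j (cz m x X) x' := by
  refine OkT_congr' (O := c0) (fun b r hr => ?_) (OkT_c0 j x')
  rw [cz, if_neg (not_isT5 h)]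

open Classical in
theorem cz_isT5 {m : ℕ} {x r : List Bool} {X : Set (List Bool)} {b : Bool}
    (hr : r.length = (x.length + 2) ^ 5) :
    cz m x X (st (kT m b) x r) = decide (st (kT m b) x r ∈ X) := by
  rw [cz, if_pos (mem_isT5 hr)]

theorem dn_Xb {m : ℕ} {x : List Bool} {b : Bool} {G : Finset (List Bool)}
    (hGc : 4 * G.card < 2 ^ (x.length / 2)) :
    3 / 4 < dn (cz m x (Xb m x b G)) (kT m b) x ∧
      dn (cz m x (Xb m x b G)) (kT m (!b)) x = 0 := by
  classical
  constructor
  · refine dn_large hGc ?_ (fun r hr h => ?_)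
    · have : x.length + 2 ≤ (x.length + 2) ^ 5 := Nat.le_self_pow (by norm_num) _
      omega
    · rw [cz_isT5 hr, decide_eq_false_iff_not] at h
      by_contra hn
      exact h ⟨⟨r, rfl⟩, hn⟩
  · refine dn_zero (fun r hr => ?_)
    rw [cz_isT5 hr, decide_eq_false_iff_not]
    rintro ⟨⟨r', h⟩, _⟩
    have := (kT_inj (st_inj h).1).2
    cases b <;> simp at this

theorem dn_cz_empty {m : ℕ} {x : List Bool} {b : Bool} : dn (cz m x ∅) (kT m b) x = 0 := by
  classical
  refine dn_zero (fun r hr => ?_)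
  rw [cz_isT5 hr, decide_eq_false_iff_not]
  exact fun h => h

section zkill

variable {O : List Bool → Bool} {L : ℕ} {Q : Finset Ix} {x : List Bool} {m : ℕ}

/-- positive probability of a legitimate index -/
theorem Val_of_pos {δ : List Bool → Bool} {E : Ix} {y : List Bool} (hl : Leg δ E y)
    (h : 0 < pr δ (fs E) y) : Val δ E y := by
  rcases E with ρ | P
  · rcases hl with h1 | h1
    · have h2 : 0 < pr δ ρ y := h
      linarith
    · exact h1
  · rcases hl with ⟨h1, _⟩ | ⟨h1, _⟩
    · exact h1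
    · linarith

open Classical in
/-- the forced zeros -/
noncomputable def Zs (δ : List Bool → Bool) (x : List Bool) (C : Finset (List Bool)) :
    Finset (List Bool) := C.filter (fun w => x.length ≤ w.length ∧ δ w = false)

/-- the dependencies of a string -/
def Dep (δ : List Bool → Bool) (Q : Finset Ix) (R : List Bool → Finset (List Bool)) : Prop :=
  ∀ w : List Bool, ∀ E ∈ Q, ∀ y : List Bool, IsB w E y → δ w = true → 0 < pr δ (fs E) y →
    ∃ r : List Bool, r.length = mM (fs E) y ∧ AccS δ (fs E).1 y r (tT (fs E) y) ∧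
      sup δ (fs E).1 y r (tT (fs E) y) ⊆ R w

theorem exists_Dep (δ : List Bool → Bool) (Q : Finset Ix) :
    ∃ R : List Bool → Finset (List Bool), Dep δ Q R ∧
      ∀ w : List Bool, R w = ∅ ∨ ∃ b : ℕ, (∀ v ∈ R w, v.length ≤ b) ∧ 1 ≤ b ∧
        1 + (R w).card * b ≤ w.length ∧ b < w.length := by
  have hex : ∀ w : List Bool, ∃ R : Finset (List Bool),
      (∀ E ∈ Q, ∀ y : List Bool, IsB w E y → δ w = true → 0 < pr δ (fs E) y →
        ∃ r : List Bool, r.length = mM (fs E) y ∧ AccS δ (fs E).1 y r (tT (fs E) y) ∧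
          sup δ (fs E).1 y r (tT (fs E) y) ⊆ R) ∧
      (R = ∅ ∨ ∃ b : ℕ, (∀ v ∈ R, v.length ≤ b) ∧ 1 ≤ b ∧
        1 + R.card * b ≤ w.length ∧ b < w.length) := by
    intro w
    by_cases h : ∃ E ∈ Q, ∃ y : List Bool, IsB w E y ∧ 0 < pr δ (fs E) y
    · obtain ⟨E, hE, y, hy, hp⟩ := h
      obtain ⟨r, hr, hacc⟩ := acc_of_Val hp
      refine ⟨sup δ (fs E).1 y r (tT (fs E) y), fun E' hE' y' hy' _ _ => ?_,
        Or.inr ⟨bz E y, sup_bd (qbr_fs_le E y) hr hy.lt⟩⟩
      obtain ⟨rfl, rfl⟩ := hy.inj hy'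
      exact ⟨r, hr, hacc, Finset.Subset.refl _⟩
    · exact ⟨∅, fun E hE y hy _ hp => absurd ⟨E, hE, y, hy, hp⟩ h, Or.inl rfl⟩
  choose R h1 h2 using hex
  exact ⟨R, h1, h2⟩

theorem persist (hst : SF.Stable O L Q) (hL : L ≤ x.length) {b : Bool}
    {C : Finset (List Bool)} {R : List Bool → Finset (List Bool)}
    (hR : Dep (Rc O L Q (cz m x ∅) ∅) Q R) (hC : ∀ v ∈ C, R v ⊆ C)
    (hE : SF.Ext O L Q (Rc O L Q (cz m x (Xb m x b C)) (Zs (Rc O L Q (cz m x ∅) ∅) x C))) :
    ∀ (n : ℕ) (w : List Bool), w.length = n → w ∈ C →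
      Rc O L Q (cz m x (Xb m x b C)) (Zs (Rc O L Q (cz m x ∅) ∅) x C) w =
        Rc O L Q (cz m x ∅) ∅ w := by
  classical
  obtain ⟨δ0, hδ0⟩ : ∃ δ0, δ0 = Rc O L Q (cz m x ∅) ∅ := ⟨_, rfl⟩
  obtain ⟨δ1, hδ1⟩ : ∃ δ1, δ1 = Rc O L Q (cz m x (Xb m x b C)) (Zs δ0 x C) := ⟨_, rfl⟩
  rw [← hδ0] at hR hE ⊢
  rw [← hδ1] at hE ⊢
  intro n
  induction n using Nat.strong_induction_on with
  | _ n ih =>
    intro w hw hwC
    by_cases h1 : w.length < x.length
    · rw [hδ0, hδ1]
      refine Rc_congr (n := x.length) (fun v hv => ?_) (fun v hv => ?_) _ w rfl h1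
      · rw [cz_low hv.le, cz_low hv.le]
      · constructor
        · intro h2
          have := (Finset.mem_filter.1 h2).2.1
          omega
        · intro h2
          exact absurd h2 (Finset.notMem_empty _)
    · rw [not_lt] at h1
      have hLw : L ≤ w.length := by omega
      by_cases h2 : Cod Q w
      · obtain ⟨E, hEQ, y, hy⟩ := h2
        have e1 : δ1 w = true ↔ w ∉ Zs δ0 x C ∧ Val δ1 E y := by
          rw [hδ1]
          exact Rc_Cod hLw hEQ hy
        have e0 : δ0 w = true ↔ Val δ0 E y := by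
          rw [hδ0, Rc_Cod hLw hEQ hy]
          simp
        cases h3 : δ0 w with
        | false =>
          rw [Bool.eq_false_iff]
          intro h4
          exact (e1.1 h4).1 (Finset.mem_filter.2 ⟨hwC, h1, h3⟩)
        | true =>
          rw [e1]
          refine ⟨fun h4 => ?_, ?_⟩
          · have := (Finset.mem_filter.1 h4).2.2
            rw [h3] at this
            simp at this
          · have hv := e0.1 h3
            obtain ⟨r, hr, hacc, hsup⟩ := hR w E hEQ y hy h3 (lt_trans (by norm_num) hv)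
            refine Val_of_pos (hst E hEQ δ1 hE y) (pr_pos hr ((AccS_sup (fun q hq => ?_)).2 hacc))
            have h5 := (sup_bd (qbr_fs_le E y) hr hy.lt).1 q hq
            have h6 := hy.bz_lt
            exact ih q.length (by omega) q rfl (hC w hwC (hsup hq))
      · rw [hδ0, hδ1, Rc_other hLw h2, Rc_other hLw h2, cz, cz]
        by_cases h3 : isT5 m x w
        · rw [if_pos h3, if_pos h3]
          have h4 : w ∉ Xb m x b C := fun h => h.2 hwC
          have h5 : w ∉ (∅ : Set (List Bool)) := fun h => h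
          simp [h4]
        · rw [if_neg h3, if_neg h3]

theorem stageP (hG : SF.Good O L) (hst : SF.Stable O L Q) (P : PD) (g : Prog) (e : ℕ) :
    SF.Meets O L Q (ReqK (Sum.inl P) g e) := by
  classical
  obtain ⟨p, q, k, l, k', l'⟩ := P
  obtain ⟨jj, hjj⟩ : ∃ jj : JJ, jj = Sum.inl (p, q, k, l, k', l') := ⟨_, rfl⟩
  set W : ℕ → ℕ := fun n => n + 1 + (n + 2) ^ e with hW
  set Tb : ℕ → ℕ := fun n => 3 * (W n + 2) ^ l with hTb
  set Tb' : ℕ → ℕ := fun n => 3 * (W n + 2) ^ l' with hTb'
  set qB : ℕ → ℕ := fun n => (code p).depth + W n + (W n + 2) ^ k + 4 + 20 * Tb n with hqB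
  set qB' : ℕ → ℕ := fun n => (code q).depth + W n + (W n + 2) ^ k' + 4 + 20 * Tb' n with hqB'
  set Nn : ℕ → ℕ := fun n => 2 * nK jj + 6 + 2 * n + (n + 2) ^ 5 +
    ((code g).depth + n + 3 + 60 * (n + 2) ^ e) + (qB n + qB' n) + 1 with hNn
  set cardB : ℕ → ℕ := fun n => (3 * (n + 2) ^ e + (Tb n + Tb' n)) * Nn n with hcardB
  have hpe : Pol (fun n => (n + 2) ^ e) := ⟨e, fun n => le_rfl⟩
  have hp5 : Pol (fun n => (n + 2) ^ 5) := ⟨5, fun n => le_rfl⟩
  have hpW : Pol W := (Pol.id.add (Pol.const 1)).add hpe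
  have hpW2 : Pol (fun n => W n + 2) := hpW.add (Pol.const 2)
  have hpT : Pol Tb := (Pol.const 3).mul (hpW2.pow l)
  have hpT' : Pol Tb' := (Pol.const 3).mul (hpW2.pow l')
  have hpq : Pol qB := ((((Pol.const _).add hpW).add (hpW2.pow k)).add (Pol.const 4)).add
    ((Pol.const 20).mul hpT)
  have hpq' : Pol qB' := ((((Pol.const _).add hpW).add (hpW2.pow k')).add (Pol.const 4)).add
    ((Pol.const 20).mul hpT')
  have hpN : Pol Nn := ((((((Pol.const (2 * nK jj)).add (Pol.const 6)).add
    ((Pol.const 2).mul Pol.id)).add hp5).add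
    ((((Pol.const _).add Pol.id).add (Pol.const 3)).add ((Pol.const 60).mul hpe))).add
    (hpq.add hpq')).add (Pol.const 1)
  have hpc : Pol cardB := (((Pol.const 3).mul hpe).add (hpT.add hpT')).mul hpN
  obtain ⟨n, hLn, hn⟩ := exists_big hpc L
  obtain ⟨x, hx⟩ : ∃ x : List Bool, x.length = n := ⟨List.replicate n true, by simp⟩
  obtain ⟨m, hm⟩ : ∃ m, m = nK jj := ⟨_, rfl⟩
  obtain ⟨δ0, hδ0⟩ : ∃ δ0, δ0 = Rc O L Q (cz m x ∅) ∅ := ⟨_, rfl⟩
  obtain ⟨QG, z, hQ1, hQ2, hz, hQ3⟩ := exists_out δ0 g e x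
  rw [hx] at hQ1 hQ2 hz
  obtain ⟨N, hN⟩ : ∃ N, N = Nn n := ⟨_, rfl⟩
  have hNval : Nn n = 2 * nK jj + 6 + 2 * n + (n + 2) ^ 5 +
    ((code g).depth + n + 3 + 60 * (n + 2) ^ e) + (qB n + qB' n) + 1 := rfl
  have hzW : z.length + 2 ≤ W n + 2 := by
    simp only [hW]
    omega
  obtain ⟨T, hT⟩ : ∃ T, T = 3 * (z.length + 2) ^ l := ⟨_, rfl⟩
  obtain ⟨T', hT'⟩ : ∃ T', T' = 3 * (z.length + 2) ^ l' := ⟨_, rfl⟩
  have hTB : T ≤ Tb n := by
    rw [hT]
    exact Nat.mul_le_mul_left _ (Nat.pow_le_pow_left hzW l)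
  have hTB' : T' ≤ Tb' n := by
    rw [hT']
    exact Nat.mul_le_mul_left _ (Nat.pow_le_pow_left hzW l')
  have hMB : (z.length + 2) ^ k ≤ (W n + 2) ^ k := Nat.pow_le_pow_left hzW k
  have hMB' : (z.length + 2) ^ k' ≤ (W n + 2) ^ k' := Nat.pow_le_pow_left hzW k'
  have hqb : qb p z ((z.length + 2) ^ k) T < N := by
    have h3 : qB n = (code p).depth + W n + (W n + 2) ^ k + 4 + 20 * Tb n := rfl
    rw [qb]
    omega
  have hqb' : qb q z ((z.length + 2) ^ k') T' < N := by
    have h3 : qB' n = (code q).depth + W n + (W n + 2) ^ k' + 4 + 20 * Tb' n := rfl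
    rw [qb]
    omega
  have hNb : b5 (kT m true) x < N := by
    rw [b5_le, hx]
    omega
  have hn' : 4 * ((3 * (n + 2) ^ e + (Tb n + Tb' n)) * Nn n) < 2 ^ (x.length / 2) := by
    rw [hx]
    exact hn
  have hcP : ∀ (X : Set (List Bool)) (u r : List Bool), r.length = (u.length + 2) ^ 5 →
      cz m x X (st kP u r) = false := fun X u r _ => cz_P u r
  obtain ⟨R, hR1, hR2⟩ := exists_Dep δ0 Q
  -- freezing, and filling of the block `b`
  have key : ∀ (F : Finset (List Bool)) (b : Bool), F.card ≤ T + T' →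
      (∀ v ∈ F, v.length < N) →
      (∀ O' : List Bool → Bool, (∀ v ∈ F, O' v = δ0 v) → ∀ A : Set (List Bool),
        ViaZ O' (p, q, k, l, k', l') A → if b then z ∉ A else z ∈ A) →
      SF.Meets O L Q (ReqK (Sum.inl (p, q, k, l, k', l')) g e) := by
    intro F b hFc hFl hF
    obtain ⟨C, hC1, hC2, hC3, hC4⟩ := exists_clo_set R hR2 (QG ∪ F) (B := N - 1) (by omega)
      (fun w hw => by
        rcases Finset.mem_union.1 hw with h | h
        · have := hQ2 w h
          omega
        · have := hFl w h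
          omega)
    have hCc : 4 * C.card < 2 ^ (x.length / 2) := by
      refine lt_of_le_of_lt (Nat.mul_le_mul_left 4 (hC2.trans ?_)) hn'
      refine Nat.mul_le_mul ((Finset.card_union_le QG F).trans (by omega)) (by omega)
    have hZ1 : ∀ w ∈ Zs δ0 x C, x.length ≤ w.length := fun w hw => (Finset.mem_filter.1 hw).2.1
    have hZ2 : 4 * (Zs δ0 x C).card < 2 ^ (x.length / 2) :=
      lt_of_le_of_lt (Nat.mul_le_mul_left 4 (Finset.card_filter_le _ _)) hCc
    obtain ⟨hd1, hd2⟩ := dn_Xb (m := m) (b := b) hCc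
    have hOk : ∀ (j : JJ) (x' : List Bool), L ≤ b5 (kT (nK j) true) x' →
        OkT j (cz m x (Xb m x b C)) x' := by
      intro j x' _
      by_cases h : nK j = m ∧ x' = x
      · obtain ⟨h1, rfl⟩ := h
        have h2 : j = Sum.inl (p, q, k, l, k', l') := by
          rw [← hjj]
          exact nK_injective (h1.trans hm)
        subst h2
        rw [hm, hjj] at hd1 hd2 ⊢
        cases b with
        | false => exact Or.inl ⟨by linarith, hd2⟩
        | true => exact Or.inr ⟨by linarith, hd2⟩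
      · exact OkT_cz_other h
    have hExt : SF.Ext O L Q (Rc O L Q (cz m x (Xb m x b C)) (Zs δ0 x C)) :=
      Rc_ext (hcP _) hZ1 hZ2 hOk
    have hper := persist (m := m) (x := x) (b := b) hst (by omega) (by rw [← hδ0]; exact hR1) hC4
      (by rw [← hδ0]; exact hExt)
    rw [← hδ0] at hper
    refine ⟨_, N, Q, Rc_stp hZ1 hZ2 (by omega), by omega, hExt.good hG (by omega),
      fun O' hagr A f hV hf hred => ?_⟩
    have hOC : ∀ v ∈ C, O' v = δ0 v := fun v hv => by
      rw [hagr v (by have := hC3 v hv; omega)]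
      exact hper _ v rfl hv
    have hfx := hQ3 O' (fun v hv => hOC v (hC1 (Finset.mem_union_left _ hv))) f hf
    have h1 := hred x
    rw [hfx] at h1
    have hzA := hF O' (fun v hv => hOC v (hC1 (Finset.mem_union_right _ hv))) A hV
    have hdO : ∀ b', dn O' (kT m b') x = dn (cz m x (Xb m x b C)) (kT m b') x := by
      intro b'
      refine (dn_congr (hagr.mono (by rw [b5_kT _ b' true]; omega))).trans
        (dn_congr' (fun r hr => ?_))
      exact Rc_other (by
        have := lt_b5 m b' x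
        rw [length_st5 hr]
        omega) not_Cod_T
    have hTS : x ∈ TSK (Sum.inl (p, q, k, l, k', l')) O' ↔ 0 < dn O' (kT m true) x := by
      rw [hm, hjj]
      rfl
    rw [hTS, hdO] at h1
    cases b with
    | false =>
      simp only [Bool.false_eq_true, if_false] at hzA
      have h2 := h1.2 hzA
      rw [show (!false) = true from rfl] at hd2
      linarith
    | true =>
      simp only [if_true] at hzA
      exact hzA (h1.1 (by linarith))
  by_cases ha : ∃ r : List Bool, r.length = (z.length + 2) ^ k ∧ AccS δ0 p z r T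
  · obtain ⟨r, hr, hacc⟩ := ha
    refine key (sup δ0 p z r T) false ((sup_card _ _ _ _ _).trans (by omega))
      (fun v hv => ?_) (fun O' hO' A hV => ?_)
    · have := sup_length _ _ _ _ _ v hv
      rw [hr] at this
      omega
    · simp only [Bool.false_eq_true, if_false]
      exact hV.1.acc hr (by rw [← hT]; exact (AccS_sup hO').2 hacc)
  · by_cases hb : ∃ r : List Bool, r.length = (z.length + 2) ^ k' ∧ AccS δ0 q z r T'
    · obtain ⟨r, hr, hacc⟩ := hb
      refine key (sup δ0 q z r T') true ((sup_card _ _ _ _ _).trans (by omega))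
        (fun v hv => ?_) (fun O' hO' A hV => ?_)
      · have := sup_length _ _ _ _ _ v hv
        rw [hr] at this
        omega
      · simp only [if_true]
        exact hV.2.acc hr (by rw [← hT']; exact (AccS_sup hO').2 hacc)
    · have hdead : ∀ O' : List Bool → Bool, Ag N O' δ0 →
          DeadK (Sum.inl (p, q, k, l, k', l')) O' := by
        intro O' hagr A hV
        have hV' : ViaZ O' (p, q, k, l, k', l') A := hV
        by_cases hzA : z ∈ A
        · have h1 := hV'.1.pa hzA
          rw [← hT] at h1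
          obtain ⟨r, hr, hacc⟩ := Pr_exists (lt_trans (by norm_num) h1)
          have hr' : r.length = (z.length + 2) ^ k := hr
          refine ha ⟨r, hr, (AccS_congr (fun v hv => ?_)).1 hacc⟩
          rw [hr'] at hv
          have hv' : v.length ≤ qb p z ((z.length + 2) ^ k) T := hv
          exact hagr v (by omega)
        · have h1 := hV'.2.pa hzA
          rw [← hT'] at h1
          obtain ⟨r, hr, hacc⟩ := Pr_exists (lt_trans (by norm_num) h1)
          have hr' : r.length = (z.length + 2) ^ k' := hr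
          refine hb ⟨r, hr, (AccS_congr (fun v hv => ?_)).1 hacc⟩
          rw [hr'] at hv
          have hv' : v.length ≤ qb q z ((z.length + 2) ^ k') T' := hv
          exact hagr v (by omega)
      refine ⟨δ0, N, Q, ?_, by omega, ?_, fun O' hagr => (hdead O' hagr).req⟩
      · rw [hδ0]
        exact Rc_stp (n := 0) (fun _ h => absurd h (Finset.notMem_empty _)) (by simp) (by omega)
      · rw [hδ0] at hdead ⊢
        refine Rc_good (n := 0) hG (hcP _) (fun _ h => absurd h (Finset.notMem_empty _))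
          (by simp) (by omega) (fun j x' _ => ?_)
        by_cases h : nK j = m ∧ x' = x
        · obtain ⟨h1, rfl⟩ := h
          have h2 : j = Sum.inl (p, q, k, l, k', l') := by
            rw [← hjj]
            exact nK_injective (h1.trans hm)
          subst h2
          exact Or.inr hdead
        · exact Or.inl (OkT_cz_other h)

end zkill

end Fw

end Pool.Agent.Helper56.PT
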