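import Pool.Agent.Helper56.PT.Ff

/-!
Oracles relative to which exactly R, or none, of ZPP, R and BPP have complete sets.
-/

set_option autoImplicit false

namespace Pool.Agent.Helper56.PT

open Dat

theorem Sys.Meets.mono {S : Sys} {O : List Bool → Bool} {L : ℕ} {Q : Finset S.I}
    {R R' : (List Bool → Bool) → Prop} (h : S.Meets O L Q R) (hR : ∀ O, R O → R' O) :
    S.Meets O L Q R' := by
  obtain ⟨O', L', Q', h1, h2, h3, h4⟩ := h
  exact ⟨O', L', Q', h1, h2, h3, fun O'' hagr => hR _ (h4 O'' hagr)⟩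

namespace Fw

/-- the requirements which are met if the indices in `𝒜` are coded -/
def QS (j : JJ) (𝒜 : Set Ix) : Prop :=
  (∃ P : PD, j = Sum.inl P) ∨ (∃ β : BD, j = Sum.inr (Sum.inr β)) ∨ ∀ E ∈ 𝒜, ∃ P : PD, E = Sum.inr P

/-- the limit of the fourth construction -/
theorem exists_limit4 (𝒜 : Set Ix) : ∃ O : List Bool → Bool,
    (∀ u : List Bool, dn O kP u = 0 ∨ 1 / 2 < dn O kP u) ∧
    (∀ (j : JJ) (x : List Bool), OkT j O x ∨ DeadK j O) ∧
    (∀ (j : JJ) (g : Prog) (e : ℕ), QS j 𝒜 → ReqK j g e O) ∧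
    ∀ E ∈ 𝒜, (∃ y : List Bool, ¬ Leg O E y) ∨ ∃ L : ℕ, ∀ (s : ℕ) (y : List Bool),
      L ≤ b5 kP (cs E s y) → Leg O E y → (Val O E y → 1 / 2 < dn O kP (cs E s y)) ∧
        (¬ Val O E y → dn O kP (cs E s y) = 0) := by
  have : Countable SF.I := (inferInstance : Countable Ix)
  have : Nonempty SF.I := ⟨(Sum.inl (Prog.id, 0, 0) : Ix)⟩
  have : Nonempty (JJ × Prog × ℕ) := ⟨Sum.inr (Sum.inl (Prog.id, 0, 0)), Prog.id, 0⟩
  obtain ⟨O, h1, h2, h3, h4⟩ := Sys.limit SF
    (fun (q : JJ × Prog × ℕ) O => QS q.1 𝒜 → ReqK q.1 q.2.1 q.2.2 O) 𝒜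
    ⟨fun _ => false, fun u hu => absurd hu (Nat.not_lt_zero _),
      fun t ht => absurd ht (Nat.not_lt_zero _)⟩ (fun O L Q hG hst hQ q => by
      obtain ⟨j, g, e⟩ := q
      by_cases hj : QS j 𝒜
      · rcases j with P | j
        · exact (stageP hG hst P g e).mono (fun _ h _ => h)
        · have hok : QOk j Q := by
            rcases hj with ⟨P, h⟩ | ⟨β, h⟩ | h
            · exact absurd h (by simp)
            · exact Or.inl ⟨β, by simpa using h⟩
            · exact Or.inr (fun E hE => h E (hQ E hE))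
          exact (stageJ hG hst j hok g e).mono (fun _ h _ => h)
      · exact (stageP hG hst (Prog.id, Prog.id, 0, 0, 0, 0) g e).mono (fun _ _ h => absurd h hj))
  exact ⟨O, h1, fun j x => h2 (j, x), fun j g e => h3 (j, g, e), fun E hE => by
    rcases h4 E hE with h | ⟨L, h⟩
    · exact Or.inl h
    · exact Or.inr ⟨L, fun s y => h (s, y)⟩⟩

/-- blocks which are dense or empty give a set in R -/
theorem inR_block {O : List Bool → Bool} (κ : List Bool) (B : Set (List Bool))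
    (hB : ∀ x : List Bool, (x ∈ B → 1 / 2 < dn O κ x) ∧ (x ∉ B → dn O κ x = 0)) : InR O B := by
  obtain ⟨s, t, hs, hacc⟩ := exists_queryJ O κ 5 (by norm_num)
  refine ⟨s, 5, t, hs, fun x => ?_⟩
  have h1 : Pr ((x.length + 2) ^ 5) (Accepts O s x) = dn O κ x :=
    Pr_congr (fun r hr => hacc x r hr)
  rw [h1]
  exact hB x

theorem not_hasComplete_R4 {O : List Bool → Bool}
    (hok : ∀ (j : JJ) (x : List Bool), OkT j O x ∨ DeadK j O)
    (hreq : ∀ (ρ : RD) (g : Prog) (e : ℕ), ReqK (Sum.inr (Sum.inl ρ)) g e O) :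
    ¬ HasComplete O (InR O) := by
  rintro ⟨A, ⟨p, k, l, hpA⟩, hcomp⟩
  have hV : ViaK (Sum.inr (Sum.inl (p, k, l))) O A := hpA
  have hok' : ∀ x, OkT (Sum.inr (Sum.inl (p, k, l))) O x := fun x => by
    rcases hok (Sum.inr (Sum.inl (p, k, l))) x with h | h
    · exact h
    · exact absurd hV (h A)
  have hB : InR O (TSK (Sum.inr (Sum.inl (p, k, l))) O) := by
    refine inR_block (kT (nK (Sum.inr (Sum.inl (p, k, l)))) true) _ (fun x => ⟨fun hx => ?_,
      fun hx => ?_⟩)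
    · have hx' : 0 < dn O (kT (nK (Sum.inr (Sum.inl (p, k, l)))) true) x := hx
      rcases hok' x with h | h
      · linarith
      · exact h
    · have hx' : ¬ 0 < dn O (kT (nK (Sum.inr (Sum.inl (p, k, l)))) true) x := hx
      rcases hok' x with h | h
      · exact h
      · exact absurd (lt_trans (by norm_num) h) hx'
  obtain ⟨f, ⟨g, e, hf⟩, hred⟩ := hcomp _ hB
  exact hreq (p, k, l) g e A f hV hf hred

theorem not_hasComplete_ZPP4 {O : List Bool → Bool}
    (hok : ∀ (j : JJ) (x : List Bool), OkT j O x ∨ DeadK j O)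
    (hreq : ∀ (P : PD) (g : Prog) (e : ℕ), ReqK (Sum.inl P) g e O) :
    ¬ HasComplete O (InZPP O) := by
  rintro ⟨A, ⟨⟨p, k, l, hpA⟩, ⟨q, k', l', hqA⟩⟩, hcomp⟩
  obtain ⟨P, hP⟩ : ∃ P : PD, P = (p, q, k, l, k', l') := ⟨_, rfl⟩
  have hV : ViaK (Sum.inl P) O A := by
    rw [hP]
    exact ⟨hpA, hqA⟩
  have hok' : ∀ x, OkT (Sum.inl P) O x := fun x => by
    rcases hok (Sum.inl P) x with h | h
    · exact h
    · exact absurd hV (h A)
  have hB : InZPP O (TSK (Sum.inl P) O) := by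
    constructor
    · refine inR_block (kT (nK (Sum.inl P)) true) _ (fun x => ⟨fun hx => ?_, fun hx => ?_⟩)
      · have hx' : 0 < dn O (kT (nK (Sum.inl P)) true) x := hx
        rcases hok' x with ⟨_, h⟩ | ⟨h, _⟩
        · linarith
        · exact h
      · have hx' : ¬ 0 < dn O (kT (nK (Sum.inl P)) true) x := hx
        rcases hok' x with ⟨_, h⟩ | ⟨h, _⟩
        · exact h
        · exact absurd (lt_trans (by norm_num) h) hx'
    · refine inR_block (kT (nK (Sum.inl P)) false) _ (fun x => ⟨fun hx => ?_, fun hx => ?_⟩)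
      · have hx' : ¬ 0 < dn O (kT (nK (Sum.inl P)) true) x := hx
        rcases hok' x with ⟨h, _⟩ | ⟨h, _⟩
        · exact h
        · exact absurd (lt_trans (by norm_num) h) hx'
      · have hx' : 0 < dn O (kT (nK (Sum.inl P)) true) x := by
          by_contra h
          exact hx h
        rcases hok' x with ⟨_, h⟩ | ⟨_, h⟩
        · linarith
        · exact h
  obtain ⟨f, ⟨g, e, hf⟩, hred⟩ := hcomp _ hB
  exact hreq P g e A f hV hf hred

theorem not_hasComplete_BPP4 {O : List Bool → Bool}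
    (hok : ∀ (j : JJ) (x : List Bool), OkT j O x ∨ DeadK j O)
    (hreq : ∀ (β : BD) (g : Prog) (e : ℕ), ReqK (Sum.inr (Sum.inr β)) g e O) :
    ¬ HasComplete O (InBPP O) := by
  rintro ⟨A, ⟨p, k, l, ε, hε, hp, hA⟩, hcomp⟩
  obtain ⟨c, hc⟩ := exists_nat_gt (1 / ε)
  obtain ⟨β, hβ⟩ : ∃ β : BD, β = (p, k, l, c) := ⟨_, rfl⟩
  have hV : ViaK (Sum.inr (Sum.inr β)) O A := by
    rw [hβ]
    refine ⟨hp, fun z => lt_of_le_of_lt ?_ (hA z)⟩
    have h1 : 1 / ((c : ℝ) + 1) ≤ ε := by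
      rw [div_le_iff₀ (by positivity)]
      rw [div_lt_iff₀ hε] at hc
      nlinarith
    have h2 : (1 : ℝ) / 2 + 1 / ((c : ℝ) + 1) ≤ 1 / 2 + ε := by linarith
    exact h2
  have hok' : ∀ x, OkT (Sum.inr (Sum.inr β)) O x := fun x => by
    rcases hok (Sum.inr (Sum.inr β)) x with h | h
    · exact h
    · exact absurd hV (h A)
  have hB : InBPP O (TSK (Sum.inr (Sum.inr β)) O) := by
    obtain ⟨s, t, hs, hacc⟩ := exists_queryJ O (kT (nK (Sum.inr (Sum.inr β))) true) 5 (by norm_num)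
    refine ⟨s, 5, t, 1 / 8, by norm_num, hs, fun x => ?_⟩
    have h0 : Pr ((x.length + 2) ^ 5) (Accepts O s x) =
        dn O (kT (nK (Sum.inr (Sum.inr β))) true) x := Pr_congr (fun r hr => hacc x r hr)
    have h1 : x ∈ TSK (Sum.inr (Sum.inr β)) O ↔
        1 / 2 < dn O (kT (nK (Sum.inr (Sum.inr β))) true) x := Iff.rfl
    rcases hok' x with h2 | h2
    · have hx : x ∉ TSK (Sum.inr (Sum.inr β)) O := by rw [h1]; linarith
      have h3 : Pr ((x.length + 2) ^ 5) (fun r => Accepts O s x r ↔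
          x ∈ TSK (Sum.inr (Sum.inr β)) O) =
          Pr ((x.length + 2) ^ 5) (fun r => ¬ (Accepts O s x) r) :=
        Pr_congr (fun r _ => by simp [hx])
      have h4 := Pr_add_not ((x.length + 2) ^ 5) (Accepts O s x)
      rw [h0] at h4
      rw [h3]
      linarith
    · have hx : x ∈ TSK (Sum.inr (Sum.inr β)) O := by rw [h1]; linarith
      have h3 : Pr ((x.length + 2) ^ 5) (fun r => Accepts O s x r ↔
          x ∈ TSK (Sum.inr (Sum.inr β)) O) = Pr ((x.length + 2) ^ 5) (Accepts O s x) :=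
        Pr_congr (fun r _ => by simp [hx])
      rw [h3, h0]
      linarith
  obtain ⟨f, ⟨g, e, hf⟩, hred⟩ := hcomp _ hB
  exact hreq β g e A f hV hf hred

end Fw

theorem poly_cs (O : List Bool → Bool) (E : Ix) (s : ℕ) : PolyFn O (fun x => cs E s x) := by
  apply PolyFn.of_poly
  have h1 : Poly O (fun t => rebT (enc (kC (nI E))) (node leaf (rebT (canonT t) (node leaf
      (una (powT (jE E + s) t).spine))))) :=
    Poly.rebT (Poly.const _) ((Poly.const _).node (Poly.rebT (Poly.canonT Poly.id)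
      ((Poly.const _).node (poly_unaT (Poly.powT (jE E + s) Poly.id)))))
  have h4 : (fun t => enc ((fun x => cs E s x) (bitsOf t))) =
      fun t => rebT (enc (kC (nI E))) (node leaf (rebT (canonT t) (node leaf
      (una (powT (jE E + s) t).spine)))) := by
    funext t
    have e1 : ∀ R : List Bool, node leaf (enc R) = enc (false :: R) := fun _ => rfl
    rw [spine_powT, spine_eq_length, canonT_eq, ← enc_replicate, e1, rebT_eq, e1, rebT_eq]
    rfl
  rw [h4]
  exact h1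

namespace Fw

theorem hasComplete_R4 {O : List Bool → Bool}
    (hU : ∀ u : List Bool, dn O kP u = 0 ∨ 1 / 2 < dn O kP u)
    (h : ∀ ρ : RD, (∃ y : List Bool, ¬ Leg O (Sum.inl ρ) y) ∨ ∃ L : ℕ, ∀ (s : ℕ) (y : List Bool),
      L ≤ b5 kP (cs (Sum.inl ρ) s y) → Leg O (Sum.inl ρ) y →
      (Val O (Sum.inl ρ) y → 1 / 2 < dn O kP (cs (Sum.inl ρ) s y)) ∧
        (¬ Val O (Sum.inl ρ) y → dn O kP (cs (Sum.inl ρ) s y) = 0)) :
    HasComplete O (InR O) := by
  refine ⟨{u | 0 < dn O kP u}, inR_block kP _ (fun u => ⟨fun hu => ?_, fun hu => ?_⟩),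
    fun B hB => ?_⟩
  · have hu' : 0 < dn O kP u := hu
    rcases hU u with h1 | h1
    · linarith
    · exact h1
  · have hu' : ¬ 0 < dn O kP u := hu
    rcases hU u with h1 | h1
    · exact h1
    · exact absurd (lt_trans (by norm_num) h1) hu'
  · obtain ⟨p, k, l, hp⟩ := hB
    rcases h (p, k, l) with ⟨y, hy⟩ | ⟨L, hL⟩
    · exact absurd (leg_of_via (ρ := (p, k, l)) hp y).1 hy
    · refine ⟨_, poly_cs O (Sum.inl (p, k, l)) L, fun x => ?_⟩
      obtain ⟨h1, h2⟩ := leg_of_via (ρ := (p, k, l)) hp x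
      have h3 : L ≤ b5 kP (cs (Sum.inl (p, k, l)) L x) := by
        have h4 := length_cs_ge (Sum.inl (p, k, l)) L x
        rw [b5]
        omega
      obtain ⟨h5, h6⟩ := hL L x h3 h1
      show x ∈ B ↔ 0 < dn O kP (cs (Sum.inl (p, k, l)) L x)
      rw [← h2]
      constructor
      · intro hv
        exact lt_trans (by norm_num) (h5 hv)
      · intro hd
        by_contra hv
        rw [h6 hv] at hd
        exact absurd hd (lt_irrefl _)

/-- There is an oracle relative to which R has a complete set and neither ZPP nor BPP has one. -/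
theorem exists_oracle6 : ∃ O : List Bool → Bool, ¬ HasComplete O (InZPP O) ∧
    HasComplete O (InR O) ∧ ¬ HasComplete O (InBPP O) := by
  obtain ⟨O, h1, h2, h3, h4⟩ := exists_limit4 {E | ∃ ρ : RD, E = Sum.inl ρ}
  exact ⟨O, not_hasComplete_ZPP4 h2 (fun P g e => h3 _ g e (Or.inl ⟨P, rfl⟩)),
    hasComplete_R4 h1 (fun ρ => h4 _ ⟨ρ, rfl⟩),
    not_hasComplete_BPP4 h2 (fun β g e => h3 _ g e (Or.inr (Or.inl ⟨β, rfl⟩)))⟩

/-- There is an oracle relative to which none of ZPP, R and BPP has a complete set. -/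
theorem exists_oracle7 : ∃ O : List Bool → Bool, ¬ HasComplete O (InZPP O) ∧
    ¬ HasComplete O (InR O) ∧ ¬ HasComplete O (InBPP O) := by
  obtain ⟨O, _, h2, h3, _⟩ := exists_limit4 ∅
  exact ⟨O, not_hasComplete_ZPP4 h2 (fun P g e => h3 _ g e (Or.inl ⟨P, rfl⟩)),
    not_hasComplete_R4 h2 (fun ρ g e => h3 _ g e (Or.inr (Or.inr (fun E hE => absurd hE id)))),
    not_hasComplete_BPP4 h2 (fun β g e => h3 _ g e (Or.inr (Or.inl ⟨β, rfl⟩)))⟩

end Fw

end Pool.Agent.Helper56.PT
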