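import Pool.Agent.Helper56.PT.Vi

/-!
A general construction in stages: conditions on oracles of bounded length, test conditions which may
fail if an index is dead, and a finite list of active indices which are legitimate in all
well-formed extensions.
-/

set_option autoImplicit false

namespace Pool.Agent.Helper56.PT

/-- the oracles agree on strings of length less than `n` -/
def Ag (n : ℕ) (O O' : List Bool → Bool) : Prop := ∀ w : List Bool, w.length < n → O w = O' w

theorem Ag.symm {n : ℕ} {O O' : List Bool → Bool} (h : Ag n O O') : Ag n O' O :=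
  fun w hw => (h w hw).symm

theorem Ag.mono {m n : ℕ} {O O' : List Bool → Bool} (h : Ag n O O') (hmn : m ≤ n) : Ag m O O' :=
  fun w hw => h w (lt_of_lt_of_le hw hmn)

theorem Ag.trans {n : ℕ} {O O' O'' : List Bool → Bool} (h : Ag n O O') (h' : Ag n O' O'') :
    Ag n O O'' := fun w hw => (h w hw).trans (h' w hw)

/-- the data of a construction -/
structure Sys where
  /-- indices -/
  I : Type
  /-- general conditions -/
  U : Type
  /-- test conditions -/
  T : Type
  /-- conditions of an active index -/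
  C : Type
  /-- inputs -/
  Y : Type
  lnU : U → ℕ
  okU : U → (List Bool → Bool) → Prop
  lnT : T → ℕ
  okT : T → (List Bool → Bool) → Prop
  dT : T → (List Bool → Bool) → Prop
  lnC : I → C → ℕ
  okC : I → C → (List Bool → Bool) → Prop
  lnY : I → Y → ℕ
  leg : I → Y → (List Bool → Bool) → Prop
  hU : ∀ (u : U) (O O' : List Bool → Bool), Ag (lnU u + 1) O O' → okU u O → okU u O'
  hT : ∀ (t : T) (O O' : List Bool → Bool), Ag (lnT t + 1) O O' → okT t O → okT t O'
  hC : ∀ (i : I) (c : C) (O O' : List Bool → Bool), Ag (lnC i c + 1) O O' → okC i c O → okC i c O'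
  hY : ∀ (i : I) (y : Y) (O O' : List Bool → Bool), Ag (lnY i y) O O' → leg i y O → leg i y O'

namespace Sys

variable (S : Sys)

/-- good initial segments -/
structure Good (O : List Bool → Bool) (L : ℕ) : Prop where
  u : ∀ u : S.U, S.lnU u < L → S.okU u O
  t : ∀ t : S.T, S.lnT t < L → S.okT t O ∨ ∀ O' : List Bool → Bool, Ag L O' O → S.dT t O'

/-- well-formed extensions -/
structure Ext (O : List Bool → Bool) (L : ℕ) (Q : Finset S.I) (O' : List Bool → Bool) : Prop where
  agr : Ag L O' O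
  u : ∀ u : S.U, L ≤ S.lnU u → S.okU u O'
  t : ∀ t : S.T, L ≤ S.lnT t → S.okT t O'
  c : ∀ i ∈ Q, ∀ c : S.C, L ≤ S.lnC i c → S.okC i c O'

/-- the active indices are legitimate in all well-formed extensions -/
def Stable (O : List Bool → Bool) (L : ℕ) (Q : Finset S.I) : Prop :=
  ∀ i ∈ Q, ∀ O' : List Bool → Bool, S.Ext O L Q O' → ∀ y : S.Y, S.leg i y O'

/-- transitions -/
structure Stp (O : List Bool → Bool) (L : ℕ) (Q : Finset S.I) (O' : List Bool → Bool) (L' : ℕ)
    (Q' : Finset S.I) : Prop where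
  le : L ≤ L'
  agr : Ag L O' O
  sub : Q' ⊆ Q
  c : ∀ i ∈ Q', ∀ c : S.C, L ≤ S.lnC i c → S.lnC i c < L' → S.okC i c O'
  ill : ∀ i ∈ Q, i ∉ Q' → ∀ O'' : List Bool → Bool, Ag L' O'' O' → ∃ y : S.Y, ¬ S.leg i y O''

/-- extensions which meet a requirement -/
def Meets (O : List Bool → Bool) (L : ℕ) (Q : Finset S.I) (R : (List Bool → Bool) → Prop) : Prop :=
  ∃ (O' : List Bool → Bool) (L' : ℕ) (Q' : Finset S.I), S.Stp O L Q O' L' Q' ∧ L < L' ∧
    S.Good O' L' ∧ ∀ O'' : List Bool → Bool, Ag L' O'' O' → R O''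

variable {S}

theorem Stp.refl {O : List Bool → Bool} {L : ℕ} {Q : Finset S.I} : S.Stp O L Q O L Q where
  le := le_rfl
  agr := fun _ _ => rfl
  sub := Finset.Subset.refl _
  c := fun i hi c h1 h2 => by omega
  ill := fun i hi hi' => absurd hi hi'

theorem Stp.trans {O O' O'' : List Bool → Bool} {L L' L'' : ℕ} {Q Q' Q'' : Finset S.I}
    (h : S.Stp O L Q O' L' Q') (h' : S.Stp O' L' Q' O'' L'' Q'') : S.Stp O L Q O'' L'' Q'' where
  le := h.le.trans h'.le
  agr := (h'.agr.mono h.le).trans h.agr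
  sub := h'.sub.trans h.sub
  c := fun i hi c h1 h2 => by
    by_cases h3 : S.lnC i c < L'
    · exact S.hC i c _ _ (h'.agr.symm.mono (by omega)) (h.c i (h'.sub hi) c h1 h3)
    · exact h'.c i hi c (not_lt.1 h3) h2
  ill := fun i hi hi'' O₁ hagr => by
    by_cases h1 : i ∈ Q'
    · exact h'.ill i h1 hi'' O₁ hagr
    · exact h.ill i hi h1 O₁ ((hagr.mono h'.le).trans h'.agr)

theorem Ext.good {O O' : List Bool → Bool} {L L' : ℕ} {Q : Finset S.I} (hG : S.Good O L)
    (h : S.Ext O L Q O') (hL : L ≤ L') : S.Good O' L' where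
  u := fun u hu => by
    by_cases h1 : S.lnU u < L
    · exact S.hU u _ _ (h.agr.symm.mono (by omega)) (hG.u u h1)
    · exact h.u u (not_lt.1 h1)
  t := fun t ht => by
    by_cases h1 : S.lnT t < L
    · rcases hG.t t h1 with h2 | h2
      · exact Or.inl (S.hT t _ _ (h.agr.symm.mono (by omega)) h2)
      · exact Or.inr (fun O₁ hagr => h2 O₁ ((hagr.mono hL).trans h.agr))
    · exact Or.inl (h.t t (not_lt.1 h1))

theorem cleanup : ∀ (n : ℕ) (O : List Bool → Bool) (L : ℕ) (Q : Finset S.I), Q.card = n →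
    S.Good O L → ∃ (O' : List Bool → Bool) (L' : ℕ) (Q' : Finset S.I),
      S.Stp O L Q O' L' Q' ∧ S.Good O' L' ∧ S.Stable O' L' Q' := by
  classical
  intro n
  induction n with
  | zero =>
    intro O L Q hn hG
    refine ⟨O, L, Q, Stp.refl, hG, fun i hi => ?_⟩
    rw [Finset.card_eq_zero] at hn
    rw [hn] at hi
    exact absurd hi (Finset.notMem_empty _)
  | succ n ih =>
    intro O L Q hn hG
    by_cases hst : S.Stable O L Q
    · exact ⟨O, L, Q, Stp.refl, hG, hst⟩
    · simp only [Stable, not_forall] at hst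
      obtain ⟨i, hi, O', hW, y, hy⟩ := hst
      have hLL : L ≤ max L (S.lnY i y) := le_max_left _ _
      have hS : S.Stp O L Q O' (max L (S.lnY i y)) (Q.erase i) := by
        refine ⟨hLL, hW.agr, Finset.erase_subset _ _, fun i' hi' c h1 _ =>
          hW.c i' (Finset.mem_of_mem_erase hi') c h1, fun i' hi' hne O₁ hagr => ?_⟩
        have h1 : i' = i := by
          by_contra h1
          exact hne (Finset.mem_erase.2 ⟨h1, hi'⟩)
        subst h1
        exact ⟨y, fun h2 => hy (S.hY i' y _ _ (hagr.mono (le_max_right _ _)) h2)⟩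
      obtain ⟨O'', L', Q', h1, h2, h3⟩ := ih O' _ (Q.erase i) (by
        rw [Finset.card_erase_of_mem hi, hn]
        rfl) (hW.good hG hLL)
      exact ⟨O'', L', Q', hS.trans h1, h2, h3⟩

end Sys

/-- The limit of the construction. -/
theorem Sys.limit (S : Sys) [Countable S.I] [Nonempty S.I] {Rq : Type} [Countable Rq]
    [Nonempty Rq] (met : Rq → (List Bool → Bool) → Prop) (𝒜 : Set S.I)
    (h0 : ∃ O, S.Good O 0)
    (stage : ∀ (O : List Bool → Bool) (L : ℕ) (Q : Finset S.I), S.Good O L → S.Stable O L Q →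
      (∀ i ∈ Q, i ∈ 𝒜) → ∀ q : Rq, S.Meets O L Q (met q)) :
    ∃ O : List Bool → Bool, (∀ u, S.okU u O) ∧ (∀ t, S.okT t O ∨ S.dT t O) ∧
      (∀ q, met q O) ∧ ∀ i ∈ 𝒜, (∃ y, ¬ S.leg i y O) ∨ ∃ L : ℕ, ∀ c, L ≤ S.lnC i c →
        S.okC i c O := by
  classical
  obtain ⟨en, hen⟩ := exists_surjective_nat (S.I × Rq)
  let D : Type := {D : (List Bool → Bool) × ℕ × Finset S.I //
    S.Good D.1 D.2.1 ∧ ∀ i ∈ D.2.2, i ∈ 𝒜}
  have hst : ∀ (s : ℕ) (d : D), ∃ (d' : D) (Q0 : Finset S.I), d.1.2.2 ⊆ Q0 ∧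
      ((en s).1 ∈ 𝒜 → (en s).1 ∈ Q0) ∧ S.Stp d.1.1 d.1.2.1 Q0 d'.1.1 d'.1.2.1 d'.1.2.2 ∧
      d.1.2.1 < d'.1.2.1 ∧ ∀ O'' : List Bool → Bool, Ag d'.1.2.1 O'' d'.1.1 → met (en s).2 O'' := by
    rintro s ⟨⟨O, L, Q⟩, hG, hQ⟩
    obtain ⟨Q0, hQ0, hQQ0, hE0⟩ : ∃ Q0 : Finset S.I, (∀ i ∈ Q0, i ∈ 𝒜) ∧ Q ⊆ Q0 ∧
        ((en s).1 ∈ 𝒜 → (en s).1 ∈ Q0) := by
      by_cases h : (en s).1 ∈ 𝒜
      · refine ⟨insert (en s).1 Q, fun E hE => ?_, Finset.subset_insert _ _, fun _ =>
          Finset.mem_insert_self _ _⟩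
        rcases Finset.mem_insert.1 hE with h1 | hE
        · rw [h1]; exact h
        · exact hQ E hE
      · exact ⟨Q, hQ, Finset.Subset.refl _, fun h' => absurd h' h⟩
    obtain ⟨O1, L1, Q1, hS1, hG1, hst1⟩ := Sys.cleanup _ O L Q0 rfl hG
    obtain ⟨O2, L2, Q2, hS2, hlt, hG2, hR⟩ := stage O1 L1 Q1 hG1 hst1
      (fun i hi => hQ0 i (hS1.sub hi)) (en s).2
    have hT := hS1.trans hS2
    exact ⟨⟨(O2, L2, Q2), hG2, fun i hi => hQ0 i (hT.sub hi)⟩, Q0, hQQ0, hE0, hT,
      lt_of_le_of_lt hS1.le hlt, hR⟩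
  choose nx Q0 hnx1 hnx2 hnx3 hnx4 hnx5 using hst
  obtain ⟨O0, hO0⟩ := h0
  let sq : ℕ → D := fun s => Nat.rec ⟨(O0, 0, ∅), hO0, fun i hi =>
    absurd hi (Finset.notMem_empty _)⟩ (fun s d => nx s d) s
  have hmono : StrictMono (fun s => (sq s).1.2.1) := strictMono_nat_of_lt_succ
    (fun s => hnx4 s (sq s))
  have hge : ∀ s, s ≤ (sq s).1.2.1 := fun s => hmono.id_le s
  have hagr : ∀ s d : ℕ, Ag (sq s).1.2.1 (sq (s + d)).1.1 (sq s).1.1 := by
    intro s d
    induction d with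
    | zero => intro w _; rfl
    | succ d ih =>
      exact ((hnx3 (s + d) (sq (s + d))).agr.mono (hmono.monotone (Nat.le_add_right s d))).trans ih
  have hagr' : ∀ s t : ℕ, s ≤ t → Ag (sq s).1.2.1 (sq t).1.1 (sq s).1.1 := by
    intro s t hst
    obtain ⟨d, rfl⟩ := Nat.exists_eq_add_of_le hst
    exact hagr s d
  set O : List Bool → Bool := fun w => (sq (w.length + 1)).1.1 w with hO
  have hlim : ∀ s : ℕ, Ag (sq s).1.2.1 O (sq s).1.1 := by
    intro s w hw
    rcases le_total s (w.length + 1) with h | h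
    · exact hagr' s _ h w hw
    · exact (hagr' _ s h w (lt_of_lt_of_le (Nat.lt_succ_self _) (hge _))).symm
  refine ⟨O, fun u => ?_, fun t => ?_, fun q => ?_, fun i hi => ?_⟩
  · have h1 : S.lnU u < (sq (S.lnU u + 1)).1.2.1 := lt_of_lt_of_le (Nat.lt_succ_self _) (hge _)
    exact S.hU u _ _ ((hlim (S.lnU u + 1)).symm.mono (by omega)) ((sq (S.lnU u + 1)).2.1.u u h1)
  · have h1 : S.lnT t < (sq (S.lnT t + 1)).1.2.1 := lt_of_lt_of_le (Nat.lt_succ_self _) (hge _)
    rcases (sq (S.lnT t + 1)).2.1.t t h1 with h2 | h2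
    · exact Or.inl (S.hT t _ _ ((hlim (S.lnT t + 1)).symm.mono (by omega)) h2)
    · exact Or.inr (h2 O (hlim (S.lnT t + 1)))
  · obtain ⟨s, hs⟩ := hen (Classical.arbitrary S.I, q)
    have h1 := hnx5 s (sq s) O (hlim (s + 1))
    rw [hs] at h1
    exact h1
  · obtain ⟨s, hs⟩ := hen (i, Classical.arbitrary Rq)
    by_cases hall : ∀ t, s + 1 ≤ t → i ∈ (sq t).1.2.2
    · refine Or.inr ⟨(sq s).1.2.1, fun c hc => ?_⟩
      have hex : ∃ d : ℕ, S.lnC i c < (sq (s + d + 1)).1.2.1 :=
        ⟨S.lnC i c, lt_of_lt_of_le (show S.lnC i c < s + S.lnC i c + 1 by omega) (hge _)⟩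
      have hd := Nat.find_spec hex
      set d := Nat.find hex with hdd
      have hlow : (sq (s + d)).1.2.1 ≤ S.lnC i c := by
        rcases Nat.eq_zero_or_pos d with h0 | h0
        · rw [h0]; exact hc
        · have := Nat.find_min hex (m := d - 1) (by omega)
          have h2 : s + (d - 1) + 1 = s + d := by omega
          rw [h2] at this
          exact not_lt.1 this
      have h1 : S.okC i c (sq (s + d + 1)).1.1 :=
        (hnx3 (s + d) (sq (s + d))).c i (hall (s + d + 1) (by omega)) c hlow hd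
      exact S.hC i c _ _ ((hlim (s + d + 1)).symm.mono (by omega)) h1
    · left
      push Not at hall
      obtain ⟨t, ht1, ht2⟩ := hall
      have hex : ∃ d : ℕ, i ∉ (sq (s + 1 + d)).1.2.2 := ⟨t - (s + 1), by
        have : s + 1 + (t - (s + 1)) = t := by omega
        rw [this]
        exact ht2⟩
      have hd := Nat.find_spec hex
      set d := Nat.find hex with hdd
      have hkey : ∀ s' : ℕ, (i ∈ (sq s').1.2.2 ∨ (en s').1 = i) →
          i ∉ (sq (s' + 1)).1.2.2 → ∃ y, ¬ S.leg i y O := by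
        intro s' h1 h2
        have h3 : i ∈ Q0 s' (sq s') := by
          rcases h1 with h1 | h1
          · exact hnx1 s' (sq s') h1
          · have h4 := hnx2 s' (sq s')
            rw [h1] at h4
            exact h4 hi
        exact (hnx3 s' (sq s')).ill i h3 h2 O (hlim (s' + 1))
      rcases Nat.eq_zero_or_pos d with h0 | h0
      · rw [h0] at hd
        exact hkey s (Or.inr (by rw [hs])) hd
      · have h1 := Nat.find_min hex (m := d - 1) (by omega)
        rw [not_not] at h1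
        refine hkey (s + 1 + (d - 1)) (Or.inl h1) ?_
        have h2 : s + 1 + (d - 1) + 1 = s + 1 + d := by omega
        rw [h2]
        exact hd

end Pool.Agent.Helper56.PT
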