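import Pool.Agent.Helper56.PT.Ta

/-!
The fifth construction: blocks that code a solution of the promise problem behind BPP, and strings
that code the languages of a list of pairs of machines.
-/

set_option autoImplicit false

namespace Pool.Agent.Helper56.PT.Hw

open Dat Fw

/-- the string belongs to a block for BPP -/
def isP (w : List Bool) : Prop := ∃ y r : List Bool, w = st kP y r ∧ r.length = (y.length + 2) ^ 5

/-- the string codes an answer of a pair in `Q` -/
def CodD (Q : Finset PD) (w : List Bool) : Prop := ∃ P ∈ Q, ∃ y : List Bool, IsC w (Sum.inr P) y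

theorem not_isP_IsC {w y : List Bool} {E : Ix} (h : IsC w E y) : ¬ isP w := by
  rintro ⟨y', r, h1, _⟩
  obtain ⟨s, rfl⟩ := h
  have := (st_inj h1).1
  simp [kC, kP] at this

theorem not_isP_T {m : ℕ} {b : Bool} {x r : List Bool} : ¬ isP (st (kT m b) x r) := by
  rintro ⟨y', r', h1, _⟩
  exact kP_ne_kT _ _ (st_inj h1).1.symm

theorem not_CodD_T {Q : Finset PD} {m : ℕ} {b : Bool} {x r : List Bool} :
    ¬ CodD Q (st (kT m b) x r) := by
  rintro ⟨P, _, y, h⟩
  exact not_IsC_T h

theorem not_CodD_P {Q : Finset PD} {w : List Bool} (h : isP w) : ¬ CodD Q w := by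
  rintro ⟨P, _, y, h1⟩
  exact not_isP_IsC h1 h

/-- the status, with a preference -/
def St (π : Option Bool) (a : ℝ) (T : ℕ) : Prop :=
  1 / 2 + 1 / ((T : ℝ) + 1) < a ∨ (1 / 2 - 1 / ((T : ℝ) + 1) ≤ a ∧
    (π = some true ∨ (π = none ∧ 1 / 2 < a)))

theorem St_none {a : ℝ} {T : ℕ} : St none a T ↔ 1 / 2 < a := by
  have h1 : (0 : ℝ) < 1 / ((T : ℝ) + 1) := by positivity
  constructor
  · rintro (h | ⟨_, h | ⟨_, h⟩⟩)
    · linarith
    · simp at h
    · exact h
  · intro h
    exact Or.inr ⟨by linarith, Or.inr ⟨rfl, h⟩⟩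

theorem St_some {a : ℝ} {T : ℕ} {b : Bool} (hb : b = true ↔ 1 / 2 < a) :
    St (some b) a T ↔ 1 / 2 < a := by
  have h1 : (0 : ℝ) < 1 / ((T : ℝ) + 1) := by positivity
  constructor
  · rintro (h | ⟨_, h | ⟨h, _⟩⟩)
    · linarith
    · exact hb.1 (by simpa using h)
    · simp at h
  · intro h
    exact Or.inr ⟨by linarith, Or.inl (by rw [hb.2 h])⟩

theorem qb_lt_P {p : Prog} {x : List Bool} {M T : ℕ} {v : List Bool} (hv : v.length ≤ qb p x M T) :
    v.length < ((inst (pm p) x M T).length + 2) ^ 5 :=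
  lt_of_le_of_lt (hv.trans (qb_le_inst p x M T)) (five_pow (inst_ge _ _ _ _))

open Classical in
/-- completions of an initial segment: forced values `v` on `F` (from length `n` on), contents
`c`, preferences `π` -/
noncomputable def Kc (O : List Bool → Bool) (L n : ℕ) (Q : Finset PD) (c : List Bool → Bool)
    (F : Finset (List Bool)) (v : List Bool → Bool) (π : List Bool → Option Bool)
    (w : List Bool) : Bool :=
  if w.length < L then O w
  else if n ≤ w.length ∧ w ∈ F then v w
  else if isP w then decide (∃ (p : Prog) (x : List Bool) (M T : ℕ) (r : List Bool),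
    w = st kP (inst (pm p) x M T) r ∧
    St (π w) (pa (fun u => if _ : u.length < w.length then Kc O L n Q c F v π u else false)
      p x M T) T)
  else if CodD Q w then decide (∃ (P : PD) (y : List Bool), IsC w (Sum.inr P) y ∧
    ((Leg (fun u => if _ : u.length < w.length then Kc O L n Q c F v π u else false)
        (Sum.inr P) y ∧
      Val (fun u => if _ : u.length < w.length then Kc O L n Q c F v π u else false)
        (Sum.inr P) y) ∨
    (¬ Leg (fun u => if _ : u.length < w.length then Kc O L n Q c F v π u else false)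
        (Sum.inr P) y ∧ π w = some true)))
  else c w
termination_by w.length

section basic

variable {O : List Bool → Bool} {L n : ℕ} {Q : Finset PD} {c : List Bool → Bool}
  {F : Finset (List Bool)} {v : List Bool → Bool} {π : List Bool → Option Bool}

theorem K_low {w : List Bool} (h : w.length < L) : Kc O L n Q c F v π w = O w := by
  rw [Kc, if_pos h]

theorem K_F {w : List Bool} (h : L ≤ w.length) (h1 : n ≤ w.length) (h2 : w ∈ F) :
    Kc O L n Q c F v π w = v w := by
  rw [Kc, if_neg (not_lt.2 h), if_pos ⟨h1, h2⟩]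

theorem K_c {w : List Bool} (h : L ≤ w.length) (h1 : ¬ (n ≤ w.length ∧ w ∈ F))
    (h2 : ¬ isP w) (h3 : ¬ CodD Q w) : Kc O L n Q c F v π w = c w := by
  rw [Kc, if_neg (not_lt.2 h), if_neg h1, if_neg h2, if_neg h3]

open Classical in
theorem K_P {w y r : List Bool} (h : L ≤ w.length) (h1 : ¬ (n ≤ w.length ∧ w ∈ F))
    (hw : w = st kP y r) (hr : r.length = (y.length + 2) ^ 5) :
    Kc O L n Q c F v π w = true ↔ ∃ (p : Prog) (x : List Bool) (M T : ℕ),
      y = inst (pm p) x M T ∧ St (π w) (pa (Kc O L n Q c F v π) p x M T) T := by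
  have hlen : (y.length + 2) ^ 5 ≤ w.length := by
    rw [hw, length_st5 hr, b5]
    omega
  have hpa : ∀ (p : Prog) (x : List Bool) (M T : ℕ), y = inst (pm p) x M T →
      pa (fun u => if _ : u.length < w.length then Kc O L n Q c F v π u else false) p x M T =
        pa (Kc O L n Q c F v π) p x M T := by
    intro p x M T hy
    refine pa_congr (fun u hu => ?_)
    have h2 := qb_lt_P hu
    rw [← hy] at h2
    rw [dif_pos (by omega)]
  rw [Kc, if_neg (not_lt.2 h), if_neg h1, if_pos ⟨y, r, hw, hr⟩, decide_eq_true_eq]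
  constructor
  · rintro ⟨p, x, M, T, r', h2, h3⟩
    have hy : y = inst (pm p) x M T := by
      rw [hw] at h2
      exact (st_inj h2).2.1
    rw [hpa p x M T hy] at h3
    exact ⟨p, x, M, T, hy, h3⟩
  · rintro ⟨p, x, M, T, hy, h3⟩
    refine ⟨p, x, M, T, r, by rw [hw, hy], ?_⟩
    rw [hpa p x M T hy]
    exact h3

open Classical in
theorem K_D {w y : List Bool} {P : PD} (h : L ≤ w.length) (h1 : ¬ (n ≤ w.length ∧ w ∈ F))
    (hP : P ∈ Q) (hw : IsC w (Sum.inr P) y) :
    Kc O L n Q c F v π w = true ↔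
      (Leg (Kc O L n Q c F v π) (Sum.inr P) y ∧ Val (Kc O L n Q c F v π) (Sum.inr P) y) ∨
      (¬ Leg (Kc O L n Q c F v π) (Sum.inr P) y ∧ π w = some true) := by
  have hag : ∀ u : List Bool, u.length ≤ bz (Sum.inr P) y →
      (fun u => if _ : u.length < w.length then Kc O L n Q c F v π u else false) u =
        Kc O L n Q c F v π u := fun u hu => by
    have := hw.bz_lt
    simp only
    rw [dif_pos (by omega)]
  rw [Kc, if_neg (not_lt.2 h), if_neg h1, if_neg (not_isP_IsC hw), if_pos ⟨P, hP, y, hw⟩,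
    decide_eq_true_eq]
  constructor
  · rintro ⟨P', y', h2, h3⟩
    obtain ⟨h4, rfl⟩ := hw.inj h2
    simp only [Sum.inr.injEq] at h4
    subst h4
    rw [Leg_congr hag, Val_congr hag] at h3
    exact h3
  · intro h3
    refine ⟨P, y, hw, ?_⟩
    rw [Leg_congr hag, Val_congr hag]
    exact h3

theorem K_Ag {l : ℕ} (hl : l ≤ L) : Ag l (Kc O L n Q c F v π) O := fun w hw => K_low (by omega)

end basic

/-! ### the system -/

/-- the block of a string is as it should be -/
def OkP (y : List Bool) (O : List Bool → Bool) : Prop :=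
  (dn O kP y < 1 / 4 ∨ 3 / 4 < dn O kP y) ∧ ∀ (p : Prog) (x : List Bool) (M T : ℕ),
    y = inst (pm p) x M T → (1 / 2 + 1 / ((T : ℝ) + 1) < pa O p x M T → 3 / 4 < dn O kP y) ∧
      (pa O p x M T < 1 / 2 - 1 / ((T : ℝ) + 1) → dn O kP y < 1 / 4)

/-- kind of the test blocks of a machine -/
noncomputable def kR (ρ : RD) : List Bool := kT (nJ (Sum.inl ρ)) true

/-- the fifth construction -/
noncomputable def SH : Sys where
  I := PD
  U := List Bool
  T := RD × List Bool
  C := ℕ × List Bool
  Y := List Bool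
  lnU y := b5 kP y
  okU y O := OkP y O
  lnT t := b5 (kR t.1) t.2
  okT t O := dn O (kR t.1) t.2 = 0 ∨ 1 / 2 < dn O (kR t.1) t.2
  dT t O := DeadJ (Sum.inl t.1) O
  lnC P c := (cs (Sum.inr P) c.1 c.2).length
  okC P c O := Leg O (Sum.inr P) c.2 →
    (O (cs (Sum.inr P) c.1 c.2) = true ↔ Val O (Sum.inr P) c.2)
  lnY P y := bz (Sum.inr P) y + 1
  leg P y O := Leg O (Sum.inr P) y
  hU y O O' h := by
    have h1 := dn_congr h
    rintro ⟨h2, h3⟩
    refine ⟨by rw [← h1]; exact h2, fun p x M T hy => ?_⟩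
    have h4 : pa O' p x M T = pa O p x M T := pa_congr (fun u hu => (h u (by
      have h5 := qb_lt_P hu
      rw [← hy] at h5
      rw [b5]
      omega)).symm)
    rw [h4, ← h1]
    exact h3 p x M T hy
  hT t O O' h := by
    rw [dn_congr h]
    exact id
  hC P c O O' h := by
    have hb : ∀ u : List Bool, u.length ≤ bz (Sum.inr P) c.2 → O u = O' u := fun u hu => h u (by
      have h1 := IsC.bz_lt (w := cs (Sum.inr P) c.1 c.2) ⟨c.1, rfl⟩
      omega)
    rw [Leg_congr hb, Val_congr hb, h _ (Nat.lt_succ_self _)]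
    exact id
  hY P y O O' h hl := (Leg_congr (fun u hu => h u (by omega))).1 hl

section ext

variable {O : List Bool → Bool} {L n : ℕ} {Q : Finset PD} {c : List Bool → Bool}
  {F : Finset (List Bool)} {v : List Bool → Bool} {π : List Bool → Option Bool}

/-- blocks for BPP -/
theorem K_U (hF : 4 * F.card < 2 ^ (n / 2)) {y : List Bool} (hL : L ≤ b5 kP y)
    (hπ : ∀ r r' : List Bool, r.length = (y.length + 2) ^ 5 → r'.length = (y.length + 2) ^ 5 →
      π (st kP y r) = π (st kP y r')) : OkP y (Kc O L n Q c F v π) := by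
  have h0 : (List.replicate ((y.length + 2) ^ 5) false).length = (y.length + 2) ^ 5 :=
    List.length_replicate
  have hR : ∀ r : List Bool, r.length = (y.length + 2) ^ 5 →
      ¬ (n ≤ b5 kP y ∧ st kP y r ∈ F) → (Kc O L n Q c F v π (st kP y r) = true ↔
      ∃ (p : Prog) (x : List Bool) (M T : ℕ), y = inst (pm p) x M T ∧
        St (π (st kP y (List.replicate ((y.length + 2) ^ 5) false)))
          (pa (Kc O L n Q c F v π) p x M T) T) := by
    intro r hr h
    rw [K_P (by rw [length_st5 hr]; exact hL) (by rw [length_st5 hr]; exact h) rfl hr,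
      hπ r _ hr h0]
  by_cases hs : ∃ (p : Prog) (x : List Bool) (M T : ℕ), y = inst (pm p) x M T ∧
        St (π (st kP y (List.replicate ((y.length + 2) ^ 5) false)))
          (pa (Kc O L n Q c F v π) p x M T) T
  · have hd : 3 / 4 < dn (Kc O L n Q c F v π) kP y := by
      by_cases hn : n ≤ b5 kP y
      · refine dn_large hF (half_le5 hn) (fun r hr h => ?_)
        by_contra h2
        rw [(hR r hr (fun h3 => h2 h3.2)).2 hs] at h
        simp at h
      · rw [dn_one (fun r hr => (hR r hr (fun h => hn h.1)).2 hs)]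
        norm_num
    refine ⟨Or.inr hd, fun p x M T hy => ⟨fun _ => hd, fun h => ?_⟩⟩
    obtain ⟨p', x', M', T', hy', h1⟩ := hs
    rw [hy] at hy'
    obtain ⟨h2, rfl, rfl, rfl⟩ := inst_inj hy'
    rw [← pm_injective h2] at h1
    have h3 : (0 : ℝ) < 1 / ((T : ℝ) + 1) := by positivity
    rcases h1 with h1 | ⟨h1, _⟩ <;> linarith
  · have hd : dn (Kc O L n Q c F v π) kP y < 1 / 4 := by
      by_cases hn : n ≤ b5 kP y
      · refine dn_small hF (half_le5 hn) (fun r hr h => ?_)
        by_contra h2
        exact hs ((hR r hr (fun h3 => h2 h3.2)).1 h)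
      · rw [dn_zero (fun r hr => ?_)]
        · norm_num
        · rw [Bool.eq_false_iff]
          intro h
          exact hs ((hR r hr (fun h3 => hn h3.1)).1 h)
    refine ⟨Or.inl hd, fun p x M T hy => ⟨fun h => ?_, fun _ => hd⟩⟩
    exact absurd ⟨p, x, M, T, hy, Or.inl h⟩ hs

/-- the base completion: all tests are empty -/
noncomputable abbrev B0 (O : List Bool → Bool) (L : ℕ) (Q : Finset PD) : List Bool → Bool :=
  Kc O L 0 Q (fun _ => false) ∅ (fun _ => false) (fun _ => none)

theorem B0_P {w y r : List Bool} (h : L ≤ w.length) (hw : w = st kP y r)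
    (hr : r.length = (y.length + 2) ^ 5) : B0 O L Q w = true ↔
      ∃ (p : Prog) (x : List Bool) (M T : ℕ), y = inst (pm p) x M T ∧
        1 / 2 < pa (B0 O L Q) p x M T := by
  rw [B0, K_P h (fun h => absurd h.2 (Finset.notMem_empty _)) hw hr]
  simp only [St_none]

theorem B0_D {w y : List Bool} {P : PD} (h : L ≤ w.length) (hP : P ∈ Q)
    (hw : IsC w (Sum.inr P) y) : B0 O L Q w = true ↔
      Leg (B0 O L Q) (Sum.inr P) y ∧ Val (B0 O L Q) (Sum.inr P) y := by
  rw [B0, K_D h (fun h => absurd h.2 (Finset.notMem_empty _)) hP hw]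
  simp

theorem B0_c {w : List Bool} (h : L ≤ w.length) (h2 : ¬ isP w) (h3 : ¬ CodD Q w) :
    B0 O L Q w = false := by
  rw [B0, K_c h (fun h => absurd h.2 (Finset.notMem_empty _)) h2 h3]

theorem B0_uni {y r r' : List Bool} (hL : L ≤ b5 kP y) (hr : r.length = (y.length + 2) ^ 5)
    (hr' : r'.length = (y.length + 2) ^ 5) :
    B0 O L Q (st kP y r) = B0 O L Q (st kP y r') := by
  rw [Bool.eq_iff_iff, B0_P (by rw [length_st5 hr]; exact hL) rfl hr,
    B0_P (by rw [length_st5 hr']; exact hL) rfl hr']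

theorem B0_T {κ x : List Bool} {m : ℕ} {b : Bool} (hκ : κ = kT m b) (hL : L ≤ b5 κ x) :
    dn (B0 O L Q) κ x = 0 := by
  subst hκ
  exact dn_zero (fun r hr => B0_c (by rw [length_st5 hr]; exact hL) not_isP_T not_CodD_T)

theorem B0_ext : SH.Ext O L Q (B0 O L Q) where
  agr := K_Ag le_rfl
  u y hy := K_U (by simp) hy (fun _ _ _ _ => rfl)
  t t ht := Or.inl (B0_T rfl ht)
  c P hP c' hc' hl := by
    have hl' : Leg (B0 O L Q) (Sum.inr P) c'.2 := hl
    show B0 O L Q (cs (Sum.inr P) c'.1 c'.2) = true ↔ Val (B0 O L Q) (Sum.inr P) c'.2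
    rw [B0_D hc' hP ⟨c'.1, rfl⟩]
    exact ⟨fun h => h.2, fun h => ⟨hl', h⟩⟩

/-- a string whose shorter strings are unchanged is unchanged, unless it is forced -/
theorem K_eq {w : List Bool} (hπ : π w = some (B0 O L Q w))
    (h : ∀ u : List Bool, u.length < w.length → Kc O L n Q c F v π u = B0 O L Q u)
    (h1 : ¬ (n ≤ w.length ∧ w ∈ F)) (h2 : ¬ isP w → ¬ CodD Q w → c w = false) :
    Kc O L n Q c F v π w = B0 O L Q w := by
  by_cases hL : w.length < L
  · rw [K_low hL, B0, K_low hL]
  · rw [not_lt] at hL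
    by_cases hP : isP w
    · obtain ⟨y, r, hw, hr⟩ := hP
      rw [Bool.eq_iff_iff, K_P hL h1 hw hr, B0_P hL hw hr]
      have hlen : (y.length + 2) ^ 5 ≤ w.length := by
        rw [hw, length_st5 hr, b5]
        omega
      refine exists_congr (fun p => exists_congr (fun x => exists_congr (fun M =>
        exists_congr (fun T => and_congr_right (fun hy => ?_)))))
      have h3 : pa (Kc O L n Q c F v π) p x M T = pa (B0 O L Q) p x M T :=
        pa_congr (fun u hu => h u (by
          have h5 := qb_lt_P hu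
          rw [← hy] at h5
          omega))
      rw [h3, hπ]
      refine St_some ?_
      rw [B0_P hL hw hr]
      constructor
      · rintro ⟨p', x', M', T', hy', h4⟩
        rw [hy] at hy'
        obtain ⟨h5, rfl, rfl, rfl⟩ := inst_inj hy'
        rw [pm_injective h5]
        exact h4
      · intro h4
        exact ⟨p, x, M, T, hy, h4⟩
    · by_cases hD : CodD Q w
      · obtain ⟨P, hPQ, y, hw⟩ := hD
        have hag : ∀ u : List Bool, u.length ≤ bz (Sum.inr P) y →
            Kc O L n Q c F v π u = B0 O L Q u := fun u hu => h u (by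
          have := hw.bz_lt
          omega)
        rw [Bool.eq_iff_iff, K_D hL h1 hPQ hw, Leg_congr hag, Val_congr hag, hπ, B0_D hL hPQ hw]
        by_cases hl : Leg (B0 O L Q) (Sum.inr P) y
        · simp [hl]
        · have h3 : B0 O L Q w = false := by
            rw [Bool.eq_false_iff]
            intro h4
            exact hl ((B0_D hL hPQ hw).1 h4).1
          simp [hl, h3]
      · rw [K_c hL h1 hP hD, B0_c hL hP hD, h2 hP hD]

end ext

end Pool.Agent.Helper56.PT.Hw
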