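import Pool.Agent.Helper56.PT.Ha

/-!
Closed sets and the influence of changes in the fifth construction.
-/

set_option autoImplicit false

namespace Pool.Agent.Helper56.PT.Hw

open Dat Fw

/-- the values `v` on `C` come with accepting computations of the pairs -/
def Cl (n : ℕ) (Q : Finset PD) (v : List Bool → Bool) (C : Finset (List Bool)) : Prop :=
  ∀ w ∈ C, n ≤ w.length → ∀ P ∈ Q, ∀ y : List Bool, IsC w (Sum.inr P) y → ∃ r : List Bool,
    (v w = true → r.length = mM (fs (Sum.inr P)) y ∧ ∀ O' : List Bool → Bool,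
      (∀ q ∈ C, q.length < w.length → O' q = v q) →
        AccS O' (fs (Sum.inr P)).1 y r (tT (fs (Sum.inr P)) y)) ∧
    (v w = false → r.length = mM (sn (Sum.inr P)) y ∧ ∀ O' : List Bool → Bool,
      (∀ q ∈ C, q.length < w.length → O' q = v q) →
        AccS O' (sn (Sum.inr P)).1 y r (tT (sn (Sum.inr P)) y))

theorem Cl.congr {n : ℕ} {Q : Finset PD} {v v' : List Bool → Bool} {C : Finset (List Bool)}
    (h : Cl n Q v C) (hv : ∀ w ∈ C, v w = v' w) : Cl n Q v' C := by
  intro w hw hn P hP y hy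
  obtain ⟨r, h1, h2⟩ := h w hw hn P hP y hy
  refine ⟨r, fun h3 => ?_, fun h3 => ?_⟩
  · rw [← hv w hw] at h3
    obtain ⟨h4, h5⟩ := h1 h3
    exact ⟨h4, fun O' hO' => h5 O' (fun q hq hl => by rw [hO' q hq hl, hv q hq])⟩
  · rw [← hv w hw] at h3
    obtain ⟨h4, h5⟩ := h2 h3
    exact ⟨h4, fun O' hO' => h5 O' (fun q hq hl => by rw [hO' q hq hl, hv q hq])⟩

/-- legitimate pairs have closed sets -/
theorem exists_DepD (δ : List Bool → Bool) (n : ℕ) (Q : Finset PD)
    (hleg : ∀ P ∈ Q, ∀ y : List Bool, Leg δ (Sum.inr P) y)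
    (hval : ∀ w : List Bool, n ≤ w.length → ∀ P ∈ Q, ∀ y : List Bool, IsC w (Sum.inr P) y →
      (δ w = true ↔ Val δ (Sum.inr P) y)) :
    ∃ R : List Bool → Finset (List Bool), (∀ w : List Bool, R w = ∅ ∨ ∃ b : ℕ,
      (∀ v ∈ R w, v.length ≤ b) ∧ 1 ≤ b ∧ 1 + (R w).card * b ≤ w.length ∧ b < w.length) ∧
      ∀ C : Finset (List Bool), (∀ w ∈ C, R w ⊆ C) → Cl n Q δ C := by
  have hex : ∀ w : List Bool, ∃ R : Finset (List Bool),
      (R = ∅ ∨ ∃ b : ℕ, (∀ v ∈ R, v.length ≤ b) ∧ 1 ≤ b ∧
        1 + R.card * b ≤ w.length ∧ b < w.length) ∧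
      (n ≤ w.length → ∀ P ∈ Q, ∀ y : List Bool, IsC w (Sum.inr P) y → ∃ r : List Bool,
        (δ w = true → r.length = mM (fs (Sum.inr P)) y ∧
          AccS δ (fs (Sum.inr P)).1 y r (tT (fs (Sum.inr P)) y) ∧
          sup δ (fs (Sum.inr P)).1 y r (tT (fs (Sum.inr P)) y) ⊆ R ∧
          ∀ q ∈ sup δ (fs (Sum.inr P)).1 y r (tT (fs (Sum.inr P)) y), q.length < w.length) ∧
        (δ w = false → r.length = mM (sn (Sum.inr P)) y ∧
          AccS δ (sn (Sum.inr P)).1 y r (tT (sn (Sum.inr P)) y) ∧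
          sup δ (sn (Sum.inr P)).1 y r (tT (sn (Sum.inr P)) y) ⊆ R ∧
          ∀ q ∈ sup δ (sn (Sum.inr P)).1 y r (tT (sn (Sum.inr P)) y), q.length < w.length)) := by
    intro w
    by_cases h : n ≤ w.length ∧ ∃ P ∈ Q, ∃ y : List Bool, IsC w (Sum.inr P) y
    · obtain ⟨hn, P, hP, y, hy⟩ := h
      have hiff := hval w hn P hP y hy
      rcases hleg P hP y with ⟨h1, _⟩ | ⟨h0, h1⟩
      · obtain ⟨r, hr, hacc⟩ := acc_of_Val (lt_trans (by norm_num) h1)
        have hbd := sup_bd (δ := δ) (qbr_fs_le (Sum.inr P) y) hr hy.lt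
        refine ⟨sup δ (fs (Sum.inr P)).1 y r (tT (fs (Sum.inr P)) y),
          Or.inr ⟨bz (Sum.inr P) y, hbd⟩, fun _ P' _ y' hy' => ?_⟩
        obtain ⟨h4, rfl⟩ := hy.inj hy'
        simp only [Sum.inr.injEq] at h4
        subst h4
        refine ⟨r, fun _ => ⟨hr, hacc, Finset.Subset.refl _, fun q hq => ?_⟩, fun h5 => ?_⟩
        · exact lt_of_le_of_lt (hbd.1 q hq) hbd.2.2.2
        · rw [hiff.2 h1] at h5
          simp at h5
      · obtain ⟨r, hr, hacc⟩ := acc_of_Val (lt_trans (by norm_num) h1)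
        have hbd := sup_bd (δ := δ) (qbr_sn_le (Sum.inr P) y) hr hy.lt
        refine ⟨sup δ (sn (Sum.inr P)).1 y r (tT (sn (Sum.inr P)) y),
          Or.inr ⟨bz (Sum.inr P) y, hbd⟩, fun _ P' _ y' hy' => ?_⟩
        obtain ⟨h4, rfl⟩ := hy.inj hy'
        simp only [Sum.inr.injEq] at h4
        subst h4
        refine ⟨r, fun h5 => ?_, fun _ => ⟨hr, hacc, Finset.Subset.refl _, fun q hq => ?_⟩⟩
        · have h6 : 1 / 2 < pr δ (fs (Sum.inr P)) y := hiff.1 h5
          linarith
        · exact lt_of_le_of_lt (hbd.1 q hq) hbd.2.2.2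
    · exact ⟨∅, Or.inl rfl, fun hn P hP y hy => absurd ⟨hn, P, hP, y, hy⟩ h⟩
  choose R h1 h2 using hex
  refine ⟨R, h1, fun C hC w hw hn P hP y hy => ?_⟩
  obtain ⟨r, h3, h4⟩ := h2 w hn P hP y hy
  refine ⟨r, fun h5 => ?_, fun h5 => ?_⟩
  · obtain ⟨h6, h7, h8, h9⟩ := h3 h5
    exact ⟨h6, fun O' hO' => (AccS_sup (fun q hq => hO' q (hC w hw (h8 hq)) (h9 q hq))).2 h7⟩
  · obtain ⟨h6, h7, h8, h9⟩ := h4 h5
    exact ⟨h6, fun O' hO' => (AccS_sup (fun q hq => hO' q (hC w hw (h8 hq)) (h9 q hq))).2 h7⟩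

section K

variable {O : List Bool → Bool} {L n : ℕ} {Q : Finset PD} {c : List Bool → Bool}
  {F : Finset (List Bool)} {v : List Bool → Bool}

/-- the completion with forced values and the base preferences -/
noncomputable abbrev KK (O : List Bool → Bool) (L n : ℕ) (Q : Finset PD) (c : List Bool → Bool)
    (F : Finset (List Bool)) (v : List Bool → Bool) : List Bool → Bool :=
  Kc O L n Q c F v (fun w => some (B0 O L Q w))

theorem KK_low (hc : ∀ w : List Bool, w.length < n → c w = false) :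
    ∀ (l : ℕ) (w : List Bool), w.length = l → w.length < n → KK O L n Q c F v w = B0 O L Q w := by
  intro l
  induction l using Nat.strong_induction_on with
  | _ l ih =>
    intro w hw hn
    exact K_eq rfl (fun u hu => ih u.length (by omega) u rfl (by omega))
      (fun h => by omega) (fun _ _ => hc w hn)

theorem KK_per (hL : L ≤ n) (hc : ∀ w : List Bool, w.length < n → c w = false)
    (hv : ∀ w ∈ F, w.length < n → v w = B0 O L Q w) {w : List Bool} (hw : w ∈ F) :
    KK O L n Q c F v w = v w := by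
  by_cases h : w.length < n
  · rw [KK_low hc _ w rfl h, hv w hw h]
  · exact K_F (by omega) (not_lt.1 h) hw

/-- the coded answers are right -/
theorem KK_C (hL : L ≤ n) (hc : ∀ w : List Bool, w.length < n → c w = false)
    (hv : ∀ w ∈ F, w.length < n → v w = B0 O L Q w) (hCl : Cl n Q v F) {P : PD} (hP : P ∈ Q)
    {w y : List Bool} (hw : IsC w (Sum.inr P) y) (hLw : L ≤ w.length)
    (hl : Leg (KK O L n Q c F v) (Sum.inr P) y) :
    KK O L n Q c F v w = true ↔ Val (KK O L n Q c F v) (Sum.inr P) y := by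
  by_cases h1 : n ≤ w.length ∧ w ∈ F
  · rw [KK, K_F hLw h1.1 h1.2]
    obtain ⟨r, h2, h3⟩ := hCl w h1.2 h1.1 P hP y hw
    cases hvw : v w with
    | true =>
      obtain ⟨h4, h5⟩ := h2 hvw
      refine ⟨fun _ => Val_of_pos hl (pr_pos h4 (h5 _ (fun q hq _ => KK_per hL hc hv hq))),
        fun _ => rfl⟩
    | false =>
      obtain ⟨h4, h5⟩ := h3 hvw
      have h6 : 0 < pr (KK O L n Q c F v) (sn (Sum.inr P)) y :=
        pr_pos h4 (h5 _ (fun q hq _ => KK_per hL hc hv hq))
      refine iff_of_false (by simp) (fun h7 => ?_)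
      have h7' : 1 / 2 < pr (KK O L n Q c F v) (fs (Sum.inr P)) y := h7
      rcases hl with ⟨_, h8⟩ | ⟨h8, _⟩ <;> linarith
  · rw [KK, K_D hLw h1 hP hw]
    exact ⟨fun h => h.elim (fun h => h.2) (fun h => absurd hl h.1), fun h => Or.inl ⟨hl, h⟩⟩

theorem St_change {a a0 : ℝ} {T : ℕ} {b : Bool} (hb : b = true ↔ 1 / 2 < a0)
    (h : ¬ (St (some b) a T ↔ 1 / 2 < a0)) : 1 / ((T : ℝ) + 1) ≤ |a - a0| := by
  have h1 : (0 : ℝ) < 1 / ((T : ℝ) + 1) := by positivity
  cases b with
  | true =>
    have h2 : 1 / 2 < a0 := hb.1 rfl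
    have h3 : ¬ St (some true) a T := fun h3 => h (iff_of_true h3 h2)
    have h4 : a < 1 / 2 - 1 / ((T : ℝ) + 1) := by
      by_contra h4
      exact h3 (Or.inr ⟨not_lt.1 h4, Or.inl rfl⟩)
    rw [abs_sub_comm]
    exact le_trans (by linarith) (le_abs_self _)
  | false =>
    have h2 : ¬ 1 / 2 < a0 := fun h2 => by simpa using hb.2 h2
    have h3 : St (some false) a T := by
      by_contra h3
      exact h (iff_of_false h3 h2)
    have h4 : 1 / 2 + 1 / ((T : ℝ) + 1) < a := by
      rcases h3 with h3 | ⟨_, h3 | ⟨h3, _⟩⟩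
      · exact h3
      · simp at h3
      · simp at h3
    exact le_trans (by linarith) (le_abs_self _)

/-- few oracles of a disjoint family change a given string -/
theorem infl5 (hleg : ∀ P ∈ Q, ∀ y : List Bool, Leg (B0 O L Q) (Sum.inr P) y) {K : ℕ}
    {D C : Fin K → Finset (List Bool)} (hD : ∀ i j, i ≠ j → Disjoint (D i) (D j)) :
    ∀ (l : ℕ) (q : List Bool), q.length = l →
      Nat.card {j : Fin K // KK O L n Q (fun _ => false) (C j) (flp (B0 O L Q) (D j)) q ≠
        B0 O L Q q} ≤ q.length + 1 := by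
  classical
  obtain ⟨δ, hδ⟩ : ∃ δ, δ = B0 O L Q := ⟨_, rfl⟩
  obtain ⟨κ, hκ⟩ : ∃ κ : Fin K → List Bool → Bool,
    κ = fun j => KK O L n Q (fun _ => false) (C j) (flp (B0 O L Q) (D j)) := ⟨_, rfl⟩
  have hκj : ∀ j, KK O L n Q (fun _ => false) (C j) (flp (B0 O L Q) (D j)) = κ j := fun j => by
    rw [hκ]
  simp only [hκj]
  rw [← hδ] at hleg ⊢
  intro l
  induction l using Nat.strong_induction_on with
  | _ l ih =>
    intro q hq
    have h1 : Nat.card {j : Fin K // q ∈ D j} ≤ 1 := by
      rw [Finite.card_le_one_iff_subsingleton]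
      refine ⟨fun a b => ?_⟩
      by_contra hab
      have h1 : a.1 ≠ b.1 := fun h => hab (Subtype.ext h)
      exact Finset.disjoint_left.1 (hD _ _ h1) a.2 b.2
    have h2 : Nat.card {j : Fin K // κ j q ≠ δ q} ≤ Nat.card {j : Fin K // q ∈ D j} +
        Nat.card {j : Fin K // ¬ (n ≤ q.length ∧ q ∈ C j) ∧ κ j q ≠ δ q} := by
      refine (card_le_of_imp (fun j h => ?_)).trans (card_or_le (fun j => q ∈ D j)
        (fun j => ¬ (n ≤ q.length ∧ q ∈ C j) ∧ κ j q ≠ δ q))
      by_cases h3 : n ≤ q.length ∧ q ∈ C j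
      · left
        by_contra h4
        apply h
        by_cases hL : q.length < L
        · rw [← hκj, hδ, KK, K_low hL, B0, K_low hL]
        · rw [← hκj, KK, K_F (not_lt.1 hL) h3.1 h3.2, flp_not_mem h4, hδ]
      · exact Or.inr ⟨h3, h⟩
    suffices h3 : Nat.card {j : Fin K // ¬ (n ≤ q.length ∧ q ∈ C j) ∧ κ j q ≠ δ q} ≤ q.length by
      omega
    by_cases hL : q.length < L
    · rw [card_zero (fun j h => h.2 (by rw [← hκj, hδ, KK, K_low hL, B0, K_low hL]))]
      exact Nat.zero_le _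
    rw [not_lt] at hL
    by_cases hP : isP q
    · obtain ⟨y, r, hw, hr⟩ := hP
      by_cases hin : ∃ (p : Prog) (x : List Bool) (M T : ℕ), y = inst (pm p) x M T
      · obtain ⟨p, x, M, T, hy⟩ := hin
        have hy3 : 3 ≤ y.length := by rw [hy]; exact inst_ge _ _ _ _
        have hT : T ≤ y.length := by
          rw [hy, length_inst]
          omega
        have hlen : (y.length + 2) ^ 5 ≤ q.length := by
          rw [hw, length_st5 hr, b5]
          omega
        have hqb : qb p x M T ≤ 20 * (y.length + 2) := by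
          rw [hy]
          exact qb_le_inst p x M T
        have h5 : 20 * (y.length + 2) < (y.length + 2) ^ 5 := five_pow hy3
        have hsum := sum_dif_le δ κ p x M T (20 * (y.length + 2) + 1) (fun u hu => by
          have := ih u.length (by omega) u rfl
          omega)
        have hb0 : δ q = true ↔ 1 / 2 < pa δ p x M T := by
          rw [hδ, B0_P hL hw hr]
          constructor
          · rintro ⟨p', x', M', T', hy', h4⟩
            rw [hy] at hy'
            obtain ⟨h5, rfl, rfl, rfl⟩ := inst_inj hy'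
            rw [pm_injective h5]
            exact h4
          · intro h4
            exact ⟨p, x, M, T, hy, h4⟩
        have hcnt : (Nat.card {j : Fin K // ¬ (n ≤ q.length ∧ q ∈ C j) ∧ κ j q ≠ δ q} : ℝ) *
            (1 / ((T : ℝ) + 1)) ≤ (T : ℝ) * (20 * (y.length + 2) + 1 : ℕ) := by
          refine le_trans (card_sum (fun i => Pr_nonneg' _ _) (fun j h => ?_)) hsum
          refine le_trans ?_ pa_dif
          refine St_change hb0 (fun h6 => h.2 ?_)
          rw [Bool.eq_iff_iff, hb0, ← h6, ← hκj, KK, K_P hL h.1 hw hr]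
          constructor
          · rintro ⟨p', x', M', T', hy', h4⟩
            rw [hy] at hy'
            obtain ⟨h5, rfl, rfl, rfl⟩ := inst_inj hy'
            rw [pm_injective h5, hδ]
            exact h4
          · intro h4
            refine ⟨p, x, M, T, hy, ?_⟩
            rw [hδ] at h4
            exact h4
        rw [mul_one_div, div_le_iff₀ (by positivity)] at hcnt
        have h7 : Nat.card {j : Fin K // ¬ (n ≤ q.length ∧ q ∈ C j) ∧ κ j q ≠ δ q} ≤
            T * (20 * (y.length + 2) + 1) * (T + 1) := by exact_mod_cast hcnt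
        refine h7.trans (le_trans ?_ hlen)
        obtain ⟨a, ha⟩ : ∃ a, a = y.length + 2 := ⟨_, rfl⟩
        rw [← ha]
        have ha5 : 5 ≤ a := by omega
        calc T * (20 * a + 1) * (T + 1) ≤ a * (a * a * a) * a := by
              refine Nat.mul_le_mul (Nat.mul_le_mul (by omega) ?_) (by omega)
              nlinarith [Nat.mul_le_mul ha5 ha5]
          _ = a ^ 5 := by ring
      · refine (card_zero (fun j h => h.2 ?_)).le.trans (Nat.zero_le _)
        rw [Bool.eq_iff_iff, ← hκj, hδ, KK, K_P hL h.1 hw hr, B0_P hL hw hr]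
        constructor
        · rintro ⟨p, x, M, T, hy, _⟩
          exact absurd ⟨p, x, M, T, hy⟩ hin
        · rintro ⟨p, x, M, T, hy, _⟩
          exact absurd ⟨p, x, M, T, hy⟩ hin
    · by_cases hDc : CodD Q q
      · obtain ⟨P, hPQ, y, hw⟩ := hDc
        obtain ⟨β, hβ⟩ : ∃ β, β = bz (Sum.inr P) y := ⟨_, rfl⟩
        have hbz := hw.bz_lt
        have hlt := hw.lt
        have hb3 := bz_ge (Sum.inr P) y
        have hqf := qbr_fs_le (Sum.inr P) y
        have hTf := tT_le (fs (Sum.inr P)) y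
        rw [← hβ] at hbz hlt hb3 hqf
        have hsum := sum_dif_le δ κ (fs (Sum.inr P)).1 y (mM (fs (Sum.inr P)) y)
          (tT (fs (Sum.inr P)) y) (β + 1) (fun u hu => by
            have h8 : u.length ≤ qbr (fs (Sum.inr P)) y := hu
            have := ih u.length (by omega) u rfl
            omega)
        have hcnt : (Nat.card {j : Fin K // ¬ (n ≤ q.length ∧ q ∈ C j) ∧ κ j q ≠ δ q} : ℝ) *
            (1 / 2) ≤ (tT (fs (Sum.inr P)) y : ℝ) * (β + 1 : ℕ) := by
          refine le_trans (card_sum (fun i => Pr_nonneg' _ _) (fun j h => ?_)) hsum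
          refine le_trans ?_ pa_dif
          have hl0 := hleg P hPQ y
          have h0 : δ q = true ↔ Val δ (Sum.inr P) y := by
            rw [hδ, B0_D hL hPQ hw]
            rw [hδ] at hl0
            exact ⟨fun h => h.2, fun h => ⟨hl0, h⟩⟩
          have hj : κ j q = true ↔ (Leg (κ j) (Sum.inr P) y ∧ Val (κ j) (Sum.inr P) y) ∨
              (¬ Leg (κ j) (Sum.inr P) y ∧ δ q = true) := by
            rw [← hκj, KK, K_D hL h.1 hPQ hw, hδ]
            simp only [Option.some.injEq]
          have hl : Leg (κ j) (Sum.inr P) y := by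
            by_contra hl
            refine h.2 ?_
            rw [Bool.eq_iff_iff, hj]
            simp [hl]
          have hne : ¬ (Val (κ j) (Sum.inr P) y ↔ Val δ (Sum.inr P) y) := by
            intro h6
            refine h.2 ?_
            rw [Bool.eq_iff_iff, hj, h0, ← h6]
            simp [hl]
          show 1 / 2 ≤ |pr (κ j) (fs (Sum.inr P)) y - pr δ (fs (Sum.inr P)) y|
          rcases hl with ⟨h6, _⟩ | ⟨h6, _⟩
          · rcases hl0 with ⟨h7, _⟩ | ⟨h7, _⟩
            · exact absurd (iff_of_true h6 h7) hne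
            · rw [h7, sub_zero]
              exact h6.le.trans (le_abs_self _)
          · rcases hl0 with ⟨h7, _⟩ | ⟨h7, _⟩
            · rw [h6, zero_sub, abs_neg]
              exact h7.le.trans (le_abs_self _)
            · refine absurd (iff_of_false (fun h8 => ?_) (fun h8 => ?_)) hne
              · have h8' : 1 / 2 < pr (κ j) (fs (Sum.inr P)) y := h8
                linarith
              · have h8' : 1 / 2 < pr δ (fs (Sum.inr P)) y := h8
                linarith
        have h7 : Nat.card {j : Fin K // ¬ (n ≤ q.length ∧ q ∈ C j) ∧ κ j q ≠ δ q} ≤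
            2 * (tT (fs (Sum.inr P)) y * (β + 1)) := by
          have h8 : (Nat.card {j : Fin K // ¬ (n ≤ q.length ∧ q ∈ C j) ∧ κ j q ≠ δ q} : ℝ) ≤
            2 * ((tT (fs (Sum.inr P)) y : ℝ) * (β + 1 : ℕ)) := by linarith
          exact_mod_cast h8
        have h9 : 2 * (tT (fs (Sum.inr P)) y * (β + 1)) ≤ β * (β + 1) := by
          have : 2 * tT (fs (Sum.inr P)) y ≤ β := by omega
          calc 2 * (tT (fs (Sum.inr P)) y * (β + 1)) = 2 * tT (fs (Sum.inr P)) y * (β + 1) := by
                ring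
            _ ≤ _ := Nat.mul_le_mul_right _ this
        have h10 : β * (β + 1) ≤ β ^ 7 := by
          have h11 : β ^ 3 ≤ β ^ 7 := Nat.pow_le_pow_right (by omega) (by norm_num)
          nlinarith
        omega
      · refine (card_zero (fun j h => h.2 ?_)).le.trans (Nat.zero_le _)
        rw [← hκj, hδ, KK, K_c hL h.1 hP hDc, B0_c hL hP hDc]

end K

end Pool.Agent.Helper56.PT.Hw
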