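import Pool.Agent.Helper56.PT.Hb

/-!
The diagonalisation against machines for R in the fifth construction.
-/

set_option autoImplicit false

namespace Pool.Agent.Helper56.PT.Hw

open Dat Fw

/-- strings which can be changed -/
def Flx (Q : Finset PD) (ρ : RD) (x w : List Bool) : Prop :=
  x.length ≤ w.length ∧ (w ∈ TB (nJ (Sum.inl ρ)) x ∨ isP w ∨ CodD Q w)

open Classical in
/-- the full test block -/
noncomputable def cT (ρ : RD) (x w : List Bool) : Bool := decide (w ∈ TB (nJ (Sum.inl ρ)) x)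

theorem TB_kR {ρ ρ' : RD} {x x' r : List Bool} (h : st (kR ρ') x' r ∈ TB (nJ (Sum.inl ρ)) x) :
    ρ' = ρ ∧ x' = x := by
  obtain ⟨r', _, h1⟩ := mem_TB.1 h
  obtain ⟨h2, h3, _⟩ := st_inj h1
  have h4 := nJ_injective (kT_inj h2).1
  simp only [Sum.inl.injEq] at h4
  exact ⟨h4, h3⟩

section stage

variable {O : List Bool → Bool} {L : ℕ} {Q : Finset PD} {ρ : RD} {x : List Bool}

theorem cT_low {w : List Bool} (h : w.length < x.length) : cT ρ x w = false := by
  rw [cT, decide_eq_false_iff_not]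
  intro h1
  have := length_TB h1
  have := lt_b5 (nJ (Sum.inl ρ)) true x
  omega

theorem meets_dead (hG : SH.Good O L) (hL : L ≤ x.length) {N : ℕ} (hN : b5 (kR ρ) x < N)
    {C D : Finset (List Bool)} (hCc : 4 * C.card < 2 ^ (x.length / 2))
    (hD : ∀ w ∈ D, Flx Q ρ x w) (hCl : Cl x.length Q (flp (B0 O L Q) D) C)
    {g : Prog} {e : ℕ} (hdead : ∀ O' : List Bool → Bool,
      Ag N O' (KK O L x.length Q (fun _ => false) C (flp (B0 O L Q) D)) →
        DeadJ (Sum.inl ρ) O') : SH.Meets O L Q (ReqJ (Sum.inl ρ) g e) := by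
  classical
  obtain ⟨κ, hκ⟩ : ∃ κ, κ = KK O L x.length Q (fun _ => false) C (flp (B0 O L Q) D) := ⟨_, rfl⟩
  rw [← hκ] at hdead
  have hxN : x.length < N := lt_trans (lt_b5 (nJ (Sum.inl ρ)) true x) hN
  have hAO : Ag L κ O := by
    rw [hκ]
    exact K_Ag le_rfl
  refine ⟨κ, N, Q, ⟨by omega, hAO, Finset.Subset.refl _, ?_, fun P hP hP' => absurd hP hP'⟩,
    by omega, ⟨?_, ?_⟩, fun O' hagr => (hdead O' hagr).req⟩
  · rintro P hP ⟨s, y⟩ h1 _ hl
    have hl' : Leg κ (Sum.inr P) y := hl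
    show κ (cs (Sum.inr P) s y) = true ↔ Val κ (Sum.inr P) y
    rw [hκ] at hl' ⊢
    refine KK_C hL (fun _ _ => rfl) (fun w hw hwn => ?_) hCl hP ⟨s, rfl⟩ h1 hl'
    refine flp_not_mem (fun h => ?_)
    have := (hD w h).1
    omega
  · intro y hy
    by_cases h : b5 kP y < L
    · exact SH.hU y O κ ((hAO.symm).mono h) (hG.u y h)
    · have h' : L ≤ b5 kP y := not_lt.1 h
      show OkP y κ
      rw [hκ]
      exact K_U hCc h' (fun r r' hr hr' => by rw [B0_uni h' hr hr'])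
  · rintro ⟨ρ', x'⟩ ht
    by_cases h : b5 (kR ρ') x' < L
    · rcases hG.t (ρ', x') h with h4 | h4
      · exact Or.inl (SH.hT (ρ', x') O κ ((hAO.symm).mono h) h4)
      · exact Or.inr (fun O' hagr => h4 O' ((hagr.mono (by omega)).trans hAO))
    · by_cases h4 : ρ' = ρ ∧ x' = x
      · obtain ⟨rfl, rfl⟩ := h4
        exact Or.inr hdead
      · refine Or.inl (Or.inl (dn_zero (fun r hr => ?_)))
        have hLw : L ≤ (st (kR ρ') x' r).length := by
          rw [length_st5 hr]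
          exact not_lt.1 h
        have hwD : st (kR ρ') x' r ∉ D := by
          intro h5
          rcases (hD _ h5).2 with h6 | h6 | h6
          · exact h4 (TB_kR h6)
          · exact not_isP_T h6
          · exact not_CodD_T h6
        rw [hκ, KK]
        by_cases h6 : x.length ≤ (st (kR ρ') x' r).length ∧ st (kR ρ') x' r ∈ C
        · rw [K_F hLw h6.1 h6.2, flp_not_mem hwD, B0_c hLw not_isP_T not_CodD_T]
        · rw [K_c hLw h6 not_isP_T not_CodD_T]

theorem fill_ext (hL : L ≤ x.length) {C : Finset (List Bool)}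
    (hCc : 4 * C.card < 2 ^ (x.length / 2)) (hCl : Cl x.length Q (B0 O L Q) C) :
    SH.Ext O L Q (KK O L x.length Q (cT ρ x) C (B0 O L Q)) ∧
      3 / 4 < dn (KK O L x.length Q (cT ρ x) C (B0 O L Q)) (kR ρ) x := by
  classical
  obtain ⟨κ, hκ⟩ : ∃ κ, κ = KK O L x.length Q (cT ρ x) C (B0 O L Q) := ⟨_, rfl⟩
  rw [← hκ]
  have hd : 3 / 4 < dn κ (kR ρ) x := by
    refine dn_large hCc ?_ (fun r hr h => ?_)
    · have : x.length + 2 ≤ (x.length + 2) ^ 5 := Nat.le_self_pow (by norm_num) _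
      omega
    · by_contra hn
      have hLw : L ≤ (st (kR ρ) x r).length := by
        have := lt_b5 (nJ (Sum.inl ρ)) true x
        rw [length_st5 hr]
        show L ≤ b5 (kT (nJ (Sum.inl ρ)) true) x
        omega
      rw [hκ, KK, K_c hLw (fun h => hn h.2) not_isP_T not_CodD_T, cT,
        decide_eq_false_iff_not] at h
      exact h (mem_TB.2 ⟨r, hr, rfl⟩)
  refine ⟨⟨?_, fun y hy => ?_, ?_, ?_⟩, hd⟩
  · rw [hκ]
    exact K_Ag le_rfl
  · show OkP y κ
    rw [hκ]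
    exact K_U hCc hy (fun r r' hr hr' => by rw [B0_uni hy hr hr'])
  · rintro ⟨ρ', x'⟩ ht
    have ht' : L ≤ b5 (kR ρ') x' := ht
    by_cases h4 : ρ' = ρ ∧ x' = x
    · obtain ⟨rfl, rfl⟩ := h4
      right
      show 1 / 2 < dn κ (kR ρ') x'
      linarith
    · refine Or.inl (dn_zero (fun r hr => ?_))
      have hLw : L ≤ (st (kR ρ') x' r).length := by
        rw [length_st5 hr]
        exact ht'
      rw [hκ, KK]
      by_cases h6 : x.length ≤ (st (kR ρ') x' r).length ∧ st (kR ρ') x' r ∈ C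
      · rw [K_F hLw h6.1 h6.2, B0_c hLw not_isP_T not_CodD_T]
      · rw [K_c hLw h6 not_isP_T not_CodD_T, cT, decide_eq_false_iff_not]
        exact fun h => h4 (TB_kR h)
  · rintro P hP ⟨s, y⟩ h1 hl
    have hl' : Leg κ (Sum.inr P) y := hl
    show κ (cs (Sum.inr P) s y) = true ↔ Val κ (Sum.inr P) y
    rw [hκ] at hl' ⊢
    exact KK_C hL (fun _ h => cT_low h) (fun _ _ _ => rfl) hCl hP ⟨s, rfl⟩ h1 hl'

theorem dif_eq_pr {δ κ : List Bool → Bool} {z : List Bool}
    (ha : ¬ ∃ r : List Bool, r.length = mM ρ z ∧ AccS δ ρ.1 z r (tT ρ z)) :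
    Pr (mM ρ z) (fun r => ¬ (AccS κ ρ.1 z r (tT ρ z) ↔ AccS δ ρ.1 z r (tT ρ z))) =
      pr κ ρ z := by
  rw [pr, pa]
  refine Pr_congr (fun r hr => ?_)
  have h3 : ¬ AccS δ ρ.1 z r (tT ρ z) := fun h => ha ⟨r, hr, h⟩
  simp [h3]

theorem exists_dead_index (hleg : ∀ P ∈ Q, ∀ y : List Bool, Leg (B0 O L Q) (Sum.inr P) y)
    {n K N : ℕ} {z : List Bool} {D C : Fin K → Finset (List Bool)}
    (hD : ∀ i j, i ≠ j → Disjoint (D i) (D j)) (hqN : qbr ρ z < N)
    (hK : 2 * (tT ρ z * (N + 1)) < K)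
    (ha : ¬ ∃ r : List Bool, r.length = mM ρ z ∧ AccS (B0 O L Q) ρ.1 z r (tT ρ z)) :
    ∃ j : Fin K, pr (KK O L n Q (fun _ => false) (C j) (flp (B0 O L Q) (D j))) ρ z ≤ 1 / 2 := by
  classical
  have hq : ∀ q : List Bool, q.length ≤ qb ρ.1 z (mM ρ z) (tT ρ z) →
      Nat.card {j : Fin K // KK O L n Q (fun _ => false) (C j) (flp (B0 O L Q) (D j)) q ≠
        B0 O L Q q} ≤ N + 1 := by
    intro q hq
    have h1 := infl5 (n := n) (C := C) hleg hD q.length q rfl
    have h2 : q.length ≤ qbr ρ z := hq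
    omega
  obtain ⟨κ, hκ⟩ : ∃ κ : Fin K → List Bool → Bool,
    κ = fun j => KK O L n Q (fun _ => false) (C j) (flp (B0 O L Q) (D j)) := ⟨_, rfl⟩
  have hκj : ∀ j, KK O L n Q (fun _ => false) (C j) (flp (B0 O L Q) (D j)) = κ j := fun j => by
    rw [hκ]
  simp only [hκj] at hq ⊢
  obtain ⟨δ, hδ⟩ : ∃ δ, δ = B0 O L Q := ⟨_, rfl⟩
  rw [← hδ] at ha hq
  have hsum := sum_dif_le δ κ ρ.1 z (mM ρ z) (tT ρ z) (N + 1) hq
  by_contra hn
  push Not at hn
  have h1 : (Finset.univ : Finset (Fin K)).card • (1 / 2 : ℝ) ≤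
      ∑ j, Pr (mM ρ z) (fun r => ¬ (AccS (κ j) ρ.1 z r (tT ρ z) ↔
        AccS δ ρ.1 z r (tT ρ z))) := by
    refine Finset.card_nsmul_le_sum _ _ _ (fun j _ => ?_)
    rw [dif_eq_pr ha]
    exact (hn j).le
  rw [Finset.card_univ, Fintype.card_fin, nsmul_eq_mul] at h1
  have h2 := h1.trans hsum
  have h3 : ((2 * (tT ρ z * (N + 1)) : ℕ) : ℝ) < (K : ℝ) := by exact_mod_cast hK
  push_cast at h3 h2
  linarith

/-- the members of the family -/
def Mem (O : List Bool → Bool) (L : ℕ) (Q : Finset PD) (ρ : RD) (x z : List Bool) (N B : ℕ)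
    (D : Finset (List Bool)) : Prop :=
  D.Nonempty ∧ D.card ≤ B ∧ (∀ w ∈ D, Flx Q ρ x w) ∧ ∃ C : Finset (List Bool), C.card ≤ B ∧
    (∀ w ∈ C, w.length < N) ∧ D ⊆ C ∧ Cl x.length Q (flp (B0 O L Q) D) C ∧
    ∃ r : List Bool, r.length = mM ρ z ∧ ∀ O' : List Bool → Bool,
      (∀ q ∈ C, O' q = flp (B0 O L Q) D q) → AccS O' ρ.1 z r (tT ρ z)

theorem flp_filter {δ κ : List Bool → Bool} {C : Finset (List Bool)} {w : List Bool}
    (hw : w ∈ C) : flp δ (C.filter (fun w => κ w ≠ δ w)) w = κ w := by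
  by_cases h1 : κ w = δ w
  · have h2 : w ∉ C.filter (fun w => κ w ≠ δ w) := fun h => by
      have h3 := (Finset.mem_filter.1 h).2
      exact h3 h1
    rw [flp_not_mem h2, h1]
  · have h2 : w ∈ C.filter (fun w => κ w ≠ δ w) := Finset.mem_filter.2 ⟨hw, h1⟩
    rw [flp_mem h2]
    cases h3 : κ w <;> cases h4 : δ w <;> simp_all

/-- If all members meet a frozen set the machine rejects. -/
theorem no_acc (hst : SH.Stable O L Q) (hL : L ≤ x.length) {C : Finset (List Bool)}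
    (hCc : 4 * C.card < 2 ^ (x.length / 2)) (hCl : Cl x.length Q (B0 O L Q) C) {z : List Bool}
    {N B : ℕ} (hqN : qbr ρ z < N) (hB : tT ρ z * N ≤ B)
    (ha : ¬ ∃ r : List Bool, r.length = mM ρ z ∧ AccS (B0 O L Q) ρ.1 z r (tT ρ z))
    (hC : ∀ D : Finset (List Bool), Mem O L Q ρ x z N B D → ¬ Disjoint D C) :
    ¬ ∃ r : List Bool, r.length = mM ρ z ∧
      AccS (KK O L x.length Q (cT ρ x) C (B0 O L Q)) ρ.1 z r (tT ρ z) := by
  classical
  rintro ⟨r, hr, hacc⟩
  obtain ⟨hext, _⟩ := fill_ext (ρ := ρ) hL hCc hCl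
  have hkk : ∀ w ∈ C, x.length ≤ w.length →
      KK O L x.length Q (cT ρ x) C (B0 O L Q) w = B0 O L Q w := fun w hw hn => by
    rw [KK, K_F (by omega) hn hw]
  have hlow := KK_low (O := O) (L := L) (Q := Q) (n := x.length) (c := cT ρ x) (F := C)
    (v := B0 O L Q) (fun w hw => cT_low hw)
  have hflx : ∀ w : List Bool, KK O L x.length Q (cT ρ x) C (B0 O L Q) w ≠ B0 O L Q w →
      Flx Q ρ x w := by
    intro w hne
    have hn : x.length ≤ w.length := by
      by_contra hn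
      exact hne (hlow _ w rfl (not_le.1 hn))
    refine ⟨hn, ?_⟩
    by_contra h
    push Not at h
    apply hne
    by_cases hwC : w ∈ C
    · exact hkk w hwC hn
    · rw [KK, K_c (by omega) (fun h => hwC h.2) h.2.1 h.2.2, B0_c (by omega) h.2.1 h.2.2, cT,
        decide_eq_false_iff_not]
      exact h.1
  obtain ⟨κ, hκ⟩ : ∃ κ, κ = KK O L x.length Q (cT ρ x) C (B0 O L Q) := ⟨_, rfl⟩
  rw [← hκ] at hacc hext
  simp only [← hκ] at hkk hflx
  have hleg : ∀ P ∈ Q, ∀ y : List Bool, Leg κ (Sum.inr P) y := fun P hP y =>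
    hst P hP κ hext y
  obtain ⟨R, hR1, hR2⟩ := exists_DepD κ x.length Q hleg (fun w hn P hP y hy => by
    obtain ⟨s, rfl⟩ := hy
    exact hext.c P hP (s, y) (show L ≤ (cs (Sum.inr P) s y).length by omega) (hleg P hP y))
  have hN1 : 1 ≤ N - 1 := by
    have h1 : 20 * tT ρ z + 4 ≤ qbr ρ z := tT_le ρ z
    omega
  obtain ⟨C1, hC1, hC2, hC3, hC4⟩ := exists_clo_set R hR1 (sup κ ρ.1 z r (tT ρ z))
    (B := N - 1) hN1 (fun w hw => by
      have h1 := sup_length _ _ _ _ _ w hw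
      rw [hr] at h1
      have h2 : qb ρ.1 z (mM ρ z) (tT ρ z) = qbr ρ z := rfl
      omega)
  have hCl1 := hR2 C1 hC4
  have hC1B : C1.card ≤ B := by
    refine hC2.trans (le_trans (Nat.mul_le_mul (sup_card _ _ _ _ _) (Nat.sub_le N 1)) hB)
  obtain ⟨D, hD⟩ : ∃ D, D = C1.filter (fun w => κ w ≠ B0 O L Q w) := ⟨_, rfl⟩
  have hflp : ∀ w ∈ C1, flp (B0 O L Q) D w = κ w := fun w hw => by
    rw [hD]
    exact flp_filter hw
  have hDne : ∀ w ∈ D, κ w ≠ B0 O L Q w := fun w hw => by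
    rw [hD] at hw
    exact (Finset.mem_filter.1 hw).2
  refine hC D ⟨?_, ?_, fun w hw => hflx w (hDne w hw), C1, hC1B, fun w hw => ?_, ?_, ?_, r, hr,
    fun O' hO' => ?_⟩ ?_
  · rw [Finset.nonempty_iff_ne_empty]
    intro h1
    refine ha ⟨r, hr, (AccS_sup (fun q hq => ?_)).2 hacc⟩
    rw [← hflp q (hC1 hq), h1]
    exact (flp_not_mem (Finset.notMem_empty _)).symm
  · rw [hD]
    exact (Finset.card_filter_le _ _).trans hC1B
  · have := hC3 w hw
    omega
  · rw [hD]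
    exact Finset.filter_subset _ _
  · exact hCl1.congr (fun w hw => (hflp w hw).symm)
  · exact (AccS_sup (fun q hq => by rw [hO' q (hC1 hq), hflp q (hC1 hq)])).2 hacc
  · refine Finset.disjoint_left.2 (fun w hw hwC => hDne w hw ?_)
    have h1 := hflx w (hDne w hw)
    exact hkk w hwC h1.1

theorem stageRR (hG : SH.Good O L) (hst : SH.Stable O L Q) (ρ : RD) (g : Prog) (e : ℕ) :
    SH.Meets O L Q (ReqJ (Sum.inl ρ) g e) := by
  classical
  set W : ℕ → ℕ := fun n => n + 1 + (n + 2) ^ e with hW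
  set Tb : ℕ → ℕ := fun n => 3 * (W n + 2) ^ ρ.2.2 with hTb
  set qB : ℕ → ℕ := fun n => (code ρ.1).depth + W n + (W n + 2) ^ ρ.2.1 + 4 + 20 * Tb n with hqB
  set Nn : ℕ → ℕ := fun n => 2 * nJ (Sum.inl ρ) + 6 + 2 * n + (n + 2) ^ 5 +
    ((code g).depth + n + 3 + 60 * (n + 2) ^ e) + qB n + 1 with hNn
  set Bb : ℕ → ℕ := fun n => Tb n * Nn n with hBb
  set Kb : ℕ → ℕ := fun n => 2 * (Tb n * (Nn n + 1)) + 1 with hKb
  set cardB : ℕ → ℕ := fun n => (3 * (n + 2) ^ e + Kb n * Bb n) * Nn n + Bb n with hcardB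
  have hpe : Pol (fun n => (n + 2) ^ e) := ⟨e, fun n => le_rfl⟩
  have hp5 : Pol (fun n => (n + 2) ^ 5) := ⟨5, fun n => le_rfl⟩
  have hpW : Pol W := (Pol.id.add (Pol.const 1)).add hpe
  have hpW2 : Pol (fun n => W n + 2) := hpW.add (Pol.const 2)
  have hpT : Pol Tb := (Pol.const 3).mul (hpW2.pow _)
  have hpq : Pol qB := ((((Pol.const _).add hpW).add (hpW2.pow _)).add (Pol.const 4)).add
    ((Pol.const 20).mul hpT)
  have hpN : Pol Nn := ((((((Pol.const (2 * nJ (Sum.inl ρ))).add (Pol.const 6)).add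
    ((Pol.const 2).mul Pol.id)).add hp5).add
    ((((Pol.const _).add Pol.id).add (Pol.const 3)).add ((Pol.const 60).mul hpe))).add hpq).add
    (Pol.const 1)
  have hpB : Pol Bb := hpT.mul hpN
  have hpK : Pol Kb := ((Pol.const 2).mul (hpT.mul (hpN.add (Pol.const 1)))).add (Pol.const 1)
  have hpc : Pol cardB := ((((Pol.const 3).mul hpe).add (hpK.mul hpB)).mul hpN).add hpB
  obtain ⟨n, hLn, hn⟩ := exists_big hpc L
  obtain ⟨x, hx⟩ : ∃ x : List Bool, x.length = n := ⟨List.replicate n true, by simp⟩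
  have hLx : L ≤ x.length := by omega
  obtain ⟨QG, z, hQ1, hQ2, hz, hQ3⟩ := exists_out (B0 O L Q) g e x
  rw [hx] at hQ1 hQ2 hz
  obtain ⟨N, hN⟩ : ∃ N, N = Nn n := ⟨_, rfl⟩
  have hNval : Nn n = 2 * nJ (Sum.inl ρ) + 6 + 2 * n + (n + 2) ^ 5 +
    ((code g).depth + n + 3 + 60 * (n + 2) ^ e) + qB n + 1 := rfl
  have hzW : z.length + 2 ≤ W n + 2 := by
    simp only [hW]
    omega
  have hTB : tT ρ z ≤ Tb n := Nat.mul_le_mul_left _ (Nat.pow_le_pow_left hzW _)
  have hMB : mM ρ z ≤ (W n + 2) ^ ρ.2.1 := Nat.pow_le_pow_left hzW _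
  have hqN : qbr ρ z < N := by
    have h3 : qB n = (code ρ.1).depth + W n + (W n + 2) ^ ρ.2.1 + 4 + 20 * Tb n := rfl
    rw [qbr, qb]
    omega
  have hNb : b5 (kR ρ) x < N := by
    rw [kR, b5_le, hx]
    omega
  have hlegB : ∀ P ∈ Q, ∀ y : List Bool, Leg (B0 O L Q) (Sum.inr P) y := fun P hP y =>
    hst P hP _ B0_ext y
  have hpr : ∀ {δ1 δ2 : List Bool → Bool}, Ag N δ1 δ2 → ∀ r : List Bool, r.length = mM ρ z →
      (AccS δ1 ρ.1 z r (tT ρ z) ↔ AccS δ2 ρ.1 z r (tT ρ z)) := by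
    intro δ1 δ2 h r hr
    refine AccS_congr (fun v hv => h v ?_)
    rw [hr] at hv
    have h2 : qb ρ.1 z (mM ρ z) (tT ρ z) = qbr ρ z := rfl
    omega
  by_cases ha : ∃ r : List Bool, r.length = mM ρ z ∧ AccS (B0 O L Q) ρ.1 z r (tT ρ z)
  · -- the machine accepts, the test block stays empty
    obtain ⟨r, hr, hacc⟩ := ha
    refine ⟨B0 O L Q, N, Q, ⟨by omega, B0_ext.agr, Finset.Subset.refl _, fun P hP c' h1 _ =>
      B0_ext.c P hP c' h1, fun P hP hP' => absurd hP hP'⟩, by omega,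
      B0_ext.good hG (by omega), fun O' hagr A f hV hf hred => ?_⟩
    have hfx := hQ3 O' (fun v hv => hagr v (by have := hQ2 v hv; omega)) f hf
    have h1 := hred x
    rw [hfx] at h1
    have hV' : Via O' ρ.1 ρ.2.1 ρ.2.2 A := hV
    have hzA : z ∈ A := hV'.acc hr ((hpr hagr r hr).2 hacc)
    have h2 : 0 < dn O' (kR ρ) x := h1.2 hzA
    have h3 : dn O' (kR ρ) x = dn (B0 O L Q) (kR ρ) x := dn_congr (hagr.mono hNb)
    have h4 : dn (B0 O L Q) (kR ρ) x = 0 :=
      B0_T (κ := kR ρ) (m := nJ (Sum.inl ρ)) (b := true) rfl (by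
        have := lt_b5 (nJ (Sum.inl ρ)) true x
        show L ≤ b5 (kT (nJ (Sum.inl ρ)) true) x
        omega)
    rw [h3, h4] at h2
    exact lt_irrefl _ h2
  · obtain ⟨B, hB⟩ : ∃ B, B = Bb n := ⟨_, rfl⟩
    have hBv : Bb n = Tb n * Nn n := rfl
    obtain ⟨K, hK⟩ : ∃ K, K = Kb n := ⟨_, rfl⟩
    have hKv : Kb n = 2 * (Tb n * (Nn n + 1)) + 1 := rfl
    have hcv : cardB n = (3 * (n + 2) ^ e + Kb n * Bb n) * Nn n + Bb n := rfl
    have hTNB : tT ρ z * N ≤ B := by
      rw [hB, hBv, hN]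
      exact Nat.mul_le_mul_right _ hTB
    rcases disjoint_or_cover {D | Mem O L Q ρ x z N B D} B (fun D hD => ⟨hD.1, hD.2.1⟩) K with
      ⟨D, hD1, hD2⟩ | ⟨Y, hY1, hY2, hY3⟩
    · -- a disjoint family
      have hD1' : ∀ j, Mem O L Q ρ x z N B (D j) := hD1
      choose C hC1 hC2 hC3 hC4 r hr hacc using fun j => (hD1' j).2.2.2
      have hfl : ∀ j, ∀ w ∈ D j, Flx Q ρ x w := fun j => (hD1' j).2.2.1
      have hex : ∃ j : Fin K, pr (KK O L x.length Q (fun _ => false) (C j)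
          (flp (B0 O L Q) (D j))) ρ z ≤ 1 / 2 := by
        refine exists_dead_index hlegB hD2 hqN ?_ ha
        rw [hK, hKv, ← hN]
        have := Nat.mul_le_mul_right (N + 1) hTB
        omega
      obtain ⟨j, hj⟩ := hex
      refine meets_dead hG hLx hNb (C := C j) (D := D j) ?_ (hfl j) (hC4 j)
        (fun O' hagr A hV => ?_)
      · rw [hx]
        have := hC1 j
        omega
      · have hV' : Via O' ρ.1 ρ.2.1 ρ.2.2 A := hV
        have hpos : AccS O' ρ.1 z (r j) (tT ρ z) := by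
          refine hacc j O' (fun q hq => ?_)
          rw [hagr q (hC2 j q hq)]
          refine KK_per hLx (fun _ _ => rfl) (fun w hw hwn => ?_) hq
          refine flp_not_mem (fun h => ?_)
          have := (hfl j w h).1
          omega
        have hzA : z ∈ A := hV'.acc (hr j) hpos
        have h1 : 1 / 2 < pr O' ρ z := hV'.pa hzA
        have h2 : pr O' ρ z = pr (KK O L x.length Q (fun _ => false) (C j)
            (flp (B0 O L Q) (D j))) ρ z :=
          pr_congr (fun v hv => hagr v (by omega))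
        rw [h2] at h1
        linarith
    · -- a small cover
      have hY3' : ∀ D, Mem O L Q ρ x z N B D → ¬ Disjoint D Y := hY3
      obtain ⟨R, hR1, hR2⟩ := exists_DepD (B0 O L Q) x.length Q hlegB (fun w hn' P hP y hy => by
        rw [B0_D (by omega) hP hy]
        exact ⟨fun h => h.2, fun h => ⟨hlegB P hP y, h⟩⟩)
      obtain ⟨C, hC1, hC2, hC3, hC4⟩ := exists_clo_set R hR1 (QG ∪ Y) (B := N - 1) (by omega)
        (fun w hw => by
          rcases Finset.mem_union.1 hw with h | h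
          · have := hQ2 w h
            omega
          · obtain ⟨D, hD, hwD⟩ := hY2 w h
            have hD' : Mem O L Q ρ x z N B D := hD
            obtain ⟨_, _, _, C', _, h5, h6, _⟩ := hD'
            have := h5 w (h6 hwD)
            omega)
      have hCl := hR2 C hC4
      have hCc : 4 * C.card < 2 ^ (x.length / 2) := by
        have h1 : C.card ≤ (3 * (n + 2) ^ e + Kb n * Bb n) * Nn n := by
          refine hC2.trans (Nat.mul_le_mul ((Finset.card_union_le QG Y).trans ?_) (by omega))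
          rw [← hK, ← hB]
          omega
        rw [hx]
        omega
      obtain ⟨hext, hden⟩ := fill_ext (ρ := ρ) hLx hCc hCl
      have hna := no_acc (ρ := ρ) (z := z) (N := N) (B := B) hst hLx hCc hCl hqN hTNB ha
        (fun D hD hdis => hY3' D hD (Finset.disjoint_of_subset_right
          ((Finset.subset_union_right).trans hC1) hdis))
      refine ⟨_, N, Q, ⟨by omega, hext.agr, Finset.Subset.refl _, fun P hP c' h1 _ =>
        hext.c P hP c' h1, fun P hP hP' => absurd hP hP'⟩, by omega,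
        hext.good hG (by omega), fun O' hagr A f hV hf hred => ?_⟩
      have hfx := hQ3 O' (fun v hv => by
        have hvC : v ∈ C := hC1 (Finset.mem_union_left _ hv)
        rw [hagr v (by have := hQ2 v hv; omega)]
        exact KK_per hLx (fun _ h => cT_low h) (fun _ _ _ => rfl) hvC) f hf
      have h1 := hred x
      rw [hfx] at h1
      have h3 : dn O' (kR ρ) x = dn (KK O L x.length Q (cT ρ x) C (B0 O L Q)) (kR ρ) x :=
        dn_congr (hagr.mono hNb)
      have hxT : x ∈ TS (Sum.inl ρ) O' := by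
        show 0 < dn O' (kR ρ) x
        rw [h3]
        linarith
      have hV' : Via O' ρ.1 ρ.2.1 ρ.2.2 A := hV
      obtain ⟨r, hr, hacc⟩ := Pr_exists (lt_trans (by norm_num) (hV'.pa (h1.1 hxT)))
      exact hna ⟨r, hr, (hpr hagr r hr).1 hacc⟩

end stage

end Pool.Agent.Helper56.PT.Hw
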