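import Pool.Agent.Helper56.PT.Hc

/-!
An oracle relative to which ZPP and BPP have complete sets and R has none; all eight patterns.
-/

set_option autoImplicit false

namespace Pool.Agent.Helper56.PT

open Dat

namespace Hw

open Fw

/-- the limit of the fifth construction -/
theorem exists_limit5 : ∃ O : List Bool → Bool, (∀ y : List Bool, OkP y O) ∧
    (∀ (ρ : RD) (x : List Bool), (dn O (kR ρ) x = 0 ∨ 1 / 2 < dn O (kR ρ) x) ∨
      DeadJ (Sum.inl ρ) O) ∧
    (∀ (ρ : RD) (g : Prog) (e : ℕ), ReqJ (Sum.inl ρ) g e O) ∧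
    ∀ P : PD, (∃ y : List Bool, ¬ Leg O (Sum.inr P) y) ∨ ∃ L : ℕ, ∀ (s : ℕ) (y : List Bool),
      L ≤ (cs (Sum.inr P) s y).length → Leg O (Sum.inr P) y →
        (O (cs (Sum.inr P) s y) = true ↔ Val O (Sum.inr P) y) := by
  have : Countable SH.I := (inferInstance : Countable PD)
  have : Nonempty SH.I := ⟨((Prog.id, Prog.id, 0, 0, 0, 0) : PD)⟩
  have : Nonempty (RD × Prog × ℕ) := ⟨(Prog.id, 0, 0), Prog.id, 0⟩
  obtain ⟨O, h1, h2, h3, h4⟩ := Sys.limit SH
    (fun (q : RD × Prog × ℕ) O => ReqJ (Sum.inl q.1) q.2.1 q.2.2 O) Set.univ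
    ⟨fun _ => false, fun u hu => absurd hu (Nat.not_lt_zero _),
      fun t ht => absurd ht (Nat.not_lt_zero _)⟩
    (fun O L Q hG hst _ q => stageRR hG hst q.1 q.2.1 q.2.2)
  exact ⟨O, h1, fun ρ x => h2 (ρ, x), fun ρ g e => h3 (ρ, g, e), fun P => by
    rcases h4 P (Set.mem_univ _) with h | ⟨L, h⟩
    · exact Or.inl h
    · exact Or.inr ⟨L, fun s y => h (s, y)⟩⟩

theorem not_hasComplete_R5 {O : List Bool → Bool}
    (hok : ∀ (ρ : RD) (x : List Bool), (dn O (kR ρ) x = 0 ∨ 1 / 2 < dn O (kR ρ) x) ∨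
      DeadJ (Sum.inl ρ) O)
    (hreq : ∀ (ρ : RD) (g : Prog) (e : ℕ), ReqJ (Sum.inl ρ) g e O) :
    ¬ HasComplete O (InR O) := by
  rintro ⟨A, ⟨p, k, l, hpA⟩, hcomp⟩
  obtain ⟨ρ, hρ⟩ : ∃ ρ : RD, ρ = (p, k, l) := ⟨_, rfl⟩
  have hV : ViaJ (Sum.inl ρ) O A := by
    rw [hρ]
    exact hpA
  have hok' : ∀ x, dn O (kR ρ) x = 0 ∨ 1 / 2 < dn O (kR ρ) x := fun x => by
    rcases hok ρ x with h | h
    · exact h
    · exact absurd hV (h A)
  have hB : InR O (TS (Sum.inl ρ) O) := by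
    refine inR_block (kR ρ) _ (fun x => ⟨fun hx => ?_, fun hx => ?_⟩)
    · have hx' : 0 < dn O (kR ρ) x := hx
      rcases hok' x with h | h
      · linarith
      · exact h
    · have hx' : ¬ 0 < dn O (kR ρ) x := hx
      rcases hok' x with h | h
      · exact h
      · exact absurd (lt_trans (by norm_num) h) hx'
  obtain ⟨f, ⟨g, e, hf⟩, hred⟩ := hcomp _ hB
  exact hreq ρ g e A f hV hf hred

theorem hasComplete_ZPP5 {O : List Bool → Bool}
    (h : ∀ P : PD, (∃ y : List Bool, ¬ Leg O (Sum.inr P) y) ∨ ∃ L : ℕ, ∀ (s : ℕ) (y : List Bool),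
      L ≤ (cs (Sum.inr P) s y).length → Leg O (Sum.inr P) y →
        (O (cs (Sum.inr P) s y) = true ↔ Val O (Sum.inr P) y)) :
    HasComplete O (InZPP O) := by
  refine ⟨{y | y ≠ []}, ⟨inR_ne _, inR_eq _⟩, fun B hB => ?_⟩
  obtain ⟨⟨p, k, l, hp⟩, ⟨q, k', l', hq⟩⟩ := hB
  obtain ⟨P, hP⟩ : ∃ P : PD, P = (p, q, k, l, k', l') := ⟨_, rfl⟩
  have hV : ViaZ O P B := by
    rw [hP]
    exact ⟨hp, hq⟩
  rcases h P with ⟨y, hy⟩ | ⟨L, hL⟩
  · exact absurd (leg_of_viaZ hV y).1 hy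
  · refine ⟨_, polyFn_cs O (Sum.inr P) L, fun x => ?_⟩
    obtain ⟨h1, h2⟩ := leg_of_viaZ hV x
    have h3 := hL L x (length_cs_ge (Sum.inr P) L x) h1
    rw [← h2, ← h3]
    cases O (cs (Sum.inr P) L x) with
    | true => simp
    | false => simp

theorem hasComplete_BPP5 {O : List Bool → Bool} (h : ∀ y : List Bool, OkP y O) :
    HasComplete O (InBPP O) := by
  refine ⟨{y | 3 / 4 < dn O kP y}, ?_, ?_⟩
  · obtain ⟨p, l, hp, hacc⟩ := exists_queryJ O kP 5 (by norm_num)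
    refine ⟨p, 5, l, 1 / 8, by norm_num, hp, fun y => ?_⟩
    have h0 : Pr ((y.length + 2) ^ 5) (Accepts O p y) = dn O kP y :=
      Pr_congr (fun r hr => hacc y r hr)
    by_cases hy : 3 / 4 < dn O kP y
    · have h3 : Pr ((y.length + 2) ^ 5) (fun r => Accepts O p y r ↔
          y ∈ {y | 3 / 4 < dn O kP y}) = Pr ((y.length + 2) ^ 5) (Accepts O p y) :=
        Pr_congr (fun r _ => by simp [hy])
      rw [h3, h0]
      linarith
    · have h2 : dn O kP y < 1 / 4 := by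
        rcases (h y).1 with h2 | h2
        · exact h2
        · exact absurd h2 hy
      have h3 : Pr ((y.length + 2) ^ 5) (fun r => Accepts O p y r ↔
          y ∈ {y | 3 / 4 < dn O kP y}) =
          Pr ((y.length + 2) ^ 5) (fun r => ¬ (Accepts O p y) r) :=
        Pr_congr (fun r _ => by simp [hy])
      have h4 := Pr_add_not ((y.length + 2) ^ 5) (Accepts O p y)
      rw [h0] at h4
      rw [h3]
      linarith
  · rintro B ⟨p, k, l, e, he, hp, hB⟩
    obtain ⟨j, hj⟩ : ∃ j : ℕ, 3 + 1 / e < (2 : ℝ) ^ j := pow_unbounded_of_one_lt _ (by norm_num)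
    refine ⟨_, poly_inst (pm p) k (l + j), fun x => ?_⟩
    obtain ⟨T, hT⟩ : ∃ T, T = (x.length + 2) ^ (l + j) := ⟨_, rfl⟩
    show x ∈ B ↔ 3 / 4 < dn O kP (inst (pm p) x ((x.length + 2) ^ k) ((x.length + 2) ^ (l + j)))
    rw [← hT]
    have he' : 0 < 1 / e := by positivity
    have h2j : 3 ≤ 2 ^ j := by
      have h1 : (3 : ℝ) < 2 ^ j := by linarith
      have h2 : ((3 : ℕ) : ℝ) < ((2 ^ j : ℕ) : ℝ) := by push_cast; exact h1
      exact (Nat.cast_lt.1 h2).le
    have hxj : 2 ^ j ≤ (x.length + 2) ^ j := Nat.pow_le_pow_left (by omega) j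
    have hx1 : 1 ≤ (x.length + 2) ^ l := Nat.one_le_pow _ _ (by omega)
    have hT3 : 3 * (x.length + 2) ^ l ≤ T := by
      rw [hT, pow_add, mul_comm]
      exact Nat.mul_le_mul_left _ (h2j.trans hxj)
    have hTe : 1 / ((T : ℝ) + 1) < e := by
      have h1 : 2 ^ j ≤ T := by
        rw [hT, pow_add]
        calc 2 ^ j ≤ (x.length + 2) ^ j := hxj
          _ = 1 * (x.length + 2) ^ j := (one_mul _).symm
          _ ≤ _ := Nat.mul_le_mul_right _ hx1
      have h2 : ((2 ^ j : ℕ) : ℝ) ≤ (T : ℝ) := by exact_mod_cast h1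
      push_cast at h2
      rw [div_lt_iff₀ (by positivity)]
      have h3 : 1 / e < (T : ℝ) + 1 := by linarith
      rw [div_lt_iff₀ he] at h3
      linarith
    have h1 : pa O p x ((x.length + 2) ^ k) T = Pr ((x.length + 2) ^ k) (Accepts O p x) :=
      Pr_congr (fun r hr => accS_iff hp hr hT3)
    obtain ⟨h5, h6⟩ := (h (inst (pm p) x ((x.length + 2) ^ k) T)).2 p x _ T rfl
    rw [h1] at h5 h6
    have h2 := hB x
    by_cases hx : x ∈ B
    · have h3 : Pr ((x.length + 2) ^ k) (fun r => Accepts O p x r ↔ x ∈ B) =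
          Pr ((x.length + 2) ^ k) (Accepts O p x) := Pr_congr (fun r _ => by simp [hx])
      rw [h3] at h2
      exact iff_of_true hx (h5 (by linarith))
    · have h3 : Pr ((x.length + 2) ^ k) (fun r => Accepts O p x r ↔ x ∈ B) =
          Pr ((x.length + 2) ^ k) (fun r => ¬ Accepts O p x r) :=
        Pr_congr (fun r _ => by simp [hx])
      rw [h3] at h2
      have h4 := Pr_add_not ((x.length + 2) ^ k) (Accepts O p x)
      have h7 : Pr ((x.length + 2) ^ k) (fun r => ¬ Accepts O p x r) =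
        Pr ((x.length + 2) ^ k) (fun r => ¬ (Accepts O p x) r) := rfl
      have h8 := h6 (by linarith)
      exact iff_of_false hx (fun h9 => by linarith)

/-- There is an oracle relative to which ZPP and BPP have complete sets and R has none. -/
theorem exists_oracle9 : ∃ O : List Bool → Bool, HasComplete O (InZPP O) ∧
    ¬ HasComplete O (InR O) ∧ HasComplete O (InBPP O) := by
  obtain ⟨O, h1, h2, h3, h4⟩ := exists_limit5
  exact ⟨O, hasComplete_ZPP5 h4, not_hasComplete_R5 h2 h3, hasComplete_BPP5 h1⟩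

end Hw

end Pool.Agent.Helper56.PT
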