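import Pool.Agent.Helper56.PT.Calc

namespace Pool.Agent.Helper56.PT

open Dat

variable {O : List Bool → Bool}

/-- tags -/
def tag : ℕ → Dat
  | 0 => leaf
  | n + 1 => node leaf (tag n)

/-- the tree of a program -/
def code : Prog → Dat
  | Prog.id => node (tag 0) leaf
  | Prog.nil => node (tag 1) leaf
  | Prog.hd => node (tag 2) leaf
  | Prog.tl => node (tag 3) leaf
  | Prog.comp p q => node (tag 4) (node (code p) (code q))
  | Prog.pair p q => node (tag 5) (node (code p) (code q))
  | Prog.ite p q r => node (tag 6) (node (code p) (node (code q) (code r)))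
  | Prog.loop p => node (tag 7) (code p)
  | Prog.query => node (tag 11) leaf

/-- One step of the interpreter on a configuration `node K (node X S)`: `K` is the list of
instructions, `X` the current value, `S` the stack. -/
def stepT (O : List Bool → Bool) (x : Dat) : Dat :=
  sel x.hd
    (sel x.hd.hd.hd
      (sel x.hd.hd.hd.tl
        (sel x.hd.hd.hd.tl.tl
          (sel x.hd.hd.hd.tl.tl.tl
            (sel x.hd.hd.hd.tl.tl.tl.tl
              (sel x.hd.hd.hd.tl.tl.tl.tl.tl
                (sel x.hd.hd.hd.tl.tl.tl.tl.tl.tl
                  (sel x.hd.hd.hd.tl.tl.tl.tl.tl.tl.tl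
                    (sel x.hd.hd.hd.tl.tl.tl.tl.tl.tl.tl.tl
                      (sel x.hd.hd.hd.tl.tl.tl.tl.tl.tl.tl.tl.tl
                        (sel x.hd.hd.hd.tl.tl.tl.tl.tl.tl.tl.tl.tl.tl
                          -- 11: query
                          (node x.hd.tl (node (bit (O (bitsOf x.tl.hd))) x.tl.tl))
                          -- 10: cons
                          (node x.hd.tl (node (node x.tl.tl.hd x.tl.hd) x.tl.tl.tl)))
                        -- 9: branch
                        (sel x.tl.hd
                          (node (node x.hd.hd.tl.hd x.hd.tl) (node x.tl.tl.hd x.tl.tl.tl))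
                          (node (node x.hd.hd.tl.tl x.hd.tl) (node x.tl.tl.hd x.tl.tl.tl))))
                      -- 8: swap
                      (node x.hd.tl (node x.tl.tl.hd (node x.tl.hd x.tl.tl.tl))))
                    -- 7: loop
                    (sel x.tl.hd.hd
                      (node (node x.hd.hd.tl x.hd) x.tl)
                      (node x.hd.tl x.tl)))
                  -- 6: ite
                  (node (node x.hd.hd.tl.hd (node (node (tag 9) x.hd.hd.tl.tl) x.hd.tl))
                    (node x.tl.hd (node x.tl.hd x.tl.tl))))
                -- 5: pair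
                (node (node x.hd.hd.tl.hd (node (node (tag 8) leaf)
                  (node x.hd.hd.tl.tl (node (node (tag 10) leaf) x.hd.tl))))
                    (node x.tl.hd (node x.tl.hd x.tl.tl))))
              -- 4: comp
              (node (node x.hd.hd.tl.hd (node x.hd.hd.tl.tl x.hd.tl)) x.tl))
            -- 3: tl
            (node x.hd.tl (node x.tl.hd.tl x.tl.tl)))
          -- 2: hd
          (node x.hd.tl (node x.tl.hd.hd x.tl.tl)))
        -- 1: nil
        (node x.hd.tl (node leaf x.tl.tl)))
      -- 0: id
      (node x.hd.tl x.tl))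
    x

theorem LFc.stepT : LFc O (stepT O) := by
  unfold PT.stepT
  repeat' first
    | exact LFc.id
    | exact LFc.const _
    | apply LFc.sel
    | apply LFc.node
    | apply LFc.hd
    | apply LFc.tl
    | apply LFc.query

theorem step_id (K X S : Dat) :
    stepT O (node (node (code Prog.id) K) (node X S)) = node K (node X S) := rfl

theorem step_nil (K X S : Dat) :
    stepT O (node (node (code Prog.nil) K) (node X S)) = node K (node leaf S) := rfl

theorem step_hd (K X S : Dat) :
    stepT O (node (node (code Prog.hd) K) (node X S)) = node K (node X.hd S) := rfl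

theorem step_tl (K X S : Dat) :
    stepT O (node (node (code Prog.tl) K) (node X S)) = node K (node X.tl S) := rfl

theorem step_query (K X S : Dat) :
    stepT O (node (node (code Prog.query) K) (node X S)) =
      node K (node (bit (O (bitsOf X))) S) := rfl

theorem step_comp (p q : Prog) (K X S : Dat) :
    stepT O (node (node (code (Prog.comp p q)) K) (node X S)) =
      node (node (code p) (node (code q) K)) (node X S) := rfl

theorem step_pair (p q : Prog) (K X S : Dat) :
    stepT O (node (node (code (Prog.pair p q)) K) (node X S)) =
      node (node (code p) (node (node (tag 8) leaf) (node (code q) (node (node (tag 10) leaf) K))))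
        (node X (node X S)) := rfl

theorem step_ite (p q r : Prog) (K X S : Dat) :
    stepT O (node (node (code (Prog.ite p q r)) K) (node X S)) =
      node (node (code p) (node (node (tag 9) (node (code q) (code r))) K))
        (node X (node X S)) := rfl

theorem step_loop_stop (p : Prog) (K X S : Dat) (h : X.hd = leaf) :
    stepT O (node (node (code (Prog.loop p)) K) (node X S)) = node K (node X S) := by
  show sel X.hd _ _ = _
  rw [h]
  rfl

theorem step_loop_step (p : Prog) (K X S : Dat) (h : X.hd ≠ leaf) :
    stepT O (node (node (code (Prog.loop p)) K) (node X S)) =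
      node (node (code p) (node (code (Prog.loop p)) K)) (node X S) := by
  show sel X.hd _ _ = _
  rw [sel_of_ne h]
  rfl

theorem step_swap (K X Y S : Dat) :
    stepT O (node (node (node (tag 8) leaf) K) (node X (node Y S))) = node K (node Y (node X S)) :=
  rfl

theorem step_cons (K X Y S : Dat) :
    stepT O (node (node (node (tag 10) leaf) K) (node X (node Y S))) = node K (node (node Y X) S) :=
  rfl

theorem step_br_true (q r K a b Y S : Dat) :
    stepT O (node (node (node (tag 9) (node q r)) K) (node (node a b) (node Y S))) =
      node (node q K) (node Y S) := rfl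

theorem step_br_false (q r K Y S : Dat) :
    stepT O (node (node (node (tag 9) (node q r)) K) (node leaf (node Y S))) =
      node (node r K) (node Y S) := rfl

theorem step_halt (z : Dat) : stepT O (node leaf z) = node leaf z := rfl

theorem iter_halt (z : Dat) (m : ℕ) : (stepT O)^[m] (node leaf z) = node leaf z := by
  induction m with
  | zero => rfl
  | succ m ih => rw [Function.iterate_succ_apply, step_halt, ih]

/-- The interpreter simulates every run. -/
theorem sim {p : Prog} {x y : Dat} {n : ℕ} (h : Run O p x y n) : ∀ K S : Dat,
    ∃ m ≤ 3 * n, (stepT O)^[m] (node (node (code p) K) (node x S)) = node K (node y S) := by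
  induction h with
  | id x => exact fun K S => ⟨1, by omega, step_id (O := O) K x S⟩
  | nil x => exact fun K S => ⟨1, by omega, step_nil (O := O) K x S⟩
  | hd x => exact fun K S => ⟨1, by omega, step_hd (O := O) K x S⟩
  | tl x => exact fun K S => ⟨1, by omega, step_tl (O := O) K x S⟩
  | query x => exact fun K S => ⟨1, by omega, step_query (O := O) K x S⟩
  | @pair p q x y z m n _ _ ih1 ih2 =>
    intro K S
    obtain ⟨m1, h1, e1⟩ := ih1 (node (node (tag 8) leaf) (node (code q)
      (node (node (tag 10) leaf) K))) (node x S)
    obtain ⟨m2, h2, e2⟩ := ih2 (node (node (tag 10) leaf) K) (node y S)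
    refine ⟨1 + (m2 + (1 + (m1 + 1))), by omega, ?_⟩
    rw [Function.iterate_add_apply, Function.iterate_add_apply, Function.iterate_add_apply,
      Function.iterate_add_apply]
    simp only [Function.iterate_one]
    rw [step_pair, e1, step_swap, e2, step_cons]
  | @comp p q x y z m n _ _ ih1 ih2 =>
    intro K S
    obtain ⟨m1, h1, e1⟩ := ih1 (node (code q) K) S
    obtain ⟨m2, h2, e2⟩ := ih2 K S
    refine ⟨m2 + (m1 + 1), by omega, ?_⟩
    rw [Function.iterate_add_apply, Function.iterate_add_apply]
    simp only [Function.iterate_one]
    rw [step_comp, e1, e2]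
  | @iteTrue p q r x a b z m n _ _ ih1 ih2 =>
    intro K S
    obtain ⟨m1, h1, e1⟩ := ih1 (node (node (tag 9) (node (code q) (code r))) K) (node x S)
    obtain ⟨m2, h2, e2⟩ := ih2 K S
    refine ⟨m2 + (1 + (m1 + 1)), by omega, ?_⟩
    rw [Function.iterate_add_apply, Function.iterate_add_apply, Function.iterate_add_apply]
    simp only [Function.iterate_one]
    rw [step_ite, e1, step_br_true, e2]
  | @iteFalse p q r x z m n _ _ ih1 ih2 =>
    intro K S
    obtain ⟨m1, h1, e1⟩ := ih1 (node (node (tag 9) (node (code q) (code r))) K) (node x S)
    obtain ⟨m2, h2, e2⟩ := ih2 K S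
    refine ⟨m2 + (1 + (m1 + 1)), by omega, ?_⟩
    rw [Function.iterate_add_apply, Function.iterate_add_apply, Function.iterate_add_apply]
    simp only [Function.iterate_one]
    rw [step_ite, e1, step_br_false, e2]
  | @loopStop p x hx =>
    intro K S
    exact ⟨1, by omega, step_loop_stop (O := O) p K x S hx⟩
  | @loopStep p x y z m n hx _ _ ih1 ih2 =>
    intro K S
    obtain ⟨m1, h1, e1⟩ := ih1 (node (code (Prog.loop p)) K) S
    obtain ⟨m2, h2, e2⟩ := ih2 K S
    refine ⟨m2 + (m1 + 1), by omega, ?_⟩
    rw [Function.iterate_add_apply, Function.iterate_add_apply]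
    simp only [Function.iterate_one]
    rw [step_loop_step p K x S hx, e1, e2]

/-- the initial configuration of the interpreter -/
def ini (c x : Dat) : Dat := node (node c leaf) (node x leaf)

/-- the configuration after `m` steps -/
def simN (O : List Bool → Bool) (m : ℕ) (c x : Dat) : Dat := (stepT O)^[m] (ini c x)

theorem simN_of_run {p : Prog} {x y : Dat} {n m : ℕ} (h : RunLe O p x y n) (hm : 3 * n ≤ m) :
    simN O m (code p) x = node leaf (node y leaf) := by
  obtain ⟨c, hc, h⟩ := h
  obtain ⟨m1, h1, e1⟩ := sim h leaf leaf
  obtain ⟨d, rfl⟩ : ∃ d, m = d + m1 := ⟨m - m1, by omega⟩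
  rw [simN, Function.iterate_add_apply, ini, e1, iter_halt]

/-- once halted, always halted -/
theorem simN_halted {m m' : ℕ} {c x : Dat} (h : (simN O m c x).hd = leaf) (hm : m ≤ m') :
    simN O m' c x = simN O m c x := by
  obtain ⟨d, rfl⟩ : ∃ d, m' = d + m := ⟨m' - m, by omega⟩
  rw [simN, Function.iterate_add_apply, ← simN]
  generalize simN O m c x = z at h ⊢
  cases z with
  | leaf =>
    clear h hm
    induction d with
    | zero => rfl
    | succ d ih => rw [Function.iterate_succ_apply]; exact ih
  | node a b =>
    have : a = leaf := h
    subst this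
    exact iter_halt b d

/-- the clocked interpreter is computable in polynomial time -/
theorem Poly.simN {C P X : Dat → Dat} (hC : Poly O C) (hP : Poly O P) (hX : Poly O X) :
    Poly O (fun x => simN O (C x).spine (P x) (X x)) :=
  Poly.iterLF LFc.stepT hC ((hP.node (Poly.const leaf)).node (hX.node (Poly.const leaf)))

end Pool.Agent.Helper56.PT
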