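import Pool.Agent.Helper56.PT.Stg

set_option autoImplicit false

namespace Pool.Agent.Helper56.PT

open Dat

instance : Nonempty Prog := ⟨Prog.id⟩

/-- the limit of the construction -/
theorem exists_limit : ∃ δ : List Bool → Option Bool, Adm δ ∧
    (∀ (P : PD) (g : Prog) (e : ℕ), Req P g e (Om δ)) ∧
    ∀ (P : PD) (x : List Bool), BE δ (nP P) x → Dead P (Om δ) := by
  classical
  obtain ⟨en, hen⟩ := exists_surjective_nat (PD × Prog × ℕ)
  have hst : ∀ (s : ℕ) (D : {D : (List Bool → Option Bool) × ℕ // Good D.1 D.2}),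
      ∃ D' : {D : (List Bool → Option Bool) × ℕ // Good D.1 D.2}, D.1.2 < D'.1.2 ∧
        (∀ w : List Bool, w.length < D.1.2 → D'.1.1 w = D.1.1 w) ∧
        ∀ δ'' : List Bool → Option Bool, (∀ w : List Bool, w.length < D'.1.2 → δ'' w = D'.1.1 w) →
          Req (en s).1 (en s).2.1 (en s).2.2 (Om δ'') := by
    rintro s ⟨⟨δ, L⟩, hD⟩
    obtain ⟨δ', L', h1, h2, h3, h4⟩ := stage hD (en s).1 (en s).2.1 (en s).2.2
    exact ⟨⟨(δ', L'), h2⟩, h1, h3, h4⟩
  choose nx hnx1 hnx2 hnx3 using hst
  let sq : ℕ → {D : (List Bool → Option Bool) × ℕ // Good D.1 D.2} := fun s =>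
    Nat.rec ⟨(dflt, 0), good_dflt⟩ (fun s D => nx s D) s
  have hsq : ∀ s, sq (s + 1) = nx s (sq s) := fun s => rfl
  have hL1 : ∀ s, (sq s).1.2 < (sq (s + 1)).1.2 := fun s => by rw [hsq]; exact hnx1 s _
  have hmono : StrictMono (fun s => (sq s).1.2) := strictMono_nat_of_lt_succ hL1
  have hge : ∀ s, s ≤ (sq s).1.2 := fun s => hmono.id_le s
  have hagr : ∀ s d : ℕ, ∀ w : List Bool, w.length < (sq s).1.2 →
      (sq (s + d)).1.1 w = (sq s).1.1 w := by
    intro s d
    induction d with
    | zero => intro w _; rfl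
    | succ d ih =>
      intro w hw
      rw [← add_assoc, hsq, hnx2, ih w hw]
      exact lt_of_lt_of_le hw (hmono.monotone (Nat.le_add_right s d))
  have hagr' : ∀ s t : ℕ, s ≤ t → ∀ w : List Bool, w.length < (sq s).1.2 →
      (sq t).1.1 w = (sq s).1.1 w := by
    intro s t hst w hw
    obtain ⟨d, rfl⟩ := Nat.exists_eq_add_of_le hst
    exact hagr s d w hw
  set δ : List Bool → Option Bool := fun w => (sq (w.length + 1)).1.1 w with hδ
  have hlim : ∀ (s : ℕ) (w : List Bool), w.length < (sq s).1.2 → δ w = (sq s).1.1 w := by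
    intro s w hw
    rcases le_total s (w.length + 1) with h | h
    · exact hagr' s _ h w hw
    · refine (hagr' _ s h w ?_).symm
      exact lt_of_lt_of_le (Nat.lt_succ_self _) (hge _)
  refine ⟨δ, ⟨fun y => ?_, fun y => ?_, fun m x => ?_⟩, fun P g e => ?_, fun P x hB => ?_⟩
  · have h1 := (sq (bl kN y + 1)).2.1.adm.hN y
    rw [Pr_congr (Q := fun r => (sq (bl kN y + 1)).1.1 (st kN y r) = some false)]
    · exact h1
    · intro r hr
      have hlt : (st kN y r).length < (sq (bl kN y + 1)).1.2 := by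
        rw [length_st' hr]
        exact lt_of_lt_of_le (Nat.lt_succ_self _) (hge _)
      rw [hlim (bl kN y + 1) _ hlt]
  · have h1 := (sq (bl kP y + 1)).2.1.adm.hP y
    rw [Pr_congr (Q := fun r => (sq (bl kP y + 1)).1.1 (st kP y r) ≠ none)]
    · exact h1
    · intro r hr
      have hlt : (st kP y r).length < (sq (bl kP y + 1)).1.2 := by
        rw [length_st' hr]
        exact lt_of_lt_of_le (Nat.lt_succ_self _) (hge _)
      rw [hlim (bl kP y + 1) _ hlt]
  · set s := bl (kT m false) x + 1 with hs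
    have hb : ∀ (b : Bool) (r : List Bool), r.length = (x.length + 2) ^ 3 →
        (sq s).1.1 (st (kT m b) x r) = δ (st (kT m b) x r) := by
      intro b r hr
      refine (hlim s _ ?_).symm
      rw [length_st' hr]
      have h2 : bl (kT m b) x = bl (kT m false) x := by simp [bl, length_kT]
      rw [h2]
      exact lt_of_lt_of_le (Nat.lt_succ_self _) (hge _)
    rcases (sq s).2.1.adm.hT m x with h | h | h
    · exact Or.inl (DE_congr hb h)
    · exact Or.inr (Or.inl (DE_congr hb h))
    · exact Or.inr (Or.inr (BE_congr hb h))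
  · obtain ⟨s, hs⟩ := hen (P, g, e)
    have h1 := hnx3 s (sq s) δ (fun w hw => hlim (s + 1) w hw)
    rw [hs] at h1
    exact h1
  · set s := bl (kT (nP P) false) x + 1 with hs
    have hb : ∀ (b : Bool) (r : List Bool), r.length = (x.length + 2) ^ 3 →
        δ (st (kT (nP P) b) x r) = (sq s).1.1 (st (kT (nP P) b) x r) := by
      intro b r hr
      refine hlim s _ ?_
      rw [length_st' hr]
      have h2 : bl (kT (nP P) b) x = bl (kT (nP P) false) x := by simp [bl, length_kT]
      rw [h2]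
      exact lt_of_lt_of_le (Nat.lt_succ_self _) (hge _)
    exact (sq s).2.2 P x (BE_congr hb hB) δ (fun w hw => hlim s w hw)

/-! ### the classes relative to the oracle -/

/-- there is a set in `C` to which every set in `C` is reducible by a polynomial time many-one
reduction -/
def HasComplete (O : List Bool → Bool) (C : Set (List Bool) → Prop) : Prop :=
  ∃ A : Set (List Bool), C A ∧ ∀ B : Set (List Bool), C B →
    ∃ f : List Bool → List Bool, PolyFn O f ∧ ∀ x, x ∈ B ↔ f x ∈ A

theorem inR_iff {O : List Bool → Bool} {A : Set (List Bool)} :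
    InR O A ↔ ∃ (p : Prog) (k l : ℕ), Via O p k l A := Iff.rfl

theorem hasComplete_R {δ : List Bool → Option Bool} (hδ : Adm δ) :
    HasComplete (Om δ) (InR (Om δ)) := by
  refine ⟨{y | KN (Om δ) y}, ?_, ?_⟩
  · obtain ⟨p, l, hp, hacc⟩ := exists_query (Om δ) kN
    refine ⟨p, 3, l, hp, fun y => ⟨fun hy => ?_, fun hy => ?_⟩⟩
    · have hy' : KN (Om δ) y := hy
      have h1 : Pr ((y.length + 2) ^ 3) (Accepts (Om δ) p y) =
          Pr ((y.length + 2) ^ 3) (fun r => ¬ δ (st kN y r) = some false) := by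
        refine Pr_congr (fun r hr => ?_)
        rw [hacc y r hr, Om_N]
        exact ⟨fun h => h.2.2, fun h => ⟨hr, hy', h⟩⟩
      have h2 := Pr_add_not ((y.length + 2) ^ 3) (fun r => δ (st kN y r) = some false)
      have h3 := hδ.hN y
      rw [h1]
      linarith
    · refine Pr_false _ (fun r hr h => hy ?_)
      rw [hacc y r hr, Om_N] at h
      exact h.2.1
  · rintro B ⟨p, k, l, hp, hB⟩
    refine ⟨_, poly_inst (pn p) k l, fun x => ?_⟩
    have hV : Via (Om δ) p k l B := ⟨hp, hB⟩
    show x ∈ B ↔ KN (Om δ) (inst (pn p) x ((x.length + 2) ^ k) ((x.length + 2) ^ l))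
    rw [KN_inst]
    constructor
    · intro hx
      obtain ⟨r, hr, hacc⟩ := Pr_exists (lt_trans (by norm_num) ((hB x).1 hx))
      exact ⟨r, hr, acc_time hp hr hacc⟩
    · rintro ⟨r, hr, hacc⟩
      exact hV.mem hr hacc.accepts

theorem hasComplete_BPP {δ : List Bool → Option Bool} (hδ : Adm δ) :
    HasComplete (Om δ) (InBPP (Om δ)) := by
  refine ⟨{y | KP (Om δ) y}, ?_, ?_⟩
  · obtain ⟨p, l, hp, hacc⟩ := exists_query (Om δ) kP
    refine ⟨p, 3, l, 1 / 8, by norm_num, hp, fun y => ?_⟩
    have h1 : Pr ((y.length + 2) ^ 3) (fun r => ¬ δ (st kP y r) ≠ none) ≤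
        Pr ((y.length + 2) ^ 3) (fun r => Accepts (Om δ) p y r ↔ y ∈ {y | KP (Om δ) y}) := by
      refine Pr_mono (fun r hr h => ?_)
      rw [hacc y r hr, Om_P]
      rw [not_not] at h
      constructor
      · rintro ⟨_, h2 | h2⟩
        · rw [h] at h2; simp at h2
        · exact h2.2
      · intro h2
        exact ⟨hr, Or.inr ⟨h, h2⟩⟩
    have h2 := Pr_add_not ((y.length + 2) ^ 3) (fun r => δ (st kP y r) ≠ none)
    have h3 := hδ.hP y
    linarith
  · rintro B ⟨p, k, l, e, he, hp, hB⟩
    refine ⟨_, poly_inst (pn p) k l, fun x => ?_⟩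
    show x ∈ B ↔ KP (Om δ) (inst (pn p) x ((x.length + 2) ^ k) ((x.length + 2) ^ l))
    rw [KP_inst]
    have h1 : Pr ((x.length + 2) ^ k) (fun r => AccT (Om δ) p x r ((x.length + 2) ^ l)) =
        Pr ((x.length + 2) ^ k) (Accepts (Om δ) p x) :=
      Pr_congr (fun r hr => ⟨fun h => h.accepts, fun h => acc_time hp hr h⟩)
    rw [h1]
    have h2 := hB x
    by_cases hx : x ∈ B
    · have h3 : Pr ((x.length + 2) ^ k) (fun r => Accepts (Om δ) p x r ↔ x ∈ B) =
          Pr ((x.length + 2) ^ k) (Accepts (Om δ) p x) := Pr_congr (fun r _ => by simp [hx])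
      rw [h3] at h2
      simp only [hx, true_iff]
      linarith
    · have h3 : Pr ((x.length + 2) ^ k) (fun r => Accepts (Om δ) p x r ↔ x ∈ B) =
          Pr ((x.length + 2) ^ k) (fun r => ¬ Accepts (Om δ) p x r) :=
        Pr_congr (fun r _ => by simp [hx])
      rw [h3] at h2
      have h4 := Pr_add_not ((x.length + 2) ^ k) (Accepts (Om δ) p x)
      have h5 : Pr ((x.length + 2) ^ k) (fun r => ¬ Accepts (Om δ) p x r) =
        Pr ((x.length + 2) ^ k) (fun r => ¬ (Accepts (Om δ) p x) r) := rfl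
      simp only [hx, false_iff, not_lt]
      linarith

theorem not_hasComplete_ZPP {δ : List Bool → Option Bool} (hδ : Adm δ)
    (hreq : ∀ (P : PD) (g : Prog) (e : ℕ), Req P g e (Om δ))
    (hdead : ∀ (P : PD) (x : List Bool), BE δ (nP P) x → Dead P (Om δ)) :
    ¬ HasComplete (Om δ) (InZPP (Om δ)) := by
  rintro ⟨A, ⟨⟨p, k, l, hpA⟩, ⟨q, k', l', hqA⟩⟩, hcomp⟩
  set P : PD := (p, q, k, l, k', l') with hP
  have hV : ViaZ (Om δ) P A := ⟨hpA, hqA⟩
  have hDE : ∀ x, DE δ (nP P) x false ∨ DE δ (nP P) x true := by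
    intro x
    rcases hδ.hT (nP P) x with h | h | h
    · exact Or.inl h
    · exact Or.inr h
    · exact absurd hV (hdead P x h A)
  have hB : InZPP (Om δ) (BS (Om δ) (nP P)) := by
    constructor
    · obtain ⟨s, t, hs, hacc⟩ := exists_query (Om δ) (kT (nP P) true)
      refine ⟨s, 3, t, hs, fun x => ⟨fun hx => ?_, fun hx => ?_⟩⟩
      · rcases hDE x with h | h
        · exact absurd hx (not_mem_BS h)
        · have h1 : Pr ((x.length + 2) ^ 3) (Accepts (Om δ) s x) =
              Pr ((x.length + 2) ^ 3) (fun r => δ (st (kT (nP P) true) x r) = some true) := by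
            refine Pr_congr (fun r hr => ?_)
            rw [hacc x r hr, Om_T]
            exact ⟨fun h => h.2, fun h => ⟨hr, h⟩⟩
          rw [h1]
          exact h.1
      · refine Pr_false _ (fun r hr h => hx ⟨r, hr, ?_⟩)
        exact (hacc x r hr).1 h
    · obtain ⟨s, t, hs, hacc⟩ := exists_query (Om δ) (kT (nP P) false)
      refine ⟨s, 3, t, hs, fun x => ⟨fun hx => ?_, fun hx => ?_⟩⟩
      · rcases hDE x with h | h
        · have h1 : Pr ((x.length + 2) ^ 3) (Accepts (Om δ) s x) =
              Pr ((x.length + 2) ^ 3) (fun r => δ (st (kT (nP P) false) x r) = some true) := by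
            refine Pr_congr (fun r hr => ?_)
            rw [hacc x r hr, Om_T]
            exact ⟨fun h => h.2, fun h => ⟨hr, h⟩⟩
          rw [h1]
          exact h.1
        · exact absurd (mem_BS h) hx
      · rcases hDE x with h | h
        · exact absurd (not_mem_BS h) hx
        · refine Pr_false _ (fun r hr h1 => ?_)
          rw [hacc x r hr, Om_T] at h1
          exact h.2 r hr h1.2
  obtain ⟨f, ⟨g, e, hf⟩, hred⟩ := hcomp _ hB
  exact hreq P g e A f hV hf hred

/-- There is an oracle relative to which R and BPP have complete sets and ZPP has none. -/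
theorem exists_oracle : ∃ O : List Bool → Bool, HasComplete O (InR O) ∧ HasComplete O (InBPP O) ∧
    ¬ HasComplete O (InZPP O) := by
  obtain ⟨δ, h1, h2, h3⟩ := exists_limit
  exact ⟨Om δ, hasComplete_R h1, hasComplete_BPP h1, not_hasComplete_ZPP h1 h2 h3⟩

end Pool.Agent.Helper56.PT
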