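import Pool.Agent.Helper56.PT.BndExp

namespace Pool.Agent.Helper56.PT

open Dat

variable {O : List Bool → Bool}

/-! ### machine numbers -/

/-- number of a string -/
def idxR : List Bool → ℕ
  | [] => 0
  | b :: l => 2 * idxR l + 1 + b.toNat

/-- string of a number -/
def binL : ℕ → List Bool
  | 0 => []
  | n + 1 => (n % 2 == 1) :: binL (n / 2)
decreasing_by omega

theorem binL_idxR (l : List Bool) : binL (idxR l) = l := by
  induction l with
  | nil => simp [idxR, binL]
  | cons b l ih =>
    cases b
    · have : idxR (false :: l) = (2 * idxR l) + 1 := rfl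
      rw [this, binL, Nat.mul_div_cancel_left _ (by norm_num), ih]
      simp
    · have : idxR (true :: l) = (2 * idxR l + 1) + 1 := rfl
      rw [this, binL]
      have h2 : (2 * idxR l + 1) / 2 = idxR l := by omega
      have h3 : (2 * idxR l + 1) % 2 = 1 := by omega
      rw [h2, h3, ih]
      simp

/-- body of halving; state `node rem half` -/
def halB (x : Dat) : Dat :=
  sel x.hd.tl (node x.hd.tl.tl (node leaf x.tl)) x

theorem LFc.halB : LFc O halB := by
  unfold PT.halB
  repeat' first
    | exact LFc.id
    | exact LFc.const _
    | apply LFc.sel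
    | apply LFc.node
    | apply LFc.hd
    | apply LFc.tl

/-- the unary number `n` -/
def una : ℕ → Dat
  | 0 => leaf
  | n + 1 => node leaf (una n)

theorem spine_una (n : ℕ) : (una n).spine = n := by
  induction n with
  | zero => rfl
  | succ n ih => simp [una, spine, ih]

theorem enc_replicate (n : ℕ) : enc (List.replicate n false) = una n := by
  induction n with
  | zero => rfl
  | succ n ih => simp [List.replicate_succ, enc, bit, una, ih]

theorem halB_step (m h : ℕ) : halB (node (una (m + 2)) (una h)) = node (una m) (una (h + 1)) := rfl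

theorem halB_stop (m h : ℕ) (hm : m < 2) : halB (node (una m) (una h)) = node (una m) (una h) := by
  interval_cases m <;> rfl

theorem halB_iter : ∀ (c m h : ℕ), m / 2 ≤ c →
    halB^[c] (node (una m) (una h)) = node (una (m % 2)) (una (h + m / 2)) := by
  intro c
  induction c with
  | zero =>
    intro m h hc
    have h1 : m / 2 = 0 := by omega
    have h2 : m % 2 = m := by omega
    rw [h1, h2]
    rfl
  | succ c ih =>
    intro m h hc
    rw [Function.iterate_succ_apply]
    by_cases hm : m < 2
    · rw [halB_stop m h hm, ih m h (by omega)]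
    · obtain ⟨m', rfl⟩ : ∃ m', m = m' + 2 := ⟨m - 2, by omega⟩
      rw [halB_step, ih m' (h + 1) (by omega)]
      have h1 : (m' + 2) % 2 = m' % 2 := by omega
      have h2 : h + (m' + 2) / 2 = h + 1 + m' / 2 := by omega
      rw [h1, h2]

/-- halving -/
def halT (t : Dat) : Dat := halB^[t.spine] (node t leaf)

theorem halT_una (n : ℕ) : halT (una n) = node (una (n % 2)) (una (n / 2)) := by
  rw [halT, spine_una]
  have := halB_iter n n 0 (by omega)
  rw [Nat.zero_add] at this
  exact this

theorem Poly.halT {T : Dat → Dat} (hT : Poly O T) : Poly O (fun x => halT (T x)) :=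
  Poly.iterLF LFc.halB hT (hT.node (Poly.const leaf))

/-- body of the binary expansion; state `node rem acc` -/
def binB (x : Dat) : Dat :=
  sel x.hd (node (halT x.hd.tl).tl (node (sel (halT x.hd.tl).hd (node leaf leaf) leaf) x.tl)) x

theorem poly_binB : Poly O binB := by
  have h1 : Poly O (fun x => halT x.hd.tl) := Poly.halT Poly.id.hd.tl
  exact Poly.sel Poly.id.hd
    (h1.tl.node ((Poly.sel h1.hd (Poly.const _) (Poly.const _)).node Poly.id.tl)) Poly.id

theorem binB_succ (n : ℕ) (acc : List Bool) :
    binB (node (una (n + 1)) (enc acc)) = node (una (n / 2)) (enc ((n % 2 == 1) :: acc)) := by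
  have h : binB (node (una (n + 1)) (enc acc)) =
      node (halT (una n)).tl (node (sel (halT (una n)).hd (node leaf leaf) leaf) (enc acc)) := rfl
  rw [h, halT_una]
  have h2 : n % 2 = 0 ∨ n % 2 = 1 := by omega
  rcases h2 with h2 | h2 <;> rw [h2] <;> rfl

theorem binB_zero (acc : Dat) : binB (node (una 0) acc) = node (una 0) acc := rfl

theorem binB_iter : ∀ (c n : ℕ) (acc : List Bool), n ≤ c →
    binB^[c] (node (una n) (enc acc)) = node leaf (enc ((binL n).reverse ++ acc)) := by
  intro c
  induction c with
  | zero =>
    intro n acc hn
    have : n = 0 := by omega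
    subst this
    simp [binL, una]
  | succ c ih =>
    intro n acc hn
    rw [Function.iterate_succ_apply]
    cases n with
    | zero => rw [binB_zero, ih 0 acc (by omega)]
    | succ n =>
      rw [binB_succ, ih (n / 2) _ (by omega), binL]
      simp

/-- intermediate values of the binary expansion -/
theorem binB_iter' : ∀ (c n : ℕ) (acc : List Bool), ∃ (n' : ℕ) (acc' : List Bool),
    binB^[c] (node (una n) (enc acc)) = node (una n') (enc acc') ∧ n' ≤ n ∧
      acc'.length ≤ acc.length + c := by
  intro c
  induction c with
  | zero => intro n acc; exact ⟨n, acc, rfl, le_rfl, by omega⟩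
  | succ c ih =>
    intro n acc
    rw [Function.iterate_succ_apply]
    cases n with
    | zero =>
      rw [binB_zero]
      obtain ⟨n', acc', h1, h2, h3⟩ := ih 0 acc
      exact ⟨n', acc', h1, h2, by omega⟩
    | succ n =>
      rw [binB_succ]
      obtain ⟨n', acc', h1, h2, h3⟩ := ih (n / 2) ((n % 2 == 1) :: acc)
      exact ⟨n', acc', h1, by omega, by simp at h3; omega⟩

theorem depth_una (n : ℕ) : (una n).depth = n := by
  induction n with
  | zero => rfl
  | succ n ih => simp [una, depth, ih]

/-- binary expansion of the length of a list -/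
def binT (t : Dat) : Dat := (binB^[t.spine] (node (una t.spine) leaf)).tl

theorem binT_eq (t : Dat) : binT t = enc (binL t.spine).reverse := by
  have := binB_iter t.spine t.spine [] le_rfl
  rw [List.append_nil] at this
  rw [binT]
  show (binB^[t.spine] (node (una t.spine) (enc []))).tl = _
  rw [this]
  rfl

/-- the unary number of the length of a list -/
def unaT (t : Dat) : Dat := (fun a : Dat => node leaf a)^[t.spine] leaf

theorem unaT_eq (t : Dat) : unaT t = una t.spine := by
  have : ∀ m, (fun a : Dat => node leaf a)^[m] leaf = una m := by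
    intro m
    induction m with
    | zero => rfl
    | succ m ih => rw [Function.iterate_succ_apply', ih]; rfl
  exact this _

theorem poly_unaT {T : Dat → Dat} (hT : Poly O T) : Poly O (fun x => una (T x).spine) := by
  have h1 : LFc O (fun a : Dat => node leaf a) := LFc.node (LFc.const leaf) LFc.id
  have h2 : Poly O (fun x => unaT (T x)) := Poly.iterLF h1 hT (Poly.const leaf)
  have h3 : (fun x => unaT (T x)) = fun x => una (T x).spine := by
    funext x
    exact unaT_eq _
  rw [← h3]
  exact h2

theorem poly_binT {T : Dat → Dat} (hT : Poly O T) :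
    Poly O (fun x => enc (binL (T x).spine).reverse) := by
  obtain ⟨g, hg, hgd⟩ := hT.depth
  have h1 : Poly O (fun x => (binB^[(T x).spine] (node (una (T x).spine) leaf)).tl) := by
    refine (Poly.iter poly_binB hT ((poly_unaT hT).node (Poly.const leaf))
      (D := fun n => g n + g n + 2) ((hg.add hg).add (Pol.const 2)) ?_).tl
    intro x i hi
    obtain ⟨n', acc', h2, h3, h4⟩ := binB_iter' i (T x).spine []
    have h5 : (node (una (T x).spine) leaf : Dat) = node (una (T x).spine) (enc []) := rfl
    rw [h5, h2]
    simp only [depth, depth_una]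
    have h6 := depth_enc_le acc'
    have h7 := spine_le_depth (T x)
    have h8 := hgd x
    simp only [List.length_nil] at h4
    omega
  have h2 : (fun x => (binB^[(T x).spine] (node (una (T x).spine) leaf)).tl) =
      fun x => enc (binL (T x).spine).reverse := by
    funext x
    exact binT_eq (T x)
  rw [← h2]
  exact h1

/-- the tree with number `n` -/
def treeOf (n : ℕ) : Dat := decT (enc (binL n).reverse)

theorem treeOf_surj (t : Dat) : ∃ n, treeOf n = t := by
  refine ⟨idxR (post t).reverse, ?_⟩
  rw [treeOf, binL_idxR, List.reverse_reverse]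
  have := decT_post 0 t
  simpa using this

theorem poly_treeOf {T : Dat → Dat} (hT : Poly O T) : Poly O (fun x => treeOf (T x).spine) :=
  Poly.decT (poly_binT hT)

theorem poly_dropT {C T : Dat → Dat} (hC : Poly O C) (hT : Poly O T) :
    Poly O (fun x => dropT (C x).spine (T x)) :=
  Poly.iterLF LFc.tl' hC hT

theorem dropT_enc (m : ℕ) : ∀ l : List Bool, dropT m (enc l) = enc (l.drop m) := by
  induction m with
  | zero => intro l; rfl
  | succ m ih =>
    intro l
    rw [dropT, Function.iterate_succ_apply]
    cases l with
    | nil =>
      have := ih []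
      rw [List.drop_nil] at this ⊢
      exact this
    | cons b l => exact ih l

end Pool.Agent.Helper56.PT
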