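import Pool.Agent.Helper56.PT.Stn
import Pool.Agent.Helper56.PT.BndExp

set_option autoImplicit false

namespace Pool.Agent.Helper56.PT

open Dat

/-! ### countability -/

theorem code_injective : Function.Injective code := by
  intro p
  induction p with
  | id => intro q h; cases q <;> simp [code, tag] at h ⊢
  | nil => intro q h; cases q <;> simp [code, tag] at h ⊢
  | hd => intro q h; cases q <;> simp [code, tag] at h ⊢
  | tl => intro q h; cases q <;> simp [code, tag] at h ⊢
  | query => intro q h; cases q <;> simp [code, tag] at h ⊢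
  | pair p1 p2 ih1 ih2 =>
    intro q h
    cases q <;> simp [code, tag] at h ⊢
    exact ⟨ih1 h.1, ih2 h.2⟩
  | comp p1 p2 ih1 ih2 =>
    intro q h
    cases q <;> simp [code, tag] at h ⊢
    exact ⟨ih1 h.1, ih2 h.2⟩
  | ite p1 p2 p3 ih1 ih2 ih3 =>
    intro q h
    cases q <;> simp [code, tag] at h ⊢
    exact ⟨ih1 h.1, ih2 h.2.1, ih3 h.2.2⟩
  | loop p ih =>
    intro q h
    cases q <;> simp [code, tag] at h ⊢
    exact ih h

theorem post_injective : Function.Injective post := by
  intro a b h
  have h1 := decT_post 0 a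
  rw [h, decT_post] at h1
  exact h1.symm

instance : Countable Prog :=
  (post_injective.comp code_injective).countable

/-- numbers of programs -/
noncomputable def pn : Prog → ℕ := (Countable.exists_injective_nat Prog).choose

theorem pn_injective : Function.Injective pn := (Countable.exists_injective_nat Prog).choose_spec

/-! ### the coded sets -/

/-- `p` accepts `x` with the random string `r` within `T` steps -/
def AccT (O : List Bool → Bool) (p : Prog) (x r : List Bool) (T : ℕ) : Prop :=
  ∃ (a b : Dat) (n : ℕ), n ≤ T ∧ Run O p (node (enc x) (enc r)) (node a b) n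

theorem depth_pair_le (x r : List Bool) :
    (node (enc x) (enc r)).depth ≤ max x.length r.length + 2 := by
  have h1 := depth_enc_le x
  have h2 := depth_enc_le r
  simp only [depth]
  omega

theorem AccT.support {O : List Bool → Bool} {p : Prog} {x r : List Bool} {T : ℕ}
    (h : AccT O p x r T) : ∃ Q : Finset (List Bool), Q.card ≤ T ∧
      (∀ q ∈ Q, q.length ≤ max x.length r.length + 2 + T) ∧
      ∀ O' : List Bool → Bool, (∀ q ∈ Q, O' q = O q) → AccT O' p x r T := by
  obtain ⟨a, b, n, hn, h⟩ := h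
  obtain ⟨Q, h1, h2, h3⟩ := h.support
  refine ⟨Q, h1.trans hn, fun q hq => ?_, fun O' hO' => ⟨a, b, n, hn, h3 O' hO'⟩⟩
  have h4 := h2 q hq
  have h5 := depth_pair_le x r
  omega

theorem AccT_congr {O O' : List Bool → Bool} {p : Prog} {x r : List Bool} {T : ℕ}
    (h : ∀ v : List Bool, v.length ≤ max x.length r.length + 2 + T → O v = O' v) :
    AccT O p x r T ↔ AccT O' p x r T := by
  constructor
  · intro h1
    obtain ⟨Q, _, h2, h3⟩ := h1.support
    exact h3 O' (fun q hq => (h q (h2 q hq)).symm)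
  · intro h1
    obtain ⟨Q, _, h2, h3⟩ := h1.support
    exact h3 O (fun q hq => h q (h2 q hq))

/-- some random string accepts -/
def KN (O : List Bool → Bool) (y : List Bool) : Prop :=
  ∃ (p : Prog) (x : List Bool) (M T : ℕ), y = inst (pn p) x M T ∧
    ∃ r : List Bool, r.length = M ∧ AccT O p x r T

/-- more than half of the random strings accept -/
def KP (O : List Bool → Bool) (y : List Bool) : Prop :=
  ∃ (p : Prog) (x : List Bool) (M T : ℕ), y = inst (pn p) x M T ∧
    1 / 2 < Pr M (fun r => AccT O p x r T)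

theorem KN_inst {O : List Bool → Bool} {p : Prog} {x : List Bool} {M T : ℕ} :
    KN O (inst (pn p) x M T) ↔ ∃ r : List Bool, r.length = M ∧ AccT O p x r T := by
  constructor
  · rintro ⟨p', x', M', T', h, r, hr, hacc⟩
    obtain ⟨h1, rfl, rfl, rfl⟩ := inst_inj h
    rw [pn_injective h1]
    exact ⟨r, hr, hacc⟩
  · intro h
    exact ⟨p, x, M, T, rfl, h⟩

theorem KP_inst {O : List Bool → Bool} {p : Prog} {x : List Bool} {M T : ℕ} :
    KP O (inst (pn p) x M T) ↔ 1 / 2 < Pr M (fun r => AccT O p x r T) := by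
  constructor
  · rintro ⟨p', x', M', T', h, h2⟩
    obtain ⟨h1, rfl, rfl, rfl⟩ := inst_inj h
    rw [pn_injective h1]
    exact h2
  · intro h
    exact ⟨p, x, M, T, rfl, h⟩

theorem KN_imp {O O' : List Bool → Bool} {y : List Bool}
    (h : ∀ v : List Bool, v.length ≤ y.length → O v = O' v) (hk : KN O y) : KN O' y := by
  obtain ⟨p, x, M, T, rfl, r, hr, hacc⟩ := hk
  rw [length_inst] at h
  refine ⟨p, x, M, T, rfl, r, hr, ?_⟩
  rwa [← AccT_congr (O := O)]
  intro v hv
  exact h v (by omega)

theorem KN_congr {O O' : List Bool → Bool} {y : List Bool}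
    (h : ∀ v : List Bool, v.length ≤ y.length → O v = O' v) : KN O y ↔ KN O' y :=
  ⟨KN_imp h, KN_imp (fun v hv => (h v hv).symm)⟩

theorem KP_imp {O O' : List Bool → Bool} {y : List Bool}
    (h : ∀ v : List Bool, v.length ≤ y.length → O v = O' v) (hk : KP O y) : KP O' y := by
  obtain ⟨p, x, M, T, rfl, h2⟩ := hk
  rw [length_inst] at h
  refine ⟨p, x, M, T, rfl, ?_⟩
  have h3 : Pr M (fun r => AccT O p x r T) = Pr M (fun r => AccT O' p x r T) :=
    Pr_congr (fun r hr => AccT_congr (fun v hv => h v (by omega)))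
  rw [← h3]
  exact h2

theorem KP_congr {O O' : List Bool → Bool} {y : List Bool}
    (h : ∀ v : List Bool, v.length ≤ y.length → O v = O' v) : KP O y ↔ KP O' y :=
  ⟨KP_imp h, KP_imp (fun v hv => (h v hv).symm)⟩

/-! ### the oracle of a family of forced values -/

/-- kind of the strings that code `KN` -/
def kN : List Bool := [true, true]

/-- kind of the strings that code `KP` -/
def kP : List Bool := [true, false]

/-- kinds of the free strings -/
def kT (n : ℕ) (b : Bool) : List Bool := false :: b :: List.replicate n false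

/-- The rule of the oracle: `δ` holds the free values and the forced values of coding strings. -/
def Rule (δ : List Bool → Option Bool) (O : List Bool → Bool) (w : List Bool) : Prop :=
  (∃ y r : List Bool, w = st kN y r ∧ r.length = (y.length + 2) ^ 3 ∧ KN O y ∧ δ w ≠ some false) ∨
  (∃ y r : List Bool, w = st kP y r ∧ r.length = (y.length + 2) ^ 3 ∧
    (δ w = some true ∨ (δ w = none ∧ KP O y))) ∨
  (∃ (n : ℕ) (b : Bool) (y r : List Bool), w = st (kT n b) y r ∧ r.length = (y.length + 2) ^ 3 ∧
    δ w = some true)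

theorem Rule_imp {δ δ' : List Bool → Option Bool} {O O' : List Bool → Bool} {w : List Bool}
    (hδ : δ w = δ' w) (h : ∀ v : List Bool, v.length < w.length → O v = O' v)
    (hr : Rule δ O w) : Rule δ' O' w := by
  rcases hr with ⟨y, r, hw, hr, h1, h2⟩ | ⟨y, r, hw, hr, h1⟩ | ⟨n, b, y, r, hw, hr, h1⟩
  · have hy : y.length < w.length := by rw [hw, length_st]; omega
    refine Or.inl ⟨y, r, hw, hr, KN_imp (fun v hv => h v (by omega)) h1, ?_⟩
    rw [← hδ]
    exact h2
  · have hy : y.length < w.length := by rw [hw, length_st]; omega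
    refine Or.inr (Or.inl ⟨y, r, hw, hr, ?_⟩)
    rw [← hδ]
    rcases h1 with h1 | ⟨h1, h2⟩
    · exact Or.inl h1
    · exact Or.inr ⟨h1, KP_imp (fun v hv => h v (by omega)) h2⟩
  · refine Or.inr (Or.inr ⟨n, b, y, r, hw, hr, ?_⟩)
    rw [← hδ]
    exact h1

open Classical in
/-- the oracle of `δ` -/
noncomputable def Om (δ : List Bool → Option Bool) (w : List Bool) : Bool :=
  decide (Rule δ (fun v => if _ : v.length < w.length then Om δ v else false) w)
termination_by w.length

open Classical in
theorem Om_iff (δ : List Bool → Option Bool) (w : List Bool) :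
    Om δ w = true ↔ Rule δ (Om δ) w := by
  rw [Om, decide_eq_true_eq]
  constructor
  · exact Rule_imp rfl (fun v hv => by rw [dif_pos hv])
  · exact Rule_imp rfl (fun v hv => by rw [dif_pos hv])

theorem Om_congr {δ δ' : List Bool → Option Bool} {L : ℕ}
    (h : ∀ w : List Bool, w.length < L → δ w = δ' w) :
    ∀ (n : ℕ) (w : List Bool), w.length = n → w.length < L → Om δ w = Om δ' w := by
  intro n
  induction n using Nat.strong_induction_on with
  | _ n ih =>
    intro w hw hL
    rw [Bool.eq_iff_iff, Om_iff, Om_iff]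
    have h1 : ∀ v : List Bool, v.length < w.length → Om δ v = Om δ' v := fun v hv =>
      ih v.length (by omega) v rfl (by omega)
    exact ⟨Rule_imp (h w hL) h1, Rule_imp (h w hL).symm (fun v hv => (h1 v hv).symm)⟩

theorem kN_ne_kP : kN ≠ kP := by simp [kN, kP]

theorem kN_ne_kT (n : ℕ) (b : Bool) : kN ≠ kT n b := by simp [kN, kT]

theorem kP_ne_kT (n : ℕ) (b : Bool) : kP ≠ kT n b := by simp [kP, kT]

theorem kT_inj {n n' : ℕ} {b b' : Bool} (h : kT n b = kT n' b') : n = n' ∧ b = b' := by
  simp only [kT, List.cons.injEq, true_and] at h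
  have := congrArg List.length h.2
  simp only [List.length_replicate] at this
  exact ⟨this, h.1⟩

theorem Om_N (δ : List Bool → Option Bool) (y r : List Bool) : Om δ (st kN y r) = true ↔
    r.length = (y.length + 2) ^ 3 ∧ KN (Om δ) y ∧ δ (st kN y r) ≠ some false := by
  rw [Om_iff]
  constructor
  · rintro (⟨y', r', hw, hr, h1, h2⟩ | ⟨y', r', hw, hr, h1⟩ | ⟨n, b, y', r', hw, hr, h1⟩)
    · obtain ⟨_, rfl, rfl⟩ := st_inj hw
      exact ⟨hr, h1, h2⟩
    · exact absurd (st_inj hw).1 kN_ne_kP
    · exact absurd (st_inj hw).1 (kN_ne_kT n b)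
  · rintro ⟨h1, h2, h3⟩
    exact Or.inl ⟨y, r, rfl, h1, h2, h3⟩

theorem Om_P (δ : List Bool → Option Bool) (y r : List Bool) : Om δ (st kP y r) = true ↔
    r.length = (y.length + 2) ^ 3 ∧
      (δ (st kP y r) = some true ∨ (δ (st kP y r) = none ∧ KP (Om δ) y)) := by
  rw [Om_iff]
  constructor
  · rintro (⟨y', r', hw, hr, h1, h2⟩ | ⟨y', r', hw, hr, h1⟩ | ⟨n, b, y', r', hw, hr, h1⟩)
    · exact absurd (st_inj hw).1.symm kN_ne_kP
    · obtain ⟨_, rfl, rfl⟩ := st_inj hw
      exact ⟨hr, h1⟩
    · exact absurd (st_inj hw).1 (kP_ne_kT n b)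
  · rintro ⟨h1, h2⟩
    exact Or.inr (Or.inl ⟨y, r, rfl, h1, h2⟩)

theorem Om_T (δ : List Bool → Option Bool) (n : ℕ) (b : Bool) (y r : List Bool) :
    Om δ (st (kT n b) y r) = true ↔
      r.length = (y.length + 2) ^ 3 ∧ δ (st (kT n b) y r) = some true := by
  rw [Om_iff]
  constructor
  · rintro (⟨y', r', hw, hr, h1, h2⟩ | ⟨y', r', hw, hr, h1⟩ | ⟨n', b', y', r', hw, hr, h1⟩)
    · exact absurd (st_inj hw).1.symm (kN_ne_kT n b)
    · exact absurd (st_inj hw).1.symm (kP_ne_kT n b)
    · obtain ⟨h2, rfl, rfl⟩ := st_inj hw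
      exact ⟨hr, h1⟩
  · rintro ⟨h1, h2⟩
    exact Or.inr (Or.inr ⟨n, b, y, r, rfl, h1, h2⟩)

end Pool.Agent.Helper56.PT
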