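import Pool.Agent.Helper56.PT.Adm

set_option autoImplicit false

namespace Pool.Agent.Helper56.PT

open Dat

/-- polynomials are smaller than `2 ^ (n / 2) / 4` for arbitrarily large `n` -/
theorem exists_big {g : ℕ → ℕ} (hg : Pol g) (L : ℕ) : ∃ n, L ≤ n ∧ 4 * g n < 2 ^ (n / 2) := by
  obtain ⟨k, hk⟩ := hg
  have h := tendsto_pow_const_div_const_pow_of_one_lt k (r := (2 : ℝ)) (by norm_num)
  have h1 : ∀ᶠ j : ℕ in Filter.atTop, ((j : ℝ) ^ k / 2 ^ j) < 1 / (8 * 2 ^ k) :=
    h.eventually (gt_mem_nhds (by positivity))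
  obtain ⟨j, hj1, hj2⟩ := (h1.and (Filter.eventually_ge_atTop (L + 1))).exists
  refine ⟨2 * (j - 1), by omega, ?_⟩
  have h2 : 2 * (j - 1) / 2 = j - 1 := by omega
  rw [h2]
  have h3 := hk (2 * (j - 1))
  have h4 : 2 * (j - 1) + 2 = 2 * j := by omega
  rw [h4] at h3
  have h5 : (j : ℝ) ^ k * (8 * 2 ^ k) < 2 ^ j := by
    rw [div_lt_div_iff₀ (by positivity) (by positivity), one_mul] at hj1
    exact hj1
  have h6 : j ^ k * (8 * 2 ^ k) < 2 ^ j := by exact_mod_cast h5
  have h7 : 2 ^ j = 2 * 2 ^ (j - 1) := by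
    rw [← pow_succ']
    congr 1
    omega
  have h8 : (2 * j) ^ k = 2 ^ k * j ^ k := mul_pow _ _ _
  rw [h8] at h3
  rw [h7] at h6
  nlinarith

/-! ### requirements -/

/-- the machine `(p, k, l)` shows that `A` is in `R` -/
def Via (O : List Bool → Bool) (p : Prog) (k l : ℕ) (A : Set (List Bool)) : Prop :=
  TimeBd O p k l ∧ ∀ x : List Bool,
    (x ∈ A → 1 / 2 < Pr ((x.length + 2) ^ k) (Accepts O p x)) ∧
    (x ∉ A → Pr ((x.length + 2) ^ k) (Accepts O p x) = 0)

theorem acc_time {O : List Bool → Bool} {p : Prog} {k l : ℕ} (h : TimeBd O p k l)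
    {z r : List Bool} (hr : r.length = (z.length + 2) ^ k) (ha : Accepts O p z r) :
    AccT O p z r ((z.length + 2) ^ l) := by
  obtain ⟨y, c, hc, hy⟩ := h z r hr
  obtain ⟨a, b, n, hn⟩ := ha
  obtain ⟨h1, _⟩ := hn.det hy
  subst h1
  exact ⟨a, b, c, hc, hy⟩

theorem AccT.accepts {O : List Bool → Bool} {p : Prog} {x r : List Bool} {T : ℕ}
    (h : AccT O p x r T) : Accepts O p x r := by
  obtain ⟨a, b, n, _, h⟩ := h
  exact ⟨a, b, n, h⟩

theorem Via.mem {O : List Bool → Bool} {p : Prog} {k l : ℕ} {A : Set (List Bool)}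
    (h : Via O p k l A) {z r : List Bool} (hr : r.length = (z.length + 2) ^ k)
    (ha : Accepts O p z r) : z ∈ A := by
  by_contra hz
  exact Pr_eq_zero ((h.2 z).2 hz) r hr ha

/-- pairs of machines with their exponents -/
abbrev PD : Type := Prog × Prog × ℕ × ℕ × ℕ × ℕ

/-- numbers of pairs -/
noncomputable def nP : PD → ℕ := (Countable.exists_injective_nat PD).choose

theorem nP_injective : Function.Injective nP := (Countable.exists_injective_nat PD).choose_spec

/-- `A` and its complement are in `R` by the pair `P` -/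
def ViaZ (O : List Bool → Bool) (P : PD) (A : Set (List Bool)) : Prop :=
  Via O P.1 P.2.2.1 P.2.2.2.1 A ∧ Via O P.2.1 P.2.2.2.2.1 P.2.2.2.2.2 Aᶜ

/-- the pair shows nothing -/
def Dead (P : PD) (O : List Bool → Bool) : Prop := ∀ A : Set (List Bool), ¬ ViaZ O P A

/-- the set of the indices whose block `1` is not empty -/
def BS (O : List Bool → Bool) (m : ℕ) : Set (List Bool) :=
  {x | ∃ r : List Bool, r.length = (x.length + 2) ^ 3 ∧ O (st (kT m true) x r) = true}

/-- the requirement -/
def Req (P : PD) (g : Prog) (e : ℕ) (O : List Bool → Bool) : Prop :=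
  ∀ (A : Set (List Bool)) (f : List Bool → List Bool), ViaZ O P A →
    (∀ x : List Bool, RunLe O g (enc x) (enc (f x)) ((x.length + 2) ^ e)) →
    ¬ ∀ x : List Bool, x ∈ BS O (nP P) ↔ f x ∈ A

/-- the invariant of the construction -/
def Good (δ : List Bool → Option Bool) (L : ℕ) : Prop :=
  State δ L ∧ ∀ (P : PD) (x : List Bool), BE δ (nP P) x →
    ∀ δ'' : List Bool → Option Bool, (∀ w : List Bool, w.length < L → δ'' w = δ w) →
      Dead P (Om δ'')

theorem good_dflt : Good dflt 0 :=
  ⟨⟨fun _ _ => rfl, adm_dflt⟩, fun _ _ hB => absurd hB (DE_default (fun _ _ _ => rfl)).not_BE⟩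

theorem mem_BS {δ : List Bool → Option Bool} {m : ℕ} {x : List Bool} (h : DE δ m x true) :
    x ∈ BS (Om δ) m := by
  obtain ⟨r, hr, h1⟩ := Pr_exists (lt_trans (by norm_num) h.1)
  exact ⟨r, hr, (Om_T δ m true x r).2 ⟨hr, h1⟩⟩

theorem not_mem_BS {δ : List Bool → Option Bool} {m : ℕ} {x : List Bool} (h : DE δ m x false) :
    x ∉ BS (Om δ) m := by
  rintro ⟨r, hr, h1⟩
  exact h.2 r hr ((Om_T δ m true x r).1 h1).2

theorem stage {δ : List Bool → Option Bool} {L : ℕ} (hG : Good δ L) (P : PD) (g : Prog) (e : ℕ) :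
    ∃ (δ' : List Bool → Option Bool) (L' : ℕ), L < L' ∧ Good δ' L' ∧
      (∀ w : List Bool, w.length < L → δ' w = δ w) ∧
      ∀ δ'' : List Bool → Option Bool, (∀ w : List Bool, w.length < L' → δ'' w = δ' w) →
        Req P g e (Om δ'') := by
  classical
  rcases hP : P with ⟨p, q, k, l, k', l'⟩
  rw [← hP]
  set W : ℕ → ℕ := fun n => n + 1 + (n + 2) ^ e with hW
  set cardB : ℕ → ℕ := fun n => 3 * (n + 2) ^ e + ((W n + 2) ^ l + (W n + 2) ^ l') with hcardB
  set lenB : ℕ → ℕ := fun n => (code g).depth + n + 3 + 60 * (n + 2) ^ e +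
    (W n + 2 + (W n + 2) ^ k + (W n + 2) ^ l) + (W n + 2 + (W n + 2) ^ k' + (W n + 2) ^ l')
    with hlenB
  have hpe : Pol (fun n => (n + 2) ^ e) := ⟨e, fun n => le_rfl⟩
  have hpW : Pol W := (Pol.id.add (Pol.const 1)).add hpe
  have hpW2 : Pol (fun n => W n + 2) := hpW.add (Pol.const 2)
  have hpc : Pol cardB := ((Pol.const 3).mul hpe).add ((hpW2.pow l).add (hpW2.pow l'))
  have hpl : Pol lenB := by
    refine Pol.add (Pol.add (Pol.add (Pol.add (Pol.add (Pol.const _) Pol.id) (Pol.const 3))
      ((Pol.const 60).mul hpe)) ?_) ?_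
    · exact (hpW2.add (hpW2.pow k)).add (hpW2.pow l)
    · exact (hpW2.add (hpW2.pow k')).add (hpW2.pow l')
  obtain ⟨n, hLn, hn⟩ := exists_big (hpc.mul (hpl.add (Pol.const 1))) L
  obtain ⟨x, hx⟩ : ∃ x : List Bool, x.length = n := ⟨List.replicate n true, by simp⟩
  set m := nP P with hm
  set O0 := Om (emp δ m x) with hO0
  have hSn : State δ x.length := hG.1.mono (by omega)
  set N0 := 2 * m + 4 + 2 * x.length + (x.length + 2) ^ 3 + 2 + lenB n + 1 with hN0
  obtain ⟨QG, hQG1, hQG2, hQG3⟩ := simN_support O0 (3 * (n + 2) ^ e) (code g) (enc x)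
  have hdx := depth_enc_le x
  have hQG2' : ∀ v ∈ QG, v.length ≤ lenB n := fun v hv => by
    have := hQG2 v hv
    simp only [hlenB]
    omega
  -- the reduction in the final oracle
  have hfx : ∀ δ'' : List Bool → Option Bool, (∀ v ∈ QG, Om δ'' v = O0 v) →
      ∀ f : List Bool → List Bool,
      (∀ x : List Bool, RunLe (Om δ'') g (enc x) (enc (f x)) ((x.length + 2) ^ e)) →
      simN O0 (3 * (n + 2) ^ e) (code g) (enc x) = node leaf (node (enc (f x)) leaf) ∧
        (f x).length ≤ W n := by
    intro δ'' hQ f hf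
    have h1 := hf x
    rw [hx] at h1
    refine ⟨?_, ?_⟩
    · rw [← hQG3 _ hQ]
      exact simN_of_run h1 le_rfl
    · have h2 := h1.depth_le
      have h3 := length_le_depth_enc (f x)
      simp only [hW]
      omega
  -- forcing
  have key : ∀ (Q : Finset (List Bool)) (b : Bool), Q.card ≤ cardB n →
      (∀ v ∈ Q, v.length ≤ lenB n) →
      (∀ δ'' : List Bool → Option Bool, (∀ v ∈ Q, Om δ'' v = O0 v) → DE δ'' m x b →
        Req P g e (Om δ'')) →
      ∃ (δ' : List Bool → Option Bool) (L' : ℕ), L < L' ∧ Good δ' L' ∧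
      (∀ w : List Bool, w.length < L → δ' w = δ w) ∧
      ∀ δ'' : List Bool → Option Bool, (∀ w : List Bool, w.length < L' → δ'' w = δ' w) →
        Req P g e (Om δ'') := by
    intro Q b hQc hQl hQ
    obtain ⟨C, hC1, hC2, hC3, hC4⟩ := exists_closed (emp δ m x) Q (lenB n) hQl
    have hCc : 4 * C.card < 2 ^ (x.length / 2) := by
      rw [hx]
      have h1 : Q.card * (lenB n + 1) ≤ cardB n * (lenB n + 1) := Nat.mul_le_mul_right _ hQc
      have h2 : 4 * (cardB n * (lenB n + 1)) < 2 ^ (n / 2) := hn
      omega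
    have hCN : ∀ w ∈ C, w.length < N0 := fun w hw => by have := hC4 w hw; omega
    obtain ⟨hS1, hS2, hS3⟩ := State.frc (m := m) (b := b) hSn hCc (N := N0) (by omega) hCN
    refine ⟨frc δ m x b C, N0, by omega, ⟨hS1, ?_⟩, fun w hw => frc_low (by omega), ?_⟩
    · intro P' x' hB δ'' hagr
      by_cases hne : nP P' = m ∧ x' = x
      · rw [hne.1, hne.2] at hB
        exact absurd hB hS2.not_BE
      · refine hG.2 P' x' (hS3 _ _ hne hB) δ'' (fun w hw => ?_)
        rw [hagr w (by omega), frc_low (by omega)]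
    · intro δ'' hagr
      refine hQ δ'' (fun v hv => ?_) ?_
      · exact frc_persist hC2 (N := N0) (by omega) hCN hagr _ v rfl (hC1 hv)
      · refine DE_congr (fun b' r hr => (hagr _ ?_).symm) hS2
        rw [(mem_isT (b := b') hr).length]
        omega
  by_cases hA : ∃ z : List Bool, z.length ≤ W n ∧
      simN O0 (3 * (n + 2) ^ e) (code g) (enc x) = node leaf (node (enc z) leaf)
  · obtain ⟨z, hzW, hz⟩ := hA
    have hfz : ∀ δ'' : List Bool → Option Bool, (∀ v ∈ QG, Om δ'' v = O0 v) →
        ∀ f : List Bool → List Bool,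
        (∀ x : List Bool, RunLe (Om δ'') g (enc x) (enc (f x)) ((x.length + 2) ^ e)) →
        f x = z := by
      intro δ'' hQ f hf
      have h1 := (hfx δ'' hQ f hf).1
      rw [hz] at h1
      simp only [Dat.node.injEq, true_and, and_true] at h1
      exact (enc_injective h1).symm
    have hzk : (z.length + 2) ^ k ≤ (W n + 2) ^ k := Nat.pow_le_pow_left (by omega) k
    have hzl : (z.length + 2) ^ l ≤ (W n + 2) ^ l := Nat.pow_le_pow_left (by omega) l
    have hzk' : (z.length + 2) ^ k' ≤ (W n + 2) ^ k' := Nat.pow_le_pow_left (by omega) k'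
    have hzl' : (z.length + 2) ^ l' ≤ (W n + 2) ^ l' := Nat.pow_le_pow_left (by omega) l'
    by_cases ha : ∃ r : List Bool, r.length = (z.length + 2) ^ k ∧
        AccT O0 p z r ((z.length + 2) ^ l)
    · obtain ⟨r, hr, hacc⟩ := ha
      obtain ⟨Q1, hq1, hq2, hq3⟩ := hacc.support
      refine key (QG ∪ Q1) false ?_ ?_ ?_
      · have := Finset.card_union_le QG Q1
        simp only [hcardB]
        omega
      · intro v hv
        rcases Finset.mem_union.1 hv with hv | hv
        · exact hQG2' v hv
        · have := hq2 v hv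
          simp only [hlenB]
          omega
      · intro δ'' hQ hDE A f hV hf hred
        have h1 := hfz δ'' (fun v hv => hQ v (Finset.mem_union_left _ hv)) f hf
        have h2 := (hq3 (Om δ'') (fun v hv => hQ v (Finset.mem_union_right _ hv))).accepts
        rw [hP] at hV
        have h3 : z ∈ A := hV.1.mem hr h2
        exact not_mem_BS hDE ((hred x).2 (h1 ▸ h3))
    · by_cases hb : ∃ r : List Bool, r.length = (z.length + 2) ^ k' ∧
        AccT O0 q z r ((z.length + 2) ^ l')
      · obtain ⟨r, hr, hacc⟩ := hb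
        obtain ⟨Q1, hq1, hq2, hq3⟩ := hacc.support
        refine key (QG ∪ Q1) true ?_ ?_ ?_
        · have := Finset.card_union_le QG Q1
          simp only [hcardB]
          omega
        · intro v hv
          rcases Finset.mem_union.1 hv with hv | hv
          · exact hQG2' v hv
          · have := hq2 v hv
            simp only [hlenB]
            omega
        · intro δ'' hQ hDE A f hV hf hred
          have h1 := hfz δ'' (fun v hv => hQ v (Finset.mem_union_left _ hv)) f hf
          have h2 := (hq3 (Om δ'') (fun v hv => hQ v (Finset.mem_union_right _ hv))).accepts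
          rw [hP] at hV
          have h3 : z ∈ Aᶜ := hV.2.mem hr h2
          have h4 := (hred x).1 (mem_BS hDE)
          rw [h1] at h4
          exact h3 h4
      · -- both blocks empty
        obtain ⟨hS1, hS2, hS3⟩ := State.emp hSn (m := m) (N := N0) (by omega)
        have hdead : ∀ δ'' : List Bool → Option Bool,
            (∀ w : List Bool, w.length < N0 → δ'' w = emp δ m x w) → Dead P (Om δ'') := by
          intro δ'' hagr A hV
          rw [hP] at hV
          have hOO : ∀ v : List Bool, v.length < N0 → Om δ'' v = O0 v := fun v hv =>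
            Om_congr hagr _ v rfl hv
          by_cases hzA : z ∈ A
          · obtain ⟨r, hr0, hacc⟩ := Pr_exists (lt_trans (by norm_num) ((hV.1.2 z).1 hzA))
            have hr : r.length = (z.length + 2) ^ k := hr0
            apply ha
            refine ⟨r, hr, ?_⟩
            rw [← AccT_congr (O := Om δ'')]
            · exact acc_time hV.1.1 hr hacc
            · intro v hv
              apply hOO
              simp only [hN0, hlenB]
              omega
          · obtain ⟨r, hr0, hacc⟩ := Pr_exists (lt_trans (by norm_num) ((hV.2.2 z).1 hzA))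
            have hr : r.length = (z.length + 2) ^ k' := hr0
            apply hb
            refine ⟨r, hr, ?_⟩
            rw [← AccT_congr (O := Om δ'')]
            · exact acc_time hV.2.1 hr hacc
            · intro v hv
              apply hOO
              simp only [hN0, hlenB]
              omega
        refine ⟨emp δ m x, N0, by omega, ⟨hS1, ?_⟩, fun w hw => emp_low (by omega), ?_⟩
        · intro P' x' hB δ'' hagr
          by_cases hne : nP P' = m ∧ x' = x
          · have : P' = P := nP_injective hne.1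
            rw [this]
            exact hdead δ'' hagr
          · refine hG.2 P' x' (hS3 _ _ hne hB) δ'' (fun w hw => ?_)
            rw [hagr w (by omega), emp_low (by omega)]
        · intro δ'' hagr A f hV _ _
          exact hdead δ'' hagr A hV
  · refine key QG false ?_ hQG2' ?_
    · simp only [hcardB]
      omega
    · intro δ'' hQ _ A f _ hf _
      obtain ⟨h1, h2⟩ := hfx δ'' hQ f hf
      exact hA ⟨f x, h2, h1⟩

end Pool.Agent.Helper56.PT
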