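import Pool.Agent.Helper56.PT.Sup
import Pool.Agent.Helper56.PT.Num

set_option autoImplicit false

namespace Pool.Agent.Helper56.PT

open Dat

/-! ### strings for the oracle constructions -/

theorem pair_inj {l R l' R' : List Bool} (h : dblr l ++ false :: R = dblr l' ++ false :: R') :
    l = l' ∧ R = R' := by
  have h1 := parse_eq l R
  rw [h, parse_eq] at h1
  simp only [Dat.node.injEq, true_and] at h1
  exact ⟨(enc_injective h1.2).symm, (enc_injective h1.1).symm⟩

/-- oracle strings: kind, index, position -/
def st (κ y r : List Bool) : List Bool := dblr κ ++ false :: (dblr y ++ false :: r)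

theorem st_inj {κ y r κ' y' r' : List Bool} (h : st κ y r = st κ' y' r') :
    κ = κ' ∧ y = y' ∧ r = r' := by
  obtain ⟨h1, h2⟩ := pair_inj h
  obtain ⟨h3, h4⟩ := pair_inj h2
  exact ⟨h1, h3, h4⟩

theorem length_st (κ y r : List Bool) :
    (st κ y r).length = 2 * κ.length + 2 * y.length + r.length + 2 := by
  simp only [st, List.length_append, List.length_cons, length_dblr]
  omega

/-- the instance: program number `n`, input `x`, `M` random bits, `T` steps -/
def inst (n : ℕ) (x : List Bool) (M T : ℕ) : List Bool :=
  dblr (List.replicate n false) ++ false :: (dblr x ++ false ::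
    (dblr (List.replicate M false) ++ false :: List.replicate T false))

theorem inst_inj {n M T n' M' T' : ℕ} {x x' : List Bool} (h : inst n x M T = inst n' x' M' T') :
    n = n' ∧ x = x' ∧ M = M' ∧ T = T' := by
  obtain ⟨h1, h2⟩ := pair_inj h
  obtain ⟨h3, h4⟩ := pair_inj h2
  obtain ⟨h5, h6⟩ := pair_inj h4
  have e1 := congrArg List.length h1
  have e2 := congrArg List.length h5
  have e3 := congrArg List.length h6
  simp only [List.length_replicate] at e1 e2 e3
  exact ⟨e1, h3, e2, e3⟩

theorem length_inst (n : ℕ) (x : List Bool) (M T : ℕ) :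
    (inst n x M T).length = 2 * n + 2 * x.length + 2 * M + T + 3 := by
  simp only [inst, List.length_append, List.length_cons, length_dblr, List.length_replicate]
  omega

variable {O : List Bool → Bool}

theorem poly_inst (n k l : ℕ) :
    PolyFn O (fun x => inst n x ((x.length + 2) ^ k) ((x.length + 2) ^ l)) := by
  apply PolyFn.of_poly
  have h1 : Poly O (fun t => rebT (una n) (node leaf (rebT (canonT t) (node leaf
      (rebT (una (powT k t).spine) (node leaf (una (powT l t).spine))))))) :=
    Poly.rebT (Poly.const _) ((Poly.const _).node (Poly.rebT (Poly.canonT Poly.id)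
      ((Poly.const _).node (Poly.rebT (poly_unaT (Poly.powT k Poly.id))
        ((Poly.const _).node (poly_unaT (Poly.powT l Poly.id)))))))
  have h2 : (fun t => enc (inst n (bitsOf t) (((bitsOf t).length + 2) ^ k)
      (((bitsOf t).length + 2) ^ l))) = fun t => rebT (una n) (node leaf (rebT (canonT t) (node leaf
      (rebT (una (powT k t).spine) (node leaf (una (powT l t).spine)))))) := by
    funext t
    rw [spine_powT, spine_powT, spine_eq_length, canonT_eq, ← enc_replicate, ← enc_replicate,
      ← enc_replicate]
    have e1 : ∀ R : List Bool, node leaf (enc R) = enc (false :: R) := fun _ => rfl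
    rw [e1, rebT_eq, e1, rebT_eq, e1, rebT_eq]
    rfl
  rw [h2]
  exact h1

/-- the machine that asks the oracle about the string with kind `κ`, the input and the random
string -/
theorem exists_query (O : List Bool → Bool) (κ : List Bool) : ∃ (p : Prog) (l : ℕ),
    TimeBd O p 3 l ∧ ∀ y r : List Bool, r.length = (y.length + 2) ^ 3 →
      (Accepts O p y r ↔ O (st κ y r) = true) := by
  have h1 : Poly O (fun x => rebT (enc κ) (node leaf (rebT x.hd (node leaf x.tl)))) :=
    Poly.rebT (Poly.const _) ((Poly.const _).node (Poly.rebT Poly.id.hd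
      ((Poly.const _).node Poly.id.tl)))
  have h2 : Poly O (fun x => bit (O (bitsOf x))) := Poly.of_LFc (LFc.query LFc.id)
  obtain ⟨p, k, hp⟩ := Poly.comp h1 h2
  have hrun : ∀ y r : List Bool, RunLe O p (node (enc y) (enc r)) (bit (O (st κ y r)))
      (((node (enc y) (enc r)).depth + 2) ^ k) := by
    intro y r
    have h3 := hp (node (enc y) (enc r))
    have e1 : ∀ R : List Bool, node leaf (enc R) = enc (false :: R) := fun _ => rfl
    simp only [Dat.hd, Dat.tl] at h3
    rw [e1, rebT_eq, e1, rebT_eq, bitsOf_enc] at h3
    exact h3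
  obtain ⟨l, hl⟩ : Pol (fun n => ((n + 2) ^ 3 + 4) ^ k) :=
    (Pol.add ⟨3, fun n => le_rfl⟩ (Pol.const 4)).pow k
  refine ⟨p, l, fun y r hr => ⟨_, (hrun y r).mono (le_trans ?_ (hl y.length))⟩, fun y r hr => ?_⟩
  · refine Nat.pow_le_pow_left ?_ k
    simp only [depth]
    have h3 := depth_enc_le y
    have h4 := depth_enc_le r
    have h5 : y.length + 2 ≤ (y.length + 2) ^ 3 := Nat.le_self_pow (by norm_num) _
    omega
  · obtain ⟨c, _, hc⟩ := hrun y r
    constructor
    · rintro ⟨a, b, n, h⟩
      have h3 := (hc.det h).1
      cases ho : O (st κ y r) with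
      | true => rfl
      | false => rw [ho] at h3; simp [bit] at h3
    · intro ho
      rw [ho] at hc
      exact ⟨leaf, leaf, c, hc⟩

end Pool.Agent.Helper56.PT
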