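import Pool.Agent.Helper56.PT.Cls
import Pool.Agent.Helper56.PT.Interp

set_option autoImplicit false

namespace Pool.Agent.Helper56.PT

open Dat

variable {O : List Bool → Bool}

theorem length_bitsOf_le (x : Dat) : (bitsOf x).length ≤ x.depth := by
  rw [← spine_eq_length]; exact spine_le_depth x

/-- A run depends on few and short oracle queries. -/
theorem Run.support {p : Prog} {x y : Dat} {n : ℕ} (h : Run O p x y n) :
    ∃ Q : Finset (List Bool), Q.card ≤ n ∧ (∀ q ∈ Q, q.length ≤ x.depth + n) ∧
      ∀ O' : List Bool → Bool, (∀ q ∈ Q, O' q = O q) → Run O' p x y n := by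
  classical
  induction h with
  | id x => exact ⟨∅, by simp, by simp, fun O' _ => Run.id x⟩
  | nil x => exact ⟨∅, by simp, by simp, fun O' _ => Run.nil x⟩
  | hd x => exact ⟨∅, by simp, by simp, fun O' _ => Run.hd x⟩
  | tl x => exact ⟨∅, by simp, by simp, fun O' _ => Run.tl x⟩
  | query x =>
    refine ⟨{bitsOf x}, by simp, ?_, ?_⟩
    · intro q hq
      rw [Finset.mem_singleton] at hq
      subst hq
      have := length_bitsOf_le x
      omega
    · intro O' hO'
      rw [← hO' _ (Finset.mem_singleton_self _)]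
      exact Run.query x
  | pair h1 h2 ih1 ih2 =>
    obtain ⟨Q1, c1, l1, s1⟩ := ih1
    obtain ⟨Q2, c2, l2, s2⟩ := ih2
    refine ⟨Q1 ∪ Q2, ?_, ?_, ?_⟩
    · have := Finset.card_union_le Q1 Q2; omega
    · intro q hq
      rcases Finset.mem_union.1 hq with hq | hq
      · have := l1 q hq; omega
      · have := l2 q hq; omega
    · intro O' hO'
      exact Run.pair (s1 O' fun q hq => hO' q (Finset.mem_union_left _ hq))
        (s2 O' fun q hq => hO' q (Finset.mem_union_right _ hq))
  | comp h1 h2 ih1 ih2 =>
    obtain ⟨Q1, c1, l1, s1⟩ := ih1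
    obtain ⟨Q2, c2, l2, s2⟩ := ih2
    refine ⟨Q1 ∪ Q2, ?_, ?_, ?_⟩
    · have := Finset.card_union_le Q1 Q2; omega
    · intro q hq
      have hd := h1.depth_le
      rcases Finset.mem_union.1 hq with hq | hq
      · have := l1 q hq; omega
      · have := l2 q hq; omega
    · intro O' hO'
      exact Run.comp (s1 O' fun q hq => hO' q (Finset.mem_union_left _ hq))
        (s2 O' fun q hq => hO' q (Finset.mem_union_right _ hq))
  | iteTrue h1 h2 ih1 ih2 =>
    obtain ⟨Q1, c1, l1, s1⟩ := ih1
    obtain ⟨Q2, c2, l2, s2⟩ := ih2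
    refine ⟨Q1 ∪ Q2, ?_, ?_, ?_⟩
    · have := Finset.card_union_le Q1 Q2; omega
    · intro q hq
      rcases Finset.mem_union.1 hq with hq | hq
      · have := l1 q hq; omega
      · have := l2 q hq; omega
    · intro O' hO'
      exact Run.iteTrue (s1 O' fun q hq => hO' q (Finset.mem_union_left _ hq))
        (s2 O' fun q hq => hO' q (Finset.mem_union_right _ hq))
  | iteFalse h1 h2 ih1 ih2 =>
    obtain ⟨Q1, c1, l1, s1⟩ := ih1
    obtain ⟨Q2, c2, l2, s2⟩ := ih2
    refine ⟨Q1 ∪ Q2, ?_, ?_, ?_⟩
    · have := Finset.card_union_le Q1 Q2; omega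
    · intro q hq
      rcases Finset.mem_union.1 hq with hq | hq
      · have := l1 q hq; omega
      · have := l2 q hq; omega
    · intro O' hO'
      exact Run.iteFalse (s1 O' fun q hq => hO' q (Finset.mem_union_left _ hq))
        (s2 O' fun q hq => hO' q (Finset.mem_union_right _ hq))
  | loopStop hx => exact ⟨∅, by simp, by simp, fun O' _ => Run.loopStop hx⟩
  | loopStep hx h1 h2 ih1 ih2 =>
    obtain ⟨Q1, c1, l1, s1⟩ := ih1
    obtain ⟨Q2, c2, l2, s2⟩ := ih2
    refine ⟨Q1 ∪ Q2, ?_, ?_, ?_⟩
    · have := Finset.card_union_le Q1 Q2; omega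
    · intro q hq
      have hd := h1.depth_le
      rcases Finset.mem_union.1 hq with hq | hq
      · have := l1 q hq; omega
      · have := l2 q hq; omega
    · intro O' hO'
      exact Run.loopStep hx (s1 O' fun q hq => hO' q (Finset.mem_union_left _ hq))
        (s2 O' fun q hq => hO' q (Finset.mem_union_right _ hq))

/-! ### the clocked interpreter -/

theorem sel_depth_le {t a b : Dat} {N : ℕ} (ha : a.depth ≤ N) (hb : b.depth ≤ N) :
    (sel t a b).depth ≤ N := by
  cases t with
  | leaf => exact hb
  | node _ _ => exact ha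

theorem node_depth_le {a b : Dat} {N : ℕ} (ha : a.depth + 1 ≤ N) (hb : b.depth + 1 ≤ N) :
    (node a b).depth ≤ N := by
  simp only [depth]; omega

theorem node_depth_le' {a b : Dat} {N k : ℕ} (ha : a.depth + (k + 1) ≤ N)
    (hb : b.depth + (k + 1) ≤ N) : (node a b).depth + k ≤ N := by
  simp only [depth]; omega

theorem hd_depth_le' {a : Dat} {N k : ℕ} (ha : a.depth + k ≤ N) : a.hd.depth + k ≤ N := by
  have := depth_hd a; omega

theorem tl_depth_le' {a : Dat} {N k : ℕ} (ha : a.depth + k ≤ N) : a.tl.depth + k ≤ N := by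
  have := depth_tl a; omega

theorem bit_depth_le (b : Bool) : (bit b).depth ≤ 1 := by
  cases b <;> simp [bit, depth]

theorem stepT_depth (O : List Bool → Bool) (x : Dat) : (stepT O x).depth ≤ x.depth + 20 := by
  unfold stepT
  have hb := bit_depth_le (O (bitsOf x.tl.hd))
  have h9 : (tag 9).depth = 9 := rfl
  have h0 : (tag 0).depth = 0 := rfl
  have h8 : (tag 8).depth = 8 := rfl
  have h10 : (tag 10).depth = 10 := rfl
  have hl : (leaf).depth = 0 := rfl
  repeat' first
    | omega
    | apply sel_depth_le
    | apply node_depth_le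
    | apply node_depth_le'
    | apply hd_depth_le'
    | apply tl_depth_le'

theorem stepT_congr {O O' : List Bool → Bool} {x : Dat}
    (h : O' (bitsOf x.tl.hd) = O (bitsOf x.tl.hd)) : stepT O' x = stepT O x := by
  simp only [stepT, h]

theorem simN_succ (O : List Bool → Bool) (m : ℕ) (c x : Dat) :
    simN O (m + 1) c x = stepT O (simN O m c x) := by
  rw [simN, Function.iterate_succ_apply', ← simN]

theorem simN_depth (O : List Bool → Bool) (m : ℕ) (c x : Dat) :
    (simN O m c x).depth ≤ max c.depth x.depth + 2 + 20 * m := by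
  induction m with
  | zero =>
    have : simN O 0 c x = ini c x := rfl
    rw [this]
    simp only [ini, depth]
    omega
  | succ m ih =>
    rw [simN_succ]
    have := stepT_depth O (simN O m c x)
    omega

/-- The clocked interpreter depends on few and short oracle queries. -/
theorem simN_support (O : List Bool → Bool) (m : ℕ) (c x : Dat) :
    ∃ Q : Finset (List Bool), Q.card ≤ m ∧
      (∀ q ∈ Q, q.length ≤ max c.depth x.depth + 2 + 20 * m) ∧
      ∀ O' : List Bool → Bool, (∀ q ∈ Q, O' q = O q) → simN O' m c x = simN O m c x := by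
  classical
  induction m with
  | zero => exact ⟨∅, by simp, by simp, fun O' _ => rfl⟩
  | succ m ih =>
    obtain ⟨Q, h1, h2, h3⟩ := ih
    refine ⟨insert (bitsOf (simN O m c x).tl.hd) Q, ?_, ?_, ?_⟩
    · have := Finset.card_insert_le (bitsOf (simN O m c x).tl.hd) Q; omega
    · intro q hq
      rcases Finset.mem_insert.1 hq with rfl | hq
      · have h4 := length_bitsOf_le (simN O m c x).tl.hd
        have h5 := depth_hd (simN O m c x).tl
        have h6 := depth_tl (simN O m c x)
        have h7 := simN_depth O m c x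
        omega
      · have := h2 q hq; omega
    · intro O' hO'
      rw [simN_succ, simN_succ, h3 O' (fun q hq => hO' q (Finset.mem_insert_of_mem hq))]
      exact stepT_congr (hO' _ (Finset.mem_insert_self _ _))

end Pool.Agent.Helper56.PT
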