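import Pool.Agent.Helper56.PT.Fg

/-!
An oracle relative to which ZPP, R and BPP have complete sets.
-/

set_option autoImplicit false

namespace Pool.Agent.Helper56.PT

open Dat

theorem PolyFn.comp {O : List Bool → Bool} {f g : List Bool → List Bool} (hf : PolyFn O f)
    (hg : PolyFn O g) : PolyFn O (fun x => g (f x)) := by
  apply PolyFn.of_poly
  have h1 := Poly.comp hf.poly hg.poly
  simp only [bitsOf_enc] at h1
  exact h1

/-- the reduction which asks for the first string of a block -/
theorem polyFn_query (O : List Bool → Bool) (κ : List Bool) (j : ℕ) :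
    PolyFn O (fun y => if O (st κ y (List.replicate ((y.length + 2) ^ j) false)) then [false]
      else []) := by
  apply PolyFn.of_poly
  have h1 : Poly O (fun t => rebT (enc κ) (node leaf (rebT (canonT t) (node leaf
      (una (powT j t).spine))))) :=
    Poly.rebT (Poly.const _) ((Poly.const _).node (Poly.rebT (Poly.canonT Poly.id)
      ((Poly.const _).node (poly_unaT (Poly.powT j Poly.id)))))
  have h2 : Poly O (fun x => bit (O (bitsOf x))) := Poly.of_LFc (LFc.query LFc.id)
  have h3 := Poly.comp h1 h2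
  have h4 : (fun t => enc ((fun y => if O (st κ y (List.replicate ((y.length + 2) ^ j) false))
      then [false] else []) (bitsOf t))) =
      fun t => bit (O (bitsOf (rebT (enc κ) (node leaf (rebT (canonT t) (node leaf
      (una (powT j t).spine))))))) := by
    funext t
    have e1 : ∀ R : List Bool, node leaf (enc R) = enc (false :: R) := fun _ => rfl
    rw [spine_powT, spine_eq_length, canonT_eq, ← enc_replicate, e1, rebT_eq, e1, rebT_eq,
      bitsOf_enc]
    show enc (if O (st κ (bitsOf t) (List.replicate (((bitsOf t).length + 2) ^ j) false))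
      then [false] else []) = _
    have e2 : st κ (bitsOf t) (List.replicate (((bitsOf t).length + 2) ^ j) false) =
      dblr κ ++ false :: (dblr (bitsOf t) ++ false ::
      List.replicate (((bitsOf t).length + 2) ^ j) false) := rfl
    rw [← e2]
    cases O (st κ (bitsOf t) (List.replicate (((bitsOf t).length + 2) ^ j) false)) with
    | true => rfl
    | false => rfl
  rw [h4]
  exact h3

theorem inBPP_ne (O : List Bool → Bool) : InBPP O {y | y ≠ []} := by
  refine ⟨Prog.hd, 0, 0, 1 / 4, by norm_num, fun x r _ => ⟨_, 1, by simp, Run.hd _⟩,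
    fun x => ?_⟩
  rw [Pr_true]
  · norm_num
  · intro r _
    constructor
    · rintro ⟨a, b, n, hn⟩ hx
      have h1 := ((Run.hd (O := O) (node (enc x) (enc r))).det hn).1
      rw [hx] at h1
      simp [Dat.hd, enc] at h1
    · intro hx
      have hx' : x ≠ [] := hx
      obtain ⟨b, l, rfl⟩ := List.exists_cons_of_ne_nil hx'
      exact ⟨bit b, enc l, 1, Run.hd _⟩

/-- all answers are coded -/
noncomputable def OT : List Bool → Bool := Om2 (fun _ => none)

theorem OT_query {p : Prog} {x : List Bool} {M T : ℕ} {r : List Bool}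
    (hr : r.length = ((inst (pm p) x M T).length + 2) ^ 5) :
    OT (st kP (inst (pm p) x M T) r) = true ↔ 1 / 2 < pa OT p x M T := by
  rw [OT, Om2_P, SB_inst]
  have h1 : (0 : ℝ) < 1 / ((T : ℝ) + 1) := by positivity
  constructor
  · rintro ⟨_, h | ⟨_, h | ⟨_, h | ⟨_, h⟩⟩⟩⟩
    · simp at h
    · linarith
    · simp at h
    · exact h
  · intro h
    exact ⟨hr, Or.inr ⟨rfl, Or.inr ⟨by linarith, Or.inr ⟨rfl, h⟩⟩⟩⟩

theorem OT_reduces {B : Set (List Bool)} {p : Prog} {k l : ℕ} (hp : TimeBd OT p k l)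
    (hB : ∀ x : List Bool, x ∈ B ↔ 1 / 2 < Pr ((x.length + 2) ^ k) (Accepts OT p x)) :
    ∃ f : List Bool → List Bool, PolyFn OT f ∧ ∀ x, x ∈ B ↔ f x ∈ {y : List Bool | y ≠ []} := by
  refine ⟨_, (poly_inst (pm p) k (l + 2)).comp (polyFn_query OT kP 5), fun x => ?_⟩
  have hT3 : 3 * (x.length + 2) ^ l ≤ (x.length + 2) ^ (l + 2) := by
    rw [pow_add, mul_comm]
    have : 2 ^ 2 ≤ (x.length + 2) ^ 2 := Nat.pow_le_pow_left (by omega) 2
    exact Nat.mul_le_mul_left _ (by omega)
  have h1 := OT_query (p := p) (x := x) (M := (x.length + 2) ^ k) (T := (x.length + 2) ^ (l + 2))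
    (r := List.replicate (((inst (pm p) x ((x.length + 2) ^ k)
      ((x.length + 2) ^ (l + 2))).length + 2) ^ 5) false) List.length_replicate
  have h2 : pa OT p x ((x.length + 2) ^ k) ((x.length + 2) ^ (l + 2)) =
      Pr ((x.length + 2) ^ k) (Accepts OT p x) := Pr_congr (fun r hr => accS_iff hp hr hT3)
  rw [h2, ← hB x] at h1
  rw [← h1]
  simp only [Set.mem_ofPred_eq]
  split_ifs with h3
  · simp [h3]
  · simp [h3]

theorem OT_R {B : Set (List Bool)} (hB : InR OT B) : ∃ f : List Bool → List Bool,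
    PolyFn OT f ∧ ∀ x, x ∈ B ↔ f x ∈ {y : List Bool | y ≠ []} := by
  obtain ⟨p, k, l, hp, h⟩ := hB
  refine OT_reduces hp (fun x => ⟨(h x).1, fun h1 => ?_⟩)
  by_contra hx
  rw [(h x).2 hx] at h1
  norm_num at h1

theorem OT_BPP {B : Set (List Bool)} (hB : InBPP OT B) : ∃ f : List Bool → List Bool,
    PolyFn OT f ∧ ∀ x, x ∈ B ↔ f x ∈ {y : List Bool | y ≠ []} := by
  obtain ⟨p, k, l, ε, hε, hp, h⟩ := hB
  refine OT_reduces hp (fun x => ?_)
  have h2 := h x
  by_cases hx : x ∈ B
  · have h3 : Pr ((x.length + 2) ^ k) (fun r => Accepts OT p x r ↔ x ∈ B) =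
        Pr ((x.length + 2) ^ k) (Accepts OT p x) := Pr_congr (fun r _ => by simp [hx])
    rw [h3] at h2
    exact iff_of_true hx (by linarith)
  · have h3 : Pr ((x.length + 2) ^ k) (fun r => Accepts OT p x r ↔ x ∈ B) =
        Pr ((x.length + 2) ^ k) (fun r => ¬ Accepts OT p x r) :=
      Pr_congr (fun r _ => by simp [hx])
    rw [h3] at h2
    have h4 := Pr_add_not ((x.length + 2) ^ k) (Accepts OT p x)
    have h5 : Pr ((x.length + 2) ^ k) (fun r => ¬ Accepts OT p x r) =
      Pr ((x.length + 2) ^ k) (fun r => ¬ (Accepts OT p x) r) := rfl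
    exact iff_of_false hx (by linarith)

/-- There is an oracle relative to which ZPP, R and BPP have complete sets. -/
theorem exists_oracle8 : ∃ O : List Bool → Bool, HasComplete O (InZPP O) ∧
    HasComplete O (InR O) ∧ HasComplete O (InBPP O) :=
  ⟨OT, ⟨{y | y ≠ []}, ⟨inR_ne _, inR_eq _⟩, fun _ hB => OT_R hB.1⟩,
    ⟨{y | y ≠ []}, inR_ne _, fun _ hB => OT_R hB⟩,
    ⟨{y | y ≠ []}, inBPP_ne _, fun _ hB => OT_BPP hB⟩⟩

end Pool.Agent.Helper56.PT
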