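import Pool.Agent.Helper56.PT.Wg

/-!
Trees from certificates, and functions with small certificates.
-/

set_option autoImplicit false

namespace Pool.Agent.Helper56.PT

open Dat

/-- two contents agree on a set -/
def Agr (S u u' : Finset (List Bool)) : Prop := ∀ w ∈ S, (w ∈ u ↔ w ∈ u')

theorem Agr.symm {S u u' : Finset (List Bool)} (h : Agr S u u') : Agr S u' u :=
  fun w hw => (h w hw).symm

theorem Agr.mono {S S' u u' : Finset (List Bool)} (h : Agr S u u') (hS : S' ⊆ S) : Agr S' u u' :=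
  fun w hw => h w (hS hw)

theorem Agr.trans {S u u' u'' : Finset (List Bool)} (h : Agr S u u') (h' : Agr S u' u'') :
    Agr S u u'' := fun w hw => (h w hw).trans (h' w hw)

/-- pairs (set of strings, content) : certificates -/
abbrev Crt : Type := Finset (List Bool) × Finset (List Bool)

/-- two certificates conflict -/
def Conf (c b : Crt) : Prop := ∃ w ∈ c.1, w ∈ b.1 ∧ ¬ (w ∈ c.2 ↔ w ∈ b.2)

/-- If all certificates in `A` conflict with all certificates in `B` there is a function with small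
certificates which separates them. -/
theorem exists_tree_aux (c1 : ℕ) (A B : Set Crt) (hB : ∀ b ∈ B, b.1.card ≤ c1) :
    ∀ (c0 : ℕ) (Q a : Finset (List Bool)),
      (∀ c ∈ A, Agr (c.1 ∩ Q) c.2 a → (c.1 \ Q).card ≤ c0) →
      (∀ c ∈ A, ∀ b ∈ B, Agr (c.1 ∩ Q) c.2 a → Agr (b.1 ∩ Q) b.2 a →
        ∃ w ∈ c.1, w ∈ b.1 ∧ w ∉ Q ∧ ¬ (w ∈ c.2 ↔ w ∈ b.2)) →
      ∃ g : Finset (List Bool) → Bool,
        (∀ u, ∃ S : Finset (List Bool), S.card ≤ c0 * c1 ∧ ∀ u', Agr S u' u → g u' = g u) ∧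
        ∀ u, Agr Q u a → (∀ c ∈ A, Agr c.1 c.2 u → g u = false) ∧
          (∀ b ∈ B, Agr b.1 b.2 u → g u = true) := by
  classical
  have hQa : ∀ (c : Crt) (Q a u : Finset (List Bool)), Agr Q u a → Agr c.1 c.2 u →
      Agr (c.1 ∩ Q) c.2 a := fun c Q a u h1 h2 w hw =>
    (h2 w (Finset.mem_inter.1 hw).1).trans (h1 w (Finset.mem_inter.1 hw).2)
  intro c0
  induction c0 with
  | zero =>
    intro Q a hA hAB
    by_cases h : ∃ c ∈ A, Agr (c.1 ∩ Q) c.2 a
    · obtain ⟨c, hc, hca⟩ := h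
      refine ⟨fun _ => false, fun u => ⟨∅, by simp, fun _ _ => rfl⟩, fun u hu =>
        ⟨fun _ _ _ => rfl, fun b hb hbu => ?_⟩⟩
      obtain ⟨w, hw1, hw2, hw3, _⟩ := hAB c hc b hb hca (hQa b Q a u hu hbu)
      have h1 := hA c hc hca
      rw [Nat.le_zero, Finset.card_eq_zero] at h1
      have h2 : w ∈ c.1 \ Q := Finset.mem_sdiff.2 ⟨hw1, hw3⟩
      rw [h1] at h2
      exact absurd h2 (Finset.notMem_empty _)
    · exact ⟨fun _ => true, fun u => ⟨∅, by simp, fun _ _ => rfl⟩, fun u hu =>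
        ⟨fun c hc hcu => absurd ⟨c, hc, hQa c Q a u hu hcu⟩ h, fun _ _ _ => rfl⟩⟩
  | succ c0 ih =>
    intro Q a hA hAB
    by_cases h : ∃ b ∈ B, Agr (b.1 ∩ Q) b.2 a
    · obtain ⟨b0, hb0, hb0a⟩ := h
      -- the contents on `b0`
      have key : ∀ τ : Finset (List Bool), ∃ g : Finset (List Bool) → Bool,
          (∀ u, ∃ S : Finset (List Bool), S.card ≤ c0 * c1 ∧ ∀ u', Agr S u' u → g u' = g u) ∧
          ∀ u, Agr (Q ∪ b0.1) u ((a ∩ Q) ∪ (τ \ Q)) → (∀ c ∈ A, Agr c.1 c.2 u → g u = false) ∧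
            (∀ b ∈ B, Agr b.1 b.2 u → g u = true) := by
        intro τ
        have hred : ∀ c : Crt, Agr (c.1 ∩ (Q ∪ b0.1)) c.2 ((a ∩ Q) ∪ (τ \ Q)) →
            Agr (c.1 ∩ Q) c.2 a := by
          intro c hc w hw
          have h1 := hc w (Finset.mem_inter.2 ⟨(Finset.mem_inter.1 hw).1,
            Finset.mem_union_left _ (Finset.mem_inter.1 hw).2⟩)
          rw [h1]
          simp [(Finset.mem_inter.1 hw).2]
        refine ih (Q ∪ b0.1) ((a ∩ Q) ∪ (τ \ Q)) (fun c hc hca => ?_) (fun c hc b hb hca hba => ?_)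
        · have h1 := hA c hc (hred c hca)
          obtain ⟨w, hw1, hw2, hw3, _⟩ := hAB c hc b0 hb0 (hred c hca) hb0a
          have h2 : (c.1 \ (Q ∪ b0.1)) ⊆ (c.1 \ Q).erase w := by
            intro v hv
            rw [Finset.mem_sdiff, Finset.mem_union, not_or] at hv
            refine Finset.mem_erase.2 ⟨fun h => hv.2.2 (h ▸ hw2), Finset.mem_sdiff.2
              ⟨hv.1, hv.2.1⟩⟩
          have h3 := Finset.card_le_card h2
          rw [Finset.card_erase_of_mem (Finset.mem_sdiff.2 ⟨hw1, hw3⟩)] at h3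
          omega
        · obtain ⟨w, hw1, hw2, hw3, hw4⟩ := hAB c hc b hb (hred c hca) (hred b hba)
          refine ⟨w, hw1, hw2, fun h => ?_, hw4⟩
          exact hw4 ((hca w (Finset.mem_inter.2 ⟨hw1, h⟩)).trans
            (hba w (Finset.mem_inter.2 ⟨hw2, h⟩)).symm)
      choose G hG1 hG2 using key
      refine ⟨fun u => G (u ∩ b0.1) u, fun u => ?_, fun u hu => ?_⟩
      · obtain ⟨S, hS1, hS2⟩ := hG1 (u ∩ b0.1) u
        refine ⟨S ∪ b0.1, ?_, fun u' hu' => ?_⟩
        · have h1 := Finset.card_union_le S b0.1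
          have h2 := hB b0 hb0
          rw [Nat.succ_mul]
          omega
        · have h1 : u' ∩ b0.1 = u ∩ b0.1 := by
            ext w
            simp only [Finset.mem_inter]
            constructor
            · rintro ⟨h1, h2⟩
              exact ⟨(hu' w (Finset.mem_union_right _ h2)).1 h1, h2⟩
            · rintro ⟨h1, h2⟩
              exact ⟨(hu' w (Finset.mem_union_right _ h2)).2 h1, h2⟩
          show G (u' ∩ b0.1) u' = G (u ∩ b0.1) u
          rw [h1]
          exact hS2 u' (hu'.mono Finset.subset_union_left)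
      · refine hG2 (u ∩ b0.1) u (fun w hw => ?_)
        by_cases hQ : w ∈ Q
        · rw [hu w hQ]
          simp [hQ]
        · have hb : w ∈ b0.1 := by
            rcases Finset.mem_union.1 hw with h | h
            · exact absurd h hQ
            · exact h
          simp [hQ, hb]
    · exact ⟨fun _ => false, fun u => ⟨∅, by simp, fun _ _ => rfl⟩, fun u hu =>
        ⟨fun _ _ _ => rfl, fun b hb hbu => absurd ⟨b, hb, hQa b Q a u hu hbu⟩ h⟩⟩

theorem exists_tree {c0 c1 : ℕ} {A B : Set Crt} (hA : ∀ c ∈ A, c.1.card ≤ c0)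
    (hB : ∀ b ∈ B, b.1.card ≤ c1) (hAB : ∀ c ∈ A, ∀ b ∈ B, Conf c b) :
    ∃ g : Finset (List Bool) → Bool,
      (∀ u, ∃ S : Finset (List Bool), S.card ≤ c0 * c1 ∧ ∀ u', Agr S u' u → g u' = g u) ∧
      ∀ u, (∀ c ∈ A, Agr c.1 c.2 u → g u = false) ∧ (∀ b ∈ B, Agr b.1 b.2 u → g u = true) := by
  classical
  obtain ⟨g, h1, h2⟩ := exists_tree_aux c1 A B hB c0 ∅ ∅ (fun c hc _ => by
    simpa using hA c hc) (fun c hc b hb _ _ => by
    obtain ⟨w, hw1, hw2, hw3⟩ := hAB c hc b hb
    exact ⟨w, hw1, hw2, Finset.notMem_empty _, hw3⟩)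
  exact ⟨g, h1, fun u => h2 u (fun w hw => absurd hw (Finset.notMem_empty _))⟩

/-! ### families of oracles with small certificates -/

section Psi

variable {Ψ : Finset (List Bool) → List Bool → Bool}

/-- the queries of length at most `L` have certificates of size at most `c` -/
def Cer (Ψ : Finset (List Bool) → List Bool → Bool) (L c : ℕ) : Prop :=
  ∀ (u : Finset (List Bool)) (q : List Bool), q.length ≤ L →
    ∃ S : Finset (List Bool), S.card ≤ c ∧ ∀ u', Agr S u' u → Ψ u' q = Ψ u q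

theorem Cer.finset {L c : ℕ} (h : Cer Ψ L c) (u : Finset (List Bool)) (Q : Finset (List Bool))
    (hQ : ∀ q ∈ Q, q.length ≤ L) : ∃ S : Finset (List Bool), S.card ≤ Q.card * c ∧
      ∀ u', Agr S u' u → ∀ q ∈ Q, Ψ u' q = Ψ u q := by
  classical
  have hex : ∀ q ∈ Q, ∃ S : Finset (List Bool), S.card ≤ c ∧
      ∀ u', Agr S u' u → Ψ u' q = Ψ u q := fun q hq => h u q (hQ q hq)
  choose! F hF1 hF2 using hex
  refine ⟨Q.biUnion F, Finset.card_biUnion_le_card_mul Q F c (fun q hq => hF1 q hq),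
    fun u' hu' q hq => hF2 q hq u' (hu'.mono (Finset.subset_biUnion_of_mem F hq))⟩

theorem Cer.acc {L c : ℕ} (h : Cer Ψ L c) {p : Prog} {x r : List Bool} {M T : ℕ}
    (hr : r.length = M) (hL : qb p x M T ≤ L) (u : Finset (List Bool)) :
    ∃ S : Finset (List Bool), S.card ≤ T * c ∧ ∀ u', Agr S u' u →
      (AccS (Ψ u') p x r T ↔ AccS (Ψ u) p x r T) := by
  obtain ⟨S, h1, h2⟩ := h.finset u (sup (Ψ u) p x r T) (fun q hq => by
    have := sup_length (Ψ u) p x r T q hq
    rw [hr] at this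
    omega)
  refine ⟨S, h1.trans (Nat.mul_le_mul_right _ (sup_card _ _ _ _ _)), fun u' hu' => ?_⟩
  exact AccS_sup (fun q hq => h2 u' hu' q hq)

theorem card_meet {K : ℕ} {D : Fin K → Finset (List Bool)}
    (hD : ∀ i j, i ≠ j → Disjoint (D i) (D j)) (S : Finset (List Bool)) :
    Nat.card {j : Fin K // ¬ Disjoint (D j) S} ≤ S.card := by
  classical
  have hex : ∀ j : {j : Fin K // ¬ Disjoint (D j) S}, ∃ w, w ∈ D j.1 ∧ w ∈ S := fun j => by
    obtain ⟨w, h1, h2⟩ := Finset.not_disjoint_iff.1 j.2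
    exact ⟨w, h1, h2⟩
  choose f hf1 hf2 using hex
  have h1 : Nat.card {j : Fin K // ¬ Disjoint (D j) S} ≤ Nat.card S :=
    Nat.card_le_card_of_injective (fun j => (⟨f j, hf2 j⟩ : S)) (fun a b hab => by
      simp only [Subtype.mk.injEq] at hab
      by_contra hne
      have h2 : a.1 ≠ b.1 := fun h => hne (Subtype.ext h)
      exact Finset.disjoint_left.1 (hD _ _ h2) (hf1 a) (hab ▸ hf1 b))
  rw [Nat.card_eq_fintype_card (α := S), Fintype.card_coe] at h1
  exact h1

theorem agr_symmDiff {u D S : Finset (List Bool)} (h : Disjoint D S) : Agr S (symmDiff u D) u := by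
  intro w hw
  have h1 : w ∉ D := fun h2 => Finset.disjoint_left.1 h h2 hw
  rw [Finset.mem_symmDiff]
  tauto

theorem Cer.chg {L c : ℕ} (h : Cer Ψ L c) {K : ℕ} {D : Fin K → Finset (List Bool)}
    (hD : ∀ i j, i ≠ j → Disjoint (D i) (D j)) (u : Finset (List Bool)) {q : List Bool}
    (hq : q.length ≤ L) : Nat.card {j : Fin K // Ψ (symmDiff u (D j)) q ≠ Ψ u q} ≤ c := by
  obtain ⟨S, h1, h2⟩ := h u q hq
  refine le_trans (card_le_of_imp (Q := fun j => ¬ Disjoint (D j) S) (fun j hj hdis => hj ?_))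
    ((card_meet hD S).trans h1)
  exact h2 _ (agr_symmDiff hdis)

theorem Cer.sum {L c : ℕ} (h : Cer Ψ L c) {K : ℕ} {D : Fin K → Finset (List Bool)}
    (hD : ∀ i j, i ≠ j → Disjoint (D i) (D j)) (u : Finset (List Bool)) {p : Prog}
    {x : List Bool} {M T : ℕ} (hL : qb p x M T ≤ L) :
    ∑ j, Pr M (fun r => ¬ (AccS (Ψ (symmDiff u (D j))) p x r T ↔ AccS (Ψ u) p x r T)) ≤
      (T : ℝ) * c :=
  sum_dif_le (Ψ u) (fun j => Ψ (symmDiff u (D j))) p x M T c
    (fun _ hq => h.chg hD u (hq.trans hL))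

/-- the change of a probability, summed over a disjoint family -/
theorem Cer.sum_pa {L c : ℕ} (h : Cer Ψ L c) {K : ℕ} {D : Fin K → Finset (List Bool)}
    (hD : ∀ i j, i ≠ j → Disjoint (D i) (D j)) (u : Finset (List Bool)) {p : Prog}
    {x : List Bool} {M T : ℕ} (hL : qb p x M T ≤ L) :
    ∑ j, |pa (Ψ (symmDiff u (D j))) p x M T - pa (Ψ u) p x M T| 
      ≤ (T : ℝ) * c :=
  (Finset.sum_le_sum (fun _ _ => pa_dif)).trans (h.sum hD u hL)

/-- A total function with a gap and small certificates is constant on large dense contents. -/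
theorem Cer.total {L c : ℕ} (h : Cer Ψ L c) {p : Prog} {x : List Bool} {M T : ℕ}
    (hL : qb p x M T ≤ L) {θ η : ℝ} {K : ℕ} (hK : (T : ℝ) * c < K * (2 * η))
    (hgap : ∀ u : Finset (List Bool), η ≤ |pa (Ψ u) p x M T - θ|)
    (h0 : pa (Ψ ∅) p x M T < θ) :
    ∃ Y : Finset (List Bool), Y.card ≤ K * K ∧
      ∀ u : Finset (List Bool), Disjoint u Y → pa (Ψ u) p x M T < θ := by
  classical
  set Φ : Finset (List Bool) → ℝ := fun u => pa (Ψ u) p x M T with hΦ
  have hη : ∀ u u', Φ u < θ → ¬ Φ u' < θ → 2 * η ≤ |Φ u' - Φ u| := by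
    intro u u' h1 h2
    have h3 := hgap u
    have h4 := hgap u'
    simp only [hΦ] at h1 h2 ⊢
    rw [abs_of_nonpos (by linarith)] at h3
    rw [abs_of_nonneg (by linarith)] at h4
    exact le_trans (by linarith) (le_abs_self _)
  have hfam : ∀ (D : Fin K → Finset (List Bool)), (∀ i j, i ≠ j → Disjoint (D i) (D j)) →
      ∀ u, (∀ j, 2 * η ≤ |Φ (symmDiff u (D j)) - Φ u|) → False := by
    intro D hD u hj
    have h1 := h.sum_pa hD u hL
    have h2 : (Finset.univ : Finset (Fin K)).card • (2 * η) ≤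
        ∑ j, |Φ (symmDiff u (D j)) - Φ u| :=
      Finset.card_nsmul_le_sum _ _ _ (fun j _ => hj j)
    rw [Finset.card_univ, Fintype.card_fin, nsmul_eq_mul] at h2
    have h3 := h2.trans h1
    linarith
  set S : Set (Finset (List Bool)) := {D | ¬ Φ D < θ ∧ ∀ w ∈ D, Φ (D.erase w) < θ} with hS
  have hcard : ∀ D ∈ S, D.Nonempty ∧ D.card ≤ K := by
    intro D hD
    refine ⟨?_, ?_⟩
    · rw [Finset.nonempty_iff_ne_empty]
      intro h1
      rw [h1] at hD
      exact hD.1 h0
    · by_contra hn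
      push Not at hn
      obtain ⟨D', hD', hcard⟩ := Finset.exists_subset_card_eq hn.le
      set e := (Finset.equivFinOfCardEq hcard).symm with he
      refine hfam (fun j => {((e j : D') : List Bool)}) (fun i j hij => ?_) D (fun j => ?_)
      · rw [Finset.disjoint_singleton]
        intro h1
        exact hij (e.injective (Subtype.ext h1))
      · have hmem : ((e j : D') : List Bool) ∈ D := hD' (e j).2
        have h1 : symmDiff D {((e j : D') : List Bool)} = D.erase ((e j : D') : List Bool) := by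
          ext w
          rw [Finset.mem_symmDiff, Finset.mem_singleton, Finset.mem_erase]
          constructor
          · rintro (⟨h1, h2⟩ | ⟨h1, h2⟩)
            · exact ⟨h2, h1⟩
            · exact absurd (h1 ▸ hmem) h2
          · rintro ⟨h1, h2⟩
            exact Or.inl ⟨h2, h1⟩
        rw [h1, abs_sub_comm]
        exact hη _ _ (hD.2 _ hmem) hD.1
  rcases disjoint_or_cover S K hcard K with ⟨F, hF1, hF2⟩ | ⟨Y, hY1, _, hY3⟩
  · exact absurd (hfam F hF2 ∅ (fun j => by
      rw [← Finset.bot_eq_empty, bot_symmDiff]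
      exact hη _ _ h0 (hF1 j).1)) id
  · refine ⟨Y, hY1, fun u hu => ?_⟩
    by_contra hn
    obtain ⟨D, hD1, hD2⟩ : ∃ D ⊆ u, D ∈ S := by
      have hne : ((u.powerset).filter (fun D => ¬ Φ D < θ)).Nonempty :=
        ⟨u, Finset.mem_filter.2 ⟨Finset.mem_powerset_self u, hn⟩⟩
      obtain ⟨D, hD, hmin⟩ := Finset.exists_min_image _ Finset.card hne
      rw [Finset.mem_filter, Finset.mem_powerset] at hD
      refine ⟨D, hD.1, hD.2, fun w hw => ?_⟩
      by_contra hn'
      have h1 := hmin (D.erase w) (Finset.mem_filter.2 ⟨Finset.mem_powerset.2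
        ((Finset.erase_subset w D).trans hD.1), hn'⟩)
      have h2 := Finset.card_erase_lt_of_mem hw
      omega
    exact hY3 D hD2 (Finset.disjoint_of_subset_left hD1 hu)

end Psi

end Pool.Agent.Helper56.PT
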