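import Pool.Agent.Helper56.PT.Va

/-!
The third construction: the oracle codes the languages of a list of machines.
-/

set_option autoImplicit false

namespace Pool.Agent.Helper56.PT

open Dat

/-- main machine of an index -/
def fs : Ix → RD
  | Sum.inl ρ => ρ
  | Sum.inr P => (P.1, P.2.2.1, P.2.2.2.1)

/-- second machine of an index -/
def sn : Ix → RD
  | Sum.inl ρ => ρ
  | Sum.inr P => (P.2.1, P.2.2.2.2.1, P.2.2.2.2.2)

/-- number of random bits -/
def mM (ρ : RD) (y : List Bool) : ℕ := (y.length + 2) ^ ρ.2.1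

/-- number of steps -/
def tT (ρ : RD) (y : List Bool) : ℕ := 3 * (y.length + 2) ^ ρ.2.2

/-- bound for the lengths of queries -/
def qbr (ρ : RD) (y : List Bool) : ℕ := qb ρ.1 y (mM ρ y) (tT ρ y)

/-- probability of acceptance -/
noncomputable def pr (O : List Bool → Bool) (ρ : RD) (y : List Bool) : ℝ :=
  pa O ρ.1 y (mM ρ y) (tT ρ y)

/-- the index is legitimate on `y` -/
def Leg (O : List Bool → Bool) : Ix → List Bool → Prop
  | Sum.inl ρ, y => pr O ρ y = 0 ∨ 1 / 2 < pr O ρ y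
  | Sum.inr P, y => (1 / 2 < pr O (fs (Sum.inr P)) y ∧ pr O (sn (Sum.inr P)) y = 0) ∨
      (pr O (fs (Sum.inr P)) y = 0 ∧ 1 / 2 < pr O (sn (Sum.inr P)) y)

/-- the value of the index on `y` -/
def Val (O : List Bool → Bool) (E : Ix) (y : List Bool) : Prop := 1 / 2 < pr O (fs E) y

/-- bound for everything about the index on `y` -/
@[irreducible] def bz (E : Ix) (y : List Bool) : ℕ := qbr (fs E) y + qbr (sn E) y + 3

theorem pr_congr {O O' : List Bool → Bool} {ρ : RD} {y : List Bool}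
    (h : ∀ v : List Bool, v.length ≤ qbr ρ y → O v = O' v) : pr O ρ y = pr O' ρ y :=
  pa_congr h

theorem Leg_congr {O O' : List Bool → Bool} {E : Ix} {y : List Bool}
    (h : ∀ v : List Bool, v.length ≤ bz E y → O v = O' v) : Leg O E y ↔ Leg O' E y := by
  have h1 : pr O (fs E) y = pr O' (fs E) y := pr_congr (fun v hv => h v (by rw [bz]; omega))
  have h2 : pr O (sn E) y = pr O' (sn E) y := pr_congr (fun v hv => h v (by rw [bz]; omega))
  cases E with
  | inl ρ =>
    show (pr O ρ y = 0 ∨ 1 / 2 < pr O ρ y) ↔ (pr O' ρ y = 0 ∨ 1 / 2 < pr O' ρ y)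
    have h3 : pr O ρ y = pr O' ρ y := h1
    rw [h3]
  | inr P =>
    show ((1 / 2 < pr O (fs (Sum.inr P)) y ∧ pr O (sn (Sum.inr P)) y = 0) ∨
      (pr O (fs (Sum.inr P)) y = 0 ∧ 1 / 2 < pr O (sn (Sum.inr P)) y)) ↔
      ((1 / 2 < pr O' (fs (Sum.inr P)) y ∧ pr O' (sn (Sum.inr P)) y = 0) ∨
      (pr O' (fs (Sum.inr P)) y = 0 ∧ 1 / 2 < pr O' (sn (Sum.inr P)) y))
    rw [h1, h2]

theorem Val_congr {O O' : List Bool → Bool} {E : Ix} {y : List Bool}
    (h : ∀ v : List Bool, v.length ≤ bz E y → O v = O' v) : Val O E y ↔ Val O' E y := by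
  have h1 : pr O (fs E) y = pr O' (fs E) y := pr_congr (fun v hv => h v (by rw [bz]; omega))
  rw [Val, Val, h1]

theorem pol_qbr (ρ : RD) : Pol (fun n => (code ρ.1).depth + n + (n + 2) ^ ρ.2.1 + 4 +
    20 * (3 * (n + 2) ^ ρ.2.2)) :=
  ((((Pol.const _).add Pol.id).add ⟨ρ.2.1, fun _ => le_rfl⟩).add (Pol.const 4)).add
    ((Pol.const 20).mul ((Pol.const 3).mul ⟨ρ.2.2, fun _ => le_rfl⟩))

theorem exists_jE (E : Ix) : ∃ j : ℕ, ∀ y : List Bool, bz E y ^ 7 ≤ (y.length + 2) ^ j := by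
  obtain ⟨j, hj⟩ := ((((pol_qbr (fs E)).add (pol_qbr (sn E))).add (Pol.const 3)).pow 7)
  exact ⟨j, fun y => by rw [bz]; exact hj y.length⟩

/-- the exponent of the length of the coding strings -/
noncomputable def jE (E : Ix) : ℕ := (exists_jE E).choose

theorem jE_spec (E : Ix) (y : List Bool) : bz E y ^ 7 ≤ (y.length + 2) ^ jE E :=
  (exists_jE E).choose_spec y

/-- kinds of coding strings -/
def kC (n : ℕ) : List Bool := true :: true :: List.replicate n false

theorem kC_inj {n n' : ℕ} (h : kC n = kC n') : n = n' := by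
  simp only [kC, List.cons.injEq, true_and] at h
  have := congrArg List.length h
  simpa using this

theorem kC_ne_kT (n m : ℕ) (b : Bool) : kC n ≠ kT m b := by simp [kC, kT]

/-- coding strings -/
noncomputable def cs (E : Ix) (s : ℕ) (y : List Bool) : List Bool :=
  st (kC (nI E)) y (List.replicate ((y.length + 2) ^ (jE E + s)) false)

/-- `w` codes the answer of the index `E` on `y` -/
def IsC (w : List Bool) (E : Ix) (y : List Bool) : Prop := ∃ s : ℕ, w = cs E s y

theorem IsC.inj {w y y' : List Bool} {E E' : Ix} (h : IsC w E y) (h' : IsC w E' y') :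
    E = E' ∧ y = y' := by
  obtain ⟨s, rfl⟩ := h
  obtain ⟨s', h'⟩ := h'
  obtain ⟨h1, h2, _⟩ := st_inj h'
  exact ⟨nI_injective (kC_inj h1), h2⟩

theorem length_cs (E : Ix) (s : ℕ) (y : List Bool) :
    (y.length + 2) ^ (jE E + s) + 2 ≤ (cs E s y).length := by
  rw [cs, length_st, List.length_replicate]
  omega

theorem IsC.lt {w y : List Bool} {E : Ix} (h : IsC w E y) : bz E y ^ 7 + 2 ≤ w.length := by
  obtain ⟨s, rfl⟩ := h
  refine le_trans ?_ (length_cs E s y)
  have h1 : (y.length + 2) ^ jE E ≤ (y.length + 2) ^ (jE E + s) :=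
    Nat.pow_le_pow_right (by omega) (by omega)
  have := jE_spec E y
  omega

theorem bz_ge (E : Ix) (y : List Bool) : 3 ≤ bz E y := by rw [bz]; omega

theorem bz_le_pow (E : Ix) (y : List Bool) : bz E y ≤ bz E y ^ 7 := Nat.le_self_pow (by norm_num) _

theorem IsC.bz_lt {w y : List Bool} {E : Ix} (h : IsC w E y) : bz E y < w.length := by
  have h1 := h.lt
  have h2 := bz_le_pow E y
  omega

theorem not_IsC_T {m : ℕ} {b : Bool} {x r y : List Bool} {E : Ix} :
    ¬ IsC (st (kT m b) x r) E y := by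
  rintro ⟨s, h⟩
  exact kC_ne_kT _ _ _ (st_inj h).1.symm

/-! ### the oracle -/

/-- the rule of the oracle: an active coding string has the right value if the index is legitimate,
and the preferred value otherwise; all other values are free -/
def Rule3 (δ : List Bool → Bool × Bool) (O : List Bool → Bool) (w : List Bool) : Prop :=
  (∃ (E : Ix) (y : List Bool), IsC w E y ∧ (δ w).1 = true ∧
    ((Leg O E y ∧ Val O E y) ∨ (¬ Leg O E y ∧ (δ w).2 = true))) ∨
  ((¬ ∃ (E : Ix) (y : List Bool), IsC w E y ∧ (δ w).1 = true) ∧ (δ w).2 = true)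

theorem Rule3_imp {δ δ' : List Bool → Bool × Bool} {O O' : List Bool → Bool} {w : List Bool}
    (hδ : δ w = δ' w) (h : ∀ v : List Bool, v.length < w.length → O v = O' v)
    (hr : Rule3 δ O w) : Rule3 δ' O' w := by
  rcases hr with ⟨E, y, h1, h2, h3⟩ | ⟨h1, h2⟩
  · refine Or.inl ⟨E, y, h1, by rw [← hδ]; exact h2, ?_⟩
    have h4 : ∀ v : List Bool, v.length ≤ bz E y → O v = O' v := fun v hv =>
      h v (lt_of_le_of_lt hv h1.bz_lt)
    rw [← hδ, ← Leg_congr h4, ← Val_congr h4]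
    exact h3
  · refine Or.inr ⟨?_, by rw [← hδ]; exact h2⟩
    rw [← hδ]
    exact h1

open Classical in
/-- the oracle of `δ` -/
noncomputable def Om3 (δ : List Bool → Bool × Bool) (w : List Bool) : Bool :=
  decide (Rule3 δ (fun v => if _ : v.length < w.length then Om3 δ v else false) w)
termination_by w.length

open Classical in
theorem Om3_iff (δ : List Bool → Bool × Bool) (w : List Bool) :
    Om3 δ w = true ↔ Rule3 δ (Om3 δ) w := by
  rw [Om3, decide_eq_true_eq]
  constructor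
  · exact Rule3_imp rfl (fun v hv => by rw [dif_pos hv])
  · exact Rule3_imp rfl (fun v hv => by rw [dif_pos hv])

theorem Om3_congr {δ δ' : List Bool → Bool × Bool} {L : ℕ}
    (h : ∀ w : List Bool, w.length < L → δ w = δ' w) :
    ∀ (n : ℕ) (w : List Bool), w.length = n → w.length < L → Om3 δ w = Om3 δ' w := by
  intro n
  induction n using Nat.strong_induction_on with
  | _ n ih =>
    intro w hw hL
    rw [Bool.eq_iff_iff, Om3_iff, Om3_iff]
    have h1 : ∀ v : List Bool, v.length < w.length → Om3 δ v = Om3 δ' v := fun v hv =>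
      ih v.length (by omega) v rfl (by omega)
    exact ⟨Rule3_imp (h w hL) h1, Rule3_imp (h w hL).symm (fun v hv => (h1 v hv).symm)⟩

theorem Om3_C {δ : List Bool → Bool × Bool} {w y : List Bool} {E : Ix} (hw : IsC w E y)
    (hf : (δ w).1 = true) : Om3 δ w = true ↔ ((Leg (Om3 δ) E y ∧ Val (Om3 δ) E y) ∨
      (¬ Leg (Om3 δ) E y ∧ (δ w).2 = true)) := by
  rw [Om3_iff]
  constructor
  · rintro (⟨E', y', h1, h2, h3⟩ | ⟨h1, _⟩)
    · obtain ⟨rfl, rfl⟩ := hw.inj h1
      exact h3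
    · exact absurd ⟨E, y, hw, hf⟩ h1
  · intro h
    exact Or.inl ⟨E, y, hw, hf, h⟩

theorem Om3_F {δ : List Bool → Bool × Bool} {w : List Bool} (hf : (δ w).1 = false) :
    Om3 δ w = (δ w).2 := by
  rw [Bool.eq_iff_iff, Om3_iff]
  constructor
  · rintro (⟨E', y', h1, h2, h3⟩ | ⟨_, h2⟩)
    · rw [hf] at h2; simp at h2
    · exact h2
  · intro h
    exact Or.inr ⟨fun ⟨E', y', h1, h2⟩ => by rw [hf] at h2; simp at h2, h⟩

theorem Om3_N {δ : List Bool → Bool × Bool} {w : List Bool}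
    (hn : ¬ ∃ (E : Ix) (y : List Bool), IsC w E y) : Om3 δ w = (δ w).2 := by
  rw [Bool.eq_iff_iff, Om3_iff]
  constructor
  · rintro (⟨E', y', h1, h2, h3⟩ | ⟨_, h2⟩)
    · exact absurd ⟨E', y', h1⟩ hn
    · exact h2
  · intro h
    exact Or.inr ⟨fun ⟨E', y', h1, h2⟩ => hn ⟨E', y', h1⟩, h⟩

/-! ### test blocks -/

/-- machines for BPP: program, exponents, gap -/
abbrev BD : Type := Prog × ℕ × ℕ × ℕ

/-- indices of test sets -/
abbrev Jx : Type := RD ⊕ BD

/-- numbers of test sets -/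
noncomputable def nJ : Jx → ℕ := (Countable.exists_injective_nat Jx).choose

theorem nJ_injective : Function.Injective nJ := (Countable.exists_injective_nat Jx).choose_spec

/-- the strings of a test block -/
@[irreducible] noncomputable def TB (m : ℕ) (x : List Bool) : Finset (List Bool) :=
  (Finset.univ : Finset (Fin ((x.length + 2) ^ 5) → Bool)).image
    (fun r => st (kT m true) x (List.ofFn r))

theorem exists_ofFn {r : List Bool} {n : ℕ} (h : r.length = n) :
    ∃ f : Fin n → Bool, List.ofFn f = r := by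
  subst h
  exact ⟨r.get, List.ofFn_get r⟩

theorem mem_TB {m : ℕ} {x w : List Bool} : w ∈ TB m x ↔
    ∃ r : List Bool, r.length = (x.length + 2) ^ 5 ∧ w = st (kT m true) x r := by
  rw [TB, Finset.mem_image]
  constructor
  · rintro ⟨r, _, rfl⟩
    exact ⟨List.ofFn r, by simp, rfl⟩
  · rintro ⟨r, hr, rfl⟩
    obtain ⟨f, hf⟩ := exists_ofFn hr
    exact ⟨f, Finset.mem_univ _, by rw [hf]⟩

theorem length_TB {m : ℕ} {x w : List Bool} (h : w ∈ TB m x) :
    w.length = b5 (kT m true) x := by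
  obtain ⟨r, hr, rfl⟩ := mem_TB.1 h
  exact length_st5 hr

theorem lt_b5 (m : ℕ) (b : Bool) (x : List Bool) : x.length < b5 (kT m b) x := by
  rw [b5, length_kT]; omega

theorem not_IsC_TB {m : ℕ} {x w y : List Bool} {E : Ix} (h : w ∈ TB m x) : ¬ IsC w E y := by
  obtain ⟨r, hr, rfl⟩ := mem_TB.1 h
  exact not_IsC_T

/-- the density of a block -/
noncomputable def dens (δ : List Bool → Bool × Bool) (m : ℕ) (x : List Bool) : ℝ :=
  Pr ((x.length + 2) ^ 5) (fun r => (δ (st (kT m true) x r)).2 = true)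

/-- the block of an index is as it should be -/
def Ok3 : Jx → (List Bool → Bool × Bool) → List Bool → Prop
  | Sum.inl ρ, δ, x => dens δ (nJ (Sum.inl ρ)) x = 0 ∨ 1 / 2 < dens δ (nJ (Sum.inl ρ)) x
  | Sum.inr β, δ, x => dens δ (nJ (Sum.inr β)) x < 1 / 4 ∨ 3 / 4 < dens δ (nJ (Sum.inr β)) x

theorem dens_congr {δ δ' : List Bool → Bool × Bool} {m : ℕ} {x : List Bool}
    (h : ∀ w ∈ TB m x, δ w = δ' w) : dens δ m x = dens δ' m x :=
  Pr_congr (fun r hr => by rw [h _ (mem_TB.2 ⟨r, hr, rfl⟩)])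

theorem Ok3_congr {δ δ' : List Bool → Bool × Bool} {j : Jx} {x : List Bool}
    (h : ∀ w ∈ TB (nJ j) x, δ w = δ' w) : Ok3 j δ x ↔ Ok3 j δ' x := by
  cases j with
  | inl ρ => rw [Ok3, Ok3, dens_congr h]
  | inr β => rw [Ok3, Ok3, dens_congr h]

theorem dens_zero {δ : List Bool → Bool × Bool} {m : ℕ} {x : List Bool}
    (h : ∀ w ∈ TB m x, (δ w).2 = false) : dens δ m x = 0 :=
  Pr_false _ (fun r hr h1 => by rw [h _ (mem_TB.2 ⟨r, hr, rfl⟩)] at h1; simp at h1)

theorem Ok3_zero {δ : List Bool → Bool × Bool} {j : Jx} {x : List Bool}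
    (h : ∀ w ∈ TB (nJ j) x, (δ w).2 = false) : Ok3 j δ x := by
  cases j with
  | inl ρ => exact Or.inl (dens_zero h)
  | inr β =>
    refine Or.inl ?_
    rw [dens_zero h]
    norm_num

/-- few strings -/
theorem dens_small {δ : List Bool → Bool × Bool} {m : ℕ} {x : List Bool}
    {C : Finset (List Bool)} (hC : 4 * C.card < 2 ^ (x.length / 2))
    (h : ∀ w ∈ TB m x, (δ w).2 = true → w ∈ C) : dens δ m x < 1 / 4 := by
  refine lt_of_le_of_lt (Pr_mono (fun r hr h1 => h _ (mem_TB.2 ⟨r, hr, rfl⟩) h1))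
    (Pr_small hC ?_ (kT m true) x)
  have : x.length + 2 ≤ (x.length + 2) ^ 5 := Nat.le_self_pow (by norm_num) _
  omega

/-- nearly all strings -/
theorem dens_large {δ : List Bool → Bool × Bool} {m : ℕ} {x : List Bool}
    {C : Finset (List Bool)} (hC : 4 * C.card < 2 ^ (x.length / 2))
    (h : ∀ w ∈ TB m x, (δ w).2 = false → w ∈ C) : 3 / 4 < dens δ m x := by
  have h1 := Pr_add_not ((x.length + 2) ^ 5) (fun r => (δ (st (kT m true) x r)).2 = true)
  have h2 : Pr ((x.length + 2) ^ 5) (fun r => ¬ (δ (st (kT m true) x r)).2 = true) < 1 / 4 := by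
    refine lt_of_le_of_lt (Pr_mono (Q := fun r => st (kT m true) x r ∈ C) (fun r hr h1 =>
      h _ (mem_TB.2 ⟨r, hr, rfl⟩) (by simpa using h1))) (Pr_small hC ?_ (kT m true) x)
    have : x.length + 2 ≤ (x.length + 2) ^ 5 := Nat.le_self_pow (by norm_num) _
    omega
  rw [dens]
  linarith

end Pool.Agent.Helper56.PT
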