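import Pool.Agent.Helper56.PT.Vc

/-!
States of the third construction; the predictions are right at deep contents.
-/

set_option autoImplicit false

namespace Pool.Agent.Helper56.PT

open Dat

/-- the index shows that `A` is in R or in BPP -/
def ViaJ : Jx → (List Bool → Bool) → Set (List Bool) → Prop
  | Sum.inl ρ, O, A => Via O ρ.1 ρ.2.1 ρ.2.2 A
  | Sum.inr β, O, A => TimeBd O β.1 β.2.1 β.2.2.1 ∧ ∀ z : List Bool,
      1 / 2 + 1 / ((β.2.2.2 : ℝ) + 1) <
        Pr ((z.length + 2) ^ β.2.1) (fun r => Accepts O β.1 z r ↔ z ∈ A)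

/-- the index shows nothing -/
def DeadJ (j : Jx) (O : List Bool → Bool) : Prop := ∀ A : Set (List Bool), ¬ ViaJ j O A

open Classical in
/-- the default: coding strings of the active indices follow the rule, all other values are 0 -/
noncomputable def dflt3 (Q : Finset Ix) (w : List Bool) : Bool × Bool := (decide (Cod Q w), false)

/-- good states -/
structure Good3 (δ : List Bool → Bool × Bool) (L : ℕ) (Q : Finset Ix) : Prop where
  dfl : ∀ w : List Bool, L ≤ w.length → δ w = dflt3 Q w
  dead : ∀ (j : Jx) (x : List Bool), ¬ Ok3 j δ x → ∀ δ'' : List Bool → Bool × Bool,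
    (∀ w : List Bool, w.length < L → δ'' w = δ w) → DeadJ j (Om3 δ'')

/-- well-formed extensions -/
structure WfE (δ : List Bool → Bool × Bool) (L : ℕ) (Q : Finset Ix)
    (δ'' : List Bool → Bool × Bool) : Prop where
  agr : ∀ w : List Bool, w.length < L → δ'' w = δ w
  act : ∀ w : List Bool, L ≤ w.length → Cod Q w → (δ'' w).1 = true
  ok : ∀ (j : Jx) (x : List Bool), L ≤ b5 (kT (nJ j) true) x → Ok3 j δ'' x

/-- the active indices are legitimate in all well-formed extensions -/
def Stable (δ : List Bool → Bool × Bool) (L : ℕ) (Q : Finset Ix) : Prop :=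
  ∀ E ∈ Q, ∀ δ'' : List Bool → Bool × Bool, WfE δ L Q δ'' → ∀ y : List Bool, Leg (Om3 δ'') E y

open Classical in
/-- the content `u` of a block, the indices in `D` inactive -/
noncomputable def dl3 (δ : List Bool → Bool × Bool) (Q : Finset Ix) (m : ℕ) (x : List Bool)
    (u : Finset (List Bool)) (D : Finset Ix) (π : List Bool → Bool) (w : List Bool) :
    Bool × Bool :=
  if w ∈ TB m x then (false, decide (w ∈ u))
  else if x.length ≤ w.length ∧ Cod Q w then (decide (¬ Cod D w), π w)
  else δ w

section ctx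

variable {δ : List Bool → Bool × Bool} {Q : Finset Ix} {L : ℕ} {j : Jx} {x : List Bool}
  {u : Finset (List Bool)} {D : Finset Ix} {π : List Bool → Bool}

theorem dl3_TB {m : ℕ} {w : List Bool} (h : w ∈ TB m x) :
    dl3 δ Q m x u D π w = (false, decide (w ∈ u)) := by
  rw [dl3, if_pos h]

open Classical in
theorem dl3_Cod {m : ℕ} {w : List Bool} (h1 : x.length ≤ w.length) (h2 : Cod Q w) :
    dl3 δ Q m x u D π w = (decide (¬ Cod D w), π w) := by
  rw [dl3, if_neg (fun h => not_Cod_TB h h2), if_pos ⟨h1, h2⟩]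

theorem dl3_other {m : ℕ} {w : List Bool} (h1 : w ∉ TB m x)
    (h2 : ¬ (x.length ≤ w.length ∧ Cod Q w)) : dl3 δ Q m x u D π w = δ w := by
  rw [dl3, if_neg h1, if_neg h2]

theorem dl3_low {m : ℕ} {w : List Bool} (h : w.length < x.length) :
    dl3 δ Q m x u D π w = δ w := by
  refine dl3_other (fun h1 => ?_) (fun h1 => by omega)
  have := length_TB h1
  have := lt_b5 m true x
  omega

theorem TB_disjoint {m m' : ℕ} {x x' w : List Bool} (h : w ∈ TB m x) (h' : w ∈ TB m' x') :
    m = m' ∧ x = x' := by
  obtain ⟨r, _, rfl⟩ := mem_TB.1 h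
  obtain ⟨r', _, h2⟩ := mem_TB.1 h'
  obtain ⟨h3, h4, _⟩ := st_inj h2
  exact ⟨(kT_inj h3).1, h4⟩

/-- the content is as it should be -/
def Okc (j : Jx) (x : List Bool) (u : Finset (List Bool)) : Prop :=
  Ok3 j (fun w => (false, decide (w ∈ u))) x

theorem Ok3_dl3 : Ok3 j (dl3 δ Q (nJ j) x u D π) x ↔ Okc j x u :=
  Ok3_congr (fun _ hw => dl3_TB hw)

theorem Ok3_dl3_other {j' : Jx} {x' : List Bool} (h : ¬ (j' = j ∧ x' = x)) :
    Ok3 j' (dl3 δ Q (nJ j) x u D π) x' ↔ Ok3 j' δ x' := by
  refine Ok3_congr (fun w hw => dl3_other (fun h1 => h ?_) (fun h1 => not_Cod_TB hw h1.2))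
  obtain ⟨h2, h3⟩ := TB_disjoint hw h1
  exact ⟨nJ_injective h2, h3⟩

theorem Okc_DW {t : ℕ} (ht : 4 * t < 2 ^ (x.length / 2)) (h : DW j x t u) : Okc j x u := by
  cases j with
  | inl ρ =>
    rcases h with h | h
    · exact Or.inl (dens_zero (fun w hw => by simp [h w hw]))
    · refine Or.inr (lt_trans (by norm_num) (dens_large (C := TB (nJ (Sum.inl ρ)) x \ u) (by omega)
        (fun w hw h1 => ?_)))
      simp only [decide_eq_false_iff_not] at h1
      exact Finset.mem_sdiff.2 ⟨hw, h1⟩
  | inr β =>
    rcases h with h | h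
    · refine Or.inl (dens_small (C := TB (nJ (Sum.inr β)) x ∩ u) (by omega) (fun w hw h1 => ?_))
      simp only [decide_eq_true_eq] at h1
      exact Finset.mem_inter.2 ⟨hw, h1⟩
    · refine Or.inr (dens_large (C := TB (nJ (Sum.inr β)) x \ u) (by omega) (fun w hw h1 => ?_))
      simp only [decide_eq_false_iff_not] at h1
      exact Finset.mem_sdiff.2 ⟨hw, h1⟩

theorem Cod_empty {w : List Bool} : ¬ Cod ∅ w := by
  rintro ⟨E, hE, _⟩
  exact absurd hE (Finset.notMem_empty _)

theorem wfE_dl3 (hG : Good3 δ L Q) (hL : L ≤ x.length) (hu : Okc j x u) :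
    WfE δ L Q (dl3 δ Q (nJ j) x u ∅ π) where
  agr w hw := dl3_low (by omega)
  act w hw hc := by
    by_cases h : x.length ≤ w.length
    · rw [dl3_Cod h hc]
      simp [Cod_empty]
    · rw [dl3_low (not_le.1 h), hG.dfl w hw, dflt3]
      simp [hc]
  ok j' x' h := by
    by_cases hne : j' = j ∧ x' = x
    · obtain ⟨rfl, rfl⟩ := hne
      exact Ok3_dl3.2 hu
    · rw [Ok3_dl3_other hne]
      exact Ok3_zero (fun w hw => by
        rw [hG.dfl w (by rw [length_TB hw]; exact h)]
        rfl)

/-- the predicted oracle is the oracle, below the length `l` -/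
def Vld (δ : List Bool → Bool × Bool) (Q : Finset Ix) (m : ℕ) (x : List Bool)
    (u : Finset (List Bool)) (l : ℕ) : Prop :=
  ∀ (π : List Bool → Bool) (v : List Bool), v.length < l →
    Om3 (dl3 δ Q m x u ∅ π) v = Hh δ Q m x u v

theorem Vld.leg (hG : Good3 δ L Q) (hst : Stable δ L Q) (hL : L ≤ x.length) (hu : Okc j x u)
    {l : ℕ} (hv : Vld δ Q (nJ j) x u l) {E : Ix} (hE : E ∈ Q) {y : List Bool}
    (hl : bz E y < l) : Leg (Hh δ Q (nJ j) x u) E y := by
  have h1 := hst E hE _ (wfE_dl3 (π := fun _ => false) hG hL hu) y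
  exact (Leg_congr (fun v hv' => hv _ v (by omega))).1 h1

/-- the indices allowed with the test index -/
def QOk (j : Jx) (Q : Finset Ix) : Prop :=
  (∃ β : BD, j = Sum.inr β) ∨ ∀ E ∈ Q, ∃ P : PD, E = Sum.inr P

/-- the oracle with other strings -/
theorem Om3_dl3_other (hG : Good3 δ L Q) (hL : L ≤ x.length) {v : List Bool}
    (h1 : v ∉ TB (nJ j) x) (h2 : ¬ (x.length ≤ v.length ∧ Cod Q v)) :
    Om3 (dl3 δ Q (nJ j) x u D π) v = Om3 δ v := by
  by_cases hlow : v.length < x.length
  · exact Om3_congr (L := x.length) (fun w hw => dl3_low hw) _ v rfl hlow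
  · have h3 : ¬ Cod Q v := fun h => h2 ⟨not_lt.1 hlow, h⟩
    have h4 : δ v = (false, false) := by
      rw [hG.dfl v (by omega), dflt3]
      simp [h3]
    have h5 : dl3 δ Q (nJ j) x u D π v = δ v := dl3_other h1 h2
    rw [Om3_F (by rw [h5, h4]), Om3_F (by rw [h4]), h5]

/-- the predictions are right at deep contents -/
theorem valid (hG : Good3 δ L Q) (hst : Stable δ L Q) (hL : L ≤ x.length) (hQ : QOk j Q)
    {Λ N : ℕ} (hΛ : 2 * N ≤ Λ) (hx : 4 * (Λ + N * N) < 2 ^ (x.length / 2)) :
    ∀ l : ℕ, l ≤ N → ∀ u, DW j x (Λ + (N - l) * N) u → Vld δ Q (nJ j) x u l := by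
  intro l
  induction l with
  | zero => intro _ u _ π v hv; omega
  | succ l ih =>
    intro hl u hu π v hv
    have hstep : Λ + (N - (l + 1)) * N + N ≤ Λ + (N - l) * N := by
      have h1 : N - l = (N - (l + 1)) + 1 := by omega
      rw [h1, Nat.succ_mul]
      omega
    have hbd : ∀ l', Λ + (N - l') * N ≤ Λ + N * N := fun l' =>
      Nat.add_le_add_left (Nat.mul_le_mul_right _ (Nat.sub_le N l')) _
    have hok : ∀ l' u', DW j x (Λ + (N - l') * N) u' → Okc j x u' := fun l' u' h =>
      Okc_DW (by have := hbd l'; omega) h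
    have hvu := ih (by omega) u (hu.mono (by omega))
    by_cases hvl : v.length < l
    · exact hvu π v hvl
    · have hvl' : v.length = l := by omega
      by_cases h1 : v ∈ TB (nJ j) x
      · rw [Hh_TB h1, Om3_F (by rw [dl3_TB h1]), dl3_TB h1]
      · by_cases h2 : x.length ≤ v.length ∧ Cod Q v
        · obtain ⟨E, hE, y, hy⟩ := h2.2
          have hbz := hy.bz_lt
          have hb2 : bz E y ^ 2 ≤ N := by
            have h3 := hy.lt
            have h4 : bz E y ^ 2 ≤ bz E y ^ 7 :=
              Nat.pow_le_pow_right (by have := bz_ge E y; omega) (by norm_num)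
            omega
          -- legitimacy at deep contents
          have hleg : ∀ u', DW j x (Λ + (N - l) * N) u' → Leg (Hh δ Q (nJ j) x u') E y := fun u' h =>
            Vld.leg hG hst hL (hok l u' h) (ih (by omega) u' h) hE (by omega)
          have hlegO : Leg (Om3 (dl3 δ Q (nJ j) x u ∅ π)) E y :=
            hst E hE _ (wfE_dl3 hG hL (hok _ u hu)) y
          have hval : Val (Om3 (dl3 δ Q (nJ j) x u ∅ π)) E y ↔ Val (Hh δ Q (nJ j) x u) E y :=
            Val_congr (fun v' hv' => hvu π v' (by omega))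
          have hOC : Om3 (dl3 δ Q (nJ j) x u ∅ π) v = true ↔ Val (Hh δ Q (nJ j) x u) E y := by
            rw [Om3_C hy (by rw [dl3_Cod h2.1 h2.2]; simp [Cod_empty]), ← hval]
            tauto
          rw [Bool.eq_iff_iff, hOC, Hh_Cod h2.1 h2.2]
          constructor
          · intro h3
            have h4 : 0 < pr (Hh δ Q (nJ j) x u) (fs E) y := lt_trans (by norm_num) h3
            obtain ⟨r, hr, hacc⟩ := acc_of_Val h4
            exact Gd_true hy hr hacc
          · intro h3
            by_contra hn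
            have hlegu := hleg u (hu.mono (by omega))
            rcases E with ρ | P
            · -- a machine
              have hj : ∃ β : BD, j = Sum.inr β := by
                rcases hQ with h | h
                · exact h
                · obtain ⟨P, hP⟩ := h _ hE
                  exact absurd hP (by simp)
              obtain ⟨β, rfl⟩ := hj
              have h5 : pr (Hh δ Q (nJ (Sum.inr β)) x u) ρ y = 0 := by
                rcases hlegu with h5 | h5
                · exact h5
                · exact absurd h5 hn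
              have h6 := Gd_mach (t := Λ + (N - (l + 1)) * N) (t' := Λ + (N - l) * N)
                (by omega) hleg hy hu h5
              rw [h6] at h3
              simp at h3
            · rcases hlegu with ⟨h5, _⟩ | ⟨_, h5⟩
              · exact hn h5
              · obtain ⟨r, hr, hacc⟩ := acc_of_Val (lt_trans (by norm_num) h5)
                have h6 := Gd_pair (t := Λ + (N - l) * N) (by omega) hleg hy hr hacc
                rw [h6] at h3
                simp at h3
        · rw [Hh_other h1 h2]
          exact Om3_dl3_other hG hL h1 h2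

end ctx

end Pool.Agent.Helper56.PT
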