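import Pool.Agent.Helper56.PT.Vd

/-!
Wrong predictions are repaired by small changes which make the machine illegitimate.
-/

set_option autoImplicit false

namespace Pool.Agent.Helper56.PT

open Dat

section mis

variable {δ : List Bool → Bool × Bool} {Q : Finset Ix} {β : BD} {x w y : List Bool} {ρ : RD}
  {t t' : ℕ}

/-- If the prediction 1 is wrong no small set blocks all small changes which lead to acceptance. -/
theorem mismatch (hw : IsC w (Sum.inl ρ) y) {Λ' : ℕ}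
    (ht : w.length + Λ' + bz (Sum.inl ρ) y ^ 2 ≤ t')
    (hleg : ∀ u', DW (Sum.inr β) x t' u' → Leg (Hh δ Q (nJ (Sum.inr β)) x u') (Sum.inl ρ) y)
    {u : Finset (List Bool)} (h1 : Gd δ Q (nJ (Sum.inr β)) x w u = true)
    (h2 : pr (Hh δ Q (nJ (Sum.inr β)) x u) ρ y = 0) (Y : Finset (List Bool))
    (hY : Y.card ≤ Λ') : ∃ D : Finset (List Bool), D.Nonempty ∧ D.card ≤ bz (Sum.inl ρ) y ^ 2 ∧
      (∃ r : List Bool, r.length = mM ρ y ∧
        AccS (Hh δ Q (nJ (Sum.inr β)) x (symmDiff u D)) ρ.1 y r (tT ρ y)) ∧ Disjoint D Y := by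
  classical
  obtain ⟨S, hS1, hS2⟩ := (Gd_spec (δ := δ) (Q := Q) (m := nJ (Sum.inr β)) (x := x) w _ y hw).1 u
  set u2 := u ∩ (S ∪ Y) with hu2
  have hag : Agr (S ∪ Y) u2 u := by
    intro v hv
    rw [hu2, Finset.mem_inter]
    tauto
  have h3 : Gd δ Q (nJ (Sum.inr β)) x w u2 = true := by
    rw [hS2 u2 (hag.mono Finset.subset_union_left)]
    exact h1
  have hdw : DW (Sum.inr β) x (w.length + Λ') u2 := by
    left
    refine (Finset.card_le_card (t := S ∪ Y) ?_).trans ((Finset.card_union_le S Y).trans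
      (by omega))
    intro v hv
    exact (Finset.mem_inter.1 (Finset.mem_inter.1 hv).2).2
  have h4 : 0 < pr (Hh δ Q (nJ (Sum.inr β)) x u2) ρ y := by
    rcases hleg u2 (hdw.mono (by omega)) with h5 | h5
    · rw [Gd_mach ht hleg hw hdw h5] at h3
      simp at h3
    · exact lt_trans (by norm_num) h5
  obtain ⟨r, hr, hacc⟩ := acc_of_Val h4
  obtain ⟨S1, hS11, hS12⟩ := acc_crt (δ := δ) (Q := Q) (m := nJ (Sum.inr β)) (x := x)
    (E := Sum.inl ρ) (ρ := ρ) (y := y) (qbr_fs_le (Sum.inl ρ) y) hr u2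
  set D := S1.filter (fun v => ¬ (v ∈ u ↔ v ∈ u2)) with hD
  have hDu : Agr S1 (symmDiff u D) u2 := by
    intro v hv
    rw [Finset.mem_symmDiff, hD, Finset.mem_filter]
    tauto
  have hacc2 := (hS12 _ hDu).2 hacc
  refine ⟨D, ?_, (Finset.card_filter_le _ _).trans hS11, ⟨r, hr, hacc2⟩, ?_⟩
  · rw [Finset.nonempty_iff_ne_empty]
    intro h5
    rw [h5, ← Finset.bot_eq_empty, symmDiff_bot] at hacc2
    have := pr_pos (ρ := ρ) hr hacc2
    linarith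
  · refine Finset.disjoint_left.2 (fun v hv hvY => ?_)
    rw [hD, Finset.mem_filter] at hv
    exact hv.2 (hag v (Finset.mem_union_right _ hvY)).symm

theorem mismatch_family (hw : IsC w (Sum.inl ρ) y) {Λ' : ℕ}
    (ht : w.length + Λ' + bz (Sum.inl ρ) y ^ 2 ≤ t')
    (hleg : ∀ u', DW (Sum.inr β) x t' u' → Leg (Hh δ Q (nJ (Sum.inr β)) x u') (Sum.inl ρ) y)
    {u : Finset (List Bool)} (h1 : Gd δ Q (nJ (Sum.inr β)) x w u = true)
    (h2 : pr (Hh δ Q (nJ (Sum.inr β)) x u) ρ y = 0) {K : ℕ}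
    (hK : K * bz (Sum.inl ρ) y ^ 2 ≤ Λ') :
    ∃ F : Fin K → Finset (List Bool), (∀ i j, i ≠ j → Disjoint (F i) (F j)) ∧
      ∀ i, 0 < pr (Hh δ Q (nJ (Sum.inr β)) x (symmDiff u (F i))) ρ y := by
  classical
  obtain ⟨c, hc⟩ : ∃ c : ℕ, c = bz (Sum.inl ρ) y ^ 2 := ⟨_, rfl⟩
  set S : Set (Finset (List Bool)) := {D | D.Nonempty ∧ D.card ≤ c ∧
    ∃ r : List Bool, r.length = mM ρ y ∧
      AccS (Hh δ Q (nJ (Sum.inr β)) x (symmDiff u D)) ρ.1 y r (tT ρ y)} with hS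
  rcases disjoint_or_cover S c (fun D hD => ⟨hD.1, hD.2.1⟩) K with
    ⟨F, hF1, hF2⟩ | ⟨Y, hY1, _, hY3⟩
  · refine ⟨F, hF2, fun i => ?_⟩
    obtain ⟨r, hr, hacc⟩ := (hF1 i).2.2
    exact pr_pos (ρ := ρ) hr hacc
  · rw [hc] at hY1
    obtain ⟨D, hD1, hD2, hD3, hD4⟩ := mismatch hw ht hleg h1 h2 Y (hY1.trans hK)
    exact absurd hD4 (hY3 D ⟨hD1, by rw [hc]; exact hD2, hD3⟩)

end mis

/-- a good member of a disjoint family -/
theorem exists_index {K : ℕ} {F : Fin K → Finset (List Bool)}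
    (hF : ∀ i j, i ≠ j → Disjoint (F i) (F j)) (Z : Finset (List Bool)) {a : Fin K → ℝ}
    (ha : ∀ i, 0 ≤ a i) {κ A : ℝ} (hκ : 0 < κ) (hsum : ∑ i, a i ≤ A)
    (hK : A < ((K : ℝ) - Z.card) * κ) : ∃ i, Disjoint (F i) Z ∧ a i < κ := by
  classical
  by_contra hn
  push Not at hn
  have h1 : (Nat.card {i : Fin K // Disjoint (F i) Z} : ℝ) * κ ≤ ∑ i, a i :=
    card_sum ha hn
  have h2 := card_meet hF Z
  have h3 : K ≤ Nat.card {i : Fin K // Disjoint (F i) Z} +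
      Nat.card {i : Fin K // ¬ Disjoint (F i) Z} := by
    refine le_trans ?_ (card_or_le (fun i => Disjoint (F i) Z) (fun i => ¬ Disjoint (F i) Z))
    rw [Nat.card_congr (Equiv.subtypeUnivEquiv (fun i => Classical.em _))]
    simp
  have h4 : (K : ℝ) - Z.card ≤ (Nat.card {i : Fin K // Disjoint (F i) Z} : ℝ) := by
    have h5 : (K : ℝ) ≤ (Nat.card {i : Fin K // Disjoint (F i) Z} : ℝ) +
        (Nat.card {i : Fin K // ¬ Disjoint (F i) Z} : ℝ) := by exact_mod_cast h3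
    have h6 : (Nat.card {i : Fin K // ¬ Disjoint (F i) Z} : ℝ) ≤ (Z.card : ℝ) := by
      exact_mod_cast h2
    linarith
  have h5 : ((K : ℝ) - Z.card) * κ ≤ (Nat.card {i : Fin K // Disjoint (F i) Z} : ℝ) * κ :=
    mul_le_mul_of_nonneg_right h4 hκ.le
  linarith

section fix

variable {δ : List Bool → Bool × Bool} {Q : Finset Ix} {L : ℕ} {β : BD} {x : List Bool}

/-- the invariant of the repair: the watched machine has probability near one half, and the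
indices in `D` are illegitimate -/
structure Rep (δ : List Bool → Bool × Bool) (Q : Finset Ix) (m : ℕ) (x : List Bool) (N : ℕ)
    (p : Prog) (z : List Bool) (M T : ℕ) (η κ : ℝ) (u : Finset (List Bool)) (D : Finset Ix) :
    Prop where
  sub : D ⊆ Q
  near : |pa (Hh δ Q m x u) p z M T - 1 / 2| ≤ η + D.card * κ
  ill : ∀ E ∈ D, ∃ (ρ : RD) (y : List Bool), E = Sum.inl ρ ∧ bz E y ^ 2 ≤ N ∧ bz E y < N ∧
    0 < pr (Hh δ Q m x u) ρ y ∧ pr (Hh δ Q m x u) ρ y ≤ 1 / 4 + D.card * κ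

/-- no wrong predictions outside of `D` -/
def NoMis (δ : List Bool → Bool × Bool) (Q : Finset Ix) (m : ℕ) (x : List Bool) (N : ℕ)
    (u : Finset (List Bool)) (D : Finset Ix) : Prop :=
  ∀ E ∈ Q, E ∉ D → ∀ w y : List Bool, IsC w E y → x.length ≤ w.length → w.length < N →
    Leg (Hh δ Q m x u) E y → (Gd δ Q m x w u = true ↔ Val (Hh δ Q m x u) E y)

open Classical in
theorem rep_step {N Λ K : ℕ} {p : Prog} {z : List Bool} {M T : ℕ} {η κ : ℝ}
    (hleg : ∀ E ∈ Q, ∀ w y : List Bool, IsC w E y → w.length < N → ∀ u',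
      DW (Sum.inr β) x Λ u' → Leg (Hh δ Q (nJ (Sum.inr β)) x u') E y)
    (hN : 1 ≤ N) (hqb : qb p z M T ≤ N) (hTN : T ≤ N) (hκ : 0 < κ) (hκ4 : κ ≤ 1 / 4)
    (hΛ : K * N + 2 * N ≤ Λ)
    (hK : ((Q.card : ℝ) + 2) * (N * N) < ((K : ℝ) - Q.card * (N * N)) * κ)
    {u : Finset (List Bool)} {D : Finset Ix}
    (hR : Rep δ Q (nJ (Sum.inr β)) x N p z M T η κ u D) {ρ : RD} (hE : Sum.inl ρ ∈ Q)
    (hED : (Sum.inl ρ : Ix) ∉ D) {w y : List Bool} (hw : IsC w (Sum.inl ρ) y)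
    (hwN : w.length < N) (h1 : Gd δ Q (nJ (Sum.inr β)) x w u = true)
    (h2 : pr (Hh δ Q (nJ (Sum.inr β)) x u) ρ y = 0) :
    ∃ u', Rep δ Q (nJ (Sum.inr β)) x N p z M T η κ u' (insert (Sum.inl ρ : Ix) D) := by
  classical
  have hb2 : bz (Sum.inl ρ) y ^ 2 ≤ N := by
    have h3 := hw.lt
    have h4 : bz (Sum.inl ρ) y ^ 2 ≤ bz (Sum.inl ρ) y ^ 7 :=
      Nat.pow_le_pow_right (by have := bz_ge (Sum.inl ρ) y; omega) (by norm_num)
    omega
  have hbN : bz (Sum.inl ρ) y < N := hw.bz_lt.trans hwN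
  have hKb : K * bz (Sum.inl ρ) y ^ 2 ≤ K * N := Nat.mul_le_mul_left _ hb2
  obtain ⟨F, hF1, hF2⟩ := mismatch_family (t' := Λ) (Λ' := K * N) hw (by omega)
    (hleg _ hE w y hw hwN) h1 h2 hKb
  -- certificates of the indices in `D`
  have hZ : ∀ E ∈ D, ∃ (ρ' : RD) (y' : List Bool) (S : Finset (List Bool)), E = Sum.inl ρ' ∧
      bz E y' ^ 2 ≤ N ∧ bz E y' < N ∧
      pr (Hh δ Q (nJ (Sum.inr β)) x u) ρ' y' ≤ 1 / 4 + D.card * κ ∧ S.card ≤ N * N ∧
      ∀ u', Agr S u' u → 0 < pr (Hh δ Q (nJ (Sum.inr β)) x u') ρ' y' := by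
    intro E hE
    obtain ⟨ρ', y', rfl, h3, h4, h5, h6⟩ := hR.ill E hE
    obtain ⟨r, hr, hacc⟩ := acc_of_Val h5
    obtain ⟨S, hS1, hS2⟩ := acc_crt (δ := δ) (Q := Q) (m := nJ (Sum.inr β)) (x := x)
      (E := Sum.inl ρ') (ρ := ρ') (y := y') (qbr_fs_le (Sum.inl ρ') y') hr u
    refine ⟨ρ', y', S, rfl, h3, h4, h6, hS1.trans (h3.trans ?_), fun u' hu' => ?_⟩
    · exact Nat.le_mul_self N
    · exact pr_pos (ρ := ρ') hr ((hS2 u' hu').2 hacc)
  choose! R Yv Sv hZ1 hZ2 hZ3 hZ4 hZ5 hZ6 using hZ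
  set Z : Finset (List Bool) := D.biUnion Sv with hZd
  have hZc : Z.card ≤ Q.card * (N * N) :=
    (Finset.card_biUnion_le_card_mul D Sv (N * N) (fun E hE => hZ5 E hE)).trans
      (Nat.mul_le_mul_right _ (Finset.card_le_card hR.sub))
  have hCer : Cer (Hh δ Q (nJ (Sum.inr β)) x) N N := Hh_Cer hN
  -- the changes
  set a0 : Fin K → ℝ := fun i => |pa (Hh δ Q (nJ (Sum.inr β)) x (symmDiff u (F i))) p z M T -
    pa (Hh δ Q (nJ (Sum.inr β)) x u) p z M T| with ha0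
  set a1 : Ix → Fin K → ℝ := fun E i =>
    |pr (Hh δ Q (nJ (Sum.inr β)) x (symmDiff u (F i))) (R E) (Yv E) -
      pr (Hh δ Q (nJ (Sum.inr β)) x u) (R E) (Yv E)| with ha1
  set a2 : Fin K → ℝ := fun i =>
    |pr (Hh δ Q (nJ (Sum.inr β)) x (symmDiff u (F i))) ρ y -
      pr (Hh δ Q (nJ (Sum.inr β)) x u) ρ y| with ha2
  have hNN : (T : ℝ) * N ≤ N * N := by
    have : (T : ℝ) ≤ N := by exact_mod_cast hTN
    exact mul_le_mul_of_nonneg_right this (Nat.cast_nonneg _)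
  have hs0 : ∑ i, a0 i ≤ (N : ℝ) * N := (hCer.sum_pa hF1 u hqb).trans hNN
  have hprs : ∀ (ρ' : RD) (y' : List Bool), bz (Sum.inl ρ') y' < N →
      ∑ i, |pr (Hh δ Q (nJ (Sum.inr β)) x (symmDiff u (F i))) ρ' y' -
        pr (Hh δ Q (nJ (Sum.inr β)) x u) ρ' y'| ≤ (N : ℝ) * N := by
    intro ρ' y' hb
    have h3 : qbr ρ' y' ≤ bz (Sum.inl ρ') y' := qbr_fs_le (Sum.inl ρ') y'
    have h4 := tT_le ρ' y'
    refine (hCer.sum_pa hF1 u (p := ρ'.1) (x := y') (M := mM ρ' y') (T := tT ρ' y')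
      (le_trans h3 (by omega))).trans ?_
    have : (tT ρ' y' : ℝ) ≤ N := by exact_mod_cast (show tT ρ' y' ≤ N by omega)
    exact mul_le_mul_of_nonneg_right this (Nat.cast_nonneg _)
  have hs1 : ∀ E ∈ D, ∑ i, a1 E i ≤ (N : ℝ) * N := fun E hE => by
    refine hprs (R E) (Yv E) ?_
    have h3 := hZ3 E hE
    rw [hZ1 E hE] at h3
    have h4 : Yv (Sum.inl (R E)) = Yv E := by rw [← hZ1 E hE]
    rw [h4] at h3
    exact h3
  have hs2 : ∑ i, a2 i ≤ (N : ℝ) * N := hprs ρ y hbN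
  set a : Fin K → ℝ := fun i => a0 i + (∑ E ∈ D, a1 E i) + a2 i with ha
  have hpos : ∀ i, 0 ≤ a i := fun i => by
    have h3 : 0 ≤ ∑ E ∈ D, a1 E i := Finset.sum_nonneg (fun E _ => abs_nonneg _)
    have h4 : 0 ≤ a0 i := abs_nonneg _
    have h5 : 0 ≤ a2 i := abs_nonneg _
    show 0 ≤ a0 i + (∑ E ∈ D, a1 E i) + a2 i
    linarith
  have hsum : ∑ i, a i ≤ ((Q.card : ℝ) + 2) * (N * N) := by
    have h3 : ∑ i, a i = ∑ i, a0 i + (∑ E ∈ D, ∑ i, a1 E i) + ∑ i, a2 i := by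
      rw [ha, Finset.sum_add_distrib, Finset.sum_add_distrib, Finset.sum_comm]
    have h4 : ∑ E ∈ D, ∑ i, a1 E i ≤ (Q.card : ℝ) * (N * N) := by
      refine (Finset.sum_le_card_nsmul D _ _ hs1).trans ?_
      rw [nsmul_eq_mul]
      refine mul_le_mul_of_nonneg_right ?_ (by positivity)
      exact_mod_cast Finset.card_le_card hR.sub
    rw [h3]
    linarith
  have hK' : ((Q.card : ℝ) + 2) * (N * N) < ((K : ℝ) - Z.card) * κ := by
    refine lt_of_lt_of_le hK (mul_le_mul_of_nonneg_right ?_ hκ.le)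
    have : (Z.card : ℝ) ≤ Q.card * (N * N) := by exact_mod_cast hZc
    linarith
  obtain ⟨i, hi1, hi2⟩ := exists_index hF1 Z hpos hκ hsum hK'
  have hi2' : a0 i + (∑ E ∈ D, a1 E i) + a2 i < κ := hi2
  have hDn : 0 ≤ ∑ E ∈ D, a1 E i := Finset.sum_nonneg (fun E _ => abs_nonneg _)
  have h0n : 0 ≤ a0 i := abs_nonneg _
  have h2n : 0 ≤ a2 i := abs_nonneg _
  have hcard : ((insert (Sum.inl ρ : Ix) D).card : ℝ) = D.card + 1 := by
    rw [Finset.card_insert_of_notMem hED]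
    push_cast
    rfl
  have hDc : (0 : ℝ) ≤ (D.card : ℝ) := Nat.cast_nonneg _
  refine ⟨symmDiff u (F i), ⟨Finset.insert_subset hE hR.sub, ?_, fun E hE' => ?_⟩⟩
  · rw [hcard]
    have h3 := hR.near
    have h4 : |pa (Hh δ Q (nJ (Sum.inr β)) x (symmDiff u (F i))) p z M T - 1 / 2| ≤
        a0 i + |pa (Hh δ Q (nJ (Sum.inr β)) x u) p z M T - 1 / 2| := abs_sub_le _ _ _
    nlinarith
  · rw [hcard]
    rcases Finset.mem_insert.1 hE' with rfl | hE'
    · refine ⟨ρ, y, rfl, hb2, hbN, hF2 i, ?_⟩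
      have h3 : a2 i < κ := by linarith
      have h4 := le_abs_self (pr (Hh δ Q (nJ (Sum.inr β)) x (symmDiff u (F i))) ρ y -
        pr (Hh δ Q (nJ (Sum.inr β)) x u) ρ y)
      have h5 : pr (Hh δ Q (nJ (Sum.inr β)) x (symmDiff u (F i))) ρ y ≤ a2 i := by
        rw [h2, sub_zero] at h4
        rw [ha2]
        simp only
        rw [h2, sub_zero]
        exact h4
      nlinarith
    · refine ⟨R E, Yv E, hZ1 E hE', hZ2 E hE', hZ3 E hE', ?_, ?_⟩
      · refine hZ6 E hE' _ (agr_symmDiff ?_)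
        exact Finset.disjoint_of_subset_right (Finset.subset_biUnion_of_mem Sv hE') hi1
      · have h3 : a1 E i ≤ ∑ E ∈ D, a1 E i :=
          Finset.single_le_sum (f := fun E => a1 E i) (fun _ _ => abs_nonneg _) hE'
        have h4 := hZ4 E hE'
        have h5 := le_abs_self (pr (Hh δ Q (nJ (Sum.inr β)) x (symmDiff u (F i))) (R E) (Yv E) -
          pr (Hh δ Q (nJ (Sum.inr β)) x u) (R E) (Yv E))
        have h6 : a1 E i < κ := by linarith
        have h7 : pr (Hh δ Q (nJ (Sum.inr β)) x (symmDiff u (F i))) (R E) (Yv E) -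
          pr (Hh δ Q (nJ (Sum.inr β)) x u) (R E) (Yv E) < κ := lt_of_le_of_lt h5 h6
        linarith

end fix

end Pool.Agent.Helper56.PT
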