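import Pool.Agent.Helper56.PT.Ve

/-!
The stages of the third construction.
-/

set_option autoImplicit false

namespace Pool.Agent.Helper56.PT

open Dat

section pairs

variable {δ : List Bool → Bool × Bool} {Q : Finset Ix} {L : ℕ} {j : Jx} {x : List Bool}

/-- the predictions for pairs are never wrong -/
theorem pair_ok {P : PD} {w y : List Bool} {t : ℕ} (hw : IsC w (Sum.inr P) y)
    (ht : 2 * bz (Sum.inr P) y ^ 2 ≤ t)
    (hleg : ∀ u', DW j x t u' → Leg (Hh δ Q (nJ j) x u') (Sum.inr P) y)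
    {u : Finset (List Bool)} (hl : Leg (Hh δ Q (nJ j) x u) (Sum.inr P) y) :
    Gd δ Q (nJ j) x w u = true ↔ Val (Hh δ Q (nJ j) x u) (Sum.inr P) y := by
  constructor
  · intro h3
    by_contra hn
    rcases hl with ⟨h5, _⟩ | ⟨_, h5⟩
    · exact hn h5
    · obtain ⟨r, hr, hacc⟩ := acc_of_Val (lt_trans (by norm_num) h5)
      rw [Gd_pair ht hleg hw hr hacc] at h3
      simp at h3
  · intro h3
    have h4 : 0 < pr (Hh δ Q (nJ j) x u) (fs (Sum.inr P)) y := lt_trans (by norm_num) h3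
    obtain ⟨r, hr, hacc⟩ := acc_of_Val h4
    exact Gd_true hw hr hacc

end pairs

section fix

variable {δ : List Bool → Bool × Bool} {Q : Finset Ix} {L : ℕ} {β : BD} {x : List Bool}

theorem rep_fix {N Λ K : ℕ} {p : Prog} {z : List Bool} {M T : ℕ} {η κ : ℝ}
    (hleg : ∀ E ∈ Q, ∀ w y : List Bool, IsC w E y → w.length < N → ∀ u',
      DW (Sum.inr β) x Λ u' → Leg (Hh δ Q (nJ (Sum.inr β)) x u') E y)
    (hN : 1 ≤ N) (hqb : qb p z M T ≤ N) (hTN : T ≤ N) (hκ : 0 < κ) (hκ4 : κ ≤ 1 / 4)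
    (hΛ : K * N + 2 * N ≤ Λ)
    (hK : ((Q.card : ℝ) + 2) * (N * N) < ((K : ℝ) - Q.card * (N * N)) * κ) :
    ∀ (n : ℕ) (u : Finset (List Bool)) (D : Finset Ix), Q.card - D.card = n →
      Rep δ Q (nJ (Sum.inr β)) x N p z M T η κ u D →
      ∃ u' D', Rep δ Q (nJ (Sum.inr β)) x N p z M T η κ u' D' ∧
        NoMis δ Q (nJ (Sum.inr β)) x N u' D' := by
  classical
  intro n
  induction n using Nat.strong_induction_on with
  | _ n ih =>
    intro u D hn hR
    by_cases hno : NoMis δ Q (nJ (Sum.inr β)) x N u D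
    · exact ⟨u, D, hR, hno⟩
    · simp only [NoMis, not_forall] at hno
      obtain ⟨E, hE, hED, w, y, hw, hxw, hwN, hlg, hne⟩ := hno
      have hb2 : bz E y ^ 2 ≤ N := by
        have h3 := hw.lt
        have h4 : bz E y ^ 2 ≤ bz E y ^ 7 :=
          Nat.pow_le_pow_right (by have := bz_ge E y; omega) (by norm_num)
        omega
      rcases E with ρ | P
      · -- a machine
        have h1 : Gd δ Q (nJ (Sum.inr β)) x w u = true := by
          by_contra h1
          refine hne ⟨fun h => absurd h h1, fun h => ?_⟩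
          have h4 : 0 < pr (Hh δ Q (nJ (Sum.inr β)) x u) (fs (Sum.inl ρ)) y :=
            lt_trans (by norm_num) h
          obtain ⟨r, hr, hacc⟩ := acc_of_Val h4
          exact absurd (Gd_true hw hr hacc) h1
        have h2 : pr (Hh δ Q (nJ (Sum.inr β)) x u) ρ y = 0 := by
          rcases hlg with h2 | h2
          · exact h2
          · exact absurd (iff_of_true h1 h2) hne
        obtain ⟨u', hR'⟩ := rep_step hleg hN hqb hTN hκ hκ4 hΛ hK hR hE hED hw hwN h1 h2
        have hsub := Finset.card_le_card hR'.sub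
        rw [Finset.card_insert_of_notMem hED] at hsub
        refine ih (Q.card - (insert (Sum.inl ρ : Ix) D).card) ?_ u' _ rfl hR'
        rw [Finset.card_insert_of_notMem hED]
        omega
      · exact absurd (pair_ok (j := Sum.inr β) (t := Λ) hw (by omega)
          (hleg _ hE w y hw hwN) hlg) hne

end fix

/-! ### transitions -/

/-- transitions between states -/
structure Stp (δ : List Bool → Bool × Bool) (L : ℕ) (Q : Finset Ix)
    (δ' : List Bool → Bool × Bool) (L' : ℕ) (Q' : Finset Ix) : Prop where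
  le : L ≤ L'
  agr : ∀ w : List Bool, w.length < L → δ' w = δ w
  sub : Q' ⊆ Q
  act : ∀ w : List Bool, L ≤ w.length → Cod Q' w → (δ' w).1 = true
  ill : ∀ E ∈ Q, E ∉ Q' → ∀ δ'' : List Bool → Bool × Bool,
    (∀ w : List Bool, w.length < L' → δ'' w = δ' w) → ∃ y : List Bool, ¬ Leg (Om3 δ'') E y

theorem Cod.mono {Q Q' : Finset Ix} {w : List Bool} (h : Cod Q w) (hQ : Q ⊆ Q') : Cod Q' w := by
  obtain ⟨E, hE, y, hy⟩ := h
  exact ⟨E, hQ hE, y, hy⟩

theorem Stp.trans {δ δ' δ'' : List Bool → Bool × Bool} {L L' L'' : ℕ} {Q Q' Q'' : Finset Ix}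
    (h : Stp δ L Q δ' L' Q') (h' : Stp δ' L' Q' δ'' L'' Q'') : Stp δ L Q δ'' L'' Q'' where
  le := h.le.trans h'.le
  agr w hw := by rw [h'.agr w (lt_of_lt_of_le hw h.le), h.agr w hw]
  sub := h'.sub.trans h.sub
  act w hw hc := by
    by_cases h1 : w.length < L'
    · rw [h'.agr w h1]
      exact h.act w hw (hc.mono h'.sub)
    · exact h'.act w (not_lt.1 h1) hc
  ill E hE hE'' δ₁ hagr := by
    by_cases h1 : E ∈ Q'
    · exact h'.ill E h1 hE'' δ₁ hagr
    · refine h.ill E hE h1 δ₁ (fun w hw => ?_)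
      rw [hagr w (lt_of_lt_of_le hw h'.le), h'.agr w hw]

/-- a good extension such that all further oracles satisfy `R` -/
def Ext3 (δ : List Bool → Bool × Bool) (L : ℕ) (Q : Finset Ix) (R : (List Bool → Bool) → Prop) :
    Prop :=
  ∃ (δ' : List Bool → Bool × Bool) (L' : ℕ) (Q' : Finset Ix), Stp δ L Q δ' L' Q' ∧ L < L' ∧
    Good3 δ' L' Q' ∧ ∀ δ'' : List Bool → Bool × Bool,
      (∀ w : List Bool, w.length < L' → δ'' w = δ' w) → R (Om3 δ'')

section new

variable {δ : List Bool → Bool × Bool} {Q : Finset Ix} {L : ℕ} {j : Jx} {x : List Bool}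

open Classical in
theorem new_state (hG : Good3 δ L Q) (hL : L ≤ x.length) {N : ℕ}
    (hN : b5 (kT (nJ j) true) x < N) {u : Finset (List Bool)} {D : Finset Ix}
    {π : List Bool → Bool} {R : (List Bool → Bool) → Prop}
    (hok : Okc j x u ∨ ∀ δ'' : List Bool → Bool × Bool,
      (∀ w : List Bool, w.length < N → δ'' w = dl3 δ Q (nJ j) x u D π w) → DeadJ j (Om3 δ''))
    (hill : ∀ E ∈ D, ∀ δ'' : List Bool → Bool × Bool,
      (∀ w : List Bool, w.length < N → δ'' w = dl3 δ Q (nJ j) x u D π w) →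
        ∃ y : List Bool, ¬ Leg (Om3 δ'') E y)
    (hR : ∀ δ'' : List Bool → Bool × Bool,
      (∀ w : List Bool, w.length < N → δ'' w = dl3 δ Q (nJ j) x u D π w) → R (Om3 δ'')) :
    Ext3 δ L Q R := by
  have hxN := lt_b5 (nJ j) true x
  set δ' : List Bool → Bool × Bool := fun w => if w.length < N then dl3 δ Q (nJ j) x u D π w
    else dflt3 (Q \ D) w with hδ'
  have hlt : ∀ w : List Bool, w.length < N → δ' w = dl3 δ Q (nJ j) x u D π w := fun w hw =>
    if_pos hw
  have hge : ∀ w : List Bool, N ≤ w.length → δ' w = dflt3 (Q \ D) w := fun w hw =>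
    if_neg (not_lt.2 hw)
  have hagr' : ∀ δ'' : List Bool → Bool × Bool, (∀ w : List Bool, w.length < N → δ'' w = δ' w) →
      ∀ w : List Bool, w.length < N → δ'' w = dl3 δ Q (nJ j) x u D π w := fun δ'' h w hw => by
    rw [h w hw, hlt w hw]
  have hnot : ∀ w, Cod (Q \ D) w → ¬ Cod D w := by
    rintro w ⟨E, hE, y, hy⟩ ⟨E', hE', y', hy'⟩
    obtain ⟨rfl, _⟩ := hy.inj hy'
    exact (Finset.mem_sdiff.1 hE).2 hE'
  refine ⟨δ', N, Q \ D, ⟨by omega, fun w hw => ?_, Finset.sdiff_subset, fun w hw hc => ?_,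
    fun E hE hE' δ'' hagr => ?_⟩, by omega, ⟨fun w hw => hge w hw, fun j' x' hj' δ'' hagr => ?_⟩,
    fun δ'' hagr => hR δ'' (hagr' δ'' hagr)⟩
  · rw [hlt w (by omega), dl3_low (by omega)]
  · by_cases h1 : w.length < N
    · rw [hlt w h1]
      have hcQ : Cod Q w := hc.mono Finset.sdiff_subset
      by_cases h2 : x.length ≤ w.length
      · rw [dl3_Cod h2 hcQ]
        simp [hnot w hc]
      · rw [dl3_low (not_le.1 h2), hG.dfl w hw, dflt3]
        simp [hcQ]
    · rw [hge w (not_lt.1 h1), dflt3]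
      simp [hc]
  · refine hill E ?_ δ'' (hagr' δ'' hagr)
    by_contra hn
    exact hE' (Finset.mem_sdiff.2 ⟨hE, hn⟩)
  · by_cases hne : j' = j ∧ x' = x
    · obtain ⟨rfl, rfl⟩ := hne
      rcases hok with h | h
      · exfalso
        apply hj'
        rw [Ok3_congr (δ' := dl3 δ Q (nJ j') x' u D π) (fun w hw => hlt w (by
          rw [length_TB hw]; exact hN)), Ok3_dl3]
        exact h
      · exact h δ'' (hagr' δ'' hagr)
    · by_cases hb : b5 (kT (nJ j') true) x' < N
      · refine hG.dead j' x' (fun h => hj' ?_) δ'' (fun w hw => ?_)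
        · rw [Ok3_congr (δ' := dl3 δ Q (nJ j) x u D π) (fun w hw => hlt w (by
            rw [length_TB hw]; exact hb)), Ok3_dl3_other hne]
          exact h
        · rw [hagr w (by omega), hlt w (by omega), dl3_low (by omega)]
      · exact absurd (Ok3_zero (fun w hw => by
          rw [hge w (by rw [length_TB hw]; exact not_lt.1 hb)]
          rfl)) hj'

end new

/-! ### requirements -/

/-- the machine of a test index -/
def mach : Jx → RD
  | Sum.inl ρ => ρ
  | Sum.inr β => (β.1, β.2.1, β.2.2.1)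

/-- threshold of a test index -/
noncomputable def thr : Jx → ℝ
  | Sum.inl _ => 1 / 4
  | Sum.inr _ => 1 / 2

theorem Via.pr {O : List Bool → Bool} {ρ : RD} {A : Set (List Bool)}
    (h : Via O ρ.1 ρ.2.1 ρ.2.2 A) (z : List Bool) :
    PT.pr O ρ z = Pr ((z.length + 2) ^ ρ.2.1) (Accepts O ρ.1 z) := by
  rw [PT.pr, PT.pa, mM, tT]
  exact Pr_congr (fun r hr => accS_iff h.1 hr le_rfl)

theorem ViaJ.pos {O : List Bool → Bool} {j : Jx} {A : Set (List Bool)} (h : ViaJ j O A)
    {z : List Bool} (hz : thr j < pr O (mach j) z) : z ∈ A := by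
  by_contra hn
  cases j with
  | inl ρ =>
    have h1 : Via O ρ.1 ρ.2.1 ρ.2.2 A := h
    have h2 : (1 / 4 : ℝ) < pr O ρ z := hz
    rw [h1.pr, (h1.2 z).2 hn] at h2
    linarith
  | inr β =>
    have h1 : (1 / 2 : ℝ) < pr O (β.1, β.2.1, β.2.2.1) z := hz
    have h2 : pr O (β.1, β.2.1, β.2.2.1) z = Pr ((z.length + 2) ^ β.2.1) (Accepts O β.1 z) := by
      rw [pr, pa, mM, tT]
      exact Pr_congr (fun r hr => accS_iff h.1 hr le_rfl)
    have h3 := h.2 z
    have h4 : Pr ((z.length + 2) ^ β.2.1) (fun r => Accepts O β.1 z r ↔ z ∈ A) =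
        Pr ((z.length + 2) ^ β.2.1) (fun r => ¬ Accepts O β.1 z r) :=
      Pr_congr (fun r _ => by simp [hn])
    have h5 := Pr_add_not ((z.length + 2) ^ β.2.1) (Accepts O β.1 z)
    have h6 : (0 : ℝ) < 1 / ((β.2.2.2 : ℝ) + 1) := by positivity
    rw [h4] at h3
    rw [h2] at h1
    have h7 : Pr ((z.length + 2) ^ β.2.1) (fun r => ¬ Accepts O β.1 z r) =
      Pr ((z.length + 2) ^ β.2.1) (fun r => ¬ (Accepts O β.1 z) r) := rfl
    linarith

theorem ViaJ.neg {O : List Bool → Bool} {j : Jx} {A : Set (List Bool)} (h : ViaJ j O A)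
    {z : List Bool} (hz : pr O (mach j) z < thr j) : z ∉ A := by
  intro hn
  cases j with
  | inl ρ =>
    have h1 : Via O ρ.1 ρ.2.1 ρ.2.2 A := h
    have h2 : pr O ρ z < (1 / 4 : ℝ) := hz
    rw [h1.pr] at h2
    have := (h1.2 z).1 hn
    linarith
  | inr β =>
    have h1 : pr O (β.1, β.2.1, β.2.2.1) z < (1 / 2 : ℝ) := hz
    have h2 : pr O (β.1, β.2.1, β.2.2.1) z = Pr ((z.length + 2) ^ β.2.1) (Accepts O β.1 z) := by
      rw [pr, pa, mM, tT]
      exact Pr_congr (fun r hr => accS_iff h.1 hr le_rfl)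
    have h3 := h.2 z
    have h4 : Pr ((z.length + 2) ^ β.2.1) (fun r => Accepts O β.1 z r ↔ z ∈ A) =
        Pr ((z.length + 2) ^ β.2.1) (Accepts O β.1 z) :=
      Pr_congr (fun r _ => by simp [hn])
    have h6 : (0 : ℝ) < 1 / ((β.2.2.2 : ℝ) + 1) := by positivity
    rw [h4] at h3
    rw [h2] at h1
    linarith

/-- the density of a block of an oracle -/
noncomputable def dnO (O : List Bool → Bool) (m : ℕ) (x : List Bool) : ℝ :=
  Pr ((x.length + 2) ^ 5) (fun r => O (st (kT m true) x r) = true)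

/-- the test set of an index -/
def TS : Jx → (List Bool → Bool) → Set (List Bool)
  | Sum.inl ρ, O => {x | 0 < dnO O (nJ (Sum.inl ρ)) x}
  | Sum.inr β, O => {x | 1 / 2 < dnO O (nJ (Sum.inr β)) x}

theorem dnO_Om3 {δ : List Bool → Bool × Bool} {m : ℕ} {x : List Bool} :
    dnO (Om3 δ) m x = dens δ m x :=
  Pr_congr (fun r _ => by rw [Om3_N (fun ⟨_, _, h⟩ => not_IsC_T h)])

/-- the requirement -/
def ReqJ (j : Jx) (g : Prog) (e : ℕ) (O : List Bool → Bool) : Prop :=
  ∀ (A : Set (List Bool)) (f : List Bool → List Bool), ViaJ j O A →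
    (∀ x : List Bool, RunLe O g (enc x) (enc (f x)) ((x.length + 2) ^ e)) →
    ¬ ∀ x : List Bool, x ∈ TS j O ↔ f x ∈ A

theorem DeadJ.req {j : Jx} {g : Prog} {e : ℕ} {O : List Bool → Bool} (h : DeadJ j O) :
    ReqJ j g e O := fun A _ hV _ _ => h A hV

theorem reqJ_of {j : Jx} {g : Prog} {e : ℕ} {O : List Bool → Bool} {x z : List Bool}
    (hf : ∀ f : List Bool → List Bool,
      (∀ x : List Bool, RunLe O g (enc x) (enc (f x)) ((x.length + 2) ^ e)) → f x = z)
    (h : (x ∉ TS j O ∧ thr j < pr O (mach j) z) ∨ (x ∈ TS j O ∧ pr O (mach j) z < thr j)) :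
    ReqJ j g e O := by
  intro A f hV hf' hred
  have h1 := hf f hf'
  have h2 := hred x
  rw [h1] at h2
  rcases h with ⟨h3, h4⟩ | ⟨h3, h4⟩
  · exact h3 (h2.2 (hV.pos h4))
  · exact hV.neg h4 (h2.1 h3)

theorem not_mem_TS {j : Jx} {O : List Bool → Bool} {x : List Bool}
    (h : dnO O (nJ j) x = 0) : x ∉ TS j O := by
  cases j with
  | inl ρ =>
    intro h1
    have h2 : 0 < dnO O (nJ (Sum.inl ρ)) x := h1
    linarith
  | inr β =>
    intro h1
    have h2 : 1 / 2 < dnO O (nJ (Sum.inr β)) x := h1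
    linarith

theorem mem_TS {j : Jx} {O : List Bool → Bool} {x : List Bool}
    (h : 3 / 4 < dnO O (nJ j) x) : x ∈ TS j O := by
  cases j with
  | inl ρ =>
    show 0 < dnO O (nJ (Sum.inl ρ)) x
    linarith
  | inr β =>
    show 1 / 2 < dnO O (nJ (Sum.inr β)) x
    linarith

end Pool.Agent.Helper56.PT
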