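import Pool.Agent.Helper56.PT.Vf

/-!
The diagonalisation of the third construction.
-/

set_option autoImplicit false

namespace Pool.Agent.Helper56.PT

open Dat

section kill

variable {δ : List Bool → Bool × Bool} {Q : Finset Ix} {L : ℕ} {j : Jx} {x : List Bool}

/-- legitimacy at deep contents -/
theorem leg_deep (hG : Good3 δ L Q) (hst : Stable δ L Q) (hL : L ≤ x.length) (hQ : QOk j Q)
    {Λ N : ℕ} (hΛ : 2 * N ≤ Λ) (hx : 4 * (Λ + N * N) < 2 ^ (x.length / 2)) :
    ∀ E ∈ Q, ∀ w y : List Bool, IsC w E y → w.length < N → ∀ u',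
      DW j x Λ u' → Leg (Hh δ Q (nJ j) x u') E y := by
  intro E hE w y hw hwN u' hu'
  have h1 := valid hG hst hL hQ hΛ hx w.length hwN.le u' (hu'.mono (Nat.le_add_right _ _))
  exact Vld.leg hG hst hL (Okc_DW (by omega) hu') h1 hE hw.bz_lt

/-- if there are no wrong predictions the predicted oracle is the oracle -/
theorem om3_eq (hG : Good3 δ L Q) (hL : L ≤ x.length) {N : ℕ} {u : Finset (List Bool)}
    {D : Finset Ix} (hno : NoMis δ Q (nJ j) x N u D) :
    ∀ (n : ℕ) (v : List Bool), v.length = n → v.length < N →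
      Om3 (dl3 δ Q (nJ j) x u D (fun w => Gd δ Q (nJ j) x w u)) v = Hh δ Q (nJ j) x u v := by
  classical
  intro n
  induction n using Nat.strong_induction_on with
  | _ n ih =>
    intro v hv hvN
    by_cases h1 : v ∈ TB (nJ j) x
    · rw [Hh_TB h1, Om3_F (by rw [dl3_TB h1]), dl3_TB h1]
    · by_cases h2 : x.length ≤ v.length ∧ Cod Q v
      · rw [Hh_Cod h2.1 h2.2]
        by_cases h3 : Cod D v
        · rw [Om3_F (by rw [dl3_Cod h2.1 h2.2]; simp [h3]), dl3_Cod h2.1 h2.2]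
        · obtain ⟨E, hE, y, hy⟩ := h2.2
          have hED : E ∉ D := fun h => h3 ⟨E, h, y, hy⟩
          have hbz := hy.bz_lt
          have hag : ∀ v' : List Bool, v'.length ≤ bz E y →
              Om3 (dl3 δ Q (nJ j) x u D (fun w => Gd δ Q (nJ j) x w u)) v' =
                Hh δ Q (nJ j) x u v' := fun v' hv' => ih v'.length (by omega) v' rfl (by omega)
          rw [Bool.eq_iff_iff, Om3_C hy (by rw [dl3_Cod h2.1 h2.2]; simp [h3]), Leg_congr hag,
            Val_congr hag, dl3_Cod h2.1 h2.2]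
          by_cases hl : Leg (Hh δ Q (nJ j) x u) E y
          · rw [hno E hE hED v y hy h2.1 hvN hl]
            simp [hl]
          · simp [hl]
      · rw [Hh_other h1 h2]
        exact Om3_dl3_other hG hL h1 h2

/-- the case of a gap at all contents -/
theorem kill_core (hG : Good3 δ L Q) (hst : Stable δ L Q) (hL : L ≤ x.length) (hQ : QOk j Q)
    {Λ N K : ℕ} (hΛ : 2 * N ≤ Λ) (hx : 4 * (Λ + N * N) < 2 ^ (x.length / 2)) {g : Prog} {e : ℕ}
    (hNb : b5 (kT (nJ j) true) x < N) {QG : Finset (List Bool)} {z : List Bool} (hN1 : 1 ≤ N)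
    (hQG : ∀ v ∈ QG, v.length < N) (hqb : qbr (mach j) z < N)
    (hout : ∀ O' : List Bool → Bool, (∀ v ∈ QG, O' v = Hh δ Q (nJ j) x ∅ v) →
      ∀ f : List Bool → List Bool,
        (∀ x : List Bool, RunLe O' g (enc x) (enc (f x)) ((x.length + 2) ^ e)) → f x = z)
    {η : ℝ} (hη : 0 < η) (hK : (N : ℝ) * N < K * (2 * η))
    (hΛK : QG.card * N + K * K ≤ Λ)
    (hgap : ∀ u : Finset (List Bool), η ≤ |pr (Hh δ Q (nJ j) x u) (mach j) z - thr j|) :
    Ext3 δ L Q (ReqJ j g e) := by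
  classical
  have hval : ∀ u, DW j x Λ u → ∀ (π : List Bool → Bool) (δ'' : List Bool → Bool × Bool),
      (∀ w : List Bool, w.length < N → δ'' w = dl3 δ Q (nJ j) x u ∅ π w) →
      ∀ v : List Bool, v.length < N → Om3 δ'' v = Hh δ Q (nJ j) x u v := by
    intro u hu π δ'' hagr v hv
    rw [Om3_congr hagr _ v rfl hv]
    exact valid hG hst hL hQ hΛ hx N le_rfl u (hu.mono (Nat.le_add_right _ _)) π v hv
  have hpr : ∀ u, DW j x Λ u → ∀ (π : List Bool → Bool) (δ'' : List Bool → Bool × Bool),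
      (∀ w : List Bool, w.length < N → δ'' w = dl3 δ Q (nJ j) x u ∅ π w) →
      pr (Om3 δ'') (mach j) z = pr (Hh δ Q (nJ j) x u) (mach j) z := fun u hu π δ'' hagr =>
    pr_congr (fun v hv => hval u hu π δ'' hagr v (by omega))
  have hdn : ∀ u (π : List Bool → Bool) (δ'' : List Bool → Bool × Bool),
      (∀ w : List Bool, w.length < N → δ'' w = dl3 δ Q (nJ j) x u ∅ π w) →
      dnO (Om3 δ'') (nJ j) x = dens (dl3 δ Q (nJ j) x u ∅ π) (nJ j) x := fun u π δ'' hagr => by
    rw [dnO_Om3]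
    exact dens_congr (fun w hw => hagr w (by rw [length_TB hw]; exact hNb))
  by_cases h0 : pr (Hh δ Q (nJ j) x ∅) (mach j) z < thr j
  · -- a dense content
    have hCer : Cer (Hh δ Q (nJ j) x) N N := Hh_Cer hN1
    obtain ⟨SG, hSG1, hSG2⟩ := hCer.finset ∅ QG (fun v hv => (hQG v hv).le)
    have hTN : (tT (mach j) z : ℝ) ≤ N := by
      have := tT_le (mach j) z
      exact_mod_cast (show tT (mach j) z ≤ N by omega)
    obtain ⟨Y, hY1, hY2⟩ := hCer.total (p := (mach j).1) (x := z) (M := mM (mach j) z)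
      (T := tT (mach j) z) hqb.le (θ := thr j) (η := η) (K := K)
      (lt_of_le_of_lt (mul_le_mul_of_nonneg_right hTN (Nat.cast_nonneg _)) hK) hgap h0
    set u : Finset (List Bool) := TB (nJ j) x \ (SG ∪ Y) with hu
    have huc : (TB (nJ j) x \ u).card ≤ Λ := by
      refine (Finset.card_le_card (t := SG ∪ Y) (fun w hw => ?_)).trans
        ((Finset.card_union_le SG Y).trans (by omega))
      rw [hu, Finset.mem_sdiff, Finset.mem_sdiff] at hw
      tauto
    have hDW : DW j x Λ u := DW_dense huc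
    have hdisY : Disjoint u Y := Finset.disjoint_left.2 (fun w hw hwY =>
      (Finset.mem_sdiff.1 hw).2 (Finset.mem_union_right _ hwY))
    have hagS : Agr SG u ∅ := fun w hw => by
      rw [hu, Finset.mem_sdiff, Finset.mem_union]
      simp [hw]
    refine new_state (π := fun _ => false) (D := ∅) hG hL hNb (Or.inl (Okc_DW (by omega) hDW))
      (fun E hE => absurd hE (Finset.notMem_empty _)) (fun δ'' hagr => ?_)
    refine reqJ_of (x := x) (z := z) (hout _ (fun v hv => ?_)) (Or.inr ⟨mem_TS ?_, ?_⟩)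
    · rw [hval u hDW _ δ'' hagr v (hQG v hv)]
      exact hSG2 u hagS v hv
    · rw [hdn u _ δ'' hagr]
      refine dens_large (C := TB (nJ j) x \ u) (by omega) (fun w hw h1 => ?_)
      rw [dl3_TB hw] at h1
      simp only [decide_eq_false_iff_not] at h1
      exact Finset.mem_sdiff.2 ⟨hw, h1⟩
    · rw [hpr u hDW _ δ'' hagr]
      exact hY2 u hdisY
  · -- the empty content
    refine new_state (π := fun _ => false) (D := ∅) (u := ∅) hG hL hNb
      (Or.inl (Okc_DW (t := Λ) (by omega) DW_empty))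
      (fun E hE => absurd hE (Finset.notMem_empty _)) (fun δ'' hagr => ?_)
    refine reqJ_of (x := x) (z := z) (hout _ (fun v hv => hval ∅ DW_empty _ δ'' hagr v
      (hQG v hv))) (Or.inl ⟨not_mem_TS ?_, ?_⟩)
    · rw [hdn ∅ _ δ'' hagr]
      exact dens_zero (fun w hw => by rw [dl3_TB hw]; simp)
    · rw [hpr ∅ DW_empty _ δ'' hagr]
      have h1 := hgap ∅
      rw [abs_of_nonneg (by linarith)] at h1
      linarith

end kill

/-- constants -/
theorem exists_nat_inv {a : ℝ} (ha : 0 < a) : ∃ C : ℕ, 0 < C ∧ 1 / (C : ℝ) ≤ a := by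
  obtain ⟨C, hC⟩ := exists_nat_gt (1 / a)
  have h1 : 0 < (C : ℝ) := lt_trans (by positivity) hC
  refine ⟨C, by exact_mod_cast h1, ?_⟩
  rw [div_le_iff₀ h1]
  rw [div_lt_iff₀ ha] at hC
  linarith

theorem ViaJ.gap {O : List Bool → Bool} {β : BD} {A : Set (List Bool)}
    (h : ViaJ (Sum.inr β) O A) (z : List Bool) :
    1 / ((β.2.2.2 : ℝ) + 1) < |pr O (mach (Sum.inr β)) z - 1 / 2| := by
  have h2 : pr O (mach (Sum.inr β)) z = Pr ((z.length + 2) ^ β.2.1) (Accepts O β.1 z) := by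
    rw [pr, pa, mM, tT]
    exact Pr_congr (fun r hr => accS_iff h.1 hr le_rfl)
  have h3 := h.2 z
  rw [h2]
  by_cases hn : z ∈ A
  · have h4 : Pr ((z.length + 2) ^ β.2.1) (fun r => Accepts O β.1 z r ↔ z ∈ A) =
        Pr ((z.length + 2) ^ β.2.1) (Accepts O β.1 z) :=
      Pr_congr (fun r _ => by simp [hn])
    rw [h4] at h3
    exact lt_of_lt_of_le (by linarith) (le_abs_self _)
  · have h4 : Pr ((z.length + 2) ^ β.2.1) (fun r => Accepts O β.1 z r ↔ z ∈ A) =
        Pr ((z.length + 2) ^ β.2.1) (fun r => ¬ Accepts O β.1 z r) :=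
      Pr_congr (fun r _ => by simp [hn])
    have h5 := Pr_add_not ((z.length + 2) ^ β.2.1) (Accepts O β.1 z)
    rw [h4] at h3
    have h7 : Pr ((z.length + 2) ^ β.2.1) (fun r => ¬ Accepts O β.1 z r) =
      Pr ((z.length + 2) ^ β.2.1) (fun r => ¬ (Accepts O β.1 z) r) := rfl
    rw [abs_sub_comm]
    exact lt_of_lt_of_le (by linarith) (le_abs_self _)

/-- half of the gap -/
noncomputable def gp : Jx → ℝ
  | Sum.inl _ => 1 / 4
  | Sum.inr β => 1 / ((β.2.2.2 : ℝ) + 1) / 2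

theorem gp_pos (j : Jx) : 0 < gp j := by
  cases j with
  | inl ρ => rw [gp]; norm_num
  | inr β => rw [gp]; positivity

/-- the case of a content without gap -/
theorem kill_viol {δ : List Bool → Bool × Bool} {L : ℕ} {Q : Finset Ix} (hG : Good3 δ L Q)
    (hst : Stable δ L Q) {j : Jx} (hQ : QOk j Q) {x : List Bool} (hL : L ≤ x.length)
    {Λ N K : ℕ} (hΛ : K * N + 2 * N ≤ Λ) (hx : 4 * (Λ + N * N) < 2 ^ (x.length / 2)) {g : Prog}
    {e : ℕ} (hNb : b5 (kT (nJ j) true) x < N) {z : List Bool} (hN1 : 1 ≤ N)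
    (hqb : qbr (mach j) z < N) {κ : ℝ} (hκ : 0 < κ) (hκ4 : κ * (Q.card + 1) ≤ 1 / 4)
    (hκη : κ * (Q.card + 1) ≤ gp j)
    (hK : ((Q.card : ℝ) + 2) * (N * N) < ((K : ℝ) - Q.card * (N * N)) * κ)
    {u : Finset (List Bool)} (hu : |pr (Hh δ Q (nJ j) x u) (mach j) z - thr j| < gp j) :
    Ext3 δ L Q (ReqJ j g e) := by
  classical
  have hQ0 : (0 : ℝ) ≤ Q.card := Nat.cast_nonneg _
  have hleg := leg_deep hG hst hL hQ (Λ := Λ) (N := N) (by omega) hx
  have hb2 : ∀ (E : Ix) (w y : List Bool), IsC w E y → w.length < N → bz E y ^ 2 ≤ N := by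
    intro E w y hw hwN
    have h3 := hw.lt
    have h4 : bz E y ^ 2 ≤ bz E y ^ 7 :=
      Nat.pow_le_pow_right (by have := bz_ge E y; omega) (by norm_num)
    omega
  have hOO : ∀ (u' : Finset (List Bool)) (D' : Finset Ix), NoMis δ Q (nJ j) x N u' D' →
      ∀ δ'' : List Bool → Bool × Bool, (∀ w : List Bool, w.length < N →
        δ'' w = dl3 δ Q (nJ j) x u' D' (fun w => Gd δ Q (nJ j) x w u') w) →
      ∀ v : List Bool, v.length < N → Om3 δ'' v = Hh δ Q (nJ j) x u' v := by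
    intro u' D' hno δ'' hagr v hv
    rw [Om3_congr hagr _ v rfl hv]
    exact om3_eq hG hL hno _ v rfl hv
  cases j with
  | inl ρ =>
    have hpairs : ∀ E ∈ Q, ∃ P : PD, E = Sum.inr P := by
      rcases hQ with ⟨β, h⟩ | h
      · exact absurd h (by simp)
      · exact h
    have hno : NoMis δ Q (nJ (Sum.inl ρ)) x N u ∅ := by
      intro E hE _ w y hw _ hwN hlg
      obtain ⟨P, rfl⟩ := hpairs E hE
      have := hb2 _ w y hw hwN
      exact pair_ok (t := Λ) hw (by omega) (hleg _ hE w y hw hwN) hlg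
    have hdead : ∀ δ'' : List Bool → Bool × Bool, (∀ w : List Bool, w.length < N →
        δ'' w = dl3 δ Q (nJ (Sum.inl ρ)) x u ∅ (fun w => Gd δ Q (nJ (Sum.inl ρ)) x w u) w) →
        DeadJ (Sum.inl ρ) (Om3 δ'') := by
      intro δ'' hagr A hV
      have h1 : pr (Om3 δ'') ρ z = pr (Hh δ Q (nJ (Sum.inl ρ)) x u) ρ z :=
        pr_congr (fun v hv => hOO u ∅ hno δ'' hagr v (lt_of_le_of_lt hv hqb))
      have h2 : |pr (Hh δ Q (nJ (Sum.inl ρ)) x u) ρ z - 1 / 4| < 1 / 4 := hu
      rw [abs_lt, ← h1] at h2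
      have hV' : Via (Om3 δ'') ρ.1 ρ.2.1 ρ.2.2 A := hV
      rw [hV'.pr] at h2
      by_cases hz : z ∈ A
      · have := (hV'.2 z).1 hz
        linarith [h2.2]
      · have := (hV'.2 z).2 hz
        linarith [h2.1]
    exact new_state hG hL hNb (Or.inr hdead) (fun E hE => absurd hE (Finset.notMem_empty _))
      (fun δ'' hagr => (hdead δ'' hagr).req)
  | inr β =>
    have hrep : Rep δ Q (nJ (Sum.inr β)) x N (mach (Sum.inr β)).1 z (mM (mach (Sum.inr β)) z)
        (tT (mach (Sum.inr β)) z) (gp (Sum.inr β)) κ u ∅ := by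
      refine ⟨Finset.empty_subset _, ?_, fun E hE => absurd hE (Finset.notMem_empty _)⟩
      have h1 : |pa (Hh δ Q (nJ (Sum.inr β)) x u) (mach (Sum.inr β)).1 z
        (mM (mach (Sum.inr β)) z) (tT (mach (Sum.inr β)) z) - 1 / 2| < gp (Sum.inr β) := hu
      rw [Finset.card_empty]
      push_cast
      linarith
    have hTN := tT_le (mach (Sum.inr β)) z
    obtain ⟨u', D', hR, hno⟩ := rep_fix hleg hN1 hqb.le (by omega) hκ (by nlinarith) hΛ hK _ u ∅
      rfl hrep
    have hD' : (D'.card : ℝ) ≤ Q.card := by exact_mod_cast Finset.card_le_card hR.sub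
    have hprz : ∀ δ'' : List Bool → Bool × Bool, (∀ w : List Bool, w.length < N →
        δ'' w = dl3 δ Q (nJ (Sum.inr β)) x u' D' (fun w => Gd δ Q (nJ (Sum.inr β)) x w u') w) →
        DeadJ (Sum.inr β) (Om3 δ'') := by
      intro δ'' hagr A hV
      have h1 : pr (Om3 δ'') (mach (Sum.inr β)) z =
          pr (Hh δ Q (nJ (Sum.inr β)) x u') (mach (Sum.inr β)) z :=
        pr_congr (fun v hv => hOO u' D' hno δ'' hagr v (lt_of_le_of_lt hv hqb))
      have h2 := ViaJ.gap hV z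
      rw [h1] at h2
      have h3 : |pr (Hh δ Q (nJ (Sum.inr β)) x u') (mach (Sum.inr β)) z - 1 / 2| ≤
        gp (Sum.inr β) + D'.card * κ := hR.near
      have h4 : gp (Sum.inr β) = 1 / ((β.2.2.2 : ℝ) + 1) / 2 := rfl
      have h5 : D'.card * κ ≤ κ * (Q.card + 1) := by nlinarith
      linarith
    refine new_state hG hL hNb (Or.inr hprz) (fun E hE δ'' hagr => ?_)
      (fun δ'' hagr => (hprz δ'' hagr).req)
    obtain ⟨ρ', y, rfl, _, hbN, h3, h4⟩ := hR.ill E hE
    refine ⟨y, fun hl => ?_⟩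
    have h1 : pr (Om3 δ'') ρ' y = pr (Hh δ Q (nJ (Sum.inr β)) x u') ρ' y :=
      pr_congr (fun v hv => hOO u' D' hno δ'' hagr v
        (lt_of_le_of_lt (hv.trans (qbr_fs_le (Sum.inl ρ') y)) hbN))
    have h5 : D'.card * κ ≤ κ * (Q.card + 1) := by nlinarith
    rcases hl with h6 | h6
    · rw [h1] at h6
      linarith
    · rw [h1] at h6
      linarith

theorem b5_le (m : ℕ) (x : List Bool) :
    b5 (kT m true) x = 2 * m + 6 + 2 * x.length + (x.length + 2) ^ 5 := by
  rw [b5, length_kT]; ring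

theorem stage3 {δ : List Bool → Bool × Bool} {L : ℕ} {Q : Finset Ix} (hG : Good3 δ L Q)
    (hst : Stable δ L Q) (j : Jx) (hQ : QOk j Q) (g : Prog) (e : ℕ) :
    Ext3 δ L Q (ReqJ j g e) := by
  classical
  have hη := gp_pos j
  have hQ1 : (0 : ℝ) < (Q.card : ℝ) + 1 := by positivity
  obtain ⟨C, hC0, hC⟩ := exists_nat_inv (a := min (1 / 4) (gp j) / ((Q.card : ℝ) + 1))
    (div_pos (lt_min (by norm_num) hη) hQ1)
  obtain ⟨C2, hC20, hC2⟩ := exists_nat_inv (a := 2 * gp j) (by linarith)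
  have hC0' : (0 : ℝ) < C := by exact_mod_cast hC0
  have hC20' : (0 : ℝ) < C2 := by exact_mod_cast hC20
  have hκ1 : 1 / (C : ℝ) * (Q.card + 1) ≤ min (1 / 4) (gp j) := by
    rw [le_div_iff₀ hQ1] at hC
    exact hC
  set W : ℕ → ℕ := fun n => n + 1 + (n + 2) ^ e with hW
  set qB : ℕ → ℕ := fun n => (code (mach j).1).depth + W n + (W n + 2) ^ (mach j).2.1 + 4 +
    20 * (3 * (W n + 2) ^ (mach j).2.2) with hqB
  set Nn : ℕ → ℕ := fun n => 2 * nJ j + 6 + 2 * n + (n + 2) ^ 5 +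
    ((code g).depth + n + 3 + 60 * (n + 2) ^ e) + qB n + 1 with hNn
  set K1 : ℕ → ℕ := fun n => Q.card * (Nn n * Nn n) + C * ((Q.card + 2) * (Nn n * Nn n)) + 1
    with hK1
  set K2 : ℕ → ℕ := fun n => C2 * (Nn n * Nn n) + 1 with hK2
  set Ln : ℕ → ℕ := fun n => K1 n * Nn n + 2 * Nn n + (3 * (n + 2) ^ e * Nn n + K2 n * K2 n)
    with hLn
  have hpe : Pol (fun n => (n + 2) ^ e) := ⟨e, fun n => le_rfl⟩
  have hp5 : Pol (fun n => (n + 2) ^ 5) := ⟨5, fun n => le_rfl⟩
  have hpW : Pol W := (Pol.id.add (Pol.const 1)).add hpe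
  have hpW2 : Pol (fun n => W n + 2) := hpW.add (Pol.const 2)
  have hpq : Pol qB := ((((Pol.const _).add hpW).add (hpW2.pow _)).add (Pol.const 4)).add
    ((Pol.const 20).mul ((Pol.const 3).mul (hpW2.pow _)))
  have hpN : Pol Nn := ((((((Pol.const (2 * nJ j)).add (Pol.const 6)).add
    ((Pol.const 2).mul Pol.id)).add hp5).add
    ((((Pol.const _).add Pol.id).add (Pol.const 3)).add ((Pol.const 60).mul hpe))).add hpq).add
    (Pol.const 1)
  have hpNN : Pol (fun n => Nn n * Nn n) := hpN.mul hpN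
  have hpK1 : Pol K1 := (((Pol.const _).mul hpNN).add ((Pol.const C).mul
    ((Pol.const _).mul hpNN))).add (Pol.const 1)
  have hpK2 : Pol K2 := ((Pol.const C2).mul hpNN).add (Pol.const 1)
  have hpL : Pol Ln := (((hpK1.mul hpN).add ((Pol.const 2).mul hpN)).add
    ((((Pol.const 3).mul hpe).mul hpN).add (hpK2.mul hpK2)))
  obtain ⟨n, hLn', hn⟩ := exists_big (hpL.add hpNN) L
  obtain ⟨x, hx⟩ : ∃ x : List Bool, x.length = n := ⟨List.replicate n true, by simp⟩
  obtain ⟨QG, z, hQG1, hQG2, hz, hout⟩ := exists_out (Hh δ Q (nJ j) x ∅) g e x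
  rw [hx] at hQG1 hQG2 hz
  set N := Nn n with hNdef
  have hNval : N = 2 * nJ j + 6 + 2 * n + (n + 2) ^ 5 +
    ((code g).depth + n + 3 + 60 * (n + 2) ^ e) + qB n + 1 := rfl
  have hzW : z.length + 2 ≤ W n + 2 := by
    simp only [hW]
    omega
  have hqb : qbr (mach j) z < N := by
    have h1 : mM (mach j) z ≤ (W n + 2) ^ (mach j).2.1 := Nat.pow_le_pow_left hzW _
    have h2 : tT (mach j) z ≤ 3 * (W n + 2) ^ (mach j).2.2 :=
      Nat.mul_le_mul_left _ (Nat.pow_le_pow_left hzW _)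
    have h3 : qB n = (code (mach j).1).depth + W n + (W n + 2) ^ (mach j).2.1 + 4 +
      20 * (3 * (W n + 2) ^ (mach j).2.2) := rfl
    rw [qbr, qb]
    omega
  have hNb : b5 (kT (nJ j) true) x < N := by
    rw [b5_le, hx]
    omega
  have hx' : 4 * (Ln n + N * N) < 2 ^ (x.length / 2) := by
    rw [hx]
    exact hn
  have hLv : Ln n = K1 n * N + 2 * N + (3 * (n + 2) ^ e * N + K2 n * K2 n) := rfl
  by_cases hgap : ∀ u : Finset (List Bool),
      gp j ≤ |pr (Hh δ Q (nJ j) x u) (mach j) z - thr j|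
  · refine kill_core hG hst (by omega) hQ (Λ := Ln n) (N := N) (K := K2 n) (by omega) hx' hNb
      (by omega) (fun v hv => ?_) hqb hout hη ?_ ?_ hgap
    · have := hQG2 v hv
      omega
    · have h1 : (K2 n : ℝ) = C2 * (N * N) + 1 := by
        simp only [hK2]
        push_cast
        rfl
      rw [h1]
      rw [div_le_iff₀ hC20'] at hC2
      have h2 : (0 : ℝ) ≤ (N : ℝ) * N := by positivity
      nlinarith
    · have h1 : QG.card * N ≤ 3 * (n + 2) ^ e * N := Nat.mul_le_mul_right _ hQG1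
      omega
  · push Not at hgap
    obtain ⟨u, hu⟩ := hgap
    refine kill_viol hG hst hQ (by omega) (Λ := Ln n) (N := N) (K := K1 n) (κ := 1 / C) (by omega)
      hx' hNb (by omega) hqb (by positivity) (hκ1.trans (min_le_left _ _))
      (hκ1.trans (min_le_right _ _)) ?_ hu
    have h1 : (K1 n : ℝ) = Q.card * (N * N) + C * ((Q.card + 2) * (N * N)) + 1 := by
      simp only [hK1]
      push_cast
      rfl
    rw [h1]
    have h2 : ((Q.card : ℝ) * (N * N) + C * ((Q.card + 2) * (N * N)) + 1 - Q.card * (N * N)) *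
        (1 / C) = (Q.card + 2) * (N * N) + 1 / C := by
      field_simp
      ring
    rw [h2]
    have h3 : (0 : ℝ) < 1 / C := by positivity
    linarith

end Pool.Agent.Helper56.PT
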