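import Pool.Agent.Helper56.PT.Vg

/-!
The limit of the third construction, and oracles relative to which exactly ZPP, or exactly ZPP and
R, among ZPP, R and BPP have complete sets.
-/

set_option autoImplicit false

namespace Pool.Agent.Helper56.PT

open Dat

theorem Stp.refl {δ : List Bool → Bool × Bool} {L : ℕ} {Q : Finset Ix} (hG : Good3 δ L Q) :
    Stp δ L Q δ L Q where
  le := le_rfl
  agr _ _ := rfl
  sub := Finset.Subset.refl _
  act w hw hc := by
    rw [hG.dfl w hw, dflt3]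
    simp [hc]
  ill E hE hE' := absurd hE hE'

/-- killing illegitimate indices until the state is stable -/
theorem cleanup : ∀ (n : ℕ) (δ : List Bool → Bool × Bool) (L : ℕ) (Q : Finset Ix), Q.card = n →
    Good3 δ L Q → ∃ (δ' : List Bool → Bool × Bool) (L' : ℕ) (Q' : Finset Ix),
      Stp δ L Q δ' L' Q' ∧ Good3 δ' L' Q' ∧ Stable δ' L' Q' := by
  classical
  intro n
  induction n with
  | zero =>
    intro δ L Q hn hG
    refine ⟨δ, L, Q, Stp.refl hG, hG, fun E hE => ?_⟩
    rw [Finset.card_eq_zero] at hn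
    rw [hn] at hE
    exact absurd hE (Finset.notMem_empty _)
  | succ n ih =>
    intro δ L Q hn hG
    by_cases hst : Stable δ L Q
    · exact ⟨δ, L, Q, Stp.refl hG, hG, hst⟩
    · simp only [Stable, not_forall] at hst
      obtain ⟨E, hE, δ'', hW, y, hy⟩ := hst
      set L1 := max L (bz E y + 1) with hL1
      have hLL : L ≤ L1 := le_max_left _ _
      have hbL : bz E y < L1 := lt_of_lt_of_le (Nat.lt_succ_self _) (le_max_right _ _)
      set δ1 : List Bool → Bool × Bool := fun w => if w.length < L1 then δ'' w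
        else dflt3 (Q.erase E) w with hδ1
      have hlt : ∀ w : List Bool, w.length < L1 → δ1 w = δ'' w := fun w hw => if_pos hw
      have hge : ∀ w : List Bool, L1 ≤ w.length → δ1 w = dflt3 (Q.erase E) w := fun w hw =>
        if_neg (not_lt.2 hw)
      have hS : Stp δ L Q δ1 L1 (Q.erase E) := by
        refine ⟨hLL, fun w hw => ?_, Finset.erase_subset _ _, fun w hw hc => ?_,
          fun E' hE' hne δ₁ hagr => ?_⟩
        · rw [hlt w (lt_of_lt_of_le hw hLL), hW.agr w hw]
        · by_cases h1 : w.length < L1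
          · rw [hlt w h1]
            exact hW.act w hw (hc.mono (Finset.erase_subset _ _))
          · rw [hge w (not_lt.1 h1), dflt3]
            simp [hc]
        · have h1 : E' = E := by
            by_contra h1
            exact hne (Finset.mem_erase.2 ⟨h1, hE'⟩)
          subst h1
          refine ⟨y, fun h2 => hy ((Leg_congr (fun v hv => ?_)).1 h2)⟩
          refine Om3_congr (L := L1) (fun w hw => ?_) _ v rfl (by omega)
          rw [hagr w hw, hlt w hw]
      have hG1 : Good3 δ1 L1 (Q.erase E) := by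
        refine ⟨fun w hw => hge w hw, fun j x hj δ₁ hagr => ?_⟩
        by_cases hb : b5 (kT (nJ j) true) x < L
        · refine hG.dead j x (fun h => hj ?_) δ₁ (fun w hw => ?_)
          · rw [Ok3_congr (δ' := δ) (fun w hw => ?_)]
            · exact h
            · rw [hS.agr w (by rw [length_TB hw]; exact hb)]
          · rw [hagr w (lt_of_lt_of_le hw hLL), hS.agr w hw]
        · by_cases hb1 : b5 (kT (nJ j) true) x < L1
          · exfalso
            apply hj
            rw [Ok3_congr (δ' := δ'') (fun w hw => hlt w (by rw [length_TB hw]; exact hb1))]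
            exact hW.ok j x (not_lt.1 hb)
          · exact absurd (Ok3_zero (fun w hw => by
              rw [hge w (by rw [length_TB hw]; exact not_lt.1 hb1)]
              rfl)) hj
      obtain ⟨δ', L', Q', h1, h2, h3⟩ := ih δ1 L1 (Q.erase E) (by
        rw [Finset.card_erase_of_mem hE, hn]
        rfl) hG1
      exact ⟨δ', L', Q', hS.trans h1, h2, h3⟩

open Classical in
/-- change the list of active indices -/
theorem activate {δ : List Bool → Bool × Bool} {L : ℕ} {Q : Finset Ix} (hG : Good3 δ L Q)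
    (Q' : Finset Ix) : Good3 (fun w => if w.length < L then δ w else dflt3 Q' w) L Q' := by
  refine ⟨fun w hw => if_neg (not_lt.2 hw), fun j x hj δ₁ hagr => ?_⟩
  by_cases hb : b5 (kT (nJ j) true) x < L
  · refine hG.dead j x (fun h => hj ?_) δ₁ (fun w hw => ?_)
    · rw [Ok3_congr (δ' := δ) (fun w hw => if_pos (by rw [length_TB hw]; exact hb))]
      exact h
    · rw [hagr w hw]
      exact if_pos hw
  · refine absurd (Ok3_zero (fun w hw => ?_)) hj
    have h1 : ¬ w.length < L := by rw [length_TB hw]; exact hb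
    simp only [if_neg h1]
    rfl

/-- the requirements which are met if the indices in `𝒜` are coded -/
def QS (j : Jx) (𝒜 : Set Ix) : Prop :=
  (∃ β : BD, j = Sum.inr β) ∨ ∀ E ∈ 𝒜, ∃ P : PD, E = Sum.inr P

/-- the transitions of the construction -/
structure Trn (𝒜 : Set Ix) (δ : List Bool → Bool × Bool) (L : ℕ) (Q : Finset Ix)
    (δ' : List Bool → Bool × Bool) (L' : ℕ) (Q' : Finset Ix) (E0 : Ix) (j : Jx) (g : Prog)
    (e : ℕ) : Prop where
  lt : L < L'
  agr : ∀ w : List Bool, w.length < L → δ' w = δ w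
  act : ∀ w : List Bool, L ≤ w.length → Cod Q' w → (δ' w).1 = true
  ill : ∀ E : Ix, (E ∈ Q ∨ (E = E0 ∧ E ∈ 𝒜)) → E ∈ Q' ∨ ∀ δ'' : List Bool → Bool × Bool,
    (∀ w : List Bool, w.length < L' → δ'' w = δ' w) → ∃ y : List Bool, ¬ Leg (Om3 δ'') E y
  req : QS j 𝒜 → ∀ δ'' : List Bool → Bool × Bool,
    (∀ w : List Bool, w.length < L' → δ'' w = δ' w) → ReqJ j g e (Om3 δ'')

theorem exists_trn (𝒜 : Set Ix) {δ : List Bool → Bool × Bool} {L : ℕ} {Q : Finset Ix}
    (hG : Good3 δ L Q) (hQ : ∀ E ∈ Q, E ∈ 𝒜) (E0 : Ix) (j : Jx) (g : Prog) (e : ℕ) :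
    ∃ (δ' : List Bool → Bool × Bool) (L' : ℕ) (Q' : Finset Ix), Good3 δ' L' Q' ∧
      (∀ E ∈ Q', E ∈ 𝒜) ∧ Trn 𝒜 δ L Q δ' L' Q' E0 j g e := by
  classical
  obtain ⟨Q0, hQ0, hQQ0, hE0⟩ : ∃ Q0 : Finset Ix, (∀ E ∈ Q0, E ∈ 𝒜) ∧ Q ⊆ Q0 ∧
      (E0 ∈ 𝒜 → E0 ∈ Q0) := by
    by_cases h : E0 ∈ 𝒜
    · refine ⟨insert E0 Q, fun E hE => ?_, Finset.subset_insert _ _, fun _ =>
        Finset.mem_insert_self _ _⟩
      rcases Finset.mem_insert.1 hE with rfl | hE
      · exact h
      · exact hQ E hE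
    · exact ⟨Q, hQ, Finset.Subset.refl _, fun h' => absurd h' h⟩
  obtain ⟨δ1, L1, Q1, hS1, hG1, hst⟩ := cleanup _ _ _ Q0 rfl (activate hG Q0)
  have hcomb : ∀ (δ' : List Bool → Bool × Bool) (L' : ℕ) (Q' : Finset Ix),
      Stp δ1 L1 Q1 δ' L' Q' → L1 < L' → Good3 δ' L' Q' →
      (QS j 𝒜 → ∀ δ'' : List Bool → Bool × Bool,
        (∀ w : List Bool, w.length < L' → δ'' w = δ' w) → ReqJ j g e (Om3 δ'')) →
      ∃ (δ' : List Bool → Bool × Bool) (L' : ℕ) (Q' : Finset Ix), Good3 δ' L' Q' ∧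
        (∀ E ∈ Q', E ∈ 𝒜) ∧ Trn 𝒜 δ L Q δ' L' Q' E0 j g e := by
    intro δ' L' Q' hS hlt hG' hreq
    have hT := hS1.trans hS
    refine ⟨δ', L', Q', hG', fun E hE => hQ0 E (hT.sub hE), ⟨lt_of_le_of_lt hS1.le hlt,
      fun w hw => ?_, hT.act, fun E hE => ?_, hreq⟩⟩
    · rw [hT.agr w hw]
      exact if_pos hw
    · by_cases h : E ∈ Q'
      · exact Or.inl h
      · refine Or.inr (hT.ill E ?_ h)
        rcases hE with hE | ⟨rfl, hE⟩
        · exact hQQ0 hE
        · exact hE0 hE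
  by_cases hj : QS j 𝒜
  · have hok : QOk j Q1 := by
      rcases hj with h | h
      · exact Or.inl h
      · exact Or.inr (fun E hE => h E (hQ0 E (hS1.sub hE)))
    obtain ⟨δ', L', Q', hS, hlt, hG', hreq⟩ := stage3 hG1 hst j hok g e
    exact hcomb δ' L' Q' hS hlt hG' (fun _ => hreq)
  · refine hcomb δ1 (L1 + 1) Q1 ⟨Nat.le_succ _, fun _ _ => rfl, Finset.Subset.refl _,
      (Stp.refl hG1).act, fun E hE hE' => absurd hE hE'⟩ (Nat.lt_succ_self _)
      ⟨fun w hw => hG1.dfl w (by omega), fun j' x' h' δ'' hagr => hG1.dead j' x' h' δ''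
        (fun w hw => hagr w (by omega))⟩ (fun h => absurd h hj)

theorem good3_dflt : Good3 (dflt3 ∅) 0 ∅ where
  dfl _ _ := rfl
  dead _ _ h := absurd (Ok3_zero (fun _ _ => rfl)) h

/-- the limit of the construction -/
theorem exists_limit3 (𝒜 : Set Ix) : ∃ δ : List Bool → Bool × Bool,
    (∀ (j : Jx) (x : List Bool), ¬ Ok3 j δ x → DeadJ j (Om3 δ)) ∧
    (∀ (j : Jx) (g : Prog) (e : ℕ), QS j 𝒜 → ReqJ j g e (Om3 δ)) ∧
    ∀ E ∈ 𝒜, (∃ y : List Bool, ¬ Leg (Om3 δ) E y) ∨ ∃ L : ℕ, ∀ w y : List Bool, IsC w E y →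
      L ≤ w.length → (δ w).1 = true := by
  classical
  obtain ⟨en, hen⟩ := exists_surjective_nat (Ix × Jx × Prog × ℕ)
  let S : Type := {D : (List Bool → Bool × Bool) × ℕ × Finset Ix //
    Good3 D.1 D.2.1 D.2.2 ∧ ∀ E ∈ D.2.2, E ∈ 𝒜}
  have hst : ∀ (s : ℕ) (D : S), ∃ D' : S, Trn 𝒜 D.1.1 D.1.2.1 D.1.2.2 D'.1.1 D'.1.2.1 D'.1.2.2
      (en s).1 (en s).2.1 (en s).2.2.1 (en s).2.2.2 := by
    rintro s ⟨⟨δ, L, Q⟩, hG, hQ⟩
    obtain ⟨δ', L', Q', h1, h2, h3⟩ := exists_trn 𝒜 hG hQ (en s).1 (en s).2.1 (en s).2.2.1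
      (en s).2.2.2
    exact ⟨⟨(δ', L', Q'), h1, h2⟩, h3⟩
  choose nx hnx using hst
  let sq : ℕ → S := fun s => Nat.rec ⟨(dflt3 ∅, 0, ∅), good3_dflt, fun E hE =>
    absurd hE (Finset.notMem_empty _)⟩ (fun s D => nx s D) s
  have hT : ∀ s, Trn 𝒜 (sq s).1.1 (sq s).1.2.1 (sq s).1.2.2 (sq (s + 1)).1.1 (sq (s + 1)).1.2.1
      (sq (s + 1)).1.2.2 (en s).1 (en s).2.1 (en s).2.2.1 (en s).2.2.2 := fun s => hnx s (sq s)
  have hmono : StrictMono (fun s => (sq s).1.2.1) := strictMono_nat_of_lt_succ (fun s => (hT s).lt)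
  have hge : ∀ s, s ≤ (sq s).1.2.1 := fun s => hmono.id_le s
  have hagr : ∀ s d : ℕ, ∀ w : List Bool, w.length < (sq s).1.2.1 →
      (sq (s + d)).1.1 w = (sq s).1.1 w := by
    intro s d
    induction d with
    | zero => intro w _; rfl
    | succ d ih =>
      intro w hw
      rw [← add_assoc, (hT (s + d)).agr, ih w hw]
      exact lt_of_lt_of_le hw (hmono.monotone (Nat.le_add_right s d))
  have hagr' : ∀ s t : ℕ, s ≤ t → ∀ w : List Bool, w.length < (sq s).1.2.1 →
      (sq t).1.1 w = (sq s).1.1 w := by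
    intro s t hst w hw
    obtain ⟨d, rfl⟩ := Nat.exists_eq_add_of_le hst
    exact hagr s d w hw
  set δ : List Bool → Bool × Bool := fun w => (sq (w.length + 1)).1.1 w with hδ
  have hlim : ∀ (s : ℕ) (w : List Bool), w.length < (sq s).1.2.1 → δ w = (sq s).1.1 w := by
    intro s w hw
    rcases le_total s (w.length + 1) with h | h
    · exact hagr' s _ h w hw
    · refine (hagr' _ s h w ?_).symm
      exact lt_of_lt_of_le (Nat.lt_succ_self _) (hge _)
  refine ⟨δ, fun j x hB => ?_, fun j g e hj => ?_, fun E hE => ?_⟩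
  · set s := b5 (kT (nJ j) true) x + 1 with hs
    refine (sq s).2.1.dead j x (fun h => hB ?_) δ (fun w hw => hlim s w hw)
    rw [Ok3_congr (δ' := (sq s).1.1) (fun w hw => hlim s w (by
      rw [length_TB hw]
      exact lt_of_lt_of_le (Nat.lt_succ_self _) (hge _)))]
    exact h
  · obtain ⟨s, hs⟩ := hen (Sum.inl (Prog.id, 0, 0), j, g, e)
    have h1 := (hT s).req
    rw [hs] at h1
    exact h1 hj δ (fun w hw => hlim (s + 1) w hw)
  · obtain ⟨s, hs⟩ := hen (E, Sum.inl (Prog.id, 0, 0), Prog.id, 0)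
    by_cases hall : ∀ t, s + 1 ≤ t → E ∈ (sq t).1.2.2
    · refine Or.inr ⟨(sq s).1.2.1, fun w y hw hL => ?_⟩
      -- the stage at which the length of `w` is passed
      have hex : ∃ d : ℕ, w.length < (sq (s + d + 1)).1.2.1 :=
        ⟨w.length, lt_of_lt_of_le (show w.length < s + w.length + 1 by omega) (hge _)⟩
      have hd := Nat.find_spec hex
      set d := Nat.find hex with hdd
      have hlow : (sq (s + d)).1.2.1 ≤ w.length := by
        rcases Nat.eq_zero_or_pos d with h0 | h0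
        · rw [h0]; exact hL
        · have := Nat.find_min hex (m := d - 1) (by omega)
          have h2 : s + (d - 1) + 1 = s + d := by omega
          rw [h2] at this
          exact not_lt.1 this
      rw [hlim (s + d + 1) w hd]
      exact (hT (s + d)).act w hlow ⟨E, hall (s + d + 1) (by omega), y, hw⟩
    · left
      push Not at hall
      obtain ⟨t, ht1, ht2⟩ := hall
      -- the first time at which `E` is not in the list
      have hex : ∃ d : ℕ, E ∉ (sq (s + 1 + d)).1.2.2 := ⟨t - (s + 1), by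
        have : s + 1 + (t - (s + 1)) = t := by omega
        rw [this]
        exact ht2⟩
      have hd := Nat.find_spec hex
      set d := Nat.find hex with hdd
      have hkey : ∀ s' : ℕ, (E ∈ (sq s').1.2.2 ∨ (E = (en s').1 ∧ E ∈ 𝒜)) →
          E ∉ (sq (s' + 1)).1.2.2 → ∃ y : List Bool, ¬ Leg (Om3 δ) E y := by
        intro s' h1 h2
        rcases (hT s').ill E h1 with h3 | h3
        · exact absurd h3 h2
        · exact h3 δ (fun w hw => hlim (s' + 1) w hw)
      rcases Nat.eq_zero_or_pos d with h0 | h0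
      · rw [h0] at hd
        exact hkey s (Or.inr ⟨by rw [hs], hE⟩) hd
      · have h1 := Nat.find_min hex (m := d - 1) (by omega)
        rw [not_not] at h1
        refine hkey (s + 1 + (d - 1)) (Or.inl h1) ?_
        have h2 : s + 1 + (d - 1) + 1 = s + 1 + d := by omega
        rw [h2]
        exact hd

end Pool.Agent.Helper56.PT
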