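import Pool.Agent.Helper56.PT.Vh

/-!
Oracles relative to which exactly ZPP, or exactly ZPP and R, among ZPP, R and BPP have complete
sets.
-/

set_option autoImplicit false

namespace Pool.Agent.Helper56.PT

open Dat

/-! ### a simple complete set -/

theorem inR_ne (O : List Bool → Bool) : InR O {y | y ≠ []} := by
  refine ⟨Prog.hd, 0, 0, fun x r _ => ⟨_, 1, by simp, Run.hd _⟩, fun x => ⟨fun hx => ?_,
    fun hx => ?_⟩⟩
  · rw [Pr_true]
    · norm_num
    · intro r _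
      have hx' : x ≠ [] := hx
      obtain ⟨b, l, rfl⟩ := List.exists_cons_of_ne_nil hx'
      exact ⟨bit b, enc l, 1, Run.hd _⟩
  · refine Pr_false _ (fun r _ h => hx ?_)
    obtain ⟨a, b, n, hn⟩ := h
    have h1 := ((Run.hd (O := O) (node (enc x) (enc r))).det hn).1
    intro hx'
    rw [hx'] at h1
    simp [Dat.hd, enc] at h1

theorem inR_eq (O : List Bool → Bool) : InR O {y | y ≠ []}ᶜ := by
  have hrun : ∀ x r : List Bool, ∃ y, RunLe O (Prog.ite Prog.hd Prog.nil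
      (Prog.pair Prog.nil Prog.nil)) (node (enc x) (enc r)) y 5 ∧ (y ≠ leaf ↔ x = []) := by
    intro x r
    cases x with
    | nil =>
      refine ⟨node leaf leaf, ?_, by simp⟩
      exact RunLe.iteFalse (m := 1) (n := 3) ⟨1, le_rfl, Run.hd _⟩
        (RunLe.pair (m := 1) (n := 1) ⟨1, le_rfl, Run.nil _⟩ ⟨1, le_rfl, Run.nil _⟩)
    | cons b l =>
      refine ⟨leaf, ?_, by simp⟩
      exact (RunLe.iteTrue (m := 1) (n := 1) ⟨1, le_rfl, Run.hd _⟩ (by simp [Dat.hd, enc])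
        ⟨1, le_rfl, Run.nil _⟩).mono (by norm_num)
  refine ⟨Prog.ite Prog.hd Prog.nil (Prog.pair Prog.nil Prog.nil), 0, 3, fun x r _ => ?_,
    fun x => ⟨fun hx => ?_, fun hx => ?_⟩⟩
  · obtain ⟨y, hy, _⟩ := hrun x r
    refine ⟨y, hy.mono ?_⟩
    have : 2 ^ 3 ≤ (x.length + 2) ^ 3 := Nat.pow_le_pow_left (by omega) 3
    omega
  · rw [Pr_true]
    · norm_num
    · intro r _
      have hx' : x = [] := by simpa using hx
      obtain ⟨y, ⟨c, _, hc⟩, h2⟩ := hrun x r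
      have h3 := h2.2 hx'
      cases y with
      | leaf => exact absurd rfl h3
      | node a b => exact ⟨a, b, c, hc⟩
  · refine Pr_false _ (fun r _ h => hx ?_)
    obtain ⟨a, b, n, hn⟩ := h
    obtain ⟨y, ⟨c, _, hc⟩, h2⟩ := hrun x r
    have h3 := (hc.det hn).1
    have h4 : x = [] := h2.1 (by rw [← h3]; simp)
    simpa using h4

/-- the reduction which asks for the coding string -/
theorem polyFn_cs (O : List Bool → Bool) (E : Ix) (s : ℕ) :
    PolyFn O (fun x => if O (cs E s x) then [false] else []) := by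
  apply PolyFn.of_poly
  have h1 : Poly O (fun t => rebT (enc (kC (nI E))) (node leaf (rebT (canonT t) (node leaf
      (una (powT (jE E + s) t).spine))))) :=
    Poly.rebT (Poly.const _) ((Poly.const _).node (Poly.rebT (Poly.canonT Poly.id)
      ((Poly.const _).node (poly_unaT (Poly.powT (jE E + s) Poly.id)))))
  have h2 : Poly O (fun x => bit (O (bitsOf x))) := Poly.of_LFc (LFc.query LFc.id)
  have h3 := Poly.comp h1 h2
  have h4 : (fun t => enc ((fun x => if O (cs E s x) then [false] else []) (bitsOf t))) =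
      fun t => bit (O (bitsOf (rebT (enc (kC (nI E))) (node leaf (rebT (canonT t) (node leaf
      (una (powT (jE E + s) t).spine))))))) := by
    funext t
    have e1 : ∀ R : List Bool, node leaf (enc R) = enc (false :: R) := fun _ => rfl
    rw [spine_powT, spine_eq_length, canonT_eq, ← enc_replicate, e1, rebT_eq, e1, rebT_eq,
      bitsOf_enc]
    show enc (if O (cs E s (bitsOf t)) then [false] else []) = _
    have e2 : cs E s (bitsOf t) = dblr (kC (nI E)) ++ false :: (dblr (bitsOf t) ++ false ::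
      List.replicate (((bitsOf t).length + 2) ^ (jE E + s)) false) := rfl
    rw [← e2]
    cases O (cs E s (bitsOf t)) with
    | true => rfl
    | false => rfl
  rw [h4]
  exact h3

theorem length_cs_ge (E : Ix) (s : ℕ) (y : List Bool) : s ≤ (cs E s y).length := by
  have h1 := length_cs E s y
  have h2 : 2 ^ (jE E + s) ≤ (y.length + 2) ^ (jE E + s) := Nat.pow_le_pow_left (by omega) _
  have h3 : jE E + s < 2 ^ (jE E + s) := Nat.lt_two_pow_self
  omega

/-- coded languages reduce to the simple set -/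
theorem reduces {δ : List Bool → Bool × Bool} {E : Ix} {A : Set (List Bool)}
    (hE : (∃ y : List Bool, ¬ Leg (Om3 δ) E y) ∨ ∃ L : ℕ, ∀ w y : List Bool, IsC w E y →
      L ≤ w.length → (δ w).1 = true)
    (hA : ∀ y : List Bool, Leg (Om3 δ) E y ∧ (Val (Om3 δ) E y ↔ y ∈ A)) :
    ∃ f : List Bool → List Bool, PolyFn (Om3 δ) f ∧ ∀ x, x ∈ A ↔ f x ∈ {y : List Bool | y ≠ []} := by
  rcases hE with ⟨y, hy⟩ | ⟨L, hL⟩
  · exact absurd (hA y).1 hy
  · refine ⟨_, polyFn_cs (Om3 δ) E L, fun x => ?_⟩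
    have h1 : Om3 δ (cs E L x) = true ↔ x ∈ A := by
      rw [Om3_C (E := E) (y := x) ⟨L, rfl⟩ (hL _ x ⟨L, rfl⟩ (length_cs_ge E L x)), ← (hA x).2]
      have := (hA x).1
      tauto
    rw [← h1]
    cases Om3 δ (cs E L x) with
    | true => simp
    | false => simp

theorem leg_of_via {O : List Bool → Bool} {ρ : RD} {A : Set (List Bool)}
    (h : Via O ρ.1 ρ.2.1 ρ.2.2 A) (y : List Bool) :
    Leg O (Sum.inl ρ) y ∧ (Val O (Sum.inl ρ) y ↔ y ∈ A) := by
  have h1 : pr O (fs (Sum.inl ρ)) y = pr O ρ y := rfl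
  by_cases hy : y ∈ A
  · have h2 := (h.2 y).1 hy
    rw [← h.pr] at h2
    exact ⟨Or.inr h2, by rw [Val, h1]; exact iff_of_true h2 hy⟩
  · have h2 := (h.2 y).2 hy
    rw [← h.pr] at h2
    refine ⟨Or.inl h2, ?_⟩
    rw [Val, h1, h2]
    exact iff_of_false (by norm_num) hy

theorem leg_of_viaZ {O : List Bool → Bool} {P : PD} {A : Set (List Bool)} (h : ViaZ O P A)
    (y : List Bool) : Leg O (Sum.inr P) y ∧ (Val O (Sum.inr P) y ↔ y ∈ A) := by
  have h1 : Via O (fs (Sum.inr P)).1 (fs (Sum.inr P)).2.1 (fs (Sum.inr P)).2.2 A := h.1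
  have h2 : Via O (sn (Sum.inr P)).1 (sn (Sum.inr P)).2.1 (sn (Sum.inr P)).2.2 Aᶜ := h.2
  by_cases hy : y ∈ A
  · have h3 := (h1.2 y).1 hy
    have h4 := (h2.2 y).2 (fun h => h hy)
    rw [← h1.pr] at h3
    rw [← h2.pr] at h4
    exact ⟨Or.inl ⟨h3, h4⟩, iff_of_true h3 hy⟩
  · have h3 := (h1.2 y).2 hy
    have h4 := (h2.2 y).1 hy
    rw [← h1.pr] at h3
    rw [← h2.pr] at h4
    refine ⟨Or.inr ⟨h3, h4⟩, ?_⟩
    rw [Val, h3]
    exact iff_of_false (by norm_num) hy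

theorem hasComplete_ZPP3 {δ : List Bool → Bool × Bool}
    (h : ∀ P : PD, (∃ y : List Bool, ¬ Leg (Om3 δ) (Sum.inr P) y) ∨
      ∃ L : ℕ, ∀ w y : List Bool, IsC w (Sum.inr P) y → L ≤ w.length → (δ w).1 = true) :
    HasComplete (Om3 δ) (InZPP (Om3 δ)) := by
  refine ⟨{y | y ≠ []}, ⟨inR_ne _, inR_eq _⟩, fun B hB => ?_⟩
  obtain ⟨⟨p, k, l, hp⟩, ⟨q, k', l', hq⟩⟩ := hB
  exact reduces (h (p, q, k, l, k', l')) (fun y => leg_of_viaZ (P := (p, q, k, l, k', l'))
    ⟨hp, hq⟩ y)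

theorem hasComplete_R3 {δ : List Bool → Bool × Bool}
    (h : ∀ ρ : RD, (∃ y : List Bool, ¬ Leg (Om3 δ) (Sum.inl ρ) y) ∨
      ∃ L : ℕ, ∀ w y : List Bool, IsC w (Sum.inl ρ) y → L ≤ w.length → (δ w).1 = true) :
    HasComplete (Om3 δ) (InR (Om3 δ)) ∧ HasComplete (Om3 δ) (InZPP (Om3 δ)) := by
  have key : ∀ B, InR (Om3 δ) B → ∃ f : List Bool → List Bool, PolyFn (Om3 δ) f ∧
      ∀ x, x ∈ B ↔ f x ∈ {y : List Bool | y ≠ []} := by
    intro B hB
    obtain ⟨p, k, l, hp⟩ := hB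
    exact reduces (h (p, k, l)) (fun y => leg_of_via (ρ := (p, k, l)) hp y)
  exact ⟨⟨{y | y ≠ []}, inR_ne _, key⟩, ⟨{y | y ≠ []}, ⟨inR_ne _, inR_eq _⟩,
    fun B hB => key B hB.1⟩⟩

theorem dens_query {δ : List Bool → Bool × Bool} {m : ℕ} {s : Prog}
    (hacc : ∀ y r : List Bool, r.length = (y.length + 2) ^ 5 →
      (Accepts (Om3 δ) s y r ↔ Om3 δ (st (kT m true) y r) = true)) (x : List Bool) :
    Pr ((x.length + 2) ^ 5) (Accepts (Om3 δ) s x) = dens δ m x := by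
  rw [← dnO_Om3]
  exact Pr_congr (fun r hr => hacc x r hr)

theorem not_hasComplete_R3 {δ : List Bool → Bool × Bool}
    (hok : ∀ (j : Jx) (x : List Bool), ¬ Ok3 j δ x → DeadJ j (Om3 δ))
    (hreq : ∀ (ρ : RD) (g : Prog) (e : ℕ), ReqJ (Sum.inl ρ) g e (Om3 δ)) :
    ¬ HasComplete (Om3 δ) (InR (Om3 δ)) := by
  rintro ⟨A, ⟨p, k, l, hpA⟩, hcomp⟩
  set j : Jx := Sum.inl (p, k, l) with hj
  have hV : ViaJ j (Om3 δ) A := hpA
  have hok' : ∀ x, dens δ (nJ j) x = 0 ∨ 1 / 2 < dens δ (nJ j) x := fun x => by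
    by_contra h
    exact hok j x h A hV
  have hB : InR (Om3 δ) (TS j (Om3 δ)) := by
    obtain ⟨s, t, hs, hacc⟩ := exists_queryJ (Om3 δ) (kT (nJ j) true) 5 (by norm_num)
    refine ⟨s, 5, t, hs, fun x => ?_⟩
    rw [dens_query hacc]
    have h1 : x ∈ TS j (Om3 δ) ↔ 0 < dens δ (nJ j) x := by
      rw [← dnO_Om3]
      rfl
    rw [h1]
    rcases hok' x with h2 | h2
    · rw [h2]
      exact ⟨fun h => absurd h (lt_irrefl _), fun _ => rfl⟩
    · exact ⟨fun _ => h2, fun h => absurd (lt_trans (by norm_num) h2) h⟩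
  obtain ⟨f, ⟨g, e, hf⟩, hred⟩ := hcomp _ hB
  exact hreq (p, k, l) g e A f hV hf hred

theorem not_hasComplete_BPP3 {δ : List Bool → Bool × Bool}
    (hok : ∀ (j : Jx) (x : List Bool), ¬ Ok3 j δ x → DeadJ j (Om3 δ))
    (hreq : ∀ (β : BD) (g : Prog) (e : ℕ), ReqJ (Sum.inr β) g e (Om3 δ)) :
    ¬ HasComplete (Om3 δ) (InBPP (Om3 δ)) := by
  rintro ⟨A, ⟨p, k, l, ε, hε, hp, hA⟩, hcomp⟩
  obtain ⟨c, hc⟩ := exists_nat_gt (1 / ε)
  set j : Jx := Sum.inr (p, k, l, c) with hj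
  have hV : ViaJ j (Om3 δ) A := by
    refine ⟨hp, fun z => lt_of_le_of_lt ?_ (hA z)⟩
    have h1 : 1 / ((c : ℝ) + 1) ≤ ε := by
      rw [div_le_iff₀ (by positivity)]
      rw [div_lt_iff₀ hε] at hc
      nlinarith
    have h2 : (1 : ℝ) / 2 + 1 / ((c : ℝ) + 1) ≤ 1 / 2 + ε := by linarith
    exact h2
  have hok' : ∀ x, dens δ (nJ j) x < 1 / 4 ∨ 3 / 4 < dens δ (nJ j) x := fun x => by
    by_contra h
    exact hok j x h A hV
  have hB : InBPP (Om3 δ) (TS j (Om3 δ)) := by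
    obtain ⟨s, t, hs, hacc⟩ := exists_queryJ (Om3 δ) (kT (nJ j) true) 5 (by norm_num)
    refine ⟨s, 5, t, 1 / 8, by norm_num, hs, fun x => ?_⟩
    have h1 : x ∈ TS j (Om3 δ) ↔ 1 / 2 < dens δ (nJ j) x := by
      rw [← dnO_Om3]
      rfl
    rcases hok' x with h2 | h2
    · have hx : x ∉ TS j (Om3 δ) := by rw [h1]; linarith
      have h3 : Pr ((x.length + 2) ^ 5) (fun r => Accepts (Om3 δ) s x r ↔ x ∈ TS j (Om3 δ)) =
          Pr ((x.length + 2) ^ 5) (fun r => ¬ (Accepts (Om3 δ) s x) r) :=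
        Pr_congr (fun r _ => by simp [hx])
      have h4 := Pr_add_not ((x.length + 2) ^ 5) (Accepts (Om3 δ) s x)
      rw [dens_query hacc] at h4
      rw [h3]
      linarith
    · have hx : x ∈ TS j (Om3 δ) := by rw [h1]; linarith
      have h3 : Pr ((x.length + 2) ^ 5) (fun r => Accepts (Om3 δ) s x r ↔ x ∈ TS j (Om3 δ)) =
          Pr ((x.length + 2) ^ 5) (Accepts (Om3 δ) s x) :=
        Pr_congr (fun r _ => by simp [hx])
      rw [h3, dens_query hacc]
      linarith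
  obtain ⟨f, ⟨g, e, hf⟩, hred⟩ := hcomp _ hB
  exact hreq (p, k, l, c) g e A f hV hf hred

/-- There is an oracle relative to which ZPP has a complete set and neither R nor BPP has one. -/
theorem exists_oracle3 : ∃ O : List Bool → Bool, HasComplete O (InZPP O) ∧
    ¬ HasComplete O (InR O) ∧ ¬ HasComplete O (InBPP O) := by
  obtain ⟨δ, h1, h2, h3⟩ := exists_limit3 {E | ∃ P : PD, E = Sum.inr P}
  exact ⟨Om3 δ, hasComplete_ZPP3 (fun P => h3 _ ⟨P, rfl⟩),
    not_hasComplete_R3 h1 (fun ρ g e => h2 _ g e (Or.inr (fun E hE => hE))),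
    not_hasComplete_BPP3 h1 (fun β g e => h2 _ g e (Or.inl ⟨β, rfl⟩))⟩

/-- There is an oracle relative to which ZPP and R have complete sets and BPP has none. -/
theorem exists_oracle4 : ∃ O : List Bool → Bool, HasComplete O (InZPP O) ∧
    HasComplete O (InR O) ∧ ¬ HasComplete O (InBPP O) := by
  obtain ⟨δ, h1, h2, h3⟩ := exists_limit3 {E | ∃ ρ : RD, E = Sum.inl ρ}
  obtain ⟨h4, h5⟩ := hasComplete_R3 (δ := δ) (fun ρ => h3 _ ⟨ρ, rfl⟩)
  exact ⟨Om3 δ, h5, h4, not_hasComplete_BPP3 h1 (fun β g e => h2 _ g e (Or.inl ⟨β, rfl⟩))⟩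

/-- There is an oracle relative to which neither R nor BPP has a complete set. -/
theorem exists_oracle5 : ∃ O : List Bool → Bool,
    ¬ HasComplete O (InR O) ∧ ¬ HasComplete O (InBPP O) := by
  obtain ⟨δ, h1, h2, _⟩ := exists_limit3 ∅
  exact ⟨Om3 δ, not_hasComplete_R3 h1 (fun ρ g e => h2 _ g e (Or.inr (fun E hE => absurd hE id))),
    not_hasComplete_BPP3 h1 (fun β g e => h2 _ g e (Or.inl ⟨β, rfl⟩))⟩

end Pool.Agent.Helper56.PT
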