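import Pool.Agent.Helper56.PT.Lim

/-!
Acceptance by the clocked interpreter: two-sided dependence on few queries.
-/

set_option autoImplicit false

namespace Pool.Agent.Helper56.PT

open Dat

/-- `p` accepts `x` with the random string `r` within `T` steps of the interpreter -/
def AccS (O : List Bool → Bool) (p : Prog) (x r : List Bool) (T : ℕ) : Prop :=
  ∃ a b : Dat, simN O T (code p) (node (enc x) (enc r)) = node leaf (node (node a b) leaf)

/-- the queries of the clocked interpreter -/
noncomputable def sup (O : List Bool → Bool) (p : Prog) (x r : List Bool) (T : ℕ) :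
    Finset (List Bool) :=
  (simN_support O T (code p) (node (enc x) (enc r))).choose

theorem sup_card (O : List Bool → Bool) (p : Prog) (x r : List Bool) (T : ℕ) :
    (sup O p x r T).card ≤ T :=
  (simN_support O T (code p) (node (enc x) (enc r))).choose_spec.1

/-- a bound for the lengths of the queries -/
def qb (p : Prog) (x : List Bool) (M T : ℕ) : ℕ :=
  (code p).depth + x.length + M + 4 + 20 * T

theorem sup_length (O : List Bool → Bool) (p : Prog) (x r : List Bool) (T : ℕ) :
    ∀ q ∈ sup O p x r T, q.length ≤ qb p x r.length T := by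
  intro q hq
  have h1 := (simN_support O T (code p) (node (enc x) (enc r))).choose_spec.2.1 q hq
  have h2 := depth_pair_le x r
  rw [qb]
  omega

theorem sup_spec {O O' : List Bool → Bool} {p : Prog} {x r : List Bool} {T : ℕ}
    (h : ∀ q ∈ sup O p x r T, O' q = O q) :
    simN O' T (code p) (node (enc x) (enc r)) = simN O T (code p) (node (enc x) (enc r)) :=
  (simN_support O T (code p) (node (enc x) (enc r))).choose_spec.2.2 O' h

theorem AccS_sup {O O' : List Bool → Bool} {p : Prog} {x r : List Bool} {T : ℕ}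
    (h : ∀ q ∈ sup O p x r T, O' q = O q) : AccS O' p x r T ↔ AccS O p x r T := by
  unfold AccS
  rw [sup_spec h]

theorem AccS_congr {O O' : List Bool → Bool} {p : Prog} {x r : List Bool} {T : ℕ}
    (h : ∀ v : List Bool, v.length ≤ qb p x r.length T → O v = O' v) :
    AccS O p x r T ↔ AccS O' p x r T :=
  (AccS_sup (fun q hq => (h q (sup_length O p x r T q hq)).symm)).symm

/-- for a time-bounded program acceptance is acceptance by the interpreter -/
theorem accS_iff {O : List Bool → Bool} {p : Prog} {k l : ℕ} (h : TimeBd O p k l)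
    {x r : List Bool} (hr : r.length = (x.length + 2) ^ k) {T : ℕ}
    (hT : 3 * (x.length + 2) ^ l ≤ T) : AccS O p x r T ↔ Accepts O p x r := by
  obtain ⟨y, hy⟩ := h x r hr
  have h1 := simN_of_run hy hT
  obtain ⟨c, _, hc⟩ := hy
  constructor
  · rintro ⟨a, b, hab⟩
    rw [h1] at hab
    simp only [Dat.node.injEq, true_and, and_true] at hab
    rw [hab] at hc
    exact ⟨a, b, c, hc⟩
  · rintro ⟨a, b, n, hn⟩
    have h2 := (hn.det hc).1
    exact ⟨a, b, by rw [h1, h2]⟩

/-! ### numbers of programs which bound the depth -/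

/-- an injective numbering with `(code p).depth ≤ pm p` -/
noncomputable def pm (p : Prog) : ℕ := Nat.pair (pn p) (code p).depth

theorem pm_injective : Function.Injective pm := by
  intro p q h
  exact pn_injective (Nat.pair_eq_pair.1 h).1

theorem depth_le_pm (p : Prog) : (code p).depth ≤ pm p := Nat.right_le_pair _ _

theorem qb_le_inst (p : Prog) (x : List Bool) (M T : ℕ) :
    qb p x M T ≤ 20 * ((inst (pm p) x M T).length + 2) := by
  have := depth_le_pm p
  rw [qb, length_inst]
  omega

theorem inst_ge (n : ℕ) (x : List Bool) (M T : ℕ) : 3 ≤ (inst n x M T).length := by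
  rw [length_inst]; omega

theorem five_pow {a : ℕ} (ha : 3 ≤ a) : 20 * (a + 2) < (a + 2) ^ 5 := by
  have h1 : 5 ^ 4 ≤ (a + 2) ^ 4 := Nat.pow_le_pow_left (by omega) 4
  have h2 : (a + 2) ^ 5 = (a + 2) ^ 4 * (a + 2) := pow_succ _ _
  rw [h2]
  nlinarith

/-! ### averages -/

theorem Pr_eq_sum (m : ℕ) (P : List Bool → Prop) [DecidablePred P] :
    Pr m P = (∑ r : Fin m → Bool, if P (List.ofFn r) then (1 : ℝ) else 0) / 2 ^ m := by
  rw [Pr, Nat.card_eq_fintype_card, Fintype.card_subtype, Finset.sum_boole]

/-- The sum over the changed oracles of the probabilities that the acceptance changes. -/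
theorem sum_dif_le {K : ℕ} (O0 : List Bool → Bool) (Oi : Fin K → List Bool → Bool) (p : Prog)
    (x : List Bool) (M T c : ℕ)
    (hc : ∀ q : List Bool, q.length ≤ qb p x M T →
      Nat.card {i : Fin K // Oi i q ≠ O0 q} ≤ c) :
    ∑ i, Pr M (fun r => ¬ (AccS (Oi i) p x r T ↔ AccS O0 p x r T)) ≤ (T : ℝ) * c := by
  classical
  simp only [Pr_eq_sum]
  rw [← Finset.sum_div, Finset.sum_comm, div_le_iff₀ (by positivity)]
  have h1 : ∀ r : Fin M → Bool, ∑ i : Fin K, (if ¬ (AccS (Oi i) p x (List.ofFn r) T ↔
      AccS O0 p x (List.ofFn r) T) then (1 : ℝ) else 0) ≤ (T : ℝ) * c := by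
    intro r
    have h2 : ∀ i : Fin K, (if ¬ (AccS (Oi i) p x (List.ofFn r) T ↔
        AccS O0 p x (List.ofFn r) T) then (1 : ℝ) else 0) ≤
        ∑ q ∈ sup O0 p x (List.ofFn r) T, if Oi i q ≠ O0 q then (1 : ℝ) else 0 := by
      intro i
      by_cases h : ¬ (AccS (Oi i) p x (List.ofFn r) T ↔ AccS O0 p x (List.ofFn r) T)
      · rw [if_pos h]
        have h3 : ∃ q ∈ sup O0 p x (List.ofFn r) T, Oi i q ≠ O0 q := by
          by_contra hn
          push Not at hn
          exact h (AccS_sup hn)
        obtain ⟨q, hq, hne⟩ := h3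
        have h4 := Finset.single_le_sum (f := fun q => if Oi i q ≠ O0 q then (1 : ℝ) else 0)
          (s := sup O0 p x (List.ofFn r) T) (fun q _ => by split_ifs <;> norm_num) hq
        simp only [if_pos hne] at h4
        exact h4
      · rw [if_neg h]
        exact Finset.sum_nonneg (fun q _ => by split_ifs <;> norm_num)
    refine (Finset.sum_le_sum (fun i _ => h2 i)).trans ?_
    rw [Finset.sum_comm]
    have h5 : ∀ q ∈ sup O0 p x (List.ofFn r) T,
        ∑ i : Fin K, (if Oi i q ≠ O0 q then (1 : ℝ) else 0) ≤ c := by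
      intro q hq
      rw [Finset.sum_boole]
      have h6 := hc q (by
        have := sup_length O0 p x (List.ofFn r) T q hq
        rwa [List.length_ofFn] at this)
      rw [Nat.card_eq_fintype_card, Fintype.card_subtype] at h6
      exact_mod_cast h6
    refine (Finset.sum_le_sum h5).trans ?_
    rw [Finset.sum_const, nsmul_eq_mul]
    have h7 : ((sup O0 p x (List.ofFn r) T).card : ℝ) ≤ T := by
      exact_mod_cast sup_card O0 p x (List.ofFn r) T
    exact mul_le_mul_of_nonneg_right h7 (Nat.cast_nonneg _)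
  refine (Finset.sum_le_sum (fun r _ => h1 r)).trans ?_
  rw [Finset.sum_const, nsmul_eq_mul, Finset.card_univ]
  have : Fintype.card (Fin M → Bool) = 2 ^ M := by simp
  rw [this]
  push_cast
  linarith

theorem Pr_dif_le {m : ℕ} {P Q : List Bool → Prop} : Pr m P ≤ Pr m Q +
    Pr m (fun r => ¬ (P r ↔ Q r)) := by
  classical
  rw [Pr_eq_sum, Pr_eq_sum, Pr_eq_sum, ← add_div, ← Finset.sum_add_distrib]
  refine div_le_div_of_nonneg_right (Finset.sum_le_sum (fun r _ => ?_)) (by positivity)
  by_cases h1 : P (List.ofFn r) <;> by_cases h2 : Q (List.ofFn r) <;> simp [h1, h2]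

theorem Pr_dif_comm {m : ℕ} {P Q : List Bool → Prop} :
    Pr m (fun r => ¬ (P r ↔ Q r)) = Pr m (fun r => ¬ (Q r ↔ P r)) :=
  Pr_congr (fun r _ => by tauto)

end Pool.Agent.Helper56.PT
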