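import Pool.Agent.Helper56.PT.Wa

/-!
The second world: blocks that code a solution of the promise problem behind BPP.
-/

set_option autoImplicit false

namespace Pool.Agent.Helper56.PT

open Dat

/-- the probability that the interpreter accepts -/
noncomputable def pa (O : List Bool → Bool) (p : Prog) (x : List Bool) (M T : ℕ) : ℝ :=
  Pr M (fun r => AccS O p x r T)

/-- kind of the preference strings -/
def kS : List Bool := [true, true]

/-- the preference string of `y` -/
def sS (y : List Bool) : List Bool := st kS y (List.replicate ((y.length + 2) ^ 5) false)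

theorem sS_inj {y y' : List Bool} (h : sS y = sS y') : y = y' := (st_inj h).2.1

/-- the status of `y` -/
def SB (δ : List Bool → Option Bool) (O : List Bool → Bool) (y : List Bool) : Prop :=
  ∃ (p : Prog) (x : List Bool) (M T : ℕ), y = inst (pm p) x M T ∧
    (1 / 2 + 1 / ((T : ℝ) + 1) < pa O p x M T ∨
      (1 / 2 - 1 / ((T : ℝ) + 1) ≤ pa O p x M T ∧
        (δ (sS y) = some true ∨ (δ (sS y) = none ∧ 1 / 2 < pa O p x M T))))

theorem SB_inst {δ : List Bool → Option Bool} {O : List Bool → Bool} {p : Prog} {x : List Bool}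
    {M T : ℕ} : SB δ O (inst (pm p) x M T) ↔
    (1 / 2 + 1 / ((T : ℝ) + 1) < pa O p x M T ∨
      (1 / 2 - 1 / ((T : ℝ) + 1) ≤ pa O p x M T ∧
        (δ (sS (inst (pm p) x M T)) = some true ∨
          (δ (sS (inst (pm p) x M T)) = none ∧ 1 / 2 < pa O p x M T)))) := by
  constructor
  · rintro ⟨p', x', M', T', h, h2⟩
    obtain ⟨h1, rfl, rfl, rfl⟩ := inst_inj h
    rw [pm_injective h1]
    rw [pm_injective h1] at h2
    exact h2
  · intro h
    exact ⟨p, x, M, T, rfl, h⟩

theorem pa_congr {O O' : List Bool → Bool} {p : Prog} {x : List Bool} {M T : ℕ}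
    (h : ∀ v : List Bool, v.length ≤ qb p x M T → O v = O' v) : pa O p x M T = pa O' p x M T :=
  Pr_congr (fun r hr => AccS_congr (fun v hv => h v (by rw [hr] at hv; exact hv)))

theorem SB_imp {δ δ' : List Bool → Option Bool} {O O' : List Bool → Bool} {y : List Bool}
    (hδ : δ (sS y) = δ' (sS y))
    (h : ∀ v : List Bool, v.length < (y.length + 2) ^ 5 → O v = O' v) (hk : SB δ O y) :
    SB δ' O' y := by
  obtain ⟨p, x, M, T, rfl, h2⟩ := hk
  have h3 : pa O p x M T = pa O' p x M T := pa_congr (fun v hv => h v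
    (lt_of_le_of_lt (hv.trans (qb_le_inst p x M T)) (five_pow (inst_ge _ _ _ _))))
  refine ⟨p, x, M, T, rfl, ?_⟩
  rw [← hδ, ← h3]
  exact h2

theorem SB_congr {δ δ' : List Bool → Option Bool} {O O' : List Bool → Bool} {y : List Bool}
    (hδ : δ (sS y) = δ' (sS y))
    (h : ∀ v : List Bool, v.length < (y.length + 2) ^ 5 → O v = O' v) :
    SB δ O y ↔ SB δ' O' y :=
  ⟨SB_imp hδ h, SB_imp hδ.symm (fun v hv => (h v hv).symm)⟩

/-- the length of the strings of a block -/
def b5 (κ y : List Bool) : ℕ := 2 * κ.length + 2 * y.length + (y.length + 2) ^ 5 + 2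

theorem length_st5 {κ y r : List Bool} (h : r.length = (y.length + 2) ^ 5) :
    (st κ y r).length = b5 κ y := by
  rw [length_st, h, b5]

theorem length_sS (y : List Bool) : (sS y).length = b5 kP y := by
  rw [sS, length_st5 (by simp)]
  rfl

/-- the rule of the oracle -/
def Rule2 (δ : List Bool → Option Bool) (O : List Bool → Bool) (w : List Bool) : Prop :=
  (∃ y r : List Bool, w = st kP y r ∧ r.length = (y.length + 2) ^ 5 ∧
    (δ w = some true ∨ (δ w = none ∧ SB δ O y))) ∨
  (∃ (n : ℕ) (b : Bool) (y r : List Bool), w = st (kT n b) y r ∧ r.length = (y.length + 2) ^ 5 ∧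
    δ w = some true)

theorem Rule2_imp {δ δ' : List Bool → Option Bool} {O O' : List Bool → Bool} {w : List Bool}
    (hδ : ∀ v : List Bool, v.length ≤ w.length → δ v = δ' v)
    (h : ∀ v : List Bool, v.length < w.length → O v = O' v)
    (hr : Rule2 δ O w) : Rule2 δ' O' w := by
  rcases hr with ⟨y, r, hw, hr, h1⟩ | ⟨n, b, y, r, hw, hr, h1⟩
  · have hl : w.length = b5 kP y := by rw [hw, length_st5 hr]
    refine Or.inl ⟨y, r, hw, hr, ?_⟩
    rw [← hδ w le_rfl]
    rcases h1 with h1 | ⟨h1, h2⟩
    · exact Or.inl h1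
    · refine Or.inr ⟨h1, SB_imp (hδ _ (by rw [length_sS, hl])) (fun v hv => h v ?_) h2⟩
      rw [hl, b5]
      omega
  · refine Or.inr ⟨n, b, y, r, hw, hr, ?_⟩
    rw [← hδ w le_rfl]
    exact h1

open Classical in
/-- the oracle of `δ` -/
noncomputable def Om2 (δ : List Bool → Option Bool) (w : List Bool) : Bool :=
  decide (Rule2 δ (fun v => if _ : v.length < w.length then Om2 δ v else false) w)
termination_by w.length

open Classical in
theorem Om2_iff (δ : List Bool → Option Bool) (w : List Bool) :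
    Om2 δ w = true ↔ Rule2 δ (Om2 δ) w := by
  rw [Om2, decide_eq_true_eq]
  constructor
  · exact Rule2_imp (fun _ _ => rfl) (fun v hv => by rw [dif_pos hv])
  · exact Rule2_imp (fun _ _ => rfl) (fun v hv => by rw [dif_pos hv])

theorem Om2_congr {δ δ' : List Bool → Option Bool} {L : ℕ}
    (h : ∀ w : List Bool, w.length < L → δ w = δ' w) :
    ∀ (n : ℕ) (w : List Bool), w.length = n → w.length < L → Om2 δ w = Om2 δ' w := by
  intro n
  induction n using Nat.strong_induction_on with
  | _ n ih =>
    intro w hw hL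
    rw [Bool.eq_iff_iff, Om2_iff, Om2_iff]
    have h1 : ∀ v : List Bool, v.length < w.length → Om2 δ v = Om2 δ' v := fun v hv =>
      ih v.length (by omega) v rfl (by omega)
    exact ⟨Rule2_imp (fun v hv => h v (by omega)) h1,
      Rule2_imp (fun v hv => (h v (by omega)).symm) (fun v hv => (h1 v hv).symm)⟩

theorem Om2_P (δ : List Bool → Option Bool) (y r : List Bool) : Om2 δ (st kP y r) = true ↔
    r.length = (y.length + 2) ^ 5 ∧
      (δ (st kP y r) = some true ∨ (δ (st kP y r) = none ∧ SB δ (Om2 δ) y)) := by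
  rw [Om2_iff]
  constructor
  · rintro (⟨y', r', hw, hr, h1⟩ | ⟨n, b, y', r', hw, hr, h1⟩)
    · obtain ⟨_, rfl, rfl⟩ := st_inj hw
      exact ⟨hr, h1⟩
    · exact absurd (st_inj hw).1 (kP_ne_kT n b)
  · rintro ⟨h1, h2⟩
    exact Or.inl ⟨y, r, rfl, h1, h2⟩

theorem Om2_T (δ : List Bool → Option Bool) (n : ℕ) (b : Bool) (y r : List Bool) :
    Om2 δ (st (kT n b) y r) = true ↔
      r.length = (y.length + 2) ^ 5 ∧ δ (st (kT n b) y r) = some true := by
  rw [Om2_iff]
  constructor
  · rintro (⟨y', r', hw, hr, h1⟩ | ⟨n', b', y', r', hw, hr, h1⟩)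
    · exact absurd (st_inj hw).1.symm (kP_ne_kT n b)
    · obtain ⟨_, rfl, rfl⟩ := st_inj hw
      exact ⟨hr, h1⟩
  · rintro ⟨h1, h2⟩
    exact Or.inr ⟨n, b, y, r, rfl, h1, h2⟩

theorem Om2_other {δ : List Bool → Option Bool} {w : List Bool}
    (h1 : ¬ ∃ y r : List Bool, w = st kP y r)
    (h2 : ¬ ∃ (n : ℕ) (b : Bool) (y r : List Bool), w = st (kT n b) y r) : Om2 δ w = false := by
  rw [Bool.eq_false_iff]
  intro h
  rcases (Om2_iff _ _).1 h with ⟨y, r, h5, _⟩ | ⟨n', b', y, r, h5, _⟩
  · exact h1 ⟨y, r, h5⟩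
  · exact h2 ⟨n', b', y, r, h5⟩

/-! ### configurations -/

/-- the free strings with number `m` and index `x` -/
def isT5 (m : ℕ) (x w : List Bool) : Prop :=
  ∃ (b : Bool) (r : List Bool), w = st (kT m b) x r ∧ r.length = (x.length + 2) ^ 5

theorem isT5.length {m : ℕ} {x w : List Bool} (h : isT5 m x w) :
    w.length = 2 * m + 4 + 2 * x.length + (x.length + 2) ^ 5 + 2 := by
  obtain ⟨b, r, rfl, hr⟩ := h
  rw [length_st, hr]
  simp only [kT, List.length_cons, List.length_replicate]
  ring

theorem isT5.lt {m : ℕ} {x w : List Bool} (h : isT5 m x w) : x.length < w.length := by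
  have := h.length
  omega

open Classical in
/-- make the free strings with number `m` and index `x` empty -/
noncomputable def emp5 (δ : List Bool → Option Bool) (m : ℕ) (x : List Bool)
    (w : List Bool) : Option Bool :=
  if isT5 m x w then none else δ w

theorem emp5_low {δ : List Bool → Option Bool} {m : ℕ} {x : List Bool} {w : List Bool}
    (h : w.length < x.length) : emp5 δ m x w = δ w := by
  rw [emp5, if_neg (fun h1 => absurd h1.lt (by omega))]

open Classical in
/-- A configuration: the blocks with number `m` and index `x` consist of the strings in `X`, the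
coding strings in `G` are forced to the values `val`, and the preferences are the statuses of the
base configuration. -/
noncomputable def cfg (δ : List Bool → Option Bool) (m : ℕ) (x : List Bool) (N : ℕ)
    (X : Set (List Bool)) (G : Finset (List Bool)) (val : List Bool → Bool)
    (w : List Bool) : Option Bool :=
  if isT5 m x w then (if w ∈ X then some true else none)
  else if w ∈ G ∧ x.length ≤ w.length ∧ (∃ y r : List Bool, w = st kP y r) then some (val w)
  else if x.length ≤ w.length ∧ w.length < N ∧ ∃ y : List Bool, w = sS y then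
    some (decide (∃ y : List Bool, w = sS y ∧ SB (emp5 δ m x) (Om2 (emp5 δ m x)) y))
  else δ w

theorem cfg_low {δ : List Bool → Option Bool} {m : ℕ} {x : List Bool} {N : ℕ}
    {X : Set (List Bool)} {G : Finset (List Bool)} {val : List Bool → Bool} {w : List Bool}
    (h : w.length < x.length) : cfg δ m x N X G val w = δ w := by
  rw [cfg, if_neg (fun h1 => absurd h1.lt (by omega)), if_neg (fun h1 => absurd h1.2.1 (by omega)),
    if_neg (fun h1 => absurd h1.1 (by omega))]

theorem not_isT5_P {m : ℕ} {x y r : List Bool} : ¬ isT5 m x (st kP y r) := by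
  rintro ⟨b, r', h, _⟩
  exact kP_ne_kT m b (st_inj h).1

theorem not_isT5_S {m : ℕ} {x y : List Bool} : ¬ isT5 m x (sS y) := by
  rintro ⟨b, r', h, _⟩
  exact kN_ne_kT m b (st_inj h).1

theorem sS_ne_P {y y' r : List Bool} : sS y ≠ st kP y' r := fun h => kN_ne_kP (st_inj h).1

theorem sS_ne_T {y y' r : List Bool} {n : ℕ} {b : Bool} : sS y ≠ st (kT n b) y' r := fun h =>
  kN_ne_kT n b (st_inj h).1

/-- the strings which can be changed freely -/
def Flex (m : ℕ) (x : List Bool) (w : List Bool) : Prop :=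
  x.length ≤ w.length ∧ (isT5 m x w ∨ ∃ y r : List Bool, w = st kP y r ∧
    r.length = (y.length + 2) ^ 5)

section persist

variable {δ δ'' : List Bool → Option Bool} {m : ℕ} {x : List Bool} {N : ℕ} {X : Set (List Bool)}
  {G : Finset (List Bool)} {val : List Bool → Bool}

theorem cfg_persist (hN : x.length ≤ N)
    (hδ : ∀ w : List Bool, w.length < N → δ'' w = cfg δ m x N X G val w)
    (hval : ∀ w ∈ G, ¬ Flex m x w → val w = Om2 (emp5 δ m x) w)
    (hX : ∀ w ∈ G, isT5 m x w → (w ∈ X ↔ val w = true))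
    {w : List Bool} (hw : w ∈ G) (hwN : w.length < N) : Om2 δ'' w = val w := by
  by_cases hlow : w.length < x.length
  · rw [hval w hw (fun h => absurd h.1 (by omega))]
    refine Om2_congr (L := x.length) (fun v hv => ?_) _ w rfl hlow
    rw [hδ v (by omega), cfg_low hv, emp5_low hv]
  · have hlow' : x.length ≤ w.length := not_lt.1 hlow
    by_cases h1 : ∃ y r : List Bool, w = st kP y r
    · obtain ⟨y, r, rfl⟩ := h1
      have hv : δ'' (st kP y r) = some (val (st kP y r)) := by
        rw [hδ _ hwN, cfg, if_neg not_isT5_P, if_pos ⟨hw, hlow', y, r, rfl⟩]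
      by_cases hr : r.length = (y.length + 2) ^ 5
      · rw [Bool.eq_iff_iff, Om2_P, hv]
        simp [hr]
      · rw [hval _ hw]
        · rw [Bool.eq_iff_iff, Om2_P, Om2_P]
          simp [hr]
        · rintro ⟨_, h | ⟨y', r', h, hr'⟩⟩
          · exact not_isT5_P h
          · obtain ⟨_, rfl, rfl⟩ := st_inj h
            exact hr hr'
    · by_cases h3 : ∃ (n' : ℕ) (b' : Bool) (y r : List Bool), w = st (kT n' b') y r
      · obtain ⟨n', b', y, r, rfl⟩ := h3
        by_cases hT : isT5 m x (st (kT n' b') y r)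
        · have e1 : δ'' (st (kT n' b') y r) = some true ↔ st (kT n' b') y r ∈ X := by
            rw [hδ _ hwN, cfg, if_pos hT]
            split_ifs with h <;> simp [h]
          rw [Bool.eq_iff_iff, Om2_T, e1, hX _ hw hT]
          obtain ⟨b, r', h, hr'⟩ := hT
          obtain ⟨_, rfl, rfl⟩ := st_inj h
          simp [hr']
        · have e1 : δ'' (st (kT n' b') y r) = δ (st (kT n' b') y r) := by
            rw [hδ _ hwN, cfg, if_neg hT, if_neg (fun h => h1 h.2.2),
              if_neg (fun h => by obtain ⟨y', h⟩ := h.2.2; exact sS_ne_T h.symm)]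
          have e2 : emp5 δ m x (st (kT n' b') y r) = δ (st (kT n' b') y r) := by
            rw [emp5, if_neg hT]
          rw [hval _ hw]
          · rw [Bool.eq_iff_iff, Om2_T, Om2_T, e1, e2]
          · rintro ⟨_, h | ⟨y', r', h, _⟩⟩
            · exact hT h
            · exact h1 ⟨y', r', h⟩
      · rw [Om2_other h1 h3, hval _ hw]
        · exact (Om2_other h1 h3).symm
        · rintro ⟨_, h | ⟨y', r', h, _⟩⟩
          · obtain ⟨b, r', h, _⟩ := h
            exact h3 ⟨m, b, x, r', h⟩
          · exact h1 ⟨y', r', h⟩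

/-- where the oracle changes -/
theorem cfg_change (hN : x.length ≤ N) (hS : ∀ w : List Bool, x.length ≤ w.length → δ w = dflt w)
    (hδ : ∀ w : List Bool, w.length < N → δ'' w = cfg δ m x N X G val w)
    {w : List Bool} (hwN : w.length < N) (hne : Om2 δ'' w ≠ Om2 (emp5 δ m x) w) :
    (isT5 m x w ∧ w ∈ X) ∨ (∃ y r : List Bool, w = st kP y r ∧ r.length = (y.length + 2) ^ 5 ∧
      x.length ≤ w.length ∧ (w ∉ G → ¬ (SB δ'' (Om2 δ'') y ↔
        SB (emp5 δ m x) (Om2 (emp5 δ m x)) y))) := by
  have hlow : x.length ≤ w.length := by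
    by_contra hn
    refine hne (Om2_congr (L := x.length) (fun v hv => ?_) _ w rfl (by omega))
    rw [hδ v (by omega), cfg_low hv, emp5_low hv]
  by_cases h1 : ∃ y r : List Bool, w = st kP y r
  · obtain ⟨y, r, rfl⟩ := h1
    right
    by_cases hr : r.length = (y.length + 2) ^ 5
    · refine ⟨y, r, rfl, hr, hlow, fun hG h => hne ?_⟩
      have e1 : δ'' (st kP y r) = none := by
        rw [hδ _ hwN, cfg, if_neg not_isT5_P, if_neg (fun h => hG h.1),
          if_neg (fun h => by obtain ⟨y', h⟩ := h.2.2; exact sS_ne_P h.symm), hS _ hlow, dflt_P]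
      have e2 : emp5 δ m x (st kP y r) = none := by
        rw [emp5, if_neg not_isT5_P, hS _ hlow, dflt_P]
      rw [Bool.eq_iff_iff, Om2_P, Om2_P, e1, e2, h]
    · exfalso
      apply hne
      rw [Bool.eq_iff_iff, Om2_P, Om2_P]
      simp [hr]
  · by_cases h3 : ∃ (n' : ℕ) (b' : Bool) (y r : List Bool), w = st (kT n' b') y r
    · obtain ⟨n', b', y, r, rfl⟩ := h3
      by_cases hT : isT5 m x (st (kT n' b') y r)
      · left
        refine ⟨hT, ?_⟩
        by_contra hX
        apply hne
        rw [Bool.eq_iff_iff, Om2_T, Om2_T, hδ _ hwN, cfg, if_pos hT, if_neg hX, emp5, if_pos hT]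
      · exfalso
        apply hne
        rw [Bool.eq_iff_iff, Om2_T, Om2_T, hδ _ hwN, cfg, if_neg hT, if_neg (fun h => h1 h.2.2),
          if_neg (fun h => by obtain ⟨y', h⟩ := h.2.2; exact sS_ne_T h.symm), emp5, if_neg hT]
    · exact absurd ((Om2_other h1 h3).trans (Om2_other h1 h3).symm) hne

/-- the preferences -/
theorem cfg_pref (hδ : ∀ w : List Bool, w.length < N → δ'' w = cfg δ m x N X G val w)
    {y : List Bool} (h1 : x.length ≤ b5 kP y) (h2 : b5 kP y < N) :
    (δ'' (sS y) = some true ↔ SB (emp5 δ m x) (Om2 (emp5 δ m x)) y) ∧ δ'' (sS y) ≠ none := by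
  classical
  have h3 : δ'' (sS y) = some (decide (∃ y' : List Bool, sS y = sS y' ∧
      SB (emp5 δ m x) (Om2 (emp5 δ m x)) y')) := by
    rw [hδ _ (by rw [length_sS]; exact h2), cfg, if_neg not_isT5_S,
      if_neg (fun h => by obtain ⟨y', r', h⟩ := h.2.2; exact sS_ne_P h),
      if_pos ⟨by rw [length_sS]; exact h1, by rw [length_sS]; exact h2, y, rfl⟩]
  refine ⟨?_, by rw [h3]; simp⟩
  rw [h3]
  simp only [Option.some.injEq, decide_eq_true_eq]
  constructor
  · rintro ⟨y', h4, h5⟩
    rw [sS_inj h4]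
    exact h5
  · intro h
    exact ⟨y, rfl, h⟩

end persist

end Pool.Agent.Helper56.PT
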