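import Pool.Agent.Helper56.PT.Wb

/-!
Few oracles of a disjoint family change a given status.
-/

set_option autoImplicit false

namespace Pool.Agent.Helper56.PT

open Dat

/-- the machine that asks the oracle about the string with kind `κ`, the input and the random
string -/
theorem exists_queryJ (O : List Bool → Bool) (κ : List Bool) (j : ℕ) (hj : j ≠ 0) :
    ∃ (p : Prog) (l : ℕ), TimeBd O p j l ∧ ∀ y r : List Bool, r.length = (y.length + 2) ^ j →
      (Accepts O p y r ↔ O (st κ y r) = true) := by
  have h1 : Poly O (fun x => rebT (enc κ) (node leaf (rebT x.hd (node leaf x.tl)))) :=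
    Poly.rebT (Poly.const _) ((Poly.const _).node (Poly.rebT Poly.id.hd
      ((Poly.const _).node Poly.id.tl)))
  have h2 : Poly O (fun x => bit (O (bitsOf x))) := Poly.of_LFc (LFc.query LFc.id)
  obtain ⟨p, k, hp⟩ := Poly.comp h1 h2
  have hrun : ∀ y r : List Bool, RunLe O p (node (enc y) (enc r)) (bit (O (st κ y r)))
      (((node (enc y) (enc r)).depth + 2) ^ k) := by
    intro y r
    have h3 := hp (node (enc y) (enc r))
    have e1 : ∀ R : List Bool, node leaf (enc R) = enc (false :: R) := fun _ => rfl
    simp only [Dat.hd, Dat.tl] at h3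
    rw [e1, rebT_eq, e1, rebT_eq, bitsOf_enc] at h3
    exact h3
  obtain ⟨l, hl⟩ : Pol (fun n => ((n + 2) ^ j + 4) ^ k) :=
    (Pol.add ⟨j, fun n => le_rfl⟩ (Pol.const 4)).pow k
  refine ⟨p, l, fun y r hr => ⟨_, (hrun y r).mono (le_trans ?_ (hl y.length))⟩, fun y r hr => ?_⟩
  · refine Nat.pow_le_pow_left ?_ k
    simp only [depth]
    have h3 := depth_enc_le y
    have h4 := depth_enc_le r
    have h5 : y.length + 2 ≤ (y.length + 2) ^ j := Nat.le_self_pow hj _
    omega
  · obtain ⟨c, _, hc⟩ := hrun y r
    constructor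
    · rintro ⟨a, b, n, h⟩
      have h3 := (hc.det h).1
      cases ho : O (st κ y r) with
      | true => rfl
      | false => rw [ho] at h3; simp [bit] at h3
    · intro ho
      rw [ho] at hc
      exact ⟨leaf, leaf, c, hc⟩

/-! ### the influence -/

theorem card_le_of_imp {K : ℕ} {P Q : Fin K → Prop} (h : ∀ i, P i → Q i) :
    Nat.card {i : Fin K // P i} ≤ Nat.card {i : Fin K // Q i} :=
  Nat.card_le_card_of_injective (fun i => ⟨i.1, h _ i.2⟩) (fun a b hab => by
    simp only [Subtype.mk.injEq] at hab
    exact Subtype.ext hab)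

theorem card_or_le {K : ℕ} (P Q : Fin K → Prop) :
    Nat.card {i : Fin K // P i ∨ Q i} ≤ Nat.card {i : Fin K // P i} +
      Nat.card {i : Fin K // Q i} := by
  classical
  rw [Nat.card_eq_fintype_card, Nat.card_eq_fintype_card, Nat.card_eq_fintype_card]
  exact Fintype.card_subtype_or P Q

theorem card_zero {K : ℕ} {P : Fin K → Prop} (h : ∀ i, ¬ P i) :
    Nat.card {i : Fin K // P i} = 0 := by
  have : IsEmpty {i : Fin K // P i} := ⟨fun i => h i.1 i.2⟩
  exact Nat.card_of_isEmpty

theorem card_sum {K : ℕ} {P : Fin K → Prop} {a : Fin K → ℝ} {ε : ℝ} (h0 : ∀ i, 0 ≤ a i)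
    (h : ∀ i, P i → ε ≤ a i) : (Nat.card {i : Fin K // P i} : ℝ) * ε ≤ ∑ i, a i := by
  classical
  rw [Nat.card_eq_fintype_card, Fintype.card_subtype, ← nsmul_eq_mul, ← Finset.sum_const]
  refine (Finset.sum_le_sum (fun i hi => h i (Finset.mem_filter.1 hi).2)).trans ?_
  exact Finset.sum_le_sum_of_subset_of_nonneg (Finset.filter_subset _ _) (fun i _ _ => h0 i)

theorem pa_dif {O O' : List Bool → Bool} {p : Prog} {x : List Bool} {M T : ℕ} :
    |pa O' p x M T - pa O p x M T| ≤ Pr M (fun r => ¬ (AccS O' p x r T ↔ AccS O p x r T)) := by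
  rw [abs_le]
  have h1 : pa O' p x M T ≤ pa O p x M T +
      Pr M (fun r => ¬ (AccS O' p x r T ↔ AccS O p x r T)) := Pr_dif_le
  have h2 : pa O p x M T ≤ pa O' p x M T +
      Pr M (fun r => ¬ (AccS O p x r T ↔ AccS O' p x r T)) := Pr_dif_le
  rw [Pr_dif_comm] at h2
  constructor <;> linarith

theorem Pr_nonneg' (m : ℕ) (P : List Bool → Prop) : 0 ≤ Pr m P := by
  rw [Pr]; positivity

/-- a change of status is a large change of the probability, if the preference is the status of the
base configuration -/
theorem pa_change {δ δ0 : List Bool → Option Bool} {p : Prog} {x : List Bool} {M T : ℕ}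
    (h0 : δ0 (sS (inst (pm p) x M T)) = none)
    (h1 : (δ (sS (inst (pm p) x M T)) = some true ↔ SB δ0 (Om2 δ0) (inst (pm p) x M T)))
    (h2 : δ (sS (inst (pm p) x M T)) ≠ none)
    (h : ¬ (SB δ (Om2 δ) (inst (pm p) x M T) ↔ SB δ0 (Om2 δ0) (inst (pm p) x M T))) :
    1 / ((T : ℝ) + 1) ≤ Pr M (fun r => ¬ (AccS (Om2 δ) p x r T ↔ AccS (Om2 δ0) p x r T)) := by
  refine le_trans ?_ pa_dif
  have hT : (0 : ℝ) < 1 / ((T : ℝ) + 1) := by positivity
  rw [SB_inst] at h1 h
  rw [SB_inst] at h
  rw [h0] at h1 h
  generalize pa (Om2 δ) p x M T = a at *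
  generalize pa (Om2 δ0) p x M T = b at *
  generalize 1 / ((T : ℝ) + 1) = ε at *
  simp only [reduceCtorEq, true_and, false_or] at h1 h
  by_cases hb : (1 / 2 + ε < b ∨ 1 / 2 - ε ≤ b ∧ 1 / 2 < b)
  · have h3 : 1 / 2 < b := by rcases hb with hb | hb <;> linarith
    simp only [hb, iff_true] at h h1
    have h4 : a < 1 / 2 - ε := by
      by_contra hn
      exact h (Or.inr ⟨not_lt.1 hn, Or.inl h1⟩)
    rw [abs_sub_comm]
    exact le_trans (by linarith) (le_abs_self _)
  · have h3 : b ≤ 1 / 2 := by
      by_contra hn
      push Not at hn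
      exact hb (Or.inr ⟨by linarith, hn⟩)
    simp only [hb, iff_false] at h h1
    have h4 : 1 / 2 + ε < a := by
      rw [not_not] at h
      rcases h with h | ⟨_, h | ⟨h, _⟩⟩
      · exact h
      · exact absurd h h1
      · exact absurd h h2
    exact le_trans (by linarith) (le_abs_self _)

theorem infl {K : ℕ} {δ0 : List Bool → Option Bool} {δi : Fin K → List Bool → Option Bool}
    {L0 N : ℕ} (hbase : ∀ y : List Bool, L0 ≤ b5 kP y → δ0 (sS y) = none)
    (hlow : ∀ (i : Fin K) (y : List Bool), b5 kP y < L0 →
      (SB (δi i) (Om2 (δi i)) y ↔ SB δ0 (Om2 δ0) y))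
    (hpref : ∀ (i : Fin K) (y : List Bool), L0 ≤ b5 kP y → b5 kP y < N →
      (δi i (sS y) = some true ↔ SB δ0 (Om2 δ0) y) ∧ δi i (sS y) ≠ none)
    (P : Fin K → List Bool → Prop) (hP : ∀ w : List Bool, Nat.card {i : Fin K // P i w} ≤ 1)
    (hch : ∀ (i : Fin K) (w : List Bool), w.length < N → Om2 (δi i) w ≠ Om2 δ0 w →
      P i w ∨ ∃ y r : List Bool, w = st kP y r ∧ r.length = (y.length + 2) ^ 5 ∧
        ¬ (SB (δi i) (Om2 (δi i)) y ↔ SB δ0 (Om2 δ0) y)) :
    ∀ (n : ℕ) (y : List Bool), y.length = n → b5 kP y < N →
      Nat.card {i : Fin K // ¬ (SB (δi i) (Om2 (δi i)) y ↔ SB δ0 (Om2 δ0) y)} ≤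
        (y.length + 2) ^ 3 := by
  intro n
  induction n using Nat.strong_induction_on with
  | _ n ih =>
    intro y hy hyN
    by_cases hL : b5 kP y < L0
    · rw [card_zero (fun i h => h (hlow i y hL))]
      exact Nat.zero_le _
    · rw [not_lt] at hL
      by_cases hin : ∃ (p : Prog) (x : List Bool) (M T : ℕ), y = inst (pm p) x M T
      · obtain ⟨p, x, M, T, rfl⟩ := hin
        set y := inst (pm p) x M T with hyd
        have hy3 : 3 ≤ y.length := inst_ge _ _ _ _
        have hlen : ∀ q : List Bool, q.length ≤ qb p x M T → q.length ≤ 20 * (y.length + 2) :=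
          fun q hq => hq.trans (qb_le_inst p x M T)
        have h5 : 20 * (y.length + 2) < (y.length + 2) ^ 5 := five_pow hy3
        have hb5 : (y.length + 2) ^ 5 ≤ b5 kP y := by rw [b5]; omega
        -- the number of changes of a query
        have hq : ∀ q : List Bool, q.length ≤ qb p x M T →
            Nat.card {i : Fin K // Om2 (δi i) q ≠ Om2 δ0 q} ≤ y.length + 2 := by
          intro q hq
          have hq1 := hlen q hq
          by_cases hk : ∃ y' r' : List Bool, q = st kP y' r' ∧ r'.length = (y'.length + 2) ^ 5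
          · obtain ⟨y', r', rfl, hr'⟩ := hk
            have hl' : (st kP y' r').length = b5 kP y' := length_st5 hr'
            have hlt : b5 kP y' < N := by omega
            have hb' : (y'.length + 2) ^ 5 ≤ b5 kP y' := by rw [b5]; omega
            have hlt' : y'.length < y.length := by
              by_contra hn
              have : (y.length + 2) ^ 5 ≤ (y'.length + 2) ^ 5 :=
                Nat.pow_le_pow_left (by omega) 5
              omega
            have h6 := ih y'.length (by omega) y' rfl hlt
            have h7 : Nat.card {i : Fin K // Om2 (δi i) (st kP y' r') ≠ Om2 δ0 (st kP y' r')} ≤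
                1 + (y'.length + 2) ^ 3 := by
              refine (card_le_of_imp (fun i h => ?_)).trans ((card_or_le
                (fun i => P i (st kP y' r')) (fun i => ¬ (SB (δi i) (Om2 (δi i)) y' ↔
                  SB δ0 (Om2 δ0) y'))).trans (Nat.add_le_add (hP _) h6))
              rcases hch i _ (by omega) h with h | ⟨y'', r'', h, _, h2⟩
              · exact Or.inl h
              · obtain ⟨_, rfl, rfl⟩ := st_inj h
                exact Or.inr h2
            by_cases hy'3 : ∃ (p' : Prog) (x' : List Bool) (M' T' : ℕ), y' = inst (pm p') x' M' T'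
            · have h8 : 3 ≤ y'.length := by
                obtain ⟨p', x', M', T', rfl⟩ := hy'3
                exact inst_ge _ _ _ _
              have h9 : (y'.length + 2) ^ 5 = (y'.length + 2) ^ 3 * (y'.length + 2) ^ 2 := by
                rw [← pow_add]
              have h10 : 5 ^ 2 ≤ (y'.length + 2) ^ 2 := Nat.pow_le_pow_left (by omega) 2
              have h11 : (y'.length + 2) ^ 3 * 5 ^ 2 ≤ (y'.length + 2) ^ 3 * (y'.length + 2) ^ 2 :=
                Nat.mul_le_mul_left _ h10
              omega
            · have h8 : Nat.card {i : Fin K // ¬ (SB (δi i) (Om2 (δi i)) y' ↔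
                  SB δ0 (Om2 δ0) y')} = 0 := by
                refine card_zero (fun i h => h ?_)
                constructor
                · rintro ⟨p', x', M', T', h, _⟩
                  exact absurd ⟨p', x', M', T', h⟩ hy'3
                · rintro ⟨p', x', M', T', h, _⟩
                  exact absurd ⟨p', x', M', T', h⟩ hy'3
              have h9 : Nat.card {i : Fin K // Om2 (δi i) (st kP y' r') ≠
                  Om2 δ0 (st kP y' r')} ≤ 1 + 0 := by
                refine (card_le_of_imp (fun i h => ?_)).trans ((card_or_le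
                  (fun i => P i (st kP y' r')) (fun i => ¬ (SB (δi i) (Om2 (δi i)) y' ↔
                    SB δ0 (Om2 δ0) y'))).trans (Nat.add_le_add (hP _) h8.le))
                rcases hch i _ (by omega) h with h | ⟨y'', r'', h, _, h2⟩
                · exact Or.inl h
                · obtain ⟨_, rfl, rfl⟩ := st_inj h
                  exact Or.inr h2
              omega
          · refine le_trans (card_le_of_imp (Q := fun i => P i q) (fun i h => ?_))
              ((hP q).trans (by omega))
            rcases hch i q (by omega) h with h | ⟨y', r', h, hr', _⟩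
            · exact h
            · exact absurd ⟨y', r', h, hr'⟩ hk
        have hsum := sum_dif_le (Om2 δ0) (fun i => Om2 (δi i)) p x M T _ hq
        have h6 : (Nat.card {i : Fin K // ¬ (SB (δi i) (Om2 (δi i)) y ↔ SB δ0 (Om2 δ0) y)} : ℝ) *
            (1 / ((T : ℝ) + 1)) ≤ (T : ℝ) * (y.length + 2 : ℕ) := by
          refine le_trans (card_sum (fun i => Pr_nonneg' _ _) (fun i h => ?_)) hsum
          obtain ⟨h7, h8⟩ := hpref i y hL hyN
          exact pa_change (hbase y hL) h7 h8 h
        have hT : T + 1 ≤ y.length + 2 := by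
          rw [hyd, length_inst]
          omega
        rw [mul_one_div, div_le_iff₀ (by positivity)] at h6
        have h7 : Nat.card {i : Fin K // ¬ (SB (δi i) (Om2 (δi i)) y ↔ SB δ0 (Om2 δ0) y)} ≤
            T * (y.length + 2) * (T + 1) := by exact_mod_cast h6
        refine h7.trans ?_
        calc T * (y.length + 2) * (T + 1) ≤ (y.length + 2) * (y.length + 2) * (y.length + 2) :=
              Nat.mul_le_mul (Nat.mul_le_mul_right _ (by omega)) hT
          _ = (y.length + 2) ^ 3 := by ring
      · refine (card_zero (fun i h => h ?_)).le.trans (Nat.zero_le _)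
        constructor
        · rintro ⟨p', x', M', T', h, _⟩
          exact absurd ⟨p', x', M', T', h⟩ hin
        · rintro ⟨p', x', M', T', h, _⟩
          exact absurd ⟨p', x', M', T', h⟩ hin

/-! ### disjoint families or a small cover -/

theorem disjoint_or_cover (S : Set (Finset (List Bool))) (T : ℕ)
    (hS : ∀ D ∈ S, D.Nonempty ∧ D.card ≤ T) (K : ℕ) :
    (∃ F : Fin K → Finset (List Bool), (∀ i, F i ∈ S) ∧ ∀ i j, i ≠ j → Disjoint (F i) (F j)) ∨
      ∃ Y : Finset (List Bool), Y.card ≤ K * T ∧ (∀ v ∈ Y, ∃ D ∈ S, v ∈ D) ∧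
        ∀ D ∈ S, ¬ Disjoint D Y := by
  classical
  induction K with
  | zero => exact Or.inl ⟨Fin.elim0, fun i => i.elim0, fun i => i.elim0⟩
  | succ K ih =>
    rcases ih with ⟨F, h1, h2⟩ | ⟨Y, h1, h2, h3⟩
    · set U : Finset (List Bool) := Finset.univ.biUnion F with hU
      have hUc : U.card ≤ K * T := by
        have := Finset.card_biUnion_le_card_mul (Finset.univ : Finset (Fin K)) F T
          (fun i _ => (hS _ (h1 i)).2)
        simpa using this
      by_cases h : ∃ D ∈ S, Disjoint D U
      · obtain ⟨D, hD, hDU⟩ := h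
        left
        have hdis : ∀ i, Disjoint D (F i) := fun i =>
          Finset.disjoint_of_subset_right (Finset.subset_biUnion_of_mem F (Finset.mem_univ i)) hDU
        refine ⟨Fin.cons D F, fun i => ?_, fun i j hij => ?_⟩
        · refine Fin.cases ?_ (fun i => ?_) i
          · simpa using hD
          · simpa using h1 i
        · induction i using Fin.cases with
          | zero =>
            induction j using Fin.cases with
            | zero => exact absurd rfl hij
            | succ j => simpa using hdis j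
          | succ i =>
            induction j using Fin.cases with
            | zero => simpa using (hdis i).symm
            | succ j => simpa using h2 i j (fun h => hij (by rw [h]))
      · right
        refine ⟨U, hUc.trans (Nat.mul_le_mul_right _ (Nat.le_succ K)), fun v hv => ?_,
          fun D hD hDU => h ⟨D, hD, hDU⟩⟩
        obtain ⟨i, _, hi⟩ := Finset.mem_biUnion.1 hv
        exact ⟨F i, h1 i, hi⟩
    · exact Or.inr ⟨Y, h1.trans (Nat.mul_le_mul_right _ (Nat.le_succ K)), h2, h3⟩

end Pool.Agent.Helper56.PT
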