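import Pool.Agent.Helper56.PT.Wc

/-!
States of the second construction, requirements, outputs of reductions.
-/

set_option autoImplicit false

namespace Pool.Agent.Helper56.PT

open Dat

/-- machines with their exponents -/
abbrev RD : Type := Prog × ℕ × ℕ

/-- indices of requirements: machines (for R) and pairs of machines (for ZPP) -/
abbrev Ix : Type := RD ⊕ PD

/-- numbers of indices -/
noncomputable def nI : Ix → ℕ := (Countable.exists_injective_nat Ix).choose

theorem nI_injective : Function.Injective nI := (Countable.exists_injective_nat Ix).choose_spec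

/-- the index shows that `A` is in R or in ZPP -/
def ViaI : Ix → (List Bool → Bool) → Set (List Bool) → Prop
  | Sum.inl ρ, O, A => Via O ρ.1 ρ.2.1 ρ.2.2 A
  | Sum.inr P, O, A => ViaZ O P A

/-- the index shows nothing -/
def DeadI (i : Ix) (O : List Bool → Bool) : Prop := ∀ A : Set (List Bool), ¬ ViaI i O A

/-- the block is dense -/
def Den (δ : List Bool → Option Bool) (m : ℕ) (x : List Bool) (b : Bool) : Prop :=
  1 / 2 < Pr ((x.length + 2) ^ 5) (fun r => δ (st (kT m b) x r) = some true)

/-- the block is empty -/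
def Emp (δ : List Bool → Option Bool) (m : ℕ) (x : List Bool) (b : Bool) : Prop :=
  ∀ r : List Bool, r.length = (x.length + 2) ^ 5 → δ (st (kT m b) x r) ≠ some true

/-- the blocks of the index are as they should be -/
def Ok : Ix → (List Bool → Option Bool) → List Bool → Prop
  | Sum.inl ρ, δ, x => Den δ (nI (Sum.inl ρ)) x true ∨ Emp δ (nI (Sum.inl ρ)) x true
  | Sum.inr P, δ, x => (Den δ (nI (Sum.inr P)) x false ∧ Emp δ (nI (Sum.inr P)) x true) ∨
      (Den δ (nI (Sum.inr P)) x true ∧ Emp δ (nI (Sum.inr P)) x false)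

theorem Den_congr {δ δ' : List Bool → Option Bool} {m : ℕ} {x : List Bool} {b : Bool}
    (h : ∀ r : List Bool, r.length = (x.length + 2) ^ 5 →
      δ (st (kT m b) x r) = δ' (st (kT m b) x r)) (hD : Den δ m x b) : Den δ' m x b := by
  have h1 : Pr ((x.length + 2) ^ 5) (fun r => δ (st (kT m b) x r) = some true) =
      Pr ((x.length + 2) ^ 5) (fun r => δ' (st (kT m b) x r) = some true) :=
    Pr_congr (fun r hr => by rw [h r hr])
  rw [Den, ← h1]
  exact hD

theorem Emp_congr {δ δ' : List Bool → Option Bool} {m : ℕ} {x : List Bool} {b : Bool}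
    (h : ∀ r : List Bool, r.length = (x.length + 2) ^ 5 →
      δ (st (kT m b) x r) = δ' (st (kT m b) x r)) (hD : Emp δ m x b) : Emp δ' m x b :=
  fun r hr => by
    rw [← h r hr]
    exact hD r hr

theorem Ok_congr {δ δ' : List Bool → Option Bool} {i : Ix} {x : List Bool}
    (h : ∀ (b : Bool) (r : List Bool), r.length = (x.length + 2) ^ 5 →
      δ (st (kT (nI i) b) x r) = δ' (st (kT (nI i) b) x r)) (hD : Ok i δ x) : Ok i δ' x := by
  cases i with
  | inl ρ =>
    rcases hD with h1 | h1
    · exact Or.inl (Den_congr (h true) h1)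
    · exact Or.inr (Emp_congr (h true) h1)
  | inr P =>
    rcases hD with ⟨h1, h2⟩ | ⟨h1, h2⟩
    · exact Or.inl ⟨Den_congr (h false) h1, Emp_congr (h true) h2⟩
    · exact Or.inr ⟨Den_congr (h true) h1, Emp_congr (h false) h2⟩

theorem Ok_dflt (i : Ix) (x : List Bool) : Ok i dflt x := by
  have h1 : ∀ m, Emp dflt m x true := fun m r _ => by rw [dflt_T1]; simp
  cases i with
  | inl ρ => exact Or.inr (h1 _)
  | inr P =>
    refine Or.inl ⟨?_, h1 _⟩
    rw [Den, Pr_true _ (fun r hr => by rw [dflt_T0])]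
    norm_num

/-- the coding blocks are mostly free -/
def AdmP (δ : List Bool → Option Bool) : Prop :=
  ∀ y : List Bool, Pr ((y.length + 2) ^ 5) (fun r => δ (st kP y r) ≠ none) < 1 / 4

/-- the invariant of the construction -/
structure Good2 (δ : List Bool → Option Bool) (L : ℕ) : Prop where
  dfl : ∀ w : List Bool, L ≤ w.length → δ w = dflt w
  adm : AdmP δ
  dead : ∀ (i : Ix) (x : List Bool), ¬ Ok i δ x → ∀ δ'' : List Bool → Option Bool,
    (∀ w : List Bool, w.length < L → δ'' w = δ w) → DeadI i (Om2 δ'')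

theorem good2_dflt : Good2 dflt 0 where
  dfl _ _ := rfl
  adm y := by
    rw [Pr_false _ (fun r _ h => h (dflt_P y r))]
    norm_num
  dead i x h := absurd (Ok_dflt i x) h

theorem mem_isT5 {m : ℕ} {x r : List Bool} {b : Bool} (hr : r.length = (x.length + 2) ^ 5) :
    isT5 m x (st (kT m b) x r) := ⟨b, r, rfl, hr⟩

theorem not_isT5 {m m' : ℕ} {x x' r : List Bool} {b : Bool} (h : ¬ (m' = m ∧ x' = x)) :
    ¬ isT5 m x (st (kT m' b) x' r) := by
  rintro ⟨b', r', hw, _⟩
  obtain ⟨h1, h2, _⟩ := st_inj hw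
  exact h ⟨(kT_inj h1).1, h2⟩

theorem half_le5 {n : ℕ} {y : List Bool} (h : n ≤ b5 kP y) : n / 2 ≤ (y.length + 2) ^ 5 := by
  have h1 : b5 kP y = 6 + 2 * y.length + (y.length + 2) ^ 5 := by
    simp only [b5, kP, List.length_cons, List.length_nil]; ring
  have h3 : 2 ^ 4 ≤ (y.length + 2) ^ 4 := Nat.pow_le_pow_left (by omega) 4
  have h4 : (y.length + 2) ^ 5 = (y.length + 2) ^ 4 * (y.length + 2) := pow_succ _ _
  have h2 : 6 + 2 * y.length ≤ (y.length + 2) ^ 5 := by
    rw [h4]
    nlinarith
  omega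

theorem good_of {δ C : List Bool → Option Bool} {L N : ℕ} {i : Ix} {x : List Bool}
    (hG : Good2 δ L) (hL : L ≤ x.length) (hN : x.length ≤ N)
    (hlow : ∀ w : List Bool, w.length < x.length → C w = δ w)
    (hhigh : ∀ w : List Bool, N ≤ w.length → C w = dflt w)
    (hP : ∀ y : List Bool, x.length ≤ b5 kP y →
      Pr ((y.length + 2) ^ 5) (fun r => C (st kP y r) ≠ none) < 1 / 4)
    (hoth : ∀ (m' : ℕ) (b : Bool) (x' r : List Bool), ¬ (m' = nI i ∧ x' = x) →
      C (st (kT m' b) x' r) = δ (st (kT m' b) x' r))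
    (hend : Ok i C x ∨ ∀ δ'' : List Bool → Option Bool,
      (∀ w : List Bool, w.length < N → δ'' w = C w) → DeadI i (Om2 δ'')) : Good2 C N where
  dfl := hhigh
  adm y := by
    by_cases h : b5 kP y < x.length
    · have h1 : Pr ((y.length + 2) ^ 5) (fun r => C (st kP y r) ≠ none) =
          Pr ((y.length + 2) ^ 5) (fun r => δ (st kP y r) ≠ none) :=
        Pr_congr (fun r hr => by rw [hlow _ (by rw [length_st5 hr]; exact h)])
      rw [h1]
      exact hG.adm y
    · exact hP y (not_lt.1 h)
  dead i' x' hok δ'' hagr := by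
    by_cases hne : nI i' = nI i ∧ x' = x
    · obtain ⟨h1, rfl⟩ := hne
      have h2 := nI_injective h1
      subst h2
      rcases hend with h | h
      · exact absurd h hok
      · exact h δ'' hagr
    · refine hG.dead i' x' (fun h => hok (Ok_congr (fun b r _ => (hoth _ b x' r hne).symm) h)) δ''
        (fun w hw => ?_)
      rw [hagr w (by omega), hlow w (by omega)]

theorem good_emp5 {δ : List Bool → Option Bool} {L N : ℕ} {i : Ix} {x : List Bool}
    (hG : Good2 δ L) (hL : L ≤ x.length)
    (hN : 2 * nI i + 4 + 2 * x.length + (x.length + 2) ^ 5 + 2 < N)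
    (hend : ∀ δ'' : List Bool → Option Bool,
      (∀ w : List Bool, w.length < N → δ'' w = emp5 δ (nI i) x w) → DeadI i (Om2 δ'')) :
    Good2 (emp5 δ (nI i) x) N := by
  refine good_of hG hL (by omega) (fun w hw => emp5_low hw) (fun w hw => ?_) (fun y hy => ?_)
    (fun m' b x' r hne => ?_) (Or.inr hend)
  · rw [emp5, if_neg (fun h => by have := h.length; omega)]
    exact hG.dfl w (by omega)
  · have h1 := hG.adm y
    rw [Pr_congr (Q := fun r => δ (st kP y r) ≠ none)]
    · exact h1
    · intro r _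
      rw [emp5, if_neg not_isT5_P]
  · rw [emp5, if_neg (not_isT5 hne)]

theorem good_cfg {δ : List Bool → Option Bool} {L N : ℕ} {i : Ix} {x : List Bool}
    {X : Set (List Bool)} {G : Finset (List Bool)} {val : List Bool → Bool}
    (hG : Good2 δ L) (hL : L ≤ x.length)
    (hN : 2 * nI i + 4 + 2 * x.length + (x.length + 2) ^ 5 + 2 < N)
    (hGc : 4 * G.card < 2 ^ (x.length / 2)) (hGN : ∀ w ∈ G, w.length < N)
    (hend : Ok i (cfg δ (nI i) x N X G val) x ∨ ∀ δ'' : List Bool → Option Bool,
      (∀ w : List Bool, w.length < N → δ'' w = cfg δ (nI i) x N X G val w) →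
        DeadI i (Om2 δ'')) :
    Good2 (cfg δ (nI i) x N X G val) N := by
  refine good_of hG hL (by omega) (fun w hw => cfg_low hw) (fun w hw => ?_) (fun y hy => ?_)
    (fun m' b x' r hne => ?_) hend
  · rw [cfg, if_neg (fun h => by have := h.length; omega),
      if_neg (fun h => by have := hGN w h.1; omega), if_neg (fun h => by omega)]
    exact hG.dfl w (by omega)
  · refine lt_of_le_of_lt (Pr_mono (Q := fun r => st kP y r ∈ G) ?_) (Pr_small hGc
      (half_le5 hy) kP y)
    intro r hr h1
    by_contra hn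
    rw [cfg, if_neg not_isT5_P, if_neg (fun h => hn h.1),
      if_neg (fun h => by obtain ⟨y', h⟩ := h.2.2; exact sS_ne_P h.symm),
      hG.dfl _ (by rw [length_st5 hr]; omega), dflt_P] at h1
    exact h1 rfl
  · rw [cfg, if_neg (not_isT5 hne), if_neg (fun h => by
      obtain ⟨y, r', h⟩ := h.2.2; exact kP_ne_kT _ _ (st_inj h).1.symm),
      if_neg (fun h => by obtain ⟨y', h⟩ := h.2.2; exact sS_ne_T h.symm)]

/-! ### requirements -/

/-- the set of the indices whose block `1` is not empty -/
def BS5 (O : List Bool → Bool) (m : ℕ) : Set (List Bool) :=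
  {x | ∃ r : List Bool, r.length = (x.length + 2) ^ 5 ∧ O (st (kT m true) x r) = true}

/-- the requirement -/
def ReqI (i : Ix) (g : Prog) (e : ℕ) (O : List Bool → Bool) : Prop :=
  ∀ (A : Set (List Bool)) (f : List Bool → List Bool), ViaI i O A →
    (∀ x : List Bool, RunLe O g (enc x) (enc (f x)) ((x.length + 2) ^ e)) →
    ¬ ∀ x : List Bool, x ∈ BS5 O (nI i) ↔ f x ∈ A

theorem DeadI.req {i : Ix} {g : Prog} {e : ℕ} {O : List Bool → Bool} (h : DeadI i O) :
    ReqI i g e O := fun A _ hV _ _ => h A hV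

theorem mem_BS5 {δ : List Bool → Option Bool} {m : ℕ} {x : List Bool} (h : Den δ m x true) :
    x ∈ BS5 (Om2 δ) m := by
  obtain ⟨r, hr, h1⟩ := Pr_exists (lt_trans (by norm_num) h)
  exact ⟨r, hr, (Om2_T δ m true x r).2 ⟨hr, h1⟩⟩

theorem not_mem_BS5 {δ : List Bool → Option Bool} {m : ℕ} {x : List Bool}
    (h : Emp δ m x true) : x ∉ BS5 (Om2 δ) m := by
  rintro ⟨r, hr, h1⟩
  exact h r hr ((Om2_T δ m true x r).1 h1).2

/-- the output of a reduction is fixed by few values of the oracle -/
theorem exists_out (O0 : List Bool → Bool) (g : Prog) (e : ℕ) (x : List Bool) :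
    ∃ (Q : Finset (List Bool)) (z : List Bool), Q.card ≤ 3 * (x.length + 2) ^ e ∧
      (∀ v ∈ Q, v.length ≤ (code g).depth + x.length + 3 + 60 * (x.length + 2) ^ e) ∧
      z.length ≤ x.length + 1 + (x.length + 2) ^ e ∧
      ∀ O' : List Bool → Bool, (∀ v ∈ Q, O' v = O0 v) → ∀ f : List Bool → List Bool,
        (∀ x : List Bool, RunLe O' g (enc x) (enc (f x)) ((x.length + 2) ^ e)) → f x = z := by
  obtain ⟨Q, hQ1, hQ2, hQ3⟩ := simN_support O0 (3 * (x.length + 2) ^ e) (code g) (enc x)
  have hdx := depth_enc_le x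
  have hfx : ∀ O' : List Bool → Bool, (∀ v ∈ Q, O' v = O0 v) →
      ∀ f : List Bool → List Bool,
      (∀ x : List Bool, RunLe O' g (enc x) (enc (f x)) ((x.length + 2) ^ e)) →
      simN O0 (3 * (x.length + 2) ^ e) (code g) (enc x) = node leaf (node (enc (f x)) leaf) ∧
        (f x).length ≤ x.length + 1 + (x.length + 2) ^ e := by
    intro O' hQ f hf
    have h1 := hf x
    refine ⟨?_, ?_⟩
    · rw [← hQ3 _ hQ]
      exact simN_of_run h1 le_rfl
    · have h2 := h1.depth_le
      have h3 := length_le_depth_enc (f x)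
      omega
  by_cases hA : ∃ z : List Bool, z.length ≤ x.length + 1 + (x.length + 2) ^ e ∧
      simN O0 (3 * (x.length + 2) ^ e) (code g) (enc x) = node leaf (node (enc z) leaf)
  · obtain ⟨z, hzW, hz⟩ := hA
    refine ⟨Q, z, hQ1, fun v hv => ?_, hzW, fun O' hO' f hf => ?_⟩
    · have := hQ2 v hv
      omega
    · have h1 := (hfx O' hO' f hf).1
      rw [hz] at h1
      simp only [Dat.node.injEq, true_and, and_true] at h1
      exact (enc_injective h1).symm
  · refine ⟨Q, [], hQ1, fun v hv => ?_, by simp, fun O' hO' f hf => ?_⟩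
    · have := hQ2 v hv
      omega
    · obtain ⟨h1, h2⟩ := hfx O' hO' f hf
      exact absurd ⟨f x, h2, h1⟩ hA

theorem req_of {i : Ix} {g : Prog} {e : ℕ} {O : List Bool → Bool} {x z : List Bool}
    (hf : ∀ f : List Bool → List Bool,
      (∀ x : List Bool, RunLe O g (enc x) (enc (f x)) ((x.length + 2) ^ e)) → f x = z)
    (h : ∀ A : Set (List Bool), ViaI i O A → ¬ (x ∈ BS5 O (nI i) ↔ z ∈ A)) : ReqI i g e O := by
  intro A f hV hf' hred
  have h1 := hf f hf'
  have h2 := hred x
  rw [h1] at h2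
  exact h A hV h2

end Pool.Agent.Helper56.PT
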