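import Pool.Agent.Helper56.PT.Wd

/-!
The stages of the second construction.
-/

set_option autoImplicit false

namespace Pool.Agent.Helper56.PT

open Dat

/-- there is a good extension such that all oracles of further extensions satisfy `R` -/
def Ext (δ : List Bool → Option Bool) (L : ℕ) (R : (List Bool → Bool) → Prop) : Prop :=
  ∃ (δ' : List Bool → Option Bool) (L' : ℕ), L < L' ∧ Good2 δ' L' ∧
    (∀ w : List Bool, w.length < L → δ' w = δ w) ∧
    ∀ δ'' : List Bool → Option Bool, (∀ w : List Bool, w.length < L' → δ'' w = δ' w) →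
      R (Om2 δ'')

theorem Via.acc {O : List Bool → Bool} {p : Prog} {k l : ℕ} {A : Set (List Bool)}
    (h : Via O p k l A) {z r : List Bool} (hr : r.length = (z.length + 2) ^ k)
    (ha : AccS O p z r (3 * (z.length + 2) ^ l)) : z ∈ A :=
  h.mem hr ((accS_iff h.1 hr le_rfl).1 ha)

theorem Via.pa {O : List Bool → Bool} {p : Prog} {k l : ℕ} {A : Set (List Bool)}
    (h : Via O p k l A) {z : List Bool} (hz : z ∈ A) :
    1 / 2 < pa O p z ((z.length + 2) ^ k) (3 * (z.length + 2) ^ l) := by
  have h1 : PT.pa O p z ((z.length + 2) ^ k) (3 * (z.length + 2) ^ l) =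
      Pr ((z.length + 2) ^ k) (Accepts O p z) :=
    Pr_congr (fun r hr => accS_iff h.1 hr le_rfl)
  rw [h1]
  exact (h.2 z).1 hz

/-- the block `b` outside of `G` -/
def Xb (m : ℕ) (x : List Bool) (b : Bool) (G : Finset (List Bool)) : Set (List Bool) :=
  {w | (∃ r : List Bool, w = st (kT m b) x r) ∧ w ∉ G}

theorem cfg_Xb {δ : List Bool → Option Bool} {m : ℕ} {x : List Bool} {N : ℕ} {b : Bool}
    {G : Finset (List Bool)} {val : List Bool → Bool} (hGc : 4 * G.card < 2 ^ (x.length / 2)) :
    Den (cfg δ m x N (Xb m x b G) G val) m x b ∧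
      Emp (cfg δ m x N (Xb m x b G) G val) m x (!b) := by
  constructor
  · have h1 : Pr ((x.length + 2) ^ 5) (fun r => cfg δ m x N (Xb m x b G) G val (st (kT m b) x r) =
        some true) = Pr ((x.length + 2) ^ 5) (fun r => ¬ st (kT m b) x r ∈ G) := by
      refine Pr_congr (fun r hr => ?_)
      rw [cfg, if_pos (mem_isT5 hr)]
      by_cases h : st (kT m b) x r ∈ G
      · rw [if_neg (fun h2 => h2.2 h)]
        simp [h]
      · rw [if_pos ⟨⟨r, rfl⟩, h⟩]
        simp [h]
    rw [Den, h1]
    have h2 := Pr_add_not ((x.length + 2) ^ 5) (fun r => st (kT m b) x r ∈ G)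
    have h3 := Pr_small hGc (m := (x.length + 2) ^ 5) (by
      have : x.length + 2 ≤ (x.length + 2) ^ 5 := Nat.le_self_pow (by norm_num) _
      omega) (kT m b) x
    linarith
  · intro r hr
    rw [cfg, if_pos (mem_isT5 hr), if_neg]
    · simp
    · rintro ⟨⟨r', h⟩, _⟩
      have := (kT_inj (st_inj h).1).2
      cases b <;> simp at this

theorem cfg_empty {δ : List Bool → Option Bool} {m : ℕ} {x : List Bool} {N : ℕ} {b : Bool}
    {G : Finset (List Bool)} {val : List Bool → Bool} : Emp (cfg δ m x N ∅ G val) m x b := by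
  intro r hr
  rw [cfg, if_pos (mem_isT5 hr)]
  simp

theorem base_isT5 {δ : List Bool → Option Bool} {m : ℕ} {x w : List Bool} (h : isT5 m x w) :
    Om2 (emp5 δ m x) w = false := by
  have h2 : emp5 δ m x w = none := by rw [emp5, if_pos h]
  obtain ⟨b, r, rfl, hr⟩ := h
  rw [Bool.eq_false_iff]
  intro h1
  rw [Om2_T, h2] at h1
  simp at h1

/-- freeze the strings in `G` at their base values -/
theorem freeze {δ : List Bool → Option Bool} {L : ℕ} {i : Ix} {x : List Bool} {N : ℕ}
    {R : (List Bool → Bool) → Prop} (hG : Good2 δ L) (hL : L ≤ x.length)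
    (hN : 2 * nI i + 4 + 2 * x.length + (x.length + 2) ^ 5 + 2 < N) (G : Finset (List Bool))
    (hGc : 4 * G.card < 2 ^ (x.length / 2)) (hGN : ∀ w ∈ G, w.length < N) (X : Set (List Bool))
    (hX : ∀ w ∈ G, w ∉ X)
    (hok : Ok i (cfg δ (nI i) x N X G (Om2 (emp5 δ (nI i) x))) x)
    (hR : ∀ δ'' : List Bool → Option Bool,
      (∀ w : List Bool, w.length < N → δ'' w = cfg δ (nI i) x N X G (Om2 (emp5 δ (nI i) x)) w) →
      (∀ w ∈ G, Om2 δ'' w = Om2 (emp5 δ (nI i) x) w) → R (Om2 δ'')) : Ext δ L R := by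
  refine ⟨_, N, by omega, good_cfg hG hL hN hGc hGN (Or.inl hok), fun w hw =>
    cfg_low (by omega), fun δ'' hagr => hR δ'' hagr (fun w hw => ?_)⟩
  refine cfg_persist (by omega) hagr (fun w hw _ => rfl) (fun w hw hT => ?_) hw (hGN w hw)
  rw [base_isT5 hT]
  simp [hX w hw]

theorem stageZ {δ : List Bool → Option Bool} {L : ℕ} (hG : Good2 δ L) (P : PD) (g : Prog)
    (e : ℕ) : Ext δ L (ReqI (Sum.inr P) g e) := by
  classical
  set i : Ix := Sum.inr P with hi
  obtain ⟨p, q, k, l, k', l'⟩ := P
  set W : ℕ → ℕ := fun n => n + 1 + (n + 2) ^ e with hW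
  set cardB : ℕ → ℕ := fun n => 3 * (n + 2) ^ e + (3 * (W n + 2) ^ l + 3 * (W n + 2) ^ l')
    with hcardB
  have hpe : Pol (fun n => (n + 2) ^ e) := ⟨e, fun n => le_rfl⟩
  have hpW : Pol W := (Pol.id.add (Pol.const 1)).add hpe
  have hpW2 : Pol (fun n => W n + 2) := hpW.add (Pol.const 2)
  have hpc : Pol cardB := ((Pol.const 3).mul hpe).add
    (((Pol.const 3).mul (hpW2.pow l)).add ((Pol.const 3).mul (hpW2.pow l')))
  obtain ⟨n, hLn, hn⟩ := exists_big hpc L
  obtain ⟨x, hx⟩ : ∃ x : List Bool, x.length = n := ⟨List.replicate n true, by simp⟩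
  set m := nI i with hm
  set O0 := Om2 (emp5 δ m x) with hO0
  obtain ⟨QG, z, hQ1, hQ2, hz, hQ3⟩ := exists_out O0 g e x
  set T := 3 * (z.length + 2) ^ l with hT
  set T' := 3 * (z.length + 2) ^ l' with hT'
  set N := 2 * m + 4 + 2 * x.length + (x.length + 2) ^ 5 + 2 +
    ((code g).depth + x.length + 3 + 60 * (x.length + 2) ^ e) + qb p z ((z.length + 2) ^ k) T +
    qb q z ((z.length + 2) ^ k') T' + 1 with hN
  have hzW : z.length + 2 ≤ W n + 2 := by
    simp only [hW]
    rw [← hx]
    omega
  have hTB : T ≤ 3 * (W n + 2) ^ l := Nat.mul_le_mul_left _ (Nat.pow_le_pow_left hzW l)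
  have hTB' : T' ≤ 3 * (W n + 2) ^ l' := Nat.mul_le_mul_left _ (Nat.pow_le_pow_left hzW l')
  rw [hx] at hQ1
  -- freezing with the block `b`
  have key : ∀ (Q : Finset (List Bool)) (b : Bool), Q.card ≤ max T T' →
      (∀ v ∈ Q, v.length < N) →
      (∀ O : List Bool → Bool, (∀ v ∈ Q, O v = O0 v) → ∀ A : Set (List Bool), ViaI i O A →
        if b then z ∉ A else z ∈ A) → Ext δ L (ReqI i g e) := by
    intro Q b hQc hQl hQ
    have hcard : 4 * (QG ∪ Q).card < 2 ^ (x.length / 2) := by
      have h1 := Finset.card_union_le QG Q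
      rw [hx]
      have h2 : 4 * (3 * (n + 2) ^ e + (3 * (W n + 2) ^ l + 3 * (W n + 2) ^ l')) <
        2 ^ (n / 2) := hn
      omega
    refine freeze (i := i) hG (by omega) (N := N) (by omega) (QG ∪ Q) hcard ?_
      (Xb m x b (QG ∪ Q)) (fun w hw h => h.2 hw) ?_ ?_
    · intro w hw
      rcases Finset.mem_union.1 hw with h | h
      · have := hQ2 w h
        omega
      · exact hQl w h
    · obtain ⟨h1, h2⟩ := cfg_Xb (δ := δ) (m := m) (N := N) (b := b) (val := O0) hcard
      cases b with
      | false => exact Or.inl ⟨h1, h2⟩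
      | true => exact Or.inr ⟨h1, h2⟩
    · intro δ'' hagr hfr
      refine req_of (x := x) (z := z) (hQ3 _ (fun v hv => hfr v (Finset.mem_union_left _ hv)))
        (fun A hV => ?_)
      have h1 := hQ _ (fun v hv => hfr v (Finset.mem_union_right _ hv)) A hV
      obtain ⟨h2, h3⟩ := cfg_Xb (δ := δ) (m := m) (N := N) (b := b) (val := O0) hcard
      have hlt : ∀ (b' : Bool) (r : List Bool), r.length = (x.length + 2) ^ 5 →
          (st (kT m b') x r).length < N := fun b' r hr => by
        rw [(mem_isT5 (b := b') hr).length]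
        omega
      cases b with
      | false =>
        have h4 : x ∉ BS5 (Om2 δ'') m :=
          not_mem_BS5 (Emp_congr (fun r hr => (hagr _ (hlt _ r hr)).symm) h3)
        simp only [Bool.false_eq_true, if_false] at h1
        exact fun h => h4 (h.2 h1)
      | true =>
        have h4 : x ∈ BS5 (Om2 δ'') m :=
          mem_BS5 (Den_congr (fun r hr => (hagr _ (hlt _ r hr)).symm) h2)
        simp only [if_true] at h1
        exact fun h => h1 (h.1 h4)
  by_cases ha : ∃ r : List Bool, r.length = (z.length + 2) ^ k ∧ AccS O0 p z r T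
  · obtain ⟨r, hr, hacc⟩ := ha
    refine key (sup O0 p z r T) false ((sup_card _ _ _ _ _).trans (le_max_left _ _))
      (fun v hv => ?_) (fun O hO A hV => ?_)
    · have := sup_length _ _ _ _ _ v hv
      rw [hr] at this
      omega
    · simp only [Bool.false_eq_true, if_false]
      exact hV.1.acc hr ((AccS_sup hO).2 hacc)
  · by_cases hb : ∃ r : List Bool, r.length = (z.length + 2) ^ k' ∧ AccS O0 q z r T'
    · obtain ⟨r, hr, hacc⟩ := hb
      refine key (sup O0 q z r T') true ((sup_card _ _ _ _ _).trans (le_max_right _ _))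
        (fun v hv => ?_) (fun O hO A hV => ?_)
      · have := sup_length _ _ _ _ _ v hv
        rw [hr] at this
        omega
      · simp only [if_true]
        exact hV.2.acc hr ((AccS_sup hO).2 hacc)
    · have hdead : ∀ δ'' : List Bool → Option Bool,
          (∀ w : List Bool, w.length < N → δ'' w = emp5 δ m x w) → DeadI i (Om2 δ'') := by
        intro δ'' hagr A hV
        have hOO : ∀ v : List Bool, v.length < N → Om2 δ'' v = O0 v := fun v hv =>
          Om2_congr hagr _ v rfl hv
        by_cases hzA : z ∈ A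
        · obtain ⟨r, hr, hacc⟩ := Pr_exists (lt_trans (by norm_num) (hV.1.pa hzA))
          have hr' : r.length = (z.length + 2) ^ k := hr
          refine ha ⟨r, hr, (AccS_congr (fun v hv => ?_)).1 hacc⟩
          rw [hr'] at hv
          have hv' : v.length ≤ qb p z ((z.length + 2) ^ k) T := hv
          exact hOO v (by omega)
        · obtain ⟨r, hr, hacc⟩ := Pr_exists (lt_trans (by norm_num) (hV.2.pa hzA))
          have hr' : r.length = (z.length + 2) ^ k' := hr
          refine hb ⟨r, hr, (AccS_congr (fun v hv => ?_)).1 hacc⟩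
          rw [hr'] at hv
          have hv' : v.length ≤ qb q z ((z.length + 2) ^ k') T' := hv
          exact hOO v (by omega)
      exact ⟨emp5 δ m x, N, by omega, good_emp5 hG (by omega) (by omega) hdead,
        fun w hw => emp5_low (by omega), fun δ'' hagr => (hdead δ'' hagr).req⟩

end Pool.Agent.Helper56.PT
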