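import Pool.Agent.Helper56.PT.We

/-!
The stage against a machine for R.
-/

set_option autoImplicit false

namespace Pool.Agent.Helper56.PT

open Dat

open Classical in
/-- change the values on `D` -/
noncomputable def flp (O : List Bool → Bool) (D : Finset (List Bool)) (w : List Bool) : Bool :=
  if w ∈ D then !O w else O w

theorem flp_mem {O : List Bool → Bool} {D : Finset (List Bool)} {w : List Bool} (h : w ∈ D) :
    flp O D w = !O w := by rw [flp, if_pos h]

theorem flp_not_mem {O : List Bool → Bool} {D : Finset (List Bool)} {w : List Bool} (h : w ∉ D) :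
    flp O D w = O w := by rw [flp, if_neg h]

theorem dflt_S (y : List Bool) : dflt (sS y) = none := dflt_N y _

/-- the number of oracles of a disjoint family which change a query -/
theorem infl_cfg {δ : List Bool → Option Bool} {m : ℕ} {x : List Bool} {N K : ℕ}
    {F : Fin K → Finset (List Bool)} {G : Fin K → Finset (List Bool)}
    (hN : x.length ≤ N) (hS : ∀ w : List Bool, x.length ≤ w.length → δ w = dflt w)
    (hF : ∀ i j, i ≠ j → Disjoint (F i) (F j))
    (hper : ∀ (j : Fin K), ∀ w ∈ G j,
      Om2 (cfg δ m x N (↑(F j)) (G j) (flp (Om2 (emp5 δ m x)) (F j))) w =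
        flp (Om2 (emp5 δ m x)) (F j) w) (q : List Bool) (hq : q.length < N) :
    Nat.card {j : Fin K // Om2 (cfg δ m x N (↑(F j)) (G j) (flp (Om2 (emp5 δ m x)) (F j))) q ≠
      Om2 (emp5 δ m x) q} ≤ q.length + 1 := by
  classical
  set O0 := Om2 (emp5 δ m x) with hO0
  set C : Fin K → List Bool → Option Bool := fun j =>
    cfg δ m x N (↑(F j)) (G j) (flp O0 (F j)) with hC
  have hch : ∀ (j : Fin K) (w : List Bool), w.length < N → Om2 (C j) w ≠ Om2 (emp5 δ m x) w →
      w ∈ F j ∨ ∃ y r : List Bool, w = st kP y r ∧ r.length = (y.length + 2) ^ 5 ∧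
        ¬ (SB (C j) (Om2 (C j)) y ↔ SB (emp5 δ m x) (Om2 (emp5 δ m x)) y) := by
    intro j w hw hne
    rcases cfg_change (δ'' := C j) hN hS (fun _ _ => rfl) hw hne with
      ⟨_, h⟩ | ⟨y, r, h1, h2, _, h3⟩
    · exact Or.inl h
    · by_cases hG : w ∈ G j
      · left
        by_contra hn
        apply hne
        rw [hC]
        simp only
        rw [hper j w hG, flp_not_mem hn]
      · exact Or.inr ⟨y, r, h1, h2, h3 hG⟩
  have hP : ∀ w : List Bool, Nat.card {j : Fin K // w ∈ F j} ≤ 1 := by
    intro w
    rw [Finite.card_le_one_iff_subsingleton]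
    refine ⟨fun a b => ?_⟩
    by_contra hab
    have h1 : a.1 ≠ b.1 := fun h => hab (Subtype.ext h)
    exact Finset.disjoint_left.1 (hF _ _ h1) a.2 b.2
  have hlowC : ∀ (j : Fin K) (w : List Bool), w.length < x.length →
      C j w = emp5 δ m x w := fun j w hw => by
    rw [emp5_low hw]
    exact cfg_low hw
  have hinf := infl (δ0 := emp5 δ m x) (δi := C) (L0 := x.length) (N := N)
    (fun y hy => by
      rw [emp5, if_neg not_isT5_S, hS _ (by rw [length_sS]; exact hy)]
      exact dflt_S y)
    (fun j y hy => SB_congr (hlowC j _ (by rw [length_sS]; exact hy)) (fun v hv =>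
      Om2_congr (L := x.length) (hlowC j) _ v rfl (by
        have : (y.length + 2) ^ 5 ≤ b5 kP y := by rw [b5]; omega
        omega)))
    (fun j y h1 h2 => cfg_pref (fun _ _ => rfl) h1 h2) (fun j w => w ∈ F j) hP hch
  by_cases hk : ∃ y r' : List Bool, q = st kP y r' ∧ r'.length = (y.length + 2) ^ 5
  · obtain ⟨y, r', rfl, hr'⟩ := hk
    have h1 : (st kP y r').length = b5 kP y := length_st5 hr'
    have h2 := hinf y.length y rfl (by omega)
    have h3 : (y.length + 2) ^ 5 ≤ b5 kP y := by rw [b5]; omega
    have h4 : (y.length + 2) ^ 3 ≤ (y.length + 2) ^ 5 := Nat.pow_le_pow_right (by omega) (by norm_num)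
    have h5 : Nat.card {j : Fin K // Om2 (C j) (st kP y r') ≠ Om2 (emp5 δ m x) (st kP y r')} ≤
        1 + (y.length + 2) ^ 3 := by
      refine (card_le_of_imp (fun j h => ?_)).trans ((card_or_le
        (fun j => st kP y r' ∈ F j) (fun j => ¬ (SB (C j) (Om2 (C j)) y ↔
          SB (emp5 δ m x) (Om2 (emp5 δ m x)) y))).trans (Nat.add_le_add (hP _) h2))
      rcases hch j _ hq h with h | ⟨y'', r'', h, _, h2⟩
      · exact Or.inl h
      · obtain ⟨_, rfl, rfl⟩ := st_inj h
        exact Or.inr h2
    exact h5.trans (by omega)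
  · refine le_trans (card_le_of_imp (Q := fun j => q ∈ F j) (fun j h => ?_))
      ((hP q).trans (by omega))
    rcases hch j q hq h with h | ⟨y', r', h, hr', _⟩
    · exact h
    · exact absurd ⟨y', r', h, hr'⟩ hk

theorem stageR {δ : List Bool → Option Bool} {L : ℕ} (hG : Good2 δ L) (ρ : RD) (g : Prog)
    (e : ℕ) : Ext δ L (ReqI (Sum.inl ρ) g e) := by
  classical
  set i : Ix := Sum.inl ρ with hi
  obtain ⟨p, k, l⟩ := ρ
  set W : ℕ → ℕ := fun n => n + 1 + (n + 2) ^ e with hW
  set Tb : ℕ → ℕ := fun n => 3 * (W n + 2) ^ l with hTb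
  set Lb : ℕ → ℕ := fun n => (code p).depth + W n + (W n + 2) ^ k + 4 + 20 * Tb n with hLb
  set Kb : ℕ → ℕ := fun n => 2 * Tb n * (Lb n + 1) + 1 with hKb
  set cardB : ℕ → ℕ := fun n => 3 * (n + 2) ^ e + (Kb n * Tb n + 2 * Tb n) with hcardB
  have hpe : Pol (fun n => (n + 2) ^ e) := ⟨e, fun n => le_rfl⟩
  have hpW : Pol W := (Pol.id.add (Pol.const 1)).add hpe
  have hpW2 : Pol (fun n => W n + 2) := hpW.add (Pol.const 2)
  have hpT : Pol Tb := (Pol.const 3).mul (hpW2.pow l)
  have hpL : Pol Lb := ((((Pol.const _).add hpW).add (hpW2.pow k)).add (Pol.const 4)).add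
    ((Pol.const 20).mul hpT)
  have hpK : Pol Kb := (((Pol.const 2).mul hpT).mul (hpL.add (Pol.const 1))).add (Pol.const 1)
  have hpc : Pol cardB := ((Pol.const 3).mul hpe).add ((hpK.mul hpT).add ((Pol.const 2).mul hpT))
  obtain ⟨n, hLn, hn⟩ := exists_big hpc L
  obtain ⟨x, hx⟩ : ∃ x : List Bool, x.length = n := ⟨List.replicate n true, by simp⟩
  set m := nI i with hm
  set O0 := Om2 (emp5 δ m x) with hO0
  obtain ⟨QG, z, hQ1, hQ2, hz, hQ3⟩ := exists_out O0 g e x
  set T := 3 * (z.length + 2) ^ l with hT
  set M := (z.length + 2) ^ k with hM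
  set Lq := qb p z M T with hLq
  set N := 2 * m + 4 + 2 * x.length + (x.length + 2) ^ 5 + 2 +
    ((code g).depth + x.length + 3 + 60 * (x.length + 2) ^ e) + Lq + 1 with hN
  have hzW : z.length + 2 ≤ W n + 2 := by
    simp only [hW]
    rw [← hx]
    omega
  have hTB : T ≤ Tb n := Nat.mul_le_mul_left _ (Nat.pow_le_pow_left hzW l)
  have hMB : M ≤ (W n + 2) ^ k := Nat.pow_le_pow_left hzW k
  have hLB : Lq ≤ Lb n := by
    rw [hLq, qb]
    simp only [hLb]
    omega
  set K := 2 * T * (Lq + 1) + 1 with hK
  have hKB : K ≤ Kb n := by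
    rw [hK]
    exact Nat.add_le_add_right (Nat.mul_le_mul (Nat.mul_le_mul_left _ hTB)
      (Nat.add_le_add_right hLB 1)) 1
  have hKT : K * T ≤ Kb n * Tb n := Nat.mul_le_mul hKB hTB
  rw [hx] at hQ1
  have hn' : 4 * (3 * (n + 2) ^ e + (Kb n * Tb n + 2 * Tb n)) < 2 ^ (n / 2) := hn
  have hlt : ∀ (b' : Bool) (r : List Bool), r.length = (x.length + 2) ^ 5 →
      (st (kT m b') x r).length < N := fun b' r hr => by
    rw [(mem_isT5 (b := b') hr).length]
    omega
  by_cases ha : ∃ r : List Bool, r.length = M ∧ AccS O0 p z r T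
  · obtain ⟨r, hr, hacc⟩ := ha
    have hcard : 4 * (QG ∪ sup O0 p z r T).card < 2 ^ (x.length / 2) := by
      have h1 := Finset.card_union_le QG (sup O0 p z r T)
      have h2 := sup_card O0 p z r T
      rw [hx]
      omega
    refine freeze (i := i) hG (by omega) (N := N) (by omega) _ hcard ?_ ∅ (fun w _ h => h)
      (Or.inr cfg_empty) ?_
    · intro w hw
      rcases Finset.mem_union.1 hw with h | h
      · have := hQ2 w h
        omega
      · have := sup_length _ _ _ _ _ w h
        rw [hr] at this
        omega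
    · intro δ'' hagr hfr
      refine req_of (x := x) (z := z) (hQ3 _ (fun v hv => hfr v (Finset.mem_union_left _ hv)))
        (fun A hV h => ?_)
      have h1 : z ∈ A := Via.acc hV hr
        ((AccS_sup (fun v hv => hfr v (Finset.mem_union_right _ hv))).2 hacc)
      exact not_mem_BS5 (Emp_congr (fun r hr => (hagr _ (hlt _ r hr)).symm) cfg_empty) (h.2 h1)
  · set S : Set (Finset (List Bool)) := {D | D.Nonempty ∧ D.card ≤ T ∧
      (∀ w ∈ D, Flex m x w ∧ w ∉ QG ∧ w.length ≤ Lq) ∧
      ∃ r : List Bool, r.length = M ∧ AccS (flp O0 D) p z r T} with hSd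
    rcases disjoint_or_cover S T (fun D hD => ⟨hD.1, hD.2.1⟩) K with ⟨F, hF1, hF2⟩ | ⟨Y, hY1, hY2, hY3⟩
    · choose r hr hacc using fun j => (hF1 j).2.2.2
      set G : Fin K → Finset (List Bool) := fun j =>
        QG ∪ (F j ∪ sup (flp O0 (F j)) p z (r j) T) with hGd
      set C : Fin K → List Bool → Option Bool := fun j =>
        cfg δ m x N (↑(F j)) (G j) (flp O0 (F j)) with hC
      have hGN : ∀ j, ∀ w ∈ G j, w.length < N := by
        intro j w hw
        rcases Finset.mem_union.1 hw with h | h
        · have := hQ2 w h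
          omega
        · rcases Finset.mem_union.1 h with h | h
          · have := ((hF1 j).2.2.1 w h).2.2
            omega
          · have := sup_length _ _ _ _ _ w h
            rw [hr] at this
            omega
      have hper : ∀ (j : Fin K) (δ'' : List Bool → Option Bool),
          (∀ w : List Bool, w.length < N → δ'' w = C j w) → ∀ w ∈ G j,
          Om2 δ'' w = flp O0 (F j) w := by
        intro j δ'' hagr w hw
        refine cfg_persist (by omega) hagr (fun v hv hfl => ?_) (fun v hv hT5 => ?_) hw
          (hGN j w hw)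
        · exact flp_not_mem (fun h => hfl ((hF1 j).2.2.1 v h).1)
        · by_cases h : v ∈ F j
          · rw [flp_mem h, hO0, base_isT5 hT5]
            simp [h]
          · rw [flp_not_mem h, hO0, base_isT5 hT5]
            simp [h]
      have hcnt : ∀ q : List Bool, q.length ≤ qb p z M T →
          Nat.card {j : Fin K // Om2 (C j) q ≠ O0 q} ≤ Lq + 1 := by
        intro q hq
        have h1 := infl_cfg (δ := δ) (m := m) (x := x) (N := N) (F := F) (G := G) (by omega)
          (fun w hw => hG.dfl w (by omega)) hF2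
          (fun j w hw => hper j (C j) (fun _ _ => rfl) w hw) q (by omega)
        exact h1.trans (by omega)
      have hsum := sum_dif_le O0 (fun j => Om2 (C j)) p z M T (Lq + 1) hcnt
      have hex : ∃ j : Fin K, pa (Om2 (C j)) p z M T ≤ 1 / 2 := by
        by_contra hn
        push Not at hn
        have h1 : (Finset.univ : Finset (Fin K)).card • (1 / 2 : ℝ) ≤
            ∑ j, Pr M (fun r => ¬ (AccS (Om2 (C j)) p z r T ↔ AccS O0 p z r T)) := by
          refine Finset.card_nsmul_le_sum _ _ _ (fun j _ => ?_)
          have h2 : Pr M (fun r => ¬ (AccS (Om2 (C j)) p z r T ↔ AccS O0 p z r T)) =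
              pa (Om2 (C j)) p z M T := by
            refine Pr_congr (fun r hr => ?_)
            have h3 : ¬ AccS O0 p z r T := fun h => ha ⟨r, hr, h⟩
            simp [h3]
          rw [h2]
          exact (hn j).le
        rw [Finset.card_univ, Fintype.card_fin, nsmul_eq_mul] at h1
        have h2 := h1.trans hsum
        rw [hK] at h2
        push_cast at h2
        linarith
      obtain ⟨j, hj⟩ := hex
      have hdead : ∀ δ'' : List Bool → Option Bool,
          (∀ w : List Bool, w.length < N → δ'' w = C j w) → DeadI i (Om2 δ'') := by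
        intro δ'' hagr A hV
        by_cases hzA : z ∈ A
        · have h1 : 1 / 2 < pa (Om2 δ'') p z M T := Via.pa hV hzA
          have h2 : pa (Om2 δ'') p z M T = pa (Om2 (C j)) p z M T :=
            pa_congr (fun v hv => Om2_congr hagr _ v rfl (by omega))
          linarith
        · refine hzA (Via.acc hV (hr j) ((AccS_sup (fun v hv => ?_)).2 (hacc j)))
          exact hper j δ'' hagr v (Finset.mem_union_right _ (Finset.mem_union_right _ hv))
      have hcard : 4 * (G j).card < 2 ^ (x.length / 2) := by
        have h1 := Finset.card_union_le QG (F j ∪ sup (flp O0 (F j)) p z (r j) T)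
        have h2 := Finset.card_union_le (F j) (sup (flp O0 (F j)) p z (r j) T)
        have h3 := sup_card (flp O0 (F j)) p z (r j) T
        have h4 := (hF1 j).2.1
        rw [hx]
        simp only [hGd]
        omega
      exact ⟨C j, N, by omega, good_cfg hG (by omega) (by omega) hcard (hGN j) (Or.inr hdead),
        fun w hw => cfg_low (by omega), fun δ'' hagr => (hdead δ'' hagr).req⟩
    · have hcard : 4 * (QG ∪ Y).card < 2 ^ (x.length / 2) := by
        have h1 := Finset.card_union_le QG Y
        rw [hx]
        omega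
      obtain ⟨hden, _⟩ := cfg_Xb (δ := δ) (m := m) (N := N) (b := true) (val := O0) hcard
      refine freeze (i := i) hG (by omega) (N := N) (by omega) _ hcard ?_
        (Xb m x true (QG ∪ Y)) (fun w hw h => h.2 hw) (Or.inl hden) ?_
      · intro w hw
        rcases Finset.mem_union.1 hw with h | h
        · have := hQ2 w h
          omega
        · obtain ⟨D, hD, hwD⟩ := hY2 w h
          have := (hD.2.2.1 w hwD).2.2
          omega
      · intro δ'' hagr hfr
        refine req_of (x := x) (z := z) (hQ3 _ (fun v hv => hfr v (Finset.mem_union_left _ hv)))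
          (fun A hV h => ?_)
        have hxB : x ∈ BS5 (Om2 δ'') m :=
          mem_BS5 (Den_congr (fun r hr => (hagr _ (hlt _ r hr)).symm) hden)
        obtain ⟨r, hr0, hacc⟩ := Pr_exists (lt_trans (by norm_num) (Via.pa hV (h.1 hxB)))
        have hr : r.length = M := hr0
        set D : Finset (List Bool) := (sup (Om2 δ'') p z r T).filter
          (fun w => Om2 δ'' w ≠ O0 w) with hD
        have hDm : ∀ w ∈ D, w ∈ sup (Om2 δ'') p z r T ∧ Om2 δ'' w ≠ O0 w := fun w hw =>
          Finset.mem_filter.1 hw
        have hflp : ∀ w ∈ sup (Om2 δ'') p z r T, flp O0 D w = Om2 δ'' w := by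
          intro w hw
          by_cases h1 : Om2 δ'' w = O0 w
          · rw [flp_not_mem (fun h => (hDm w h).2 h1), h1]
          · rw [flp_mem (Finset.mem_filter.2 ⟨hw, h1⟩)]
            cases h2 : Om2 δ'' w <;> cases h3 : O0 w <;> simp_all
        have hacc' : AccS (flp O0 D) p z r T := (AccS_sup hflp).2 hacc
        have hDS : D ∈ S := by
          refine ⟨?_, (Finset.card_filter_le _ _).trans (sup_card _ _ _ _ _), fun w hw => ?_,
            r, hr, hacc'⟩
          · rw [Finset.nonempty_iff_ne_empty]
            intro h1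
            refine ha ⟨r, hr, ?_⟩
            have h2 : flp O0 D = O0 := by
              funext w
              rw [h1]
              exact flp_not_mem (by simp)
            rw [h2] at hacc'
            exact hacc'
          · have h1 := sup_length _ _ _ _ _ w (hDm w hw).1
            rw [hr] at h1
            refine ⟨?_, fun h2 => (hDm w hw).2 (hfr w (Finset.mem_union_left _ h2)), h1⟩
            rcases cfg_change (by omega) (fun w hw => hG.dfl w (by omega)) hagr
              (show w.length < N by omega) (hDm w hw).2 with ⟨h2, _⟩ | ⟨y, r', h2, h3, h4, _⟩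
            · exact ⟨h2.lt.le, Or.inl h2⟩
            · exact ⟨h4, Or.inr ⟨y, r', h2, h3⟩⟩
        refine hY3 D hDS (Finset.disjoint_left.2 (fun w hw hwY => ?_))
        exact (hDm w hw).2 (hfr w (Finset.mem_union_right _ hwY))

end Pool.Agent.Helper56.PT
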