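import Pool.Agent.Helper56.PT.Wf

/-!
An oracle relative to which BPP has a complete set and R and ZPP have none.
-/

set_option autoImplicit false

namespace Pool.Agent.Helper56.PT

open Dat

/-- the limit of the second construction -/
theorem exists_limit2 : ∃ δ : List Bool → Option Bool, AdmP δ ∧
    (∀ (i : Ix) (g : Prog) (e : ℕ), ReqI i g e (Om2 δ)) ∧
    ∀ (i : Ix) (x : List Bool), ¬ Ok i δ x → DeadI i (Om2 δ) := by
  classical
  obtain ⟨en, hen⟩ := exists_surjective_nat (Ix × Prog × ℕ)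
  have hst : ∀ (s : ℕ) (D : {D : (List Bool → Option Bool) × ℕ // Good2 D.1 D.2}),
      ∃ D' : {D : (List Bool → Option Bool) × ℕ // Good2 D.1 D.2}, D.1.2 < D'.1.2 ∧
        (∀ w : List Bool, w.length < D.1.2 → D'.1.1 w = D.1.1 w) ∧
        ∀ δ'' : List Bool → Option Bool, (∀ w : List Bool, w.length < D'.1.2 → δ'' w = D'.1.1 w) →
          ReqI (en s).1 (en s).2.1 (en s).2.2 (Om2 δ'') := by
    rintro s ⟨⟨δ, L⟩, hD⟩
    have h : Ext δ L (ReqI (en s).1 (en s).2.1 (en s).2.2) := by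
      rcases (en s).1 with ρ | P
      · exact stageR hD ρ _ _
      · exact stageZ hD P _ _
    obtain ⟨δ', L', h1, h2, h3, h4⟩ := h
    exact ⟨⟨(δ', L'), h2⟩, h1, h3, h4⟩
  choose nx hnx1 hnx2 hnx3 using hst
  let sq : ℕ → {D : (List Bool → Option Bool) × ℕ // Good2 D.1 D.2} := fun s =>
    Nat.rec ⟨(dflt, 0), good2_dflt⟩ (fun s D => nx s D) s
  have hsq : ∀ s, sq (s + 1) = nx s (sq s) := fun s => rfl
  have hL1 : ∀ s, (sq s).1.2 < (sq (s + 1)).1.2 := fun s => by rw [hsq]; exact hnx1 s _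
  have hmono : StrictMono (fun s => (sq s).1.2) := strictMono_nat_of_lt_succ hL1
  have hge : ∀ s, s ≤ (sq s).1.2 := fun s => hmono.id_le s
  have hagr : ∀ s d : ℕ, ∀ w : List Bool, w.length < (sq s).1.2 →
      (sq (s + d)).1.1 w = (sq s).1.1 w := by
    intro s d
    induction d with
    | zero => intro w _; rfl
    | succ d ih =>
      intro w hw
      rw [← add_assoc, hsq, hnx2, ih w hw]
      exact lt_of_lt_of_le hw (hmono.monotone (Nat.le_add_right s d))
  have hagr' : ∀ s t : ℕ, s ≤ t → ∀ w : List Bool, w.length < (sq s).1.2 →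
      (sq t).1.1 w = (sq s).1.1 w := by
    intro s t hst w hw
    obtain ⟨d, rfl⟩ := Nat.exists_eq_add_of_le hst
    exact hagr s d w hw
  set δ : List Bool → Option Bool := fun w => (sq (w.length + 1)).1.1 w with hδ
  have hlim : ∀ (s : ℕ) (w : List Bool), w.length < (sq s).1.2 → δ w = (sq s).1.1 w := by
    intro s w hw
    rcases le_total s (w.length + 1) with h | h
    · exact hagr' s _ h w hw
    · refine (hagr' _ s h w ?_).symm
      exact lt_of_lt_of_le (Nat.lt_succ_self _) (hge _)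
  refine ⟨δ, fun y => ?_, fun i g e => ?_, fun i x hB => ?_⟩
  · have h1 := (sq (b5 kP y + 1)).2.adm y
    rw [Pr_congr (Q := fun r => (sq (b5 kP y + 1)).1.1 (st kP y r) ≠ none)]
    · exact h1
    · intro r hr
      have hlt : (st kP y r).length < (sq (b5 kP y + 1)).1.2 := by
        rw [length_st5 hr]
        exact lt_of_lt_of_le (Nat.lt_succ_self _) (hge _)
      rw [hlim (b5 kP y + 1) _ hlt]
  · obtain ⟨s, hs⟩ := hen (i, g, e)
    have h1 := hnx3 s (sq s) δ (fun w hw => hlim (s + 1) w hw)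
    rw [hs] at h1
    exact h1
  · set s := b5 (kT (nI i) false) x + 1 with hs
    have hb : ∀ (b : Bool) (r : List Bool), r.length = (x.length + 2) ^ 5 →
        (sq s).1.1 (st (kT (nI i) b) x r) = δ (st (kT (nI i) b) x r) := by
      intro b r hr
      refine (hlim s _ ?_).symm
      rw [length_st5 hr]
      have h2 : b5 (kT (nI i) b) x = b5 (kT (nI i) false) x := by simp [b5, length_kT]
      rw [h2]
      exact lt_of_lt_of_le (Nat.lt_succ_self _) (hge _)
    exact (sq s).2.dead i x (fun h => hB (Ok_congr hb h)) δ (fun w hw => hlim s w hw)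

theorem hasComplete_BPP2 {δ : List Bool → Option Bool} (hδ : AdmP δ) :
    HasComplete (Om2 δ) (InBPP (Om2 δ)) := by
  refine ⟨{y | SB δ (Om2 δ) y}, ?_, ?_⟩
  · obtain ⟨p, l, hp, hacc⟩ := exists_queryJ (Om2 δ) kP 5 (by norm_num)
    refine ⟨p, 5, l, 1 / 8, by norm_num, hp, fun y => ?_⟩
    have h1 : Pr ((y.length + 2) ^ 5) (fun r => ¬ δ (st kP y r) ≠ none) ≤
        Pr ((y.length + 2) ^ 5) (fun r => Accepts (Om2 δ) p y r ↔
          y ∈ {y | SB δ (Om2 δ) y}) := by
      refine Pr_mono (fun r hr h => ?_)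
      rw [hacc y r hr, Om2_P]
      rw [not_not] at h
      constructor
      · rintro ⟨_, h2 | h2⟩
        · rw [h] at h2; simp at h2
        · exact h2.2
      · intro h2
        exact ⟨hr, Or.inr ⟨h, h2⟩⟩
    have h2 := Pr_add_not ((y.length + 2) ^ 5) (fun r => δ (st kP y r) ≠ none)
    have h3 := hδ y
    linarith
  · rintro B ⟨p, k, l, e, he, hp, hB⟩
    obtain ⟨j, hj⟩ : ∃ j : ℕ, 3 + 1 / e < (2 : ℝ) ^ j := pow_unbounded_of_one_lt _ (by norm_num)
    refine ⟨_, poly_inst (pm p) k (l + j), fun x => ?_⟩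
    show x ∈ B ↔ SB δ (Om2 δ) (inst (pm p) x ((x.length + 2) ^ k) ((x.length + 2) ^ (l + j)))
    set T := (x.length + 2) ^ (l + j) with hT
    have he' : 0 < 1 / e := by positivity
    have h2j : 3 ≤ 2 ^ j := by
      have h1 : (3 : ℝ) < 2 ^ j := by linarith
      have h2 : ((3 : ℕ) : ℝ) < ((2 ^ j : ℕ) : ℝ) := by push_cast; exact h1
      exact (Nat.cast_lt.1 h2).le
    have hxj : 2 ^ j ≤ (x.length + 2) ^ j := Nat.pow_le_pow_left (by omega) j
    have hx1 : 1 ≤ (x.length + 2) ^ l := Nat.one_le_pow _ _ (by omega)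
    have hT3 : 3 * (x.length + 2) ^ l ≤ T := by
      rw [hT, pow_add, mul_comm]
      exact Nat.mul_le_mul_left _ (h2j.trans hxj)
    have hTe : 1 / ((T : ℝ) + 1) < e := by
      have h1 : 2 ^ j ≤ T := by
        rw [hT, pow_add]
        calc 2 ^ j ≤ (x.length + 2) ^ j := hxj
          _ = 1 * (x.length + 2) ^ j := (one_mul _).symm
          _ ≤ _ := Nat.mul_le_mul_right _ hx1
      have h2 : ((2 ^ j : ℕ) : ℝ) ≤ (T : ℝ) := by exact_mod_cast h1
      push_cast at h2
      rw [div_lt_iff₀ (by positivity)]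
      have h3 : 1 / e < (T : ℝ) + 1 := by linarith
      rw [div_lt_iff₀ he] at h3
      linarith
    rw [SB_inst]
    have h1 : pa (Om2 δ) p x ((x.length + 2) ^ k) T =
        Pr ((x.length + 2) ^ k) (Accepts (Om2 δ) p x) :=
      Pr_congr (fun r hr => accS_iff hp hr hT3)
    rw [h1]
    have h2 := hB x
    by_cases hx : x ∈ B
    · have h3 : Pr ((x.length + 2) ^ k) (fun r => Accepts (Om2 δ) p x r ↔ x ∈ B) =
          Pr ((x.length + 2) ^ k) (Accepts (Om2 δ) p x) := Pr_congr (fun r _ => by simp [hx])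
      rw [h3] at h2
      simp only [hx, true_iff]
      left
      linarith
    · have h3 : Pr ((x.length + 2) ^ k) (fun r => Accepts (Om2 δ) p x r ↔ x ∈ B) =
          Pr ((x.length + 2) ^ k) (fun r => ¬ Accepts (Om2 δ) p x r) :=
        Pr_congr (fun r _ => by simp [hx])
      rw [h3] at h2
      have h4 := Pr_add_not ((x.length + 2) ^ k) (Accepts (Om2 δ) p x)
      have h5 : Pr ((x.length + 2) ^ k) (fun r => ¬ Accepts (Om2 δ) p x r) =
        Pr ((x.length + 2) ^ k) (fun r => ¬ (Accepts (Om2 δ) p x) r) := rfl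
      simp only [hx, false_iff]
      have h6 : (0 : ℝ) < 1 / ((T : ℝ) + 1) := by positivity
      rintro (h7 | ⟨h7, _⟩) <;> linarith

/-- a block of free strings, dense or empty, gives a set in R -/
theorem via_block {δ : List Bool → Option Bool} (m : ℕ) (b : Bool) (B : Set (List Bool))
    (hB : ∀ x : List Bool, (x ∈ B → Den δ m x b) ∧ (x ∉ B → Emp δ m x b)) :
    InR (Om2 δ) B := by
  obtain ⟨s, t, hs, hacc⟩ := exists_queryJ (Om2 δ) (kT m b) 5 (by norm_num)
  refine ⟨s, 5, t, hs, fun x => ⟨fun hx => ?_, fun hx => ?_⟩⟩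
  · have h1 : Pr ((x.length + 2) ^ 5) (Accepts (Om2 δ) s x) =
        Pr ((x.length + 2) ^ 5) (fun r => δ (st (kT m b) x r) = some true) := by
      refine Pr_congr (fun r hr => ?_)
      rw [hacc x r hr, Om2_T]
      exact ⟨fun h => h.2, fun h => ⟨hr, h⟩⟩
    rw [h1]
    exact (hB x).1 hx
  · refine Pr_false _ (fun r hr h1 => ?_)
    rw [hacc x r hr, Om2_T] at h1
    exact (hB x).2 hx r hr h1.2

theorem not_hasComplete_R2 {δ : List Bool → Option Bool}
    (hreq : ∀ (i : Ix) (g : Prog) (e : ℕ), ReqI i g e (Om2 δ))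
    (hdead : ∀ (i : Ix) (x : List Bool), ¬ Ok i δ x → DeadI i (Om2 δ)) :
    ¬ HasComplete (Om2 δ) (InR (Om2 δ)) := by
  rintro ⟨A, ⟨p, k, l, hpA⟩, hcomp⟩
  set i : Ix := Sum.inl (p, k, l) with hi
  have hV : ViaI i (Om2 δ) A := hpA
  have hok : ∀ x, Ok i δ x := fun x => by
    by_contra h
    exact hdead i x h A hV
  have hB : InR (Om2 δ) (BS5 (Om2 δ) (nI i)) := by
    refine via_block (nI i) true _ (fun x => ?_)
    rcases hok x with h | h
    · exact ⟨fun _ => h, fun h2 => absurd (mem_BS5 h) h2⟩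
    · exact ⟨fun h2 => absurd h2 (not_mem_BS5 h), fun _ => h⟩
  obtain ⟨f, ⟨g, e, hf⟩, hred⟩ := hcomp _ hB
  exact hreq i g e A f hV hf hred

theorem not_hasComplete_ZPP2 {δ : List Bool → Option Bool}
    (hreq : ∀ (i : Ix) (g : Prog) (e : ℕ), ReqI i g e (Om2 δ))
    (hdead : ∀ (i : Ix) (x : List Bool), ¬ Ok i δ x → DeadI i (Om2 δ)) :
    ¬ HasComplete (Om2 δ) (InZPP (Om2 δ)) := by
  rintro ⟨A, ⟨⟨p, k, l, hpA⟩, ⟨q, k', l', hqA⟩⟩, hcomp⟩
  set i : Ix := Sum.inr (p, q, k, l, k', l') with hi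
  have hV : ViaI i (Om2 δ) A := ⟨hpA, hqA⟩
  have hok : ∀ x, Ok i δ x := fun x => by
    by_contra h
    exact hdead i x h A hV
  have hB : InZPP (Om2 δ) (BS5 (Om2 δ) (nI i)) := by
    constructor
    · refine via_block (nI i) true _ (fun x => ?_)
      rcases hok x with ⟨_, h⟩ | ⟨h, _⟩
      · exact ⟨fun h2 => absurd h2 (not_mem_BS5 h), fun _ => h⟩
      · exact ⟨fun _ => h, fun h2 => absurd (mem_BS5 h) h2⟩
    · refine via_block (nI i) false _ (fun x => ?_)
      rcases hok x with ⟨h, h'⟩ | ⟨h', h⟩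
      · exact ⟨fun _ => h, fun h2 => absurd (not_mem_BS5 h') h2⟩
      · exact ⟨fun h2 => absurd (mem_BS5 h') h2, fun _ => h⟩
  obtain ⟨f, ⟨g, e, hf⟩, hred⟩ := hcomp _ hB
  exact hreq i g e A f hV hf hred

/-- There is an oracle relative to which BPP has a complete set and neither R nor ZPP has one. -/
theorem exists_oracle2 : ∃ O : List Bool → Bool, HasComplete O (InBPP O) ∧
    ¬ HasComplete O (InR O) ∧ ¬ HasComplete O (InZPP O) := by
  obtain ⟨δ, h1, h2, h3⟩ := exists_limit2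
  exact ⟨Om2 δ, hasComplete_BPP2 h1, not_hasComplete_R2 h2 h3, not_hasComplete_ZPP2 h2 h3⟩

end Pool.Agent.Helper56.PT
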